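import Mathlib

set_option autoImplicit false

/-!
# Central arrangements and their modules of logarithmic derivations: definitions
-/

namespace Pool.Agent.R833.Arr

open MvPolynomial

/-- The linear form `∑ j, a j * x_j`. -/
noncomputable def linearForm {K : Type*} [Field K] {l : ℕ} (a : Fin l → K) :
    MvPolynomial (Fin l) K :=
  ∑ j, C (a j) * X j

/-- The hyperplane `{x | ∑ j, a j * x_j = 0}` in `K^l`. -/
def hyperplane {K : Type*} [Field K] {l : ℕ} (a : Fin l → K) : Submodule K (Fin l → K) :=
  LinearMap.ker (∑ j, a j • LinearMap.proj j : (Fin l → K) →ₗ[K] K)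

/-- `A` is the family of coefficient vectors of a central arrangement of `n` distinct
hyperplanes in `K^l`. -/
def IsArrangement {K : Type*} [Field K] {l n : ℕ} (A : Fin n → Fin l → K) : Prop :=
  (∀ i, A i ≠ 0) ∧ Function.Injective fun i => hyperplane (A i)

/-- The module `D(A)` of logarithmic derivations: all `K`-linear derivations `θ` of the
polynomial ring `S` with `θ(α_i) ∈ α_i S` for each defining form `α_i`. -/
noncomputable def logDer {K : Type*} [Field K] {l n : ℕ} (A : Fin n → Fin l → K) :
    Submodule (MvPolynomial (Fin l) K)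
      (Derivation K (MvPolynomial (Fin l) K) (MvPolynomial (Fin l) K)) where
  carrier := {θ | ∀ i, linearForm (A i) ∣ θ (linearForm (A i))}
  add_mem' := fun {θ η} hθ hη i => by
    rw [Derivation.add_apply]
    exact dvd_add (hθ i) (hη i)
  zero_mem' := fun i => by rw [Derivation.zero_apply]; exact dvd_zero _
  smul_mem' := fun r θ hθ i => by
    rw [Derivation.smul_apply, smul_eq_mul]
    exact dvd_mul_of_dvd_right (hθ i) r

/-- The derivation `θ` is homogeneous of degree `d`: all its coefficients `θ(x_j)` are
homogeneous of degree `d`. -/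
def HomogeneousDer {K : Type*} [Field K] {l : ℕ}
    (θ : Derivation K (MvPolynomial (Fin l) K) (MvPolynomial (Fin l) K)) (d : ℕ) : Prop :=
  ∀ j, (θ (X j)).IsHomogeneous d

/-- The defining polynomial `Q(A)`, the product of the defining linear forms. -/
noncomputable def defPoly {K : Type*} [Field K] {l n : ℕ} (A : Fin n → Fin l → K) :
    MvPolynomial (Fin l) K :=
  ∏ i, linearForm (A i)

/-- The `(l+1) × l` matrix `M` of coefficients of `l + 1` derivations, `M i j = θ_i(x_j)`. -/
noncomputable def coeffMatrix {K : Type*} [Field K] {l : ℕ}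
    (θ : Fin (l + 1) → Derivation K (MvPolynomial (Fin l) K) (MvPolynomial (Fin l) K)) :
    Matrix (Fin (l + 1)) (Fin l) (MvPolynomial (Fin l) K) :=
  Matrix.of fun i j => θ i (X j)

/-- `g = (g_1, …, g_{l+1})` is the family with `(-1)^i det M_i = g_i Q(A)` for `i = 1, …, l + 1`,
where `M_i` is the coefficient matrix with its `i`-th row deleted. (The index `i : Fin (l + 1)`
of the statement counts from `0`, whence the exponent `i + 1`.) -/
def IsMinorQuotient {K : Type*} [Field K] {l n : ℕ} (A : Fin n → Fin l → K)
    (θ : Fin (l + 1) → Derivation K (MvPolynomial (Fin l) K) (MvPolynomial (Fin l) K))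
    (g : Fin (l + 1) → MvPolynomial (Fin l) K) : Prop :=
  ∀ i : Fin (l + 1), (-1) ^ (i.val + 1) *
    ((coeffMatrix θ).submatrix i.succAbove id).det = g i * defPoly A

/-- `f ∈ S_{>0}`: the polynomial `f` is homogeneous of some positive degree. (The zero
polynomial is counted as homogeneous of every degree.) -/
def PosHomogeneous {K : Type*} [Field K] {l : ℕ} (f : MvPolynomial (Fin l) K) : Prop :=
  ∃ d, 0 < d ∧ f.IsHomogeneous d

/-- The polynomials `f_1, …, f_p` have a non-trivial common divisor modulo `f`: some
`h ∈ S_{>0}` satisfies `f_i ∈ (h, f)` for every `i`. -/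
def CommonDivisorMod {K : Type*} [Field K] {l p : ℕ} (f : Fin p → MvPolynomial (Fin l) K)
    (f₀ : MvPolynomial (Fin l) K) : Prop :=
  ∃ h, PosHomogeneous h ∧ ∀ i, f i ∈ Ideal.span {h, f₀}

end Pool.Agent.R833.Arr
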