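import Pool.Agent.R833.Poly
import Pool.Agent.R833.Arr

set_option autoImplicit false
set_option linter.unusedSectionVars false

/-!
# Determinants of logarithmic derivations
-/

namespace Pool.Agent.R833.Arr

open MvPolynomial

variable {K : Type*} [Field K] {l n : ℕ}

lemma coeff_linearForm (a : Fin l → K) (j : Fin l) :
    coeff (Finsupp.single j 1) (linearForm a) = a j := by
  unfold linearForm
  rw [coeff_sum]
  simp only [coeff_C_mul, coeff_X]
  rw [Finset.sum_eq_single j]
  · simp
  · intro b _ hb
    rw [if_neg, mul_zero]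
    intro h2
    exact hb (Finsupp.single_left_injective one_ne_zero h2)
  · simp

lemma linearForm_ne_zero {a : Fin l → K} (ha : a ≠ 0) : linearForm a ≠ 0 := by
  intro h
  apply ha
  funext j
  rw [← coeff_linearForm a j, h]
  simp

lemma linearForm_homogeneous (a : Fin l → K) : (linearForm a).IsHomogeneous 1 := by
  unfold linearForm
  apply IsHomogeneous.sum
  intro j _
  exact (isHomogeneous_X K j).C_mul _

lemma irreducible_of_homogeneous_one {α : MvPolynomial (Fin l) K} (h : α.IsHomogeneous 1)
    (h0 : α ≠ 0) : Irreducible α := by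
  apply irreducible_of_totalDegree_eq_one (h.totalDegree h0)
  intro x hx
  rw [isUnit_iff_ne_zero]
  rintro rfl
  apply h0
  ext m
  simpa using hx m

lemma prime_of_homogeneous_one {α : MvPolynomial (Fin l) K} (h : α.IsHomogeneous 1)
    (h0 : α ≠ 0) : Prime α :=
  (irreducible_of_homogeneous_one h h0).prime

lemma prime_linearForm {a : Fin l → K} (ha : a ≠ 0) : Prime (linearForm a) :=
  prime_of_homogeneous_one (linearForm_homogeneous a) (linearForm_ne_zero ha)

/-- if a nonzero homogeneous polynomial of degree one divides another one, it is a nonzero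
constant multiple -/
lemma dvd_homogeneous_one {α β : MvPolynomial (Fin l) K} (hα : α.IsHomogeneous 1)
    (hβ : β.IsHomogeneous 1) (hβ0 : β ≠ 0) (h : α ∣ β) : ∃ c : K, c ≠ 0 ∧ β = C c * α := by
  obtain ⟨q, hq⟩ := h
  have hα0 : α ≠ 0 := by rintro rfl; exact hβ0 (by rw [hq, zero_mul])
  have hq0 : q ≠ 0 := by rintro rfl; exact hβ0 (by rw [hq, mul_zero])
  have e := congrArg totalDegree hq
  rw [totalDegree_mul_of_isDomain hα0 hq0, hα.totalDegree hα0, hβ.totalDegree hβ0] at e
  have e0 : q.totalDegree = 0 := by omega
  obtain ⟨c, hc⟩ : ∃ c, q = C c := ⟨_, (totalDegree_eq_zero_iff_eq_C (p := q)).mp e0⟩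
  refine ⟨c, ?_, by rw [hq, hc, mul_comm]⟩
  rintro rfl
  exact hq0 (by rw [hc, C_0])

lemma linearForm_smul (c : K) (a : Fin l → K) : linearForm (c • a) = C c * linearForm a := by
  unfold linearForm
  rw [Finset.mul_sum]
  refine Finset.sum_congr rfl fun j _ => ?_
  simp [mul_assoc]

lemma linearForm_injective : Function.Injective (linearForm (K := K) (l := l)) := by
  intro a b h
  funext j
  rw [← coeff_linearForm a j, h, coeff_linearForm]

lemma mem_hyperplane {a x : Fin l → K} : x ∈ hyperplane a ↔ ∑ j, a j * x j = 0 := by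
  simp [hyperplane]

lemma hyperplane_smul {c : K} (hc : c ≠ 0) (a : Fin l → K) :
    hyperplane (c • a) = hyperplane a := by
  ext x
  rw [mem_hyperplane, mem_hyperplane]
  simp only [Pi.smul_apply, smul_eq_mul, mul_assoc, ← Finset.mul_sum]
  constructor
  · intro h
    exact (mul_eq_zero.1 h).resolve_left hc
  · intro h
    rw [h, mul_zero]

lemma not_dvd_of_arrangement {A : Fin n → Fin l → K} (hA : IsArrangement A) {i k : Fin n}
    (hik : i ≠ k) : ¬ linearForm (A i) ∣ linearForm (A k) := by
  intro h
  obtain ⟨c, hc, he⟩ := dvd_homogeneous_one (linearForm_homogeneous _) (linearForm_homogeneous _)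
    (linearForm_ne_zero (hA.1 k)) h
  rw [← linearForm_smul] at he
  have := linearForm_injective he
  apply hik
  apply hA.2
  show hyperplane (A i) = hyperplane (A k)
  rw [this, hyperplane_smul hc]

lemma defPoly_dvd {A : Fin n → Fin l → K} (hA : IsArrangement A) {z : MvPolynomial (Fin l) K}
    (h : ∀ i, linearForm (A i) ∣ z) : defPoly A ∣ z := by
  unfold defPoly
  apply Fintype.prod_dvd_of_isRelPrime
  · intro i j hij
    exact (prime_linearForm (hA.1 i)).irreducible.isRelPrime_iff_not_dvd.2
      (not_dvd_of_arrangement hA hij)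
  · exact h

lemma defPoly_ne_zero {A : Fin n → Fin l → K} (hA : IsArrangement A) : defPoly A ≠ 0 :=
  Finset.prod_ne_zero_iff.2 fun i _ => linearForm_ne_zero (hA.1 i)

lemma defPoly_homogeneous (A : Fin n → Fin l → K) : (defPoly A).IsHomogeneous n := by
  have := MvPolynomial.IsHomogeneous.prod (Finset.univ : Finset (Fin n))
    (fun j => linearForm (A j)) (fun _ => 1) (fun j _ => linearForm_homogeneous _)
  simpa [defPoly] using this

/-- value of a derivation on a linear form -/
lemma der_linearForm (θ : Derivation K (MvPolynomial (Fin l) K) (MvPolynomial (Fin l) K))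
    (a : Fin l → K) : θ (linearForm a) = ∑ j, C (a j) * θ (X j) := by
  unfold linearForm
  rw [map_sum]
  refine Finset.sum_congr rfl fun j _ => ?_
  rw [Derivation.leibniz]
  simp

lemma mem_logDer {A : Fin n → Fin l → K}
    {θ : Derivation K (MvPolynomial (Fin l) K) (MvPolynomial (Fin l) K)} :
    θ ∈ logDer A ↔ ∀ i, linearForm (A i) ∣ ∑ j, C (A i j) * θ (X j) := by
  have : θ ∈ logDer A ↔ ∀ i, linearForm (A i) ∣ θ (linearForm (A i)) := Iff.rfl
  rw [this]
  simp only [der_linearForm]

/-- `Q` divides the determinant of `l` logarithmic derivations -/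
theorem defPoly_dvd_det {A : Fin n → Fin l → K} (hA : IsArrangement A)
    (M : Matrix (Fin l) (Fin l) (MvPolynomial (Fin l) K))
    (hM : ∀ k i, linearForm (A i) ∣ ∑ j, C (A i j) * M k j) : defPoly A ∣ M.det := by
  apply defPoly_dvd hA
  intro i
  have hex : ∃ j, A i j ≠ 0 := by
    by_contra hc
    push Not at hc
    exact hA.1 i (funext hc)
  obtain ⟨j, hj⟩ := hex
  choose q hq using fun k => hM k i
  have h1 : M.mulVec (fun j => C (A i j)) = linearForm (A i) • q := by
    funext k
    rw [Pi.smul_apply, smul_eq_mul, ← hq k, Matrix.mulVec, dotProduct]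
    exact Finset.sum_congr rfl fun j _ => mul_comm _ _
  have h2 := congrArg (fun v => M.adjugate.mulVec v j) h1
  simp only [Matrix.mulVec_mulVec, Matrix.adjugate_mul, Matrix.smul_mulVec,
    Matrix.one_mulVec, Matrix.mulVec_smul, Pi.smul_apply, smul_eq_mul] at h2
  have h3 : linearForm (A i) ∣ M.det * C (A i j) := ⟨_, h2⟩
  have h4 : IsUnit (C (A i j) : MvPolynomial (Fin l) K) := (IsUnit.mk0 _ hj).map C
  exact h4.dvd_mul_right.1 h3

section linalg

variable {R : Type*} [CommRing R]

/-- Cramer's rule for rows -/
lemma cramer_row (L : Matrix (Fin l) (Fin l) R) (v : Fin l → R) (j : Fin l) :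
    L.det * v j = ∑ i, (L.updateRow i v).det * L i j := by
  have h := congrFun (Matrix.mulVec_cramer L.transpose v) j
  rw [Pi.smul_apply, smul_eq_mul, Matrix.det_transpose, Matrix.mulVec, dotProduct] at h
  rw [← h]
  refine Finset.sum_congr rfl fun i _ => ?_
  rw [Matrix.cramer_apply, Matrix.updateCol_transpose, Matrix.det_transpose,
    Matrix.transpose_apply, mul_comm]

lemma det_swap_rows (L : Matrix (Fin l) (Fin l) R) {i j : Fin l} (hij : i ≠ j) (u : Fin l → R) :
    ((L.updateRow i u).updateRow j (L i)).det = - (L.updateRow j u).det := by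
  have h : (L.updateRow i u).updateRow j (L i) =
      (L.updateRow j u).submatrix (Equiv.swap i j) id := by
    ext a b
    rw [Matrix.submatrix_apply, id]
    by_cases ha : a = j
    · subst ha
      rw [Matrix.updateRow_self, Equiv.swap_apply_right, Matrix.updateRow_ne hij]
    · rw [Matrix.updateRow_ne ha]
      by_cases hb : a = i
      · subst hb
        rw [Matrix.updateRow_self, Equiv.swap_apply_left, Matrix.updateRow_self]
      · rw [Matrix.updateRow_ne hb, Equiv.swap_apply_of_ne_of_ne hb ha, Matrix.updateRow_ne ha]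
  rw [h, Matrix.det_permute, Equiv.Perm.sign_swap hij]
  simp

/-- determinant with two rows replaced by combinations of the rows -/
lemma det_two_rows (L : Matrix (Fin l) (Fin l) R) {i j : Fin l} (hij : i ≠ j) (b g : Fin l → R) :
    ((L.updateRow i (∑ k, b k • L k)).updateRow j (∑ k, g k • L k)).det =
      (b i * g j - b j * g i) * L.det := by
  set u := ∑ k, b k • L k with hu
  set A' := L.updateRow i u with hA'
  have e1 : ∑ k, g k • L k = (∑ k, (Function.update g i 0) k • A' k) + g i • L i := by
    rw [← Finset.add_sum_erase _ _ (Finset.mem_univ i),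
      ← Finset.add_sum_erase (s := Finset.univ) (f := fun k => Function.update g i 0 k • A' k)
        (Finset.mem_univ i)]
    simp only [Function.update_self, zero_smul, zero_add]
    rw [add_comm]
    congr 1
    refine Finset.sum_congr rfl fun k hk => ?_
    have hk' := Finset.ne_of_mem_erase hk
    rw [Function.update_of_ne hk', hA', Matrix.updateRow_ne hk']
  rw [e1, Matrix.det_updateRow_add, Matrix.det_updateRow_smul, det_swap_rows L hij]
  have e2 : (A'.updateRow j (∑ k, Function.update g i 0 k • A' k)).det = g j * A'.det := by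
    rw [Matrix.det_updateRow_sum, Function.update_of_ne hij.symm, smul_eq_mul]
  have e3 : A'.det = b i * L.det := by
    rw [hA', hu, Matrix.det_updateRow_sum, smul_eq_mul]
  have e4 : (L.updateRow j u).det = b j * L.det := by
    rw [hu, Matrix.det_updateRow_sum, smul_eq_mul]
  rw [e2, e3, e4]
  ring

/-- the relation among the rows of an `(l+1) × l` matrix -/
lemma laplace_rel (M : Matrix (Fin (l + 1)) (Fin l) R) (k : Fin l) :
    ∑ i : Fin (l + 1), (-1) ^ (i : ℕ) * M i k * (M.submatrix i.succAbove id).det = 0 := by
  set N : Matrix (Fin (l + 1)) (Fin (l + 1)) R :=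
    Matrix.of fun i j => Fin.cases (M i k) (fun j' => M i j') j with hN
  have h0 : N.det = 0 := by
    apply Matrix.det_zero_of_column_eq (i := 0) (j := k.succ) (Fin.succ_ne_zero k).symm
    intro i
    simp [hN]
  rw [Matrix.det_succ_column_zero] at h0
  rw [← h0]
  rfl

end linalg

end Pool.Agent.R833.Arr
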