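import Mathlib

set_option autoImplicit false
set_option linter.unusedSectionVars false

/-!
# Homogeneous divisors and proportional vectors modulo a linear form
-/

namespace Pool.Agent.R833

open MvPolynomial

section homdvd

variable {σ : Type*} {R : Type*} [CommRing R] [IsDomain R]

/-- the grading as a ring homomorphism into polynomials in one more variable -/
noncomputable def gr : MvPolynomial σ R →ₐ[R] Polynomial (MvPolynomial σ R) :=
  MvPolynomial.aeval fun i => Polynomial.C (X i) * Polynomial.X

lemma eval_gr (p : MvPolynomial σ R) : (gr p).eval 1 = p := by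
  have h : ((Polynomial.aeval (1 : MvPolynomial σ R)).restrictScalars R).comp (gr (σ := σ) (R := R))
      = AlgHom.id R _ := by
    apply MvPolynomial.algHom_ext
    intro i
    simp [gr]
  have := congrArg (fun f => f p) h
  simpa [Polynomial.aeval_def] using this

lemma gr_monomial (d : σ →₀ ℕ) (r : R) :
    gr (monomial d r) = Polynomial.monomial d.degree (monomial d r) := by
  rw [monomial_eq, map_mul, Finsupp.prod, map_prod]
  simp only [map_pow, gr, aeval_X, algHom_C, mul_pow]
  rw [Finset.prod_mul_distrib, Finset.prod_pow_eq_pow_sum, ← Polynomial.C_mul_X_pow_eq_monomial]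
  simp only [← map_pow, ← map_prod, Finsupp.degree]
  rw [← mul_assoc]
  congr 1
  rw [Polynomial.C_mul]
  congr 1

lemma gr_of_homogeneous {p : MvPolynomial σ R} {n : ℕ} (h : p.IsHomogeneous n) :
    gr p = Polynomial.monomial n p := by
  conv_lhs => rw [← p.support_sum_monomial_coeff]
  rw [map_sum]
  have : ∀ d ∈ p.support, gr (monomial d (coeff d p)) =
      Polynomial.monomial n (monomial d (coeff d p)) := by
    intro d hd
    rw [gr_monomial]
    congr 1
    have := h (mem_support_iff.1 hd)
    rw [← this, Finsupp.degree_eq_weight_one]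
    rfl
  rw [Finset.sum_congr rfl this, ← map_sum, p.support_sum_monomial_coeff]

lemma homogeneous_of_gr {p : MvPolynomial σ R} {n : ℕ} (h : gr p = Polynomial.monomial n p) :
    p.IsHomogeneous n := by
  have h2 : ∀ m, (gr p).coeff m = homogeneousComponent m p := by
    intro m
    conv_lhs => rw [← p.sum_homogeneousComponent]
    rw [map_sum, Polynomial.finsetSum_coeff]
    have : ∀ i ∈ Finset.range (p.totalDegree + 1),
        (gr (homogeneousComponent i p)).coeff m = if i = m then homogeneousComponent m p else 0 := by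
      intro i _
      rw [gr_of_homogeneous (homogeneousComponent_isHomogeneous i p), Polynomial.coeff_monomial]
      split_ifs with h
      · rw [h]
      · rfl
    rw [Finset.sum_congr rfl this, Finset.sum_ite_eq']
    split_ifs with h
    · rfl
    · rw [homogeneousComponent_eq_zero]
      simpa using h
  have h3 := h2 n
  rw [h, Polynomial.coeff_monomial, if_pos rfl] at h3
  rw [h3]
  exact homogeneousComponent_isHomogeneous n p

/-- A divisor of a nonzero homogeneous polynomial is homogeneous. -/
theorem homogeneous_of_dvd {p q : MvPolynomial σ R} {n : ℕ} (hq : q.IsHomogeneous n)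
    (hq0 : q ≠ 0) (h : p ∣ q) : ∃ k, p.IsHomogeneous k := by
  obtain ⟨r, rfl⟩ := h
  have hp0 : p ≠ 0 := left_ne_zero_of_mul hq0
  have hr0 : r ≠ 0 := right_ne_zero_of_mul hq0
  have inj : ∀ x : MvPolynomial σ R, x ≠ 0 → gr x ≠ 0 := by
    intro x hx h0
    apply hx
    rw [← eval_gr x, h0]
    simp
  have e : gr p * gr r = Polynomial.monomial n (p * r) := by
    rw [← map_mul, gr_of_homogeneous hq]
  have hP := inj p hp0
  have hR := inj r hr0
  have e1 := congrArg Polynomial.natDegree e
  have e2 := congrArg Polynomial.natTrailingDegree e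
  rw [Polynomial.natDegree_mul hP hR, Polynomial.natDegree_monomial_eq n hq0] at e1
  rw [Polynomial.natTrailingDegree_mul hP hR, Polynomial.natTrailingDegree_monomial hq0] at e2
  have l1 := Polynomial.natTrailingDegree_le_natDegree (gr p)
  have l2 := Polynomial.natTrailingDegree_le_natDegree (gr r)
  have e3 : (gr p).natTrailingDegree = (gr p).natDegree := by omega
  refine ⟨(gr p).natDegree, ?_⟩
  apply homogeneous_of_gr
  have h4 : gr p = Polynomial.monomial (gr p).natDegree ((gr p).coeff (gr p).natDegree) := by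
    ext1 m
    rw [Polynomial.coeff_monomial]
    split_ifs with hm
    · rw [hm]
    · rcases lt_or_gt_of_ne hm with hm | hm
      · exact Polynomial.coeff_eq_zero_of_natDegree_lt hm
      · apply Polynomial.coeff_eq_zero_of_lt_natTrailingDegree
        omega
  have h5 := congrArg (Polynomial.eval 1) h4
  rw [eval_gr, Polynomial.eval_monomial, one_pow, mul_one] at h5
  rw [← h5] at h4
  exact h4

end homdvd

section prop

/-- In a unique factorization domain, a vector proportional to a vector without common divisor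
is a multiple of it. -/
theorem prop_of_ufd {T : Type*} [CommRing T] [IsDomain T] [UniqueFactorizationMonoid T]
    {ι : Type*} [Finite ι] (g b : ι → T) (hno : ∀ p : T, Prime p → ∃ i, ¬ p ∣ g i)
    (hg0 : ∃ i, g i ≠ 0)
    (h : ∀ i j, b i * g j = b j * g i) : ∃ c, ∀ i, b i = c * g i := by
  obtain ⟨i0, hi0⟩ := hg0
  -- g i0 divides b i0
  have key : ∀ x : T, x ≠ 0 → ∀ y : T, (∀ i, x ∣ y * g i) → x ∣ y := by
    intro x
    induction x using UniqueFactorizationMonoid.induction_on_prime with
    | h₁ => intro h0; exact absurd rfl h0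
    | h₂ x hx => intro _ y _; exact hx.dvd
    | h₃ a p ha hp ih =>
      intro hpa y hy
      have ha0 : a ≠ 0 := right_ne_zero_of_mul hpa
      obtain ⟨i, hi⟩ := hno p hp
      have h1 : p ∣ y := by
        have := (dvd_mul_right p a).trans (hy i)
        exact (hp.dvd_or_dvd this).resolve_right hi
      obtain ⟨y', rfl⟩ := h1
      apply mul_dvd_mul_left
      apply ih ha0
      intro j
      have := hy j
      rw [mul_assoc] at this
      exact (mul_dvd_mul_iff_left hp.ne_zero).1 this
  have h1 : g i0 ∣ b i0 := by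
    apply key _ hi0
    intro i
    rw [h i0 i]
    exact dvd_mul_left _ _
  obtain ⟨c, hc⟩ := h1
  refine ⟨c, fun i => ?_⟩
  apply mul_right_cancel₀ hi0
  rw [h i i0, hc]
  ring

variable {K : Type*} [Field K] {σ : Type*} [Fintype σ] [DecidableEq σ]

/-- a homogeneous polynomial of degree one is a combination of the variables -/
theorem eq_sum_of_homogeneous_one {α : MvPolynomial σ K} (h : α.IsHomogeneous 1) :
    α = ∑ j, C (coeff (Finsupp.single j 1) α) * X j := by
  ext m
  rw [coeff_sum]
  simp only [coeff_C_mul, coeff_X]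
  by_cases hm : m.degree = 1
  · have hm' : m.sum (fun _ e => e) = 1 := by
      rw [← hm]; rfl
    obtain ⟨j, hj⟩ := (Finsupp.sum_eq_one_iff m).1 hm'
    subst hj
    rw [Finset.sum_eq_single j]
    · simp
    · intro b _ hb
      rw [if_neg, mul_zero]
      intro h2
      exact hb (Finsupp.single_left_injective one_ne_zero h2)
    · simp
  · rw [h.coeff_eq_zero hm, Finset.sum_eq_zero]
    intro j _
    rw [if_neg, mul_zero]
    rintro rfl
    simp at hm

/-- restriction to the hyperplane `∑ a_j x_j = 0`, where `a j₀ ≠ 0` -/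
noncomputable def res (a : σ → K) (j₀ : σ) : MvPolynomial σ K →ₐ[K] MvPolynomial {j // j ≠ j₀} K :=
  MvPolynomial.aeval fun j => if h : j ≠ j₀ then X ⟨j, h⟩ else
    - ∑ k : {j // j ≠ j₀}, C ((a j₀)⁻¹ * a k) * X k

/-- the section of `res` -/
noncomputable def sec (j₀ : σ) : MvPolynomial {j // j ≠ j₀} K →ₐ[K] MvPolynomial σ K :=
  rename Subtype.val

lemma res_sec (a : σ → K) (j₀ : σ) (x : MvPolynomial {j // j ≠ j₀} K) :
    res a j₀ (sec j₀ x) = x := by
  have : (res a j₀).comp (sec (K := K) j₀) = AlgHom.id K _ := by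
    apply MvPolynomial.algHom_ext
    rintro ⟨j, hj⟩
    simp [res, sec, hj]
  exact congrArg (fun f => f x) this

lemma res_form (a : σ → K) (j₀ : σ) (ha : a j₀ ≠ 0) :
    res a j₀ (∑ j, C (a j) * X j) = 0 := by
  rw [map_sum, ← Finset.add_sum_erase _ _ (Finset.mem_univ j₀)]
  have h1 : ∀ j ∈ Finset.univ.erase j₀, res a j₀ (C (a j) * X j) =
      C (a j) * (if h : j ≠ j₀ then X ⟨j, h⟩ else 0) := by
    intro j hj
    have hj' : j ≠ j₀ := Finset.ne_of_mem_erase hj
    simp [res, hj', algHom_C]
  rw [Finset.sum_congr rfl h1]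
  have h2 : ∑ j ∈ Finset.univ.erase j₀, C (a j) *
      (if h : j ≠ j₀ then (X ⟨j, h⟩ : MvPolynomial {j // j ≠ j₀} K) else 0) =
      ∑ k : {j // j ≠ j₀}, C (a k) * X k := by
    rw [Finset.sum_subtype (Finset.univ.erase j₀) (p := fun j => j ≠ j₀) (by simp)
      (fun j => C (a j) * (if h : j ≠ j₀ then (X ⟨j, h⟩ : MvPolynomial {j // j ≠ j₀} K) else 0))]
    refine Finset.sum_congr rfl fun k _ => ?_
    simp [k.2]
  rw [h2]
  simp only [res, map_mul, algHom_C, aeval_X, ne_eq, not_true_eq_false, dite_false,
    algebraMap_eq]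
  rw [mul_neg, Finset.mul_sum, neg_add_eq_zero]
  refine Finset.sum_congr rfl fun k _ => ?_
  have e : (C (a j₀) : MvPolynomial {j // j ≠ j₀} K) * C (a j₀)⁻¹ = 1 := by
    rw [← C_mul, mul_inv_cancel₀ ha, C_1]
  linear_combination (C (a k) * X k) * e

lemma dvd_sub_sec_res (a : σ → K) (j₀ : σ) (ha : a j₀ ≠ 0) (x : MvPolynomial σ K) :
    (∑ j, C (a j) * X j) ∣ x - sec j₀ (res a j₀ x) := by
  induction x using MvPolynomial.induction_on with
  | C r => simp [res, sec, algHom_C]
  | add p q hp hq =>
    have : p + q - sec j₀ (res a j₀ (p + q)) =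
      (p - sec j₀ (res a j₀ p)) + (q - sec j₀ (res a j₀ q)) := by
      simp only [map_add]; ring
    rw [this]
    exact dvd_add hp hq
  | mul_X p i hp =>
    have : p * X i - sec j₀ (res a j₀ (p * X i)) =
      (p - sec j₀ (res a j₀ p)) * X i +
        sec j₀ (res a j₀ p) * (X i - sec j₀ (res a j₀ (X i))) := by
      simp only [map_mul]; ring
    rw [this]
    refine dvd_add (hp.mul_right _) (Dvd.dvd.mul_left ?_ _)
    by_cases hi : i ≠ j₀
    · simp [res, sec, hi]
    · have hi' : i = j₀ := not_not.1 hi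
      subst hi'
      refine ⟨C (a i)⁻¹, ?_⟩
      have e1 : sec i (res a i (X i : MvPolynomial σ K)) =
          - ∑ k : {j // j ≠ i}, C ((a i)⁻¹ * a k) * X (k : σ) := by
        simp [res, sec, map_sum, algHom_C]
      rw [e1, sub_neg_eq_add, Finset.sum_mul, ← Finset.add_sum_erase _ _ (Finset.mem_univ i)]
      congr 1
      · rw [mul_right_comm, ← C_mul, mul_inv_cancel₀ ha, C_1, one_mul]
      · rw [Finset.sum_subtype (Finset.univ.erase i) (p := fun j => j ≠ i) (by simp)
          (fun j => C (a j) * X j * C (a i)⁻¹)]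
        refine Finset.sum_congr rfl fun k _ => ?_
        rw [C_mul]
        ring

lemma dvd_iff_res (a : σ → K) (j₀ : σ) (ha : a j₀ ≠ 0) (x : MvPolynomial σ K) :
    (∑ j, C (a j) * X j) ∣ x ↔ res a j₀ x = 0 := by
  constructor
  · rintro ⟨y, rfl⟩
    rw [map_mul, res_form a j₀ ha, zero_mul]
  · intro h
    have := dvd_sub_sec_res a j₀ ha x
    rwa [h, map_zero, sub_zero] at this

lemma res_homogeneous (a : σ → K) (j₀ : σ) {x : MvPolynomial σ K} {d : ℕ}
    (h : x.IsHomogeneous d) : (res a j₀ x).IsHomogeneous d := by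
  have := h.aeval (fun j => if h : j ≠ j₀ then (X ⟨j, h⟩ : MvPolynomial {j // j ≠ j₀} K) else
    - ∑ k : {j // j ≠ j₀}, C ((a j₀)⁻¹ * a k) * X k) (n := 1) (by
      intro j
      split_ifs with hj
      · exact isHomogeneous_X K _
      · apply IsHomogeneous.neg
        apply IsHomogeneous.sum
        intro k _
        exact (isHomogeneous_X K k).C_mul _)
  rw [one_mul] at this
  exact this

lemma sec_homogeneous (j₀ : σ) {x : MvPolynomial {j // j ≠ j₀} K} {d : ℕ}
    (h : x.IsHomogeneous d) : (sec j₀ x).IsHomogeneous d :=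
  h.rename_isHomogeneous

/-- The key division lemma: if `g` consists of homogeneous polynomials of positive degree without
common divisor modulo the linear form `α`, and `b` is proportional to `g` modulo `α`, then `b`
is congruent to a multiple of `g`. -/
theorem prop_mod {ι : Type*} [Finite ι] {α : MvPolynomial σ K} (hα : α.IsHomogeneous 1)
    (hα0 : α ≠ 0) (g b : ι → MvPolynomial σ K) (hg : ∀ i, ∃ d, (g i).IsHomogeneous d)
    (hno : ¬ ∃ h : MvPolynomial σ K, (∃ d, 0 < d ∧ h.IsHomogeneous d) ∧
      ∀ i, g i ∈ Ideal.span {h, α})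
    (hb : ∀ i j, α ∣ b i * g j - b j * g i) :
    ∃ (c : MvPolynomial σ K) (e : ι → MvPolynomial σ K), ∀ i, b i = c * g i + α * e i := by
  have hα1 := eq_sum_of_homogeneous_one hα
  set a : σ → K := fun j => coeff (Finsupp.single j 1) α with ha
  have hex : ∃ j₀, a j₀ ≠ 0 := by
    by_contra hc
    push Not at hc
    apply hα0
    rw [hα1]
    apply Finset.sum_eq_zero
    intro j _
    have : coeff (Finsupp.single j 1) α = 0 := hc j
    rw [this]
    simp
  obtain ⟨j₀, hj₀⟩ := hex
  have hdvd : ∀ x, α ∣ x ↔ res a j₀ x = 0 := by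
    intro x
    rw [← dvd_iff_res a j₀ hj₀ x, ← hα1]
  have hsub : ∀ x, α ∣ x - sec j₀ (res a j₀ x) := by
    intro x
    have := dvd_sub_sec_res a j₀ hj₀ x
    rwa [← hα1] at this
  have hg0 : ∃ i, res a j₀ (g i) ≠ 0 := by
    by_contra hc
    push Not at hc
    apply hno
    refine ⟨α, ⟨1, one_pos, hα⟩, fun i => ?_⟩
    have := (hdvd (g i)).2 (hc i)
    exact Ideal.mem_span_pair.2 ⟨this.choose, 0, by rw [zero_mul, add_zero, mul_comm]; exact this.choose_spec.symm⟩
  obtain ⟨i0, hi0⟩ := hg0
  have h1 : ∀ p : MvPolynomial {j // j ≠ j₀} K, Prime p → ∃ i, ¬ p ∣ res a j₀ (g i) := by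
    intro p hp
    by_contra hc
    push Not at hc
    obtain ⟨d, hd⟩ := hg i0
    obtain ⟨k, hk⟩ := homogeneous_of_dvd (res_homogeneous a j₀ hd) hi0 (hc i0)
    have hk0 : 0 < k := by
      rcases Nat.eq_zero_or_pos k with rfl | h
      · exfalso
        apply hp.not_isUnit
        have : p.totalDegree = 0 := hk.totalDegree hp.ne_zero
        obtain ⟨r, hr⟩ : ∃ r, p = C r := ⟨_, (totalDegree_eq_zero_iff_eq_C (p := p)).mp this⟩
        have hr0 : r ≠ 0 := by
          rintro rfl
          exact hp.ne_zero (by rw [hr, C_0])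
        rw [hr]
        exact (IsUnit.mk0 r hr0).map C
      · exact h
    apply hno
    refine ⟨sec j₀ p, ⟨k, hk0, sec_homogeneous j₀ hk⟩, fun i => ?_⟩
    obtain ⟨q, hq⟩ := hc i
    obtain ⟨r, hr⟩ := hsub (g i)
    rw [hq, map_mul] at hr
    exact Ideal.mem_span_pair.2 ⟨sec j₀ q, r, by linear_combination -hr⟩
  obtain ⟨c, hc⟩ := prop_of_ufd (fun i => res a j₀ (g i)) (fun i => res a j₀ (b i)) h1 ⟨i0, hi0⟩
    (by
      intro i j
      have := (hdvd _).1 (hb i j)
      rw [map_sub, map_mul, map_mul, sub_eq_zero] at this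
      exact this)
  refine ⟨sec j₀ c, fun i => ((hdvd (b i - sec j₀ c * g i)).2 (by
    rw [map_sub, map_mul, res_sec, hc i, sub_self])).choose, fun i => ?_⟩
  have := ((hdvd (b i - sec j₀ c * g i)).2 (by
    rw [map_sub, map_mul, res_sec, hc i, sub_self])).choose_spec
  linear_combination this

end prop

end Pool.Agent.R833
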