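import Mathlib

set_option autoImplicit false
set_option linter.unusedSectionVars false

/-!
# Linear independence of vectors modulo prime ideals
-/

namespace Pool.Agent.R833.TM

open MvPolynomial

section lin

variable {S : Type*} [CommRing S] {N : ℕ}

/-- the vectors `τ` are linearly independent modulo the ideal `P` -/
def Ind (P : Ideal S) {k : ℕ} (τ : Fin k → Fin N → S) : Prop :=
  ∀ c : Fin k → S, (∀ j, ∑ i, c i * τ i j ∈ P) → ∀ i, c i ∈ P

/-- the vectors which are linearly dependent on `τ` modulo the prime ideal `P` -/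
def Dep (P : Ideal S) (hP : P.IsPrime) {k : ℕ} (τ : Fin k → Fin N → S) :
    Submodule S (Fin N → S) where
  carrier := {ρ | ∃ s, s ∉ P ∧ ∃ c : Fin k → S, ∀ j, s * ρ j - ∑ i, c i * τ i j ∈ P}
  zero_mem' := ⟨1, (Ideal.ne_top_iff_one P).1 hP.ne_top, 0, by simp⟩
  add_mem' := by
    rintro a b ⟨s, hs, c, hc⟩ ⟨s', hs', c', hc'⟩
    refine ⟨s * s', fun h => (hP.mem_or_mem h).elim hs hs', fun i => s' * c i + s * c' i, ?_⟩
    intro j
    have h1 := P.mul_mem_left s' (hc j)
    have h2 := P.mul_mem_left s (hc' j)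
    have h3 := P.add_mem h1 h2
    convert h3 using 1
    simp only [Pi.add_apply, add_mul, Finset.sum_add_distrib, mul_sub, Finset.mul_sum]
    simp only [mul_assoc]
    ring
  smul_mem' := by
    rintro r a ⟨s, hs, c, hc⟩
    refine ⟨s, hs, fun i => r * c i, fun j => ?_⟩
    have h1 := P.mul_mem_left r (hc j)
    convert h1 using 1
    simp only [Pi.smul_apply, smul_eq_mul, mul_sub, Finset.mul_sum, mul_assoc]
    ring

lemma mem_dep {P : Ideal S} {hP : P.IsPrime} {k : ℕ} {τ : Fin k → Fin N → S} {ρ : Fin N → S} :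
    ρ ∈ Dep P hP τ ↔ ∃ s, s ∉ P ∧ ∃ c : Fin k → S, ∀ j, s * ρ j - ∑ i, c i * τ i j ∈ P :=
  Iff.rfl

lemma dep_of_smul {P : Ideal S} {hP : P.IsPrime} {k : ℕ} {τ : Fin k → Fin N → S}
    {ρ : Fin N → S} {a : S} (ha : a ∉ P) (h : a • ρ ∈ Dep P hP τ) : ρ ∈ Dep P hP τ := by
  obtain ⟨s, hs, c, hc⟩ := h
  refine ⟨s * a, fun h => (hP.mem_or_mem h).elim hs ha, c, fun j => ?_⟩
  have := hc j
  simpa [mul_assoc] using this

lemma self_mem_dep (P : Ideal S) (hP : P.IsPrime) {k : ℕ} (τ : Fin k → Fin N → S) (i : Fin k) :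
    τ i ∈ Dep P hP τ := by
  refine ⟨1, (Ideal.ne_top_iff_one P).1 hP.ne_top, Pi.single i 1, fun j => ?_⟩
  have : ∑ i', (Pi.single i 1 : Fin k → S) i' * τ i' j = τ i j := by
    rw [Finset.sum_eq_single i]
    · simp
    · intro b _ hb
      simp [Pi.single_eq_of_ne hb]
    · simp
  rw [this]
  simp

lemma dep_snoc_of_dep {P : Ideal S} {hP : P.IsPrime} {k : ℕ} {τ : Fin k → Fin N → S}
    {ρ e : Fin N → S} (h : ρ ∈ Dep P hP τ) :
    ρ ∈ Dep P hP (Fin.snoc τ e : Fin (k + 1) → Fin N → S) := by
  obtain ⟨s, hs, c, hc⟩ := h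
  refine ⟨s, hs, Fin.snoc c 0, fun j => ?_⟩
  rw [Fin.sum_univ_castSucc]
  simpa using hc j

lemma last_mem_dep_snoc (P : Ideal S) (hP : P.IsPrime) {k : ℕ} (τ : Fin k → Fin N → S)
    (e : Fin N → S) : e ∈ Dep P hP (Fin.snoc τ e : Fin (k + 1) → Fin N → S) := by
  have := self_mem_dep P hP (Fin.snoc τ e : Fin (k + 1) → Fin N → S) (Fin.last k)
  rwa [Fin.snoc_last] at this

lemma ind_snoc {P : Ideal S} (hP : P.IsPrime) {k : ℕ} {τ : Fin k → Fin N → S}
    {e : Fin N → S} (h : Ind P τ) (he : e ∉ Dep P hP τ) :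
    Ind P (Fin.snoc τ e : Fin (k + 1) → Fin N → S) := by
  intro c hc
  have hc' : ∀ j, ∑ i : Fin k, c i.castSucc * τ i j + c (Fin.last k) * e j ∈ P := by
    intro j
    have := hc j
    rw [Fin.sum_univ_castSucc] at this
    simpa using this
  have hl : c (Fin.last k) ∈ P := by
    by_contra hl
    apply he
    refine ⟨c (Fin.last k), hl, fun i => - c i.castSucc, fun j => ?_⟩
    have := hc' j
    simp only [neg_mul, Finset.sum_neg_distrib, sub_neg_eq_add]
    rwa [add_comm] at this
  have h2 : ∀ j, ∑ i : Fin k, c i.castSucc * τ i j ∈ P := by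
    intro j
    have h1 := P.mul_mem_right (e j) hl
    exact (P.add_mem_iff_left h1).1 (hc' j)
  intro i
  induction i using Fin.lastCases with
  | last => exact hl
  | cast i => exact h _ h2 i

lemma ind_of_snoc {P : Ideal S} {k : ℕ} {τ : Fin k → Fin N → S}
    {e : Fin N → S} (h : Ind P (Fin.snoc τ e : Fin (k + 1) → Fin N → S)) : Ind P τ := by
  intro c hc i
  have := h (Fin.snoc c 0) (fun j => by
    rw [Fin.sum_univ_castSucc]
    simpa using hc j) i.castSucc
  simpa using this

lemma notMem_of_ind_snoc {P : Ideal S} {hP : P.IsPrime} {k : ℕ} {τ : Fin k → Fin N → S}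
    {e : Fin N → S} (h : Ind P (Fin.snoc τ e : Fin (k + 1) → Fin N → S)) : e ∉ Dep P hP τ := by
  rintro ⟨s, hs, c, hc⟩
  apply hs
  have := h (Fin.snoc (fun i => - c i) s) (fun j => by
    rw [Fin.sum_univ_castSucc]
    have := hc j
    simp only [Fin.snoc_castSucc, Fin.snoc_last, neg_mul, Finset.sum_neg_distrib]
    rwa [neg_add_eq_sub]) (Fin.last k)
  simpa using this

/-- if `τ, e, e'` are independent, then no `e + a e'` is dependent on `τ` -/
lemma pencil {P : Ideal S} {hP : P.IsPrime} {k : ℕ} {τ : Fin k → Fin N → S}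
    {e e' : Fin N → S} (h : Ind P (Fin.snoc (Fin.snoc τ e : Fin (k + 1) → Fin N → S) e' :
      Fin (k + 2) → Fin N → S)) (a : S) : e + a • e' ∉ Dep P hP τ := by
  rintro ⟨s, hs, c, hc⟩
  apply hs
  have := h (Fin.snoc (Fin.snoc (fun i => - c i) s : Fin (k + 1) → S) (s * a)) (fun j => by
    rw [Fin.sum_univ_castSucc, Fin.sum_univ_castSucc]
    have := hc j
    simp only [Fin.snoc_castSucc, Fin.snoc_last, neg_mul, Finset.sum_neg_distrib]
    convert this using 1
    simp only [Pi.add_apply, Pi.smul_apply, smul_eq_mul]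
    ring) (Fin.last k).castSucc
  simpa using this

lemma span_le_dep {P : Ideal S} {hP : P.IsPrime} {k : ℕ} {τ : Fin k → Fin N → S} {m : ℕ}
    {ρ : Fin m → Fin N → S} (h : ∀ i, ρ i ∈ Dep P hP τ) :
    Submodule.span S (Set.range ρ) ≤ Dep P hP τ := by
  rw [Submodule.span_le]
  rintro _ ⟨i, rfl⟩
  exact h i

/-- The rank inequality. -/
theorem card_le {P : Ideal S} {hP : P.IsPrime} {k n : ℕ} {τ : Fin k → Fin N → S}
    {κ : Fin n → Fin N → S} (h : Ind P κ) (h2 : ∀ i, κ i ∈ Dep P hP τ) : n ≤ k := by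
  have := hP
  let F := FractionRing (S ⧸ P)
  let φ : S →+* F := (algebraMap (S ⧸ P) F).comp (Ideal.Quotient.mk P)
  have hφ : ∀ a, φ a = 0 ↔ a ∈ P := by
    intro a
    simp only [φ, RingHom.comp_apply]
    rw [IsFractionRing.to_map_eq_zero_iff, Ideal.Quotient.eq_zero_iff_mem]
  have hli : LinearIndependent F (fun i => (fun j => φ (κ i j) : Fin N → F)) := by
    rw [← LinearIndependent.iff_fractionRing (S ⧸ P) F]
    rw [Fintype.linearIndependent_iff]
    intro g hg i
    obtain ⟨c, hc⟩ : ∃ c : Fin n → S, ∀ i, Ideal.Quotient.mk P (c i) = g i :=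
      ⟨fun i => (Ideal.Quotient.mk_surjective (g i)).choose,
        fun i => (Ideal.Quotient.mk_surjective (g i)).choose_spec⟩
    rw [← hc, Ideal.Quotient.eq_zero_iff_mem]
    apply h c
    intro j
    rw [← hφ]
    have := congrFun hg j
    rw [Finset.sum_apply, Pi.zero_apply] at this
    rw [map_sum]
    convert this using 1
    apply Finset.sum_congr rfl
    intro i _
    rw [Pi.smul_apply, Algebra.smul_def, map_mul, ← hc]
    rfl
  have hsub : ∀ i, (fun j => φ (κ i j) : Fin N → F) ∈
      Submodule.span F (Set.range fun i => (fun j => φ (τ i j) : Fin N → F)) := by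
    intro i
    obtain ⟨s, hs, c, hc⟩ := h2 i
    have hs' : φ s ≠ 0 := fun h0 => hs ((hφ s).1 h0)
    have : (fun j => φ (κ i j) : Fin N → F) =
        (φ s)⁻¹ • ∑ l, φ (c l) • (fun j => φ (τ l j) : Fin N → F) := by
      ext j
      have h3 := (hφ _).2 (hc j)
      rw [map_sub, map_mul, map_sum, sub_eq_zero] at h3
      rw [Pi.smul_apply, Finset.sum_apply, smul_eq_mul, eq_inv_mul_iff_mul_eq₀ hs', h3]
      apply Finset.sum_congr rfl
      intro l _
      rw [map_mul]
      rfl
    rw [this]
    apply Submodule.smul_mem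
    apply Submodule.sum_mem
    intro l _
    apply Submodule.smul_mem
    exact Submodule.subset_span ⟨l, rfl⟩
  have h5 : Module.finrank F (Submodule.span F (Set.range fun i => (fun j => φ (κ i j) : Fin N → F)))
      = n := by
    rw [finrank_span_eq_card hli, Fintype.card_fin]
  have h6 : Module.finrank F (Submodule.span F (Set.range fun i => (fun j => φ (τ i j) : Fin N → F)))
      ≤ k := by
    have := finrank_range_le_card (R := F) (fun i => (fun j => φ (τ i j) : Fin N → F))
    rwa [Fintype.card_fin] at this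
  have h7 : Submodule.span F (Set.range fun i => (fun j => φ (κ i j) : Fin N → F)) ≤
      Submodule.span F (Set.range fun i => (fun j => φ (τ i j) : Fin N → F)) := by
    rw [Submodule.span_le]
    rintro _ ⟨i, rfl⟩
    exact hsub i
  have h8 := Submodule.finrank_mono h7
  omega

end lin

section dom

variable {S : Type*} [CommRing S] [IsDomain S] {N : ℕ}

/-- Independent vectors stay independent modulo all primes not containing a certain element. -/
theorem exists_minor {k : ℕ} {τ : Fin k → Fin N → S} (h : Ind (⊥ : Ideal S) τ) :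
    ∃ Δ : S, Δ ≠ 0 ∧ ∀ P : Ideal S, P.IsPrime → Δ ∉ P → Ind P τ := by
  let F := FractionRing S
  let T : (Fin k → F) →ₗ[F] (Fin N → F) := Fintype.linearCombination F
    (fun i => (fun j => algebraMap S F (τ i j) : Fin N → F))
  have hli : LinearIndependent F (fun i => (fun j => algebraMap S F (τ i j) : Fin N → F)) := by
    rw [← LinearIndependent.iff_fractionRing S F]
    rw [Fintype.linearIndependent_iff]
    intro g hg i
    have := h g (fun j => by
      have := congrFun hg j
      rw [Finset.sum_apply, Pi.zero_apply] at this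
      rw [Ideal.mem_bot]
      apply IsFractionRing.injective S F
      rw [map_sum, map_zero]
      convert this using 1
      apply Finset.sum_congr rfl
      intro i _
      rw [Pi.smul_apply, Algebra.smul_def, map_mul]) i
    simpa using this
  have hker : LinearMap.ker T = ⊥ := by
    rw [LinearMap.ker_eq_bot]
    exact hli.fintypeLinearCombination_injective
  obtain ⟨g, hg⟩ := LinearMap.exists_leftInverse_of_injective T hker
  obtain ⟨b, hb⟩ := IsLocalization.exist_integer_multiples_of_finite (nonZeroDivisors S)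
    (fun q : Fin N × Fin k => g (Pi.single q.1 1) q.2)
  choose B hB using hb
  refine ⟨b, nonZeroDivisors.ne_zero b.2, ?_⟩
  intro P hP hbP c hc l
  have key : ∀ j0 : Fin k, (b : S) * (if j0 = l then 1 else 0) = ∑ j, τ j0 j * B (j, l) := by
    intro j0
    apply IsFractionRing.injective S F
    rw [map_mul, map_sum]
    have h1 : g (T (Pi.single j0 1)) = Pi.single j0 1 := by
      have := congrArg (fun f => f (Pi.single j0 1)) hg
      simpa using this
    have h2 : T (Pi.single j0 1) = fun j => algebraMap S F (τ j0 j) := by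
      simp only [T, Fintype.linearCombination_apply]
      rw [Finset.sum_eq_single j0]
      · simp
      · intro b _ hb
        rw [Pi.single_eq_of_ne hb, zero_smul]
      · simp
    have h3 : (fun j => algebraMap S F (τ j0 j) : Fin N → F) =
        ∑ j, algebraMap S F (τ j0 j) • (Pi.single j 1 : Fin N → F) := by
      ext j
      rw [Finset.sum_apply, Finset.sum_eq_single j]
      · simp
      · intro b _ hb
        simp [Pi.single_eq_of_ne hb.symm]
      · simp
    rw [h2, h3, map_sum] at h1
    have h4 := congrFun h1 l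
    rw [Finset.sum_apply] at h4
    have h5 : (Pi.single j0 1 : Fin k → F) l = algebraMap S F (if j0 = l then 1 else 0) := by
      rw [Pi.single_apply]
      by_cases hl : j0 = l
      · simp [hl]
      · simp [hl, Ne.symm hl]
    rw [← h5, ← h4, Finset.mul_sum]
    apply Finset.sum_congr rfl
    intro j _
    rw [map_smul, Pi.smul_apply, smul_eq_mul, map_mul, hB (j, l), Algebra.smul_def]
    ring
  have hfin : c l * b = ∑ j, (∑ i, c i * τ i j) * B (j, l) := by
    have h6 : c l * b = ∑ i, c i * ((b : S) * (if i = l then 1 else 0)) := by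
      rw [Finset.sum_eq_single l]
      · simp
      · intro i _ hi
        simp [hi]
      · simp
    rw [h6]
    simp_rw [key, Finset.mul_sum, Finset.sum_mul]
    rw [Finset.sum_comm]
    apply Finset.sum_congr rfl
    intro i _
    apply Finset.sum_congr rfl
    intro j _
    ring
  have : c l * b ∈ P := by
    rw [hfin]
    apply P.sum_mem
    intro j _
    exact P.mul_mem_right _ (hc j)
  exact (hP.mem_or_mem this).resolve_right hbP

variable [UniqueFactorizationMonoid S]

lemma finite_primes {Δ : S} (hΔ : Δ ≠ 0) :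
    {P : Ideal S | P.IsPrime ∧ P.IsPrincipal ∧ Δ ∈ P}.Finite := by
  classical
  apply Set.Finite.subset
    ((UniqueFactorizationMonoid.factors Δ).toFinset.image (fun q => Ideal.span {q})).finite_toSet
  rintro P ⟨hP, ⟨⟨p, hp⟩⟩, hΔP⟩
  have hp' : P = Ideal.span {p} := hp
  have hp0 : p ≠ 0 := by
    rintro rfl
    rw [hp', Ideal.mem_span_singleton, zero_dvd_iff] at hΔP
    exact hΔ hΔP
  have hpp : Prime p := by
    rw [← Ideal.span_singleton_prime hp0, ← hp']
    exact hP
  rw [hp', Ideal.mem_span_singleton] at hΔP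
  obtain ⟨q, hq, hpq⟩ := UniqueFactorizationMonoid.exists_mem_factors_of_dvd hΔ hpp.irreducible hΔP
  rw [Finset.coe_image]
  refine ⟨q, by simpa using hq, ?_⟩
  rw [hp']
  exact (Ideal.span_singleton_eq_span_singleton.2 hpq).symm

lemma finite_bad {k : ℕ} {τ : Fin k → Fin N → S} (h : Ind (⊥ : Ideal S) τ) :
    {P : Ideal S | P.IsPrime ∧ P.IsPrincipal ∧ ¬ Ind P τ}.Finite := by
  obtain ⟨Δ, hΔ, h2⟩ := exists_minor h
  apply (finite_primes hΔ).subset
  rintro P ⟨hP, hP2, hP3⟩
  exact ⟨hP, hP2, by_contra fun h4 => hP3 (h2 P hP h4)⟩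

/-- vectors independent modulo every prime span a saturated submodule -/
theorem saturated {k : ℕ} {τ : Fin k → Fin N → S}
    (h : ∀ p : S, Prime p → Ind (Ideal.span {p}) τ) (s : S) (hs : s ≠ 0) :
    ∀ ρ : Fin N → S, (∃ c : Fin k → S, ∀ j, s * ρ j = ∑ i, c i * τ i j) →
      ∃ c : Fin k → S, ∀ j, ρ j = ∑ i, c i * τ i j := by
  induction s using UniqueFactorizationMonoid.induction_on_prime with
  | h₁ => exact absurd rfl hs
  | h₂ x hx =>
    obtain ⟨u, rfl⟩ := hx
    rintro ρ ⟨c, hc⟩
    refine ⟨fun i => (↑u⁻¹ : S) * c i, fun j => ?_⟩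
    have := congrArg (fun y => (↑u⁻¹ : S) * y) (hc j)
    simp only [Units.inv_mul_cancel_left] at this
    rw [this, Finset.mul_sum]
    exact Finset.sum_congr rfl fun i _ => by ring
  | h₃ a p ha hp ih =>
    rintro ρ ⟨c, hc⟩
    have h1 : ∀ i, c i ∈ Ideal.span {p} := by
      apply h p hp
      intro j
      rw [← hc j, Ideal.mem_span_singleton, mul_assoc]
      exact dvd_mul_right _ _
    have h2 : ∀ i, ∃ c', c i = p * c' := fun i => by
      have := h1 i
      rwa [Ideal.mem_span_singleton] at this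
    choose c' hc' using h2
    apply ih (right_ne_zero_of_mul hs)
    refine ⟨c', fun j => ?_⟩
    apply mul_left_cancel₀ hp.ne_zero
    rw [← mul_assoc, hc j, Finset.mul_sum]
    exact Finset.sum_congr rfl fun i _ => by rw [hc' i]; ring

end dom

section avoid

/-- a vector space over an infinite field is not a finite union of proper subspaces -/
theorem avoid {K E : Type*} [Field K] [Infinite K] [AddCommGroup E] [Module K E]
    (V : Submodule K E) {ι : Type*} [Finite ι] (W : ι → Submodule K E)
    (h : ∀ i, ∃ v ∈ V, v ∉ W i) : ∃ v ∈ V, ∀ i, v ∉ W i := by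
  by_contra hcon
  push Not at hcon
  have hcov : ⋃ i, (((W i).comap V.subtype : Submodule K V) : Set V) = Set.univ := by
    rw [Set.eq_univ_iff_forall]
    rintro ⟨v, hv⟩
    obtain ⟨i, hi⟩ := hcon v hv
    rw [Set.mem_iUnion]
    exact ⟨i, hi⟩
  obtain ⟨i, hi⟩ := Subspace.exists_eq_top_of_iUnion_eq_univ hcov
  obtain ⟨v, hv, hv2⟩ := h i
  apply hv2
  have : (⟨v, hv⟩ : V) ∈ (W i).comap V.subtype := by
    rw [hi]
    trivial
  exact this

end avoid

end Pool.Agent.R833.TM
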