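import Mathlib
import Pool.Agent.R833.Tame1

set_option autoImplicit false
set_option linter.unusedSectionVars false

/-!
# Choosing one more generator which stays independent modulo every prime
-/

namespace Pool.Agent.R833.TM

open MvPolynomial

variable {K : Type*} [Field K] [Infinite K] {N : ℕ}

/-- the homogeneous vectors of degree `e` in the span of the generators other than `t` -/
noncomputable def Vt {m : ℕ} (ρ : Fin m → Fin N → MvPolynomial (Fin N) K) (t : Fin m) (e : ℕ) :
    Submodule K (Fin N → MvPolynomial (Fin N) K) where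
  carrier := {v | v ∈ Submodule.span (MvPolynomial (Fin N) K) (ρ '' {i | i ≠ t}) ∧
    ∀ j, (v j).IsHomogeneous e}
  zero_mem' := ⟨Submodule.zero_mem _, fun j => isHomogeneous_zero _ _ _⟩
  add_mem' := by
    rintro a b ⟨h1, h2⟩ ⟨h3, h4⟩
    exact ⟨Submodule.add_mem _ h1 h3, fun j => (h2 j).add (h4 j)⟩
  smul_mem' := by
    rintro c a ⟨h1, h2⟩
    refine ⟨?_, fun j => ?_⟩
    · have := Submodule.smul_mem _ (C c : MvPolynomial (Fin N) K) h1
      convert this using 1
      ext j
      simp [MvPolynomial.smul_eq_C_mul]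
    · have := (isHomogeneous_C (Fin N) c).mul (h2 j)
      rw [zero_add] at this
      rw [Pi.smul_apply, MvPolynomial.smul_eq_C_mul]
      exact this

lemma exists_X_notMem (hN : 2 ≤ N) {P : Ideal (MvPolynomial (Fin N) K)} (hP : P.IsPrime)
    (hP2 : P.IsPrincipal) : ∃ j : Fin N, (X j : MvPolynomial (Fin N) K) ∉ P := by
  by_contra hcon
  push Not at hcon
  obtain ⟨⟨p, hp⟩⟩ := hP2
  have hp' : P = Ideal.span {p} := hp
  have h0 := hcon ⟨0, by omega⟩
  have h1 := hcon ⟨1, by omega⟩
  rw [hp', Ideal.mem_span_singleton] at h0 h1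
  have hpu : ¬ IsUnit p := by
    intro hu
    apply hP.ne_top
    rw [hp', Ideal.span_singleton_eq_top]
    exact hu
  have hirr : Irreducible (X ⟨0, by omega⟩ : MvPolynomial (Fin N) K) :=
    (X_prime (R := K)).irreducible
  have h2 : (X ⟨0, by omega⟩ : MvPolynomial (Fin N) K) ∣ X ⟨1, by omega⟩ :=
    ((hirr.dvd_iff.1 h0).resolve_left hpu).dvd.trans h1
  rw [X_dvd_X] at h2
  exact absurd (congrArg Fin.val h2) (by norm_num)

/-- if the generators outside `a` have degree at most that of `t` and `Vt` consists of dependent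
vectors, then so do all generators except possibly `t` -/
lemma all_dep (hN : 2 ≤ N) {m k k' : ℕ} {ρ : Fin m → Fin N → MvPolynomial (Fin N) K}
    {d : Fin m → ℕ} (hd : ∀ i j, (ρ i j).IsHomogeneous (d i)) {a : Fin k → Fin m} {t : Fin m}
    (ht : ∀ i, (∀ l, a l ≠ i) → d i ≤ d t)
    {P : Ideal (MvPolynomial (Fin N) K)} (hP : P.IsPrime) (hP2 : P.IsPrincipal)
    {τ : Fin k' → Fin N → MvPolynomial (Fin N) K} (h1 : ∀ v ∈ Vt ρ t (d t), v ∈ Dep P hP τ)
    (h2 : ∀ l, ρ (a l) ∈ Dep P hP τ) : ∀ i, i ≠ t → ρ i ∈ Dep P hP τ := by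
  intro i hi
  by_cases hl : ∃ l, a l = i
  · obtain ⟨l, rfl⟩ := hl
    exact h2 l
  · push Not at hl
    obtain ⟨j0, hj0⟩ := exists_X_notMem hN hP hP2
    have h3 : (X j0 ^ (d t - d i) : MvPolynomial (Fin N) K) ∉ P := fun h =>
      hj0 (hP.mem_of_pow_mem _ h)
    apply dep_of_smul h3
    apply h1
    refine ⟨Submodule.smul_mem _ _ (Submodule.subset_span ⟨i, hi, rfl⟩), fun j => ?_⟩
    rw [Pi.smul_apply, smul_eq_mul]
    have := ((isHomogeneous_X K j0).pow (d t - d i)).mul (hd i j)
    have h4 := ht i hl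
    rwa [one_mul, Nat.sub_add_cancel h4] at this

/-- The step: one more generator. -/
theorem step (hN : 2 ≤ N) {m k n : ℕ} (ρ : Fin m → Fin N → MvPolynomial (Fin N) K)
    (d : Fin m → ℕ) (hd : ∀ i j, (ρ i j).IsHomogeneous (d i)) (a : Fin k → Fin m)
    (hind : ∀ P : Ideal (MvPolynomial (Fin N) K), P.IsPrime → P.IsPrincipal →
      Ind P (fun l => ρ (a l)))
    (hrank : ∀ P : Ideal (MvPolynomial (Fin N) K), P.IsPrime → P.IsPrincipal →
      ∃ κ : Fin n → Fin N → MvPolynomial (Fin N) K, Ind P κ ∧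
        ∀ i, κ i ∈ Submodule.span (MvPolynomial (Fin N) K) (Set.range ρ))
    (hk : k + 1 < n) :
    ∃ t, (∀ i, a i ≠ t) ∧ ∃ e : Fin N → MvPolynomial (Fin N) K,
      (∀ j, (e j).IsHomogeneous (d t)) ∧
      e - ρ t ∈ Submodule.span (MvPolynomial (Fin N) K) (ρ '' {i | i ≠ t}) ∧
      ∀ P : Ideal (MvPolynomial (Fin N) K), P.IsPrime → P.IsPrincipal →
        Ind P (Fin.snoc (fun l => ρ (a l)) e : Fin (k + 1) → Fin N → MvPolynomial (Fin N) K) := by
  classical
  have hbot : (⊥ : Ideal (MvPolynomial (Fin N) K)).IsPrime := Ideal.isPrime_bot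
  have hbot2 : (⊥ : Ideal (MvPolynomial (Fin N) K)).IsPrincipal := ⟨⟨0, by simp⟩⟩
  -- a general contradiction
  have contra : ∀ (P : Ideal (MvPolynomial (Fin N) K)) (hP : P.IsPrime) (_ : P.IsPrincipal)
      (k' : ℕ) (τ : Fin k' → Fin N → MvPolynomial (Fin N) K), k' < n →
      (∀ i, ρ i ∈ Dep P hP τ) → False := by
    intro P hP hP2 k' τ hk' h
    obtain ⟨κ, hκ, hκ2⟩ := hrank P hP hP2
    have := card_le (hP := hP) hκ (fun i => span_le_dep h (hκ2 i))
    omega
  -- choice of `t`
  have hne : (Finset.univ.filter fun i : Fin m => ∀ l, a l ≠ i).Nonempty := by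
    by_contra hcon
    rw [Finset.not_nonempty_iff_eq_empty, Finset.filter_eq_empty_iff] at hcon
    apply contra ⊥ hbot hbot2 k (fun l => ρ (a l)) (by omega)
    intro i
    have := hcon (Finset.mem_univ i)
    push Not at this
    obtain ⟨l, rfl⟩ := this
    exact self_mem_dep _ hbot (fun l => ρ (a l)) l
  obtain ⟨t, ht, htmax⟩ := Finset.exists_max_image _ d hne
  rw [Finset.mem_filter] at ht
  have htmax' : ∀ i, (∀ l, a l ≠ i) → d i ≤ d t := fun i hi => htmax i (by simpa using hi)
  refine ⟨t, ht.2, ?_⟩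
  -- `Vt` is not contained in `Dep P τ`
  have hV1 : ∀ (P : Ideal (MvPolynomial (Fin N) K)) (hP : P.IsPrime) (_ : P.IsPrincipal),
      ∃ v ∈ Vt ρ t (d t), v ∉ Dep P hP (fun l => ρ (a l)) := by
    intro P hP hP2
    by_contra hcon
    push Not at hcon
    have h1 := all_dep hN hd htmax' hP hP2 hcon (fun l => self_mem_dep _ hP (fun l => ρ (a l)) l)
    apply contra P hP hP2 (k + 1) (Fin.snoc (fun l => ρ (a l)) (ρ t)) hk
    intro i
    by_cases hi : i = t
    · subst hi
      exact last_mem_dep_snoc _ _ _ _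
    · exact dep_snoc_of_dep (h1 i hi)
  -- choice of `e0`
  obtain ⟨v1, hv1, hv1'⟩ := hV1 ⊥ hbot hbot2
  obtain ⟨v0, hv0, he0⟩ : ∃ v0 ∈ Vt ρ t (d t), ρ t + v0 ∉ Dep ⊥ hbot (fun l => ρ (a l)) := by
    by_cases h : ρ t ∈ Dep ⊥ hbot (fun l => ρ (a l))
    · refine ⟨v1, hv1, fun h2 => hv1' ?_⟩
      have := Submodule.sub_mem _ h2 h
      simpa using this
    · exact ⟨0, Submodule.zero_mem _, by simpa using h⟩
  set e0 := ρ t + v0 with he0def
  have hind0 : Ind ⊥ (Fin.snoc (fun l => ρ (a l)) e0 :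
      Fin (k + 1) → Fin N → MvPolynomial (Fin N) K) :=
    ind_snoc hbot (hind ⊥ hbot hbot2) he0
  have hfin1 := finite_bad hind0
  -- choice of `e'`
  set Z1 := {P : Ideal (MvPolynomial (Fin N) K) | P.IsPrime ∧ P.IsPrincipal ∧
    ¬ Ind P (Fin.snoc (fun l => ρ (a l)) e0 : Fin (k + 1) → Fin N → MvPolynomial (Fin N) K)}
    with hZ1
  have : Finite Z1 := hfin1
  obtain ⟨e', he'V, he'⟩ : ∃ e' ∈ Vt ρ t (d t),
      (∀ P : Ideal (MvPolynomial (Fin N) K), (hP : P.IsPrime) → P.IsPrincipal →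
        ¬ Ind P (Fin.snoc (fun l => ρ (a l)) e0 :
          Fin (k + 1) → Fin N → MvPolynomial (Fin N) K) → e' ∉ Dep P hP (fun l => ρ (a l))) ∧
      e' ∉ Dep ⊥ hbot (Fin.snoc (fun l => ρ (a l)) e0 :
          Fin (k + 1) → Fin N → MvPolynomial (Fin N) K) := by
    obtain ⟨v, hv, hv2⟩ := avoid (Vt ρ t (d t))
      (fun o : Option Z1 => match o with
        | none => (Dep ⊥ hbot (Fin.snoc (fun l => ρ (a l)) e0 :
          Fin (k + 1) → Fin N → MvPolynomial (Fin N) K)).restrictScalars K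
        | some P => (Dep P.1 P.2.1 (fun l => ρ (a l))).restrictScalars K) (by
      intro o
      match o with
      | none =>
        by_contra hcon
        push Not at hcon
        have hcon' : ∀ v ∈ Vt ρ t (d t), v ∈ Dep ⊥ hbot (Fin.snoc (fun l => ρ (a l)) e0 :
          Fin (k + 1) → Fin N → MvPolynomial (Fin N) K) := hcon
        have h1 := all_dep hN hd htmax' hbot hbot2 hcon'
          (fun l => dep_snoc_of_dep (self_mem_dep _ hbot (fun l => ρ (a l)) l))
        apply contra ⊥ hbot hbot2 (k + 1) _ hk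
        intro i
        by_cases hi : i = t
        · have h3 : ρ t = e0 - v0 := by rw [he0def]; abel
          rw [hi, h3]
          exact Submodule.sub_mem _ (last_mem_dep_snoc _ _ _ _) (hcon' v0 hv0)
        · exact h1 i hi
      | some P => exact hV1 P.1 P.2.1 P.2.2.1)
    refine ⟨v, hv, ?_, hv2 none⟩
    intro P hP hP2 hP3
    exact hv2 (some ⟨P, hP, hP2, hP3⟩)
  have hind1 : Ind ⊥ (Fin.snoc (Fin.snoc (fun l => ρ (a l)) e0 :
      Fin (k + 1) → Fin N → MvPolynomial (Fin N) K) e' :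
      Fin (k + 2) → Fin N → MvPolynomial (Fin N) K) :=
    ind_snoc hbot hind0 he'.2
  have hfin2 := finite_bad hind1
  -- choice of `c`
  obtain ⟨c, hc⟩ : ∃ c : K, ∀ P : Ideal (MvPolynomial (Fin N) K), (hP : P.IsPrime) →
      P.IsPrincipal → e0 + c • e' ∉ Dep P hP (fun l => ρ (a l)) := by
    by_contra hcon
    push Not at hcon
    choose g hg1 hg2 hg3 using hcon
    have hinj : Function.Injective g := by
      intro c c' hcc
      by_contra hne
      have h1 := hg3 c
      have h2 : e0 + c' • e' ∈ Dep (g c) (hg1 c) (fun l => ρ (a l)) := by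
        have := hg3 c'
        simp only [← hcc] at this
        exact this
      have h3 := Submodule.sub_mem _ h1 h2
      have h4 : e0 + c • e' - (e0 + c' • e') = (C (c - c') : MvPolynomial (Fin N) K) • e' := by
        ext j
        simp [MvPolynomial.smul_eq_C_mul, sub_mul]
      rw [h4] at h3
      have h5 : (C (c - c') : MvPolynomial (Fin N) K) ∉ g c := by
        intro h
        apply (hg1 c).ne_top
        apply Ideal.eq_top_of_isUnit_mem _ h
        exact (IsUnit.mk0 _ (sub_ne_zero.2 hne)).map C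
      have h6 : e' ∈ Dep (g c) (hg1 c) (fun l => ρ (a l)) := dep_of_smul h5 h3
      have h7 : e0 ∈ Dep (g c) (hg1 c) (fun l => ρ (a l)) := by
        have h8 : c • e' = (C c : MvPolynomial (Fin N) K) • e' := by
          ext j
          simp [MvPolynomial.smul_eq_C_mul]
        rw [h8] at h1
        have := Submodule.sub_mem _ h1 (Submodule.smul_mem _ (C c) h6)
        simpa using this
      exact he'.1 (g c) (hg1 c) (hg2 c) (fun h => notMem_of_ind_snoc h h7) h6
    have hsub : Set.range g ⊆ {P : Ideal (MvPolynomial (Fin N) K) | P.IsPrime ∧ P.IsPrincipal ∧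
        ¬ Ind P (Fin.snoc (Fin.snoc (fun l => ρ (a l)) e0 :
      Fin (k + 1) → Fin N → MvPolynomial (Fin N) K) e' :
      Fin (k + 2) → Fin N → MvPolynomial (Fin N) K)} := by
      rintro _ ⟨c, rfl⟩
      refine ⟨hg1 c, hg2 c, fun h => ?_⟩
      have := pencil (hP := hg1 c) h (C c)
      apply this
      have h8 : c • e' = (C c : MvPolynomial (Fin N) K) • e' := by
        ext j
        simp [MvPolynomial.smul_eq_C_mul]
      rw [← h8]
      exact hg3 c
    exact Set.infinite_range_of_injective hinj (hfin2.subset hsub)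
  refine ⟨e0 + c • e', ?_, ?_, ?_⟩
  · intro j
    have h1 := (Submodule.add_mem _ hv0 (Submodule.smul_mem _ c he'V)).2 j
    have h2 := (hd t j).add h1
    rw [he0def]
    convert h2 using 1
    simp only [Pi.add_apply]
    ring
  · have h1 := (Submodule.add_mem _ hv0 (Submodule.smul_mem _ c he'V)).1
    rw [he0def]
    convert h1 using 1
    abel
  · intro P hP hP2
    exact ind_snoc hP (hind P hP hP2) (hc P hP hP2)

end Pool.Agent.R833.TM
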