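import Mathlib
import Pool.Agent.R833.Poly
import Pool.Agent.R833.Tame2

set_option autoImplicit false
set_option linter.unusedSectionVars false

/-!
# Jacobian syzygies modulo primes
-/

namespace Pool.Agent.R833.TM

open MvPolynomial Pool.Agent.R833

section grade

variable {σ : Type*} {R : Type*} [CommRing R] [IsDomain R]

lemma gr_coeff (p : MvPolynomial σ R) (m : ℕ) : (gr p).coeff m = homogeneousComponent m p := by
  conv_lhs => rw [← p.sum_homogeneousComponent]
  rw [map_sum, Polynomial.finsetSum_coeff]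
  have : ∀ i ∈ Finset.range (p.totalDegree + 1),
      (gr (homogeneousComponent i p)).coeff m = if i = m then homogeneousComponent m p else 0 := by
    intro i _
    rw [gr_of_homogeneous (homogeneousComponent_isHomogeneous i p), Polynomial.coeff_monomial]
    split_ifs with h
    · rw [h]
    · rfl
  rw [Finset.sum_congr rfl this, Finset.sum_ite_eq']
  split_ifs with h
  · rfl
  · rw [homogeneousComponent_eq_zero]
    simpa using h

lemma component_mul {a b : MvPolynomial σ R} {e d : ℕ} (hb : b.IsHomogeneous d) :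
    homogeneousComponent (e + d) (a * b) = homogeneousComponent e a * b := by
  rw [← gr_coeff, map_mul, gr_of_homogeneous hb, Polynomial.coeff_mul_monomial, gr_coeff]

end grade

variable {K : Type*} [Field K] {k : ℕ}

/-- a prime polynomial does not divide all partial derivatives of a squarefree form -/
lemma exists_pderiv_notMem [CharZero K] {f : MvPolynomial (Fin (k + 2)) K} {d : ℕ} (hd : 1 ≤ d)
    (hf : f.IsHomogeneous d) (hsq : Squarefree f)
    {P : Ideal (MvPolynomial (Fin (k + 2)) K)} (hP : P.IsPrime) (hP2 : P.IsPrincipal) :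
    ∃ j, pderiv j f ∉ P := by
  by_contra hcon
  push Not at hcon
  obtain ⟨⟨p, hp⟩⟩ := hP2
  have hp' : P = Ideal.span {p} := hp
  simp only [hp', Ideal.mem_span_singleton] at hcon
  have hf0 : f ≠ 0 := hsq.ne_zero
  have euler := hf.sum_X_mul_pderiv
  have hdu : IsUnit ((d : ℕ) : MvPolynomial (Fin (k + 2)) K) := by
    have : ((d : ℕ) : MvPolynomial (Fin (k + 2)) K) = C (d : K) := by simp
    rw [this]
    exact (IsUnit.mk0 _ (Nat.cast_ne_zero.2 (by omega))).map C
  have hpf : p ∣ f := by
    have h1 : p ∣ (d : MvPolynomial (Fin (k + 2)) K) * f := by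
      rw [← nsmul_eq_mul, ← euler]
      exact Finset.dvd_sum fun j _ => (hcon j).mul_left _
    exact (hdu.dvd_mul_left).1 h1
  have hp0 : p ≠ 0 := by
    rintro rfl
    exact hf0 (zero_dvd_iff.1 hpf)
  have hpp : Prime p := by
    rw [← Ideal.span_singleton_prime hp0, ← hp']
    exact hP
  obtain ⟨g, hg⟩ := hpf
  have hpg : ¬ p ∣ g := by
    rintro ⟨q, rfl⟩
    exact hpp.not_isUnit (hsq p ⟨q, by rw [hg]; ring⟩)
  have hpd : ∀ j, p ∣ pderiv j p := by
    intro j
    have h1 := hcon j
    rw [hg, Derivation.leibniz, smul_eq_mul, smul_eq_mul] at h1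
    have h2 : p ∣ g * pderiv j p := (dvd_add_right (dvd_mul_right _ _)).1 h1
    exact (hpp.dvd_or_dvd h2).resolve_left hpg
  obtain ⟨e, he⟩ := homogeneous_of_dvd hf hf0 (Dvd.intro g hg.symm)
  have he1 : 1 ≤ e := by
    by_contra h
    have h0 : e = 0 := by omega
    rw [h0, ← totalDegree_zero_iff_isHomogeneous, totalDegree_eq_zero_iff_eq_C] at he
    apply hpp.not_isUnit
    rw [he]
    apply IsUnit.map C
    apply IsUnit.mk0
    intro h00
    rw [h00, map_zero] at he
    exact hp0 he
  have hz : ∀ j, pderiv j p = 0 := by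
    intro j
    by_contra hne
    obtain ⟨q, hq⟩ := hpd j
    have hq0 : q ≠ 0 := by
      rintro rfl
      rw [mul_zero] at hq
      exact hne hq
    have h1 : (pderiv j p).totalDegree = e - 1 := (he.pderiv).totalDegree hne
    rw [hq, totalDegree_mul_of_isDomain hp0 hq0, he.totalDegree hp0] at h1
    omega
  have h2 := he.sum_X_mul_pderiv
  simp only [hz, mul_zero, Finset.sum_const_zero] at h2
  have h3 : (e : MvPolynomial (Fin (k + 2)) K) * p = 0 := by rw [← nsmul_eq_mul, ← h2]
  rcases mul_eq_zero.1 h3 with h4 | h4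
  · rw [Nat.cast_eq_zero] at h4
    omega
  · exact hp0 h4

/-- The Koszul syzygies. -/
lemma koszul {f : MvPolynomial (Fin (k + 2)) K}
    {P : Ideal (MvPolynomial (Fin (k + 2)) K)} (hP : P.IsPrime)
    (j0 : Fin (k + 2)) (hj0 : pderiv j0 f ∉ P) :
    ∃ κ : Fin (k + 1) → Fin (k + 2) → MvPolynomial (Fin (k + 2)) K, Ind P κ ∧
      ∀ i, ∑ j, κ i j * pderiv j f = 0 := by
  refine ⟨fun i => Pi.single (j0.succAbove i) (pderiv j0 f) -
    Pi.single j0 (pderiv (j0.succAbove i) f), ?_, ?_⟩
  · intro c hc i
    have h1 := hc (j0.succAbove i)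
    have h2 : ∑ l, c l * ((Pi.single (j0.succAbove l) (pderiv j0 f) -
        Pi.single j0 (pderiv (j0.succAbove l) f) : Fin (k + 2) → _) (j0.succAbove i)) =
        c i * pderiv j0 f := by
      rw [Finset.sum_eq_single i]
      · simp [Pi.single_eq_of_ne (Fin.succAbove_ne j0 i)]
      · intro l _ hl
        have h3 : j0.succAbove i ≠ j0.succAbove l := fun h =>
          hl (Fin.succAbove_right_injective h).symm
        simp [Pi.single_eq_of_ne h3, Pi.single_eq_of_ne (Fin.succAbove_ne j0 i)]
      · simp
    rw [h2] at h1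
    exact (hP.mem_or_mem h1).resolve_right hj0
  · intro i
    simp only [Pi.sub_apply, sub_mul, Finset.sum_sub_distrib]
    rw [Finset.sum_eq_single (j0.succAbove i), Finset.sum_eq_single j0]
    · simp only [Pi.single_eq_same]
      ring
    · intro b _ hb
      rw [Pi.single_eq_of_ne hb, zero_mul]
    · simp
    · intro b _ hb
      rw [Pi.single_eq_of_ne hb, zero_mul]
    · simp

end Pool.Agent.R833.TM
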