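import Mathlib
import Pool.Agent.R833.Arr
import Pool.Agent.R833.ArrLemmas
import Pool.Agent.R833.Tame3

set_option autoImplicit false
set_option linter.unusedSectionVars false

/-!
# Seven lines with three collinear triple points
-/

namespace Pool.Agent.R833.Ex7

open MvPolynomial Pool.Agent.R833 Pool.Agent.R833.Arr

variable {K : Type} [Field K]

/-- the polynomial ring in three variables -/
abbrev S3 (K : Type) [Field K] : Type := MvPolynomial (Fin 3) K

/-- the lines `z, x, x - z, y, y - z, x - y - 2z, x - y + 2z` -/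
def A7 (K : Type) [Field K] : Fin 7 → Fin 3 → K :=
  ![![0, 0, 1], ![1, 0, 0], ![1, 0, -1], ![0, 1, 0], ![0, 1, -1], ![1, -1, -2], ![1, -1, 2]]

/-- `x` -/
noncomputable abbrev xx : S3 K := X 0
/-- `y` -/
noncomputable abbrev yy : S3 K := X 1
/-- `z` -/
noncomputable abbrev zz : S3 K := X 2

/-- `x (x - z)` -/
noncomputable def pP (K : Type) [Field K] : S3 K := X 0 * (X 0 - X 2)
/-- `y (y - z)` -/
noncomputable def pR (K : Type) [Field K] : S3 K := X 1 * (X 1 - X 2)
/-- `(x - y - 2z)(x - y + 2z)` -/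
noncomputable def pT (K : Type) [Field K] : S3 K :=
  (X 0 - X 1 - 2 * X 2) * (X 0 - X 1 + 2 * X 2)

lemma lf_eq (a : Fin 3 → K) : linearForm a = C (a 0) * X 0 + C (a 1) * X 1 + C (a 2) * X 2 := by
  simp [linearForm, Fin.sum_univ_succ, add_assoc]

/-- a criterion for non-divisibility -/
lemma not_dvd_of_eval {a b : S3 K} (v : Fin 3 → K) (ha : eval v a = 0) (hb : eval v b ≠ 0) :
    ¬ a ∣ b := by
  rintro ⟨c, rfl⟩
  apply hb
  rw [map_mul, ha, zero_mul]

lemma prime_lf {a : S3 K} (h : a.IsHomogeneous 1) (h0 : a ≠ 0) : Prime a :=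
  prime_of_homogeneous_one h h0

lemma hom_X (i : Fin 3) : (X i : S3 K).IsHomogeneous 1 := isHomogeneous_X K i

lemma hom_two_X (i : Fin 3) : (2 * X i : S3 K).IsHomogeneous 1 := by
  have h := (isHomogeneous_C (Fin 3) (2 : K)).mul (isHomogeneous_X K i)
  have h2 : (C (2 : K) : S3 K) = 2 := map_ofNat _ _
  rw [h2, zero_add] at h
  exact h

lemma ne_zero_of_eval {a : S3 K} (v : Fin 3 → K) (h : eval v a ≠ 0) : a ≠ 0 := by
  rintro rfl
  simp at h

lemma pP_hom : (pP K).IsHomogeneous 2 := (hom_X 0).mul ((hom_X 0).sub (hom_X 2))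
lemma pR_hom : (pR K).IsHomogeneous 2 := (hom_X 1).mul ((hom_X 1).sub (hom_X 2))
lemma pT_hom : (pT K).IsHomogeneous 2 :=
  (((hom_X 0).sub (hom_X 1)).sub (hom_two_X 2)).mul (((hom_X 0).sub (hom_X 1)).add (hom_two_X 2))

lemma pP_ne : pP K ≠ 0 := ne_zero_of_eval ![1, 0, 0] (by simp [pP])
lemma pR_ne : pR K ≠ 0 := ne_zero_of_eval ![0, 1, 0] (by simp [pR])
lemma pT_ne : pT K ≠ 0 := ne_zero_of_eval ![1, 0, 0] (by simp [pT])

/-- two primes, neither dividing the other factor -/
lemma relPrime_of {a b c : S3 K} (ha : Prime a) (hb : Prime b) (h1 : ¬ a ∣ c) (h2 : ¬ b ∣ c) :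
    IsRelPrime (a * b) c :=
  IsRelPrime.mul_left (ha.irreducible.isRelPrime_iff_not_dvd.2 h1)
    (hb.irreducible.isRelPrime_iff_not_dvd.2 h2)

lemma prime_x : Prime (X 0 : S3 K) := X_prime
lemma prime_y : Prime (X 1 : S3 K) := X_prime
lemma prime_z : Prime (X 2 : S3 K) := X_prime
lemma prime_xz : Prime (X 0 - X 2 : S3 K) :=
  prime_lf ((hom_X 0).sub (hom_X 2)) (ne_zero_of_eval ![1, 0, 0] (by simp))
lemma prime_yz : Prime (X 1 - X 2 : S3 K) :=
  prime_lf ((hom_X 1).sub (hom_X 2)) (ne_zero_of_eval ![0, 1, 0] (by simp))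
lemma prime_t1 : Prime (X 0 - X 1 - 2 * X 2 : S3 K) :=
  prime_lf (((hom_X 0).sub (hom_X 1)).sub (hom_two_X 2)) (ne_zero_of_eval ![1, 0, 0] (by simp))
lemma prime_t2 : Prime (X 0 - X 1 + 2 * X 2 : S3 K) :=
  prime_lf (((hom_X 0).sub (hom_X 1)).add (hom_two_X 2)) (ne_zero_of_eval ![1, 0, 0] (by simp))

lemma rel_PR : IsRelPrime (pP K) (pR K) := by
  apply relPrime_of prime_x prime_xz
  · exact not_dvd_of_eval ![0, 1, 0] (by simp) (by simp [pR])
  · exact not_dvd_of_eval ![0, 1, 0] (by simp) (by simp [pR])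

section char

variable [CharZero K]

lemma rel_TR : IsRelPrime (pT K) (pR K) := by
  apply relPrime_of prime_t1 prime_t2
  · exact not_dvd_of_eval ![1, 1, 0] (by simp) (by simp [pR])
  · exact not_dvd_of_eval ![1, 1, 0] (by simp) (by simp [pR])

/-- the ring homomorphism `x ↦ p, y ↦ q, z ↦ X` -/
noncomputable def ev (p q : Polynomial K) : S3 K →ₐ[K] Polynomial K :=
  aeval ![p, q, Polynomial.X]

/-- polynomials in `z` -/
noncomputable def iz : Polynomial K →ₐ[K] S3 K := Polynomial.aeval (X 2)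

lemma ev_iz (p q a : Polynomial K) : ev p q (iz a) = a := by
  have h : (ev p q).comp iz = AlgHom.id K (Polynomial K) := by
    apply Polynomial.algHom_ext
    simp [ev, iz]
  exact congrArg (fun f => f a) h

/-- division with remainder by `P` and `R` -/
lemma exists_rem (w : S3 K) : ∃ (a b c d : Polynomial K) (s t : S3 K),
    w = iz a + iz b * X 0 + iz c * X 1 + iz d * (X 0 * X 1) + s * pP K + t * pR K := by
  have hX : (iz (Polynomial.X : Polynomial K) : S3 K) = X 2 := by simp [iz]
  induction w using MvPolynomial.induction_on with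
  | C r =>
    refine ⟨Polynomial.C r, 0, 0, 0, 0, 0, ?_⟩
    simp [iz, MvPolynomial.algebraMap_eq]
  | add p q hp hq =>
    obtain ⟨a, b, c, d, s, t, h1⟩ := hp
    obtain ⟨a', b', c', d', s', t', h2⟩ := hq
    refine ⟨a + a', b + b', c + c', d + d', s + s', t + t', ?_⟩
    rw [h1, h2]
    simp only [map_add]
    ring
  | mul_X p i hp =>
    obtain ⟨a, b, c, d, s, t, h1⟩ := hp
    fin_cases i
    · refine ⟨0, a + Polynomial.X * b, 0, c + Polynomial.X * d,
        iz b + iz d * X 1 + X 0 * s, X 0 * t, ?_⟩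
      simp only [Fin.zero_eta, map_add, map_mul, hX, map_zero]
      rw [h1]
      simp only [pP, pR]
      ring
    · refine ⟨0, 0, a + Polynomial.X * c, b + Polynomial.X * d,
        X 1 * s, iz c + iz d * X 0 + X 1 * t, ?_⟩
      simp only [Fin.mk_one, map_add, map_mul, hX, map_zero]
      rw [h1]
      simp only [pP, pR]
      ring
    · refine ⟨Polynomial.X * a, Polynomial.X * b, Polynomial.X * c, Polynomial.X * d,
        X 2 * s, X 2 * t, ?_⟩
      have h2 : ((⟨2, by decide⟩ : Fin 3)) = 2 := rfl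
      simp only [map_mul, hX]
      rw [h1]
      change _ * X 2 = _
      ring

/-- `T` is a nonzerodivisor modulo `(P, R)` -/
lemma T_regular {u v w : S3 K} (h : pP K * u - pR K * v = pT K * w) :
    ∃ α β : S3 K, w = α * pP K - β * pR K := by
  obtain ⟨a, b, c, d, s, t, hw⟩ := exists_rem w
  have hX0 : (Polynomial.X : Polynomial K) ≠ 0 := Polynomial.X_ne_zero
  have key : ∀ p q : Polynomial K, p * (p - Polynomial.X) = 0 → q * (q - Polynomial.X) = 0 →
      (p - q - 2 * Polynomial.X) * (p - q + 2 * Polynomial.X) ≠ 0 →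
      a + b * p + c * q + d * (p * q) = 0 := by
    intro p q hp hq hT
    have e1 : ev p q (pP K) = 0 := by
      simp only [ev, pP, map_mul, map_sub, aeval_X]
      simpa using hp
    have e2 : ev p q (pR K) = 0 := by
      simp only [ev, pR, map_mul, map_sub, aeval_X]
      simpa using hq
    have e3 : ev p q (pT K) ≠ 0 := by
      simp only [ev, pT, map_mul, map_sub, map_add, aeval_X, map_ofNat]
      simpa using hT
    have e4 := congrArg (ev p q) h
    rw [map_sub, map_mul, map_mul, map_mul, e1, e2, zero_mul, zero_mul, sub_zero] at e4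
    have e5 : ev p q w = 0 := (mul_eq_zero.1 e4.symm).resolve_left e3
    have e6 := congrArg (ev p q) hw
    rw [e5] at e6
    simp only [map_add, map_mul, ev_iz, e1, e2, mul_zero, add_zero] at e6
    rw [e6]
    simp [ev]
  have h2 : (2 : Polynomial K) ≠ 0 := by
    have : (2 : Polynomial K) = ((2 : ℕ) : Polynomial K) := by norm_num
    rw [this]
    exact Nat.cast_ne_zero.2 (by norm_num)
  have h3 : (3 : Polynomial K) ≠ 0 := by
    have : (3 : Polynomial K) = ((3 : ℕ) : Polynomial K) := by norm_num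
    rw [this]
    exact Nat.cast_ne_zero.2 (by norm_num)
  have k1 := key 0 0 (by ring) (by ring) (by
    have : ((0 : Polynomial K) - 0 - 2 * Polynomial.X) * (0 - 0 + 2 * Polynomial.X) =
      - (2 * 2 * (Polynomial.X * Polynomial.X)) := by ring
    rw [this]
    exact neg_ne_zero.2 (mul_ne_zero (mul_ne_zero h2 h2) (mul_ne_zero hX0 hX0)))
  have k2 := key Polynomial.X 0 (by ring) (by ring) (by
    have : ((Polynomial.X : Polynomial K) - 0 - 2 * Polynomial.X) *
      (Polynomial.X - 0 + 2 * Polynomial.X) =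
      - (3 * (Polynomial.X * Polynomial.X)) := by ring
    rw [this]
    exact neg_ne_zero.2 (mul_ne_zero h3 (mul_ne_zero hX0 hX0)))
  have k3 := key 0 Polynomial.X (by ring) (by ring) (by
    have : ((0 : Polynomial K) - Polynomial.X - 2 * Polynomial.X) *
      (0 - Polynomial.X + 2 * Polynomial.X) =
      - (3 * (Polynomial.X * Polynomial.X)) := by ring
    rw [this]
    exact neg_ne_zero.2 (mul_ne_zero h3 (mul_ne_zero hX0 hX0)))
  have k4 := key Polynomial.X Polynomial.X (by ring) (by ring) (by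
    have : ((Polynomial.X : Polynomial K) - Polynomial.X - 2 * Polynomial.X) *
      (Polynomial.X - Polynomial.X + 2 * Polynomial.X) =
      - (2 * 2 * (Polynomial.X * Polynomial.X)) := by ring
    rw [this]
    exact neg_ne_zero.2 (mul_ne_zero (mul_ne_zero h2 h2) (mul_ne_zero hX0 hX0)))
  have ha : a = 0 := by linear_combination k1
  have hb : b = 0 := by
    have : b * Polynomial.X = 0 := by linear_combination k2 - ha
    exact (mul_eq_zero.1 this).resolve_right hX0
  have hc : c = 0 := by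
    have : c * Polynomial.X = 0 := by linear_combination k3 - ha
    exact (mul_eq_zero.1 this).resolve_right hX0
  have hd : d = 0 := by
    have : d * (Polynomial.X * Polynomial.X) = 0 := by
      rw [ha, hb, hc] at k4
      linear_combination k4
    exact (mul_eq_zero.1 this).resolve_right (mul_ne_zero hX0 hX0)
  refine ⟨s, -t, ?_⟩
  rw [hw, ha, hb, hc, hd]
  simp only [map_zero]
  ring

/-- the Koszul complex of `P, R, T` is exact -/
lemma koszul_exact {u v w : S3 K} (h : pP K * u - pR K * v = pT K * w) :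
    ∃ α β γ : S3 K, u = γ * pR K + α * pT K ∧ v = γ * pP K + β * pT K ∧
      w = α * pP K - β * pR K := by
  obtain ⟨α, β, hw⟩ := T_regular h
  have h1 : pP K * (u - pT K * α) = pR K * (v - pT K * β) := by
    rw [hw] at h
    linear_combination h
  have h2 : pP K ∣ v - pT K * β :=
    rel_PR.dvd_of_dvd_mul_left (Dvd.intro _ h1)
  obtain ⟨γ, hγ⟩ := h2
  refine ⟨α, β, γ, ?_, ?_, hw⟩
  · apply mul_left_cancel₀ (pP_ne (K := K))
    rw [hγ] at h1
    linear_combination h1
  · linear_combination hγ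

end char

end Pool.Agent.R833.Ex7
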