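import Mathlib
import Pool.Agent.R833.Ex7
import Pool.Agent.H158R3.Hilb

set_option autoImplicit false
set_option linter.unusedSectionVars false

/-!
# The logarithmic derivations of seven lines with three collinear triple points
-/

namespace Pool.Agent.R833.Ex7

open MvPolynomial Pool.Agent.R833 Pool.Agent.R833.Arr Pool.Agent.H158R3

variable {K : Type} [Field K]

/-- derivations of the polynomial ring -/
abbrev Der3 (K : Type) [Field K] : Type := Derivation K (S3 K) (S3 K)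

/-- the derivation `a ∂x + b ∂y + c ∂z` -/
noncomputable def vf (a b c : S3 K) : Der3 K := mkDerivation K ![a, b, c]

@[simp] lemma vf_0 (a b c : S3 K) : vf a b c (X 0) = a := by simp [vf]
@[simp] lemma vf_1 (a b c : S3 K) : vf a b c (X 1) = b := by simp [vf]
@[simp] lemma vf_2 (a b c : S3 K) : vf a b c (X 2) = c := by simp [vf]

lemma der_ext3 {θ η : Der3 K} (h0 : θ (X 0) = η (X 0)) (h1 : θ (X 1) = η (X 1))
    (h2 : θ (X 2) = η (X 2)) : θ = η := by
  apply derivation_ext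
  intro i
  fin_cases i
  · exact h0
  · exact h1
  · exact h2

lemma forms (i : Fin 7) : linearForm (A7 K i) =
    (![X 2, X 0, X 0 - X 2, X 1, X 1 - X 2, X 0 - X 1 - 2 * X 2, X 0 - X 1 + 2 * X 2] :
      Fin 7 → S3 K) i := by
  have h2 : (C (2 : K) : S3 K) = 2 := map_ofNat _ _
  fin_cases i <;> simp [lf_eq, A7, h2] <;> ring

lemma vals (θ : Der3 K) (i : Fin 7) : ∑ j, C (A7 K i j) * θ (X j) =
    (![θ (X 2), θ (X 0), θ (X 0) - θ (X 2), θ (X 1), θ (X 1) - θ (X 2),
      θ (X 0) - θ (X 1) - 2 * θ (X 2), θ (X 0) - θ (X 1) + 2 * θ (X 2)] : Fin 7 → S3 K) i := by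
  have h2 : (C (2 : K) : S3 K) = 2 := map_ofNat _ _
  fin_cases i <;> simp [A7, Fin.sum_univ_succ, h2] <;> ring

lemma mem_A7 {θ : Der3 K} : θ ∈ logDer (A7 K) ↔ ((X 2 : S3 K) ∣ θ (X 2)) ∧
    ((X 0 : S3 K) ∣ θ (X 0)) ∧ ((X 0 - X 2 : S3 K) ∣ θ (X 0) - θ (X 2)) ∧
    ((X 1 : S3 K) ∣ θ (X 1)) ∧ ((X 1 - X 2 : S3 K) ∣ θ (X 1) - θ (X 2)) ∧
    ((X 0 - X 1 - 2 * X 2 : S3 K) ∣ θ (X 0) - θ (X 1) - 2 * θ (X 2)) ∧
    ((X 0 - X 1 + 2 * X 2 : S3 K) ∣ θ (X 0) - θ (X 1) + 2 * θ (X 2)) := by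
  rw [mem_logDer]
  simp only [forms, vals]
  simp [Fin.forall_fin_succ]

/-- the generators -/
noncomputable def gen (K : Type) [Field K] : Fin 4 → Der3 K :=
  ![vf (X 0) (X 1) (X 2), vf (pP K * pR K) (pP K * pR K) 0, vf (pP K * pT K) 0 0,
    vf 0 (pR K * pT K) 0]

lemma gen_mem (i : Fin 4) : gen K i ∈ logDer (A7 K) := by
  rw [mem_A7]
  fin_cases i
  · simp only [gen, Fin.zero_eta, Matrix.cons_val_zero, vf_0, vf_1, vf_2]
    exact ⟨dvd_rfl, dvd_rfl, dvd_rfl, dvd_rfl, dvd_rfl, dvd_rfl, dvd_rfl⟩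
  · simp only [gen, Fin.mk_one, Matrix.cons_val_one, Matrix.cons_val_zero, vf_0, vf_1, vf_2]
    refine ⟨dvd_zero _, ?_, ?_, ?_, ?_, ?_, ?_⟩
    · exact ⟨(X 0 - X 2) * pR K, by simp only [pP]; ring⟩
    · exact ⟨X 0 * pR K, by simp only [pP]; ring⟩
    · exact ⟨(X 1 - X 2) * pP K, by simp only [pR]; ring⟩
    · exact ⟨X 1 * pP K, by simp only [pR]; ring⟩
    · simp
    · simp
  · change (X 2 ∣ vf (pP K * pT K) 0 0 (X 2)) ∧ (X 0 ∣ vf (pP K * pT K) 0 0 (X 0)) ∧
      (X 0 - X 2 ∣ vf (pP K * pT K) 0 0 (X 0) - vf (pP K * pT K) 0 0 (X 2)) ∧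
      (X 1 ∣ vf (pP K * pT K) 0 0 (X 1)) ∧
      (X 1 - X 2 ∣ vf (pP K * pT K) 0 0 (X 1) - vf (pP K * pT K) 0 0 (X 2)) ∧
      (X 0 - X 1 - 2 * X 2 ∣ vf (pP K * pT K) 0 0 (X 0) - vf (pP K * pT K) 0 0 (X 1) -
        2 * vf (pP K * pT K) 0 0 (X 2)) ∧
      (X 0 - X 1 + 2 * X 2 ∣ vf (pP K * pT K) 0 0 (X 0) - vf (pP K * pT K) 0 0 (X 1) +
        2 * vf (pP K * pT K) 0 0 (X 2))
    simp only [vf_0, vf_1, vf_2]
    refine ⟨dvd_zero _, ?_, ?_, dvd_zero _, by simp, ?_, ?_⟩
    · exact ⟨(X 0 - X 2) * pT K, by simp only [pP]; ring⟩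
    · exact ⟨X 0 * pT K, by simp only [pP]; ring⟩
    · exact ⟨pP K * (X 0 - X 1 + 2 * X 2), by simp only [pT]; ring⟩
    · exact ⟨pP K * (X 0 - X 1 - 2 * X 2), by simp only [pT]; ring⟩
  · change (X 2 ∣ vf 0 (pR K * pT K) 0 (X 2)) ∧ (X 0 ∣ vf 0 (pR K * pT K) 0 (X 0)) ∧
      (X 0 - X 2 ∣ vf 0 (pR K * pT K) 0 (X 0) - vf 0 (pR K * pT K) 0 (X 2)) ∧
      (X 1 ∣ vf 0 (pR K * pT K) 0 (X 1)) ∧
      (X 1 - X 2 ∣ vf 0 (pR K * pT K) 0 (X 1) - vf 0 (pR K * pT K) 0 (X 2)) ∧
      (X 0 - X 1 - 2 * X 2 ∣ vf 0 (pR K * pT K) 0 (X 0) - vf 0 (pR K * pT K) 0 (X 1) -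
        2 * vf 0 (pR K * pT K) 0 (X 2)) ∧
      (X 0 - X 1 + 2 * X 2 ∣ vf 0 (pR K * pT K) 0 (X 0) - vf 0 (pR K * pT K) 0 (X 1) +
        2 * vf 0 (pR K * pT K) 0 (X 2))
    simp only [vf_0, vf_1, vf_2]
    refine ⟨dvd_zero _, dvd_zero _, by simp, ?_, ?_, ?_, ?_⟩
    · exact ⟨(X 1 - X 2) * pT K, by simp only [pR]; ring⟩
    · exact ⟨X 1 * pT K, by simp only [pR]; ring⟩
    · exact ⟨- (pR K * (X 0 - X 1 + 2 * X 2)), by simp only [pT]; ring⟩
    · exact ⟨- (pR K * (X 0 - X 1 - 2 * X 2)), by simp only [pT]; ring⟩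

lemma comb_0 (c : Fin 4 → S3 K) : (∑ i, c i • gen K i) (X 0) =
    c 0 * X 0 + c 1 * (pP K * pR K) + c 2 * (pP K * pT K) := by
  rw [Fin.sum_univ_four]
  simp only [Derivation.add_apply, Derivation.smul_apply, smul_eq_mul]
  change c 0 * vf (X 0) (X 1) (X 2) (X 0) + c 1 * vf (pP K * pR K) (pP K * pR K) 0 (X 0) +
    c 2 * vf (pP K * pT K) 0 0 (X 0) + c 3 * vf 0 (pR K * pT K) 0 (X 0) = _
  simp only [vf_0]
  ring

lemma comb_1 (c : Fin 4 → S3 K) : (∑ i, c i • gen K i) (X 1) =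
    c 0 * X 1 + c 1 * (pP K * pR K) + c 3 * (pR K * pT K) := by
  rw [Fin.sum_univ_four]
  simp only [Derivation.add_apply, Derivation.smul_apply, smul_eq_mul]
  change c 0 * vf (X 0) (X 1) (X 2) (X 1) + c 1 * vf (pP K * pR K) (pP K * pR K) 0 (X 1) +
    c 2 * vf (pP K * pT K) 0 0 (X 1) + c 3 * vf 0 (pR K * pT K) 0 (X 1) = _
  simp only [vf_1]
  ring

lemma comb_2 (c : Fin 4 → S3 K) : (∑ i, c i • gen K i) (X 2) = c 0 * X 2 := by
  rw [Fin.sum_univ_four]
  simp only [Derivation.add_apply, Derivation.smul_apply, smul_eq_mul]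
  change c 0 * vf (X 0) (X 1) (X 2) (X 2) + c 1 * vf (pP K * pR K) (pP K * pR K) 0 (X 2) +
    c 2 * vf (pP K * pT K) 0 0 (X 2) + c 3 * vf 0 (pR K * pT K) 0 (X 2) = _
  simp only [vf_2]
  ring

variable [CharZero K]

/-- the generators generate -/
lemma exists_comb {θ : Der3 K} (hθ : θ ∈ logDer (A7 K)) :
    ∃ c : Fin 4 → S3 K, θ = ∑ i, c i • gen K i := by
  rw [mem_A7] at hθ
  obtain ⟨⟨c0, h2⟩, ⟨a0, h0⟩, h02, ⟨a1, h1⟩, h12, ht1, ht2⟩ := hθ
  -- subtract the Euler part
  have hf : pP K ∣ θ (X 0) - c0 * X 0 := by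
    apply IsRelPrime.mul_dvd
    · exact prime_x.irreducible.isRelPrime_iff_not_dvd.2
        (not_dvd_of_eval ![0, 0, 1] (by simp) (by simp))
    · exact ⟨a0 - c0, by rw [h0]; ring⟩
    · obtain ⟨q, hq⟩ := h02
      exact ⟨q - c0, by linear_combination hq + h2⟩
  have hg : pR K ∣ θ (X 1) - c0 * X 1 := by
    apply IsRelPrime.mul_dvd
    · exact prime_y.irreducible.isRelPrime_iff_not_dvd.2
        (not_dvd_of_eval ![0, 0, 1] (by simp) (by simp))
    · exact ⟨a1 - c0, by rw [h1]; ring⟩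
    · obtain ⟨q, hq⟩ := h12
      exact ⟨q - c0, by linear_combination hq + h2⟩
  have hh : pT K ∣ (θ (X 0) - c0 * X 0) - (θ (X 1) - c0 * X 1) := by
    apply IsRelPrime.mul_dvd
    · exact prime_t1.irreducible.isRelPrime_iff_not_dvd.2
        (not_dvd_of_eval ![2, 0, 1] (by simp) (by
          simp only [map_add, map_sub, map_mul, eval_X, map_ofNat, Matrix.cons_val_zero,
            Matrix.cons_val_one]
          change (2 : K) - 0 + 2 * 1 ≠ 0
          norm_num))
    · obtain ⟨q, hq⟩ := ht1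
      exact ⟨q - c0, by linear_combination hq + 2 * h2⟩
    · obtain ⟨q, hq⟩ := ht2
      exact ⟨q - c0, by linear_combination hq - 2 * h2⟩
  obtain ⟨u, hu⟩ := hf
  obtain ⟨v, hv⟩ := hg
  obtain ⟨w, hw⟩ := hh
  rw [hu, hv] at hw
  obtain ⟨α, β, γ, h3, h4, -⟩ := koszul_exact hw
  refine ⟨![c0, γ, α, β], ?_⟩
  apply der_ext3
  · rw [comb_0]
    change _ = c0 * X 0 + γ * (pP K * pR K) + α * (pP K * pT K)
    rw [h3] at hu
    linear_combination hu
  · rw [comb_1]
    change _ = c0 * X 1 + γ * (pP K * pR K) + β * (pR K * pT K)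
    rw [h4] at hv
    linear_combination hv
  · rw [comb_2]
    change _ = c0 * X 2
    rw [h2, mul_comm]

/-- the relation -/
noncomputable def kap (K : Type) [Field K] : Fin 4 → S3 K := ![0, pT K, - pR K, - pP K]

lemma kap_rel : ∑ i, kap K i • gen K i = 0 := by
  apply der_ext3
  · rw [comb_0]
    change (0 : S3 K) * X 0 + pT K * (pP K * pR K) + (- pR K) * (pP K * pT K) = 0
    ring
  · rw [comb_1]
    change (0 : S3 K) * X 1 + pT K * (pP K * pR K) + (- pP K) * (pR K * pT K) = 0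
    ring
  · rw [comb_2]
    change (0 : S3 K) * X 2 = 0
    ring

/-- all relations are multiples of it -/
lemma rel_eq {c : Fin 4 → S3 K} (h : ∑ i, c i • gen K i = 0) : ∃ s : S3 K, c = s • kap K := by
  have h0 : (∑ i, c i • gen K i) (X 0) = 0 := by rw [h]; rfl
  have h1 : (∑ i, c i • gen K i) (X 1) = 0 := by rw [h]; rfl
  have h2 : (∑ i, c i • gen K i) (X 2) = 0 := by rw [h]; rfl
  rw [comb_0] at h0
  rw [comb_1] at h1
  rw [comb_2] at h2
  have hc0 : c 0 = 0 := (mul_eq_zero.1 h2).resolve_right (X_ne_zero _)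
  rw [hc0] at h0 h1
  have e0 : c 1 * pR K + c 2 * pT K = 0 := by
    apply mul_left_cancel₀ (pP_ne (K := K))
    linear_combination h0
  have e1 : c 1 * pP K + c 3 * pT K = 0 := by
    apply mul_left_cancel₀ (pR_ne (K := K))
    linear_combination h1
  have hdv : pT K ∣ c 1 := by
    apply rel_TR.dvd_of_dvd_mul_right
    exact ⟨- c 2, by linear_combination e0⟩
  obtain ⟨s, hs⟩ := hdv
  refine ⟨s, ?_⟩
  funext i
  fin_cases i
  · change c 0 = s * 0
    rw [hc0, mul_zero]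
  · change c 1 = s * pT K
    rw [hs, mul_comm]
  · change c 2 = s * (- pR K)
    apply mul_left_cancel₀ (pT_ne (K := K))
    rw [hs] at e0
    linear_combination e0
  · change c 3 = s * (- pP K)
    apply mul_left_cancel₀ (pT_ne (K := K))
    rw [hs] at e1
    linear_combination e1

lemma kap_const (i : Fin 4) : constantCoeff (kap K i) = 0 := by
  fin_cases i
  · change constantCoeff (0 : S3 K) = 0
    simp
  · change constantCoeff (pT K) = 0
    simp [pT]
  · change constantCoeff (- pR K) = 0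
    simp [pR]
  · change constantCoeff (- pP K) = 0
    simp [pP]

lemma kap_one : kap K 1 = pT K := rfl

lemma span_gen : Submodule.span (S3 K) (Set.range (gen K)) = logDer (A7 K) := by
  apply le_antisymm
  · rw [Submodule.span_le]
    rintro _ ⟨i, rfl⟩
    exact gen_mem i
  · intro θ hθ
    obtain ⟨c, rfl⟩ := exists_comb hθ
    apply Submodule.sum_mem
    intro i _
    exact Submodule.smul_mem _ _ (Submodule.subset_span ⟨i, rfl⟩)

/-- the presentation -/
noncomputable def pres (K : Type) [Field K] : (Fin 4 → S3 K) →ₗ[S3 K] logDer (A7 K) :=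
  Fintype.linearCombination (S3 K) (fun i => (⟨gen K i, gen_mem i⟩ : logDer (A7 K)))

lemma pres_coe (c : Fin 4 → S3 K) : (pres K c).1 = ∑ i, c i • gen K i := by
  rw [pres, Fintype.linearCombination_apply, AddSubmonoidClass.coe_finsetSum]
  rfl

lemma pres_surjective : Function.Surjective (pres K) := by
  rintro ⟨θ, hθ⟩
  obtain ⟨c, hc⟩ := exists_comb hθ
  exact ⟨c, Subtype.ext ((pres_coe c).trans hc.symm)⟩

/-- the map `S → S^4` -/
noncomputable def incl (K : Type) [Field K] : S3 K →ₗ[S3 K] (Fin 4 → S3 K) :=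
  LinearMap.toSpanSingleton (S3 K) (Fin 4 → S3 K) (kap K)

lemma incl_apply (s : S3 K) : incl K s = s • kap K := rfl

lemma incl_injective : Function.Injective (incl K) := by
  intro a b hab
  have h := congrFun hab 1
  change a * pT K = b * pT K at h
  exact mul_right_cancel₀ pT_ne h

lemma exact_pres : Function.Exact (incl K) (pres K) := by
  intro c
  constructor
  · intro h
    have h2 : ∑ i, c i • gen K i = 0 := by
      rw [← pres_coe, h]
      rfl
    obtain ⟨s, hs⟩ := rel_eq h2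
    exact ⟨s, by rw [incl_apply, hs]⟩
  · rintro ⟨s, rfl⟩
    apply Subtype.ext
    rw [incl_apply, map_smul]
    have : pres K (kap K) = 0 := by
      apply Subtype.ext
      rw [pres_coe, kap_rel]
      rfl
    rw [this, smul_zero]

lemma pdLT_two : PdLT (S3 K) (logDer (A7 K)) 2 :=
  pdLT_right (incl K) (pres K) incl_injective pres_surjective exact_pres
    (pdLT_one_of_projective inferInstance)
    (pdLT_mono (by omega) (pdLT_one_of_projective inferInstance))

lemma not_projective : ¬ Module.Projective (S3 K) (logDer (A7 K)) := by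
  intro hp
  obtain ⟨s, hs⟩ := Module.projective_lifting_property (pres K) LinearMap.id pres_surjective
  have h1 : ∀ c, pres K (c - s (pres K c)) = 0 := by
    intro c
    have := congrArg (fun f => f (pres K c)) hs
    simp only [LinearMap.comp_apply, LinearMap.id_apply] at this
    rw [map_sub, this, sub_self]
  have h2 : ∀ c, ∃ t : S3 K, t • kap K = c - s (pres K c) := fun c => (exact_pres _).1 (h1 c)
  choose t ht using fun i : Fin 4 => h2 (Pi.single i 1)
  have h3 : pres K (kap K) = 0 := by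
    apply Subtype.ext
    rw [pres_coe, kap_rel]
    rfl
  have h4 : kap K = (∑ i, kap K i * t i) • kap K := by
    have h5 : ∑ i, kap K i • (Pi.single i 1 - s (pres K (Pi.single i 1)) : Fin 4 → S3 K) =
        kap K := by
      have h6 : kap K = ∑ i, kap K i • (Pi.single i 1 : Fin 4 → S3 K) := by
        ext1 j
        rw [Finset.sum_apply, Finset.sum_eq_single j]
        · simp
        · intro b _ hb
          simp [Pi.single_eq_of_ne hb.symm]
        · simp
      have h7 : ∑ i, kap K i • s (pres K (Pi.single i 1)) = 0 := by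
        have h8 : ∑ i, kap K i • s (pres K (Pi.single i 1)) = s (pres K (kap K)) := by
          conv_rhs => rw [h6]
          rw [map_sum, map_sum]
          exact Finset.sum_congr rfl fun i _ => by rw [map_smul, map_smul]
        rw [h8, h3, map_zero]
      simp only [smul_sub]
      rw [Finset.sum_sub_distrib, h7, sub_zero, ← h6]
    rw [Finset.sum_smul]
    conv_lhs => rw [← h5]
    exact Finset.sum_congr rfl fun i _ => by rw [← ht i, smul_smul]
  have h9 := congrFun h4 1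
  rw [Pi.smul_apply, smul_eq_mul, kap_one] at h9
  have h10 : (∑ i, kap K i * t i) = 1 := by
    have : pT K * (∑ i, kap K i * t i) = pT K * 1 := by linear_combination -h9
    exact mul_left_cancel₀ pT_ne this
  have h11 := congrArg constantCoeff h10
  rw [map_sum] at h11
  simp only [map_mul, kap_const, zero_mul, Finset.sum_const_zero, map_one] at h11
  exact zero_ne_one h11

lemma not_pdLT_one : ¬ PdLT (S3 K) (logDer (A7 K)) 1 := fun h =>
  not_projective (projective_of_pdLT_one h)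

end Pool.Agent.R833.Ex7
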