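import Pool.Agent.R228.GL.K1

/-!
GL-K2: the heat semigroup on `L²` in Fourier variables.  For fixed `x`, Plancherel is applied to
`y ↦ conj (ker (x - y))` and `g`.
-/

set_option autoImplicit false

namespace R833.GLK2

open MeasureTheory Filter Set Pool.Agent.R228.GL
open Complex FourierTransform SchwartzMap
open scoped ENNReal Topology FourierTransform ContDiff

section inv

variable {V : Type*} [NormedAddCommGroup V] [InnerProductSpace ℝ V] [MeasurableSpace V]
  [BorelSpace V] [FiniteDimensional ℝ V]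

lemma fourier_ae_eq (f : V → ℂ) (h1 : Integrable f) (h2 : MemLp f 2) :
    ((𝓕 (h2.toLp f) : Lp ℂ 2 (volume : Measure V)) : V → ℂ) =ᵐ[volume] 𝓕 f := by
  have hcont : Continuous (𝓕 f) := by
    have := VectorFourier.fourierIntegral_continuous (L := innerₗ V) Real.continuous_fourierChar
      continuous_inner h1
    exact this
  apply ae_eq_of_integral_contDiff_smul_eq
  · exact (Lp.memLp _).locallyIntegrable (by norm_num)
  · exact hcont.locallyIntegrable
  · intro g g_smooth g_cpt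
    have hg₁ : HasCompactSupport (Complex.ofRealCLM ∘ g) := g_cpt.comp_left rfl
    have hg₂ : ContDiff ℝ ∞ (Complex.ofRealCLM ∘ g) := by fun_prop
    set gS : 𝓢(V, ℂ) := hg₁.toSchwartzMap hg₂ with hgS
    have hgx : ∀ x, gS x = (g x : ℂ) := fun x => rfl
    have e1 : ∫ x, g x • ((𝓕 (h2.toLp f) : Lp ℂ 2 (volume : Measure V)) : V → ℂ) x =
        ((𝓕 (h2.toLp f) : Lp ℂ 2 (volume : Measure V)) : 𝓢'(V, ℂ)) gS := by
      rw [Lp.toTemperedDistribution_apply]
      simp [hgx]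
    rw [e1, ← Lp.fourier_toTemperedDistribution_eq, TemperedDistribution.fourier_apply,
      Lp.toTemperedDistribution_apply]
    have e2 : ∫ x, (𝓕 gS) x • (h2.toLp f : V → ℂ) x = ∫ x, (𝓕 gS) x • f x := by
      apply integral_congr_ae
      filter_upwards [h2.coeFn_toLp] with x hx
      rw [hx]
    rw [e2]
    have e3 := VectorFourier.integral_fourierIntegral_smul_eq_flip (L := innerₗ V)
      Real.continuous_fourierChar continuous_inner gS.integrable h1 (μ := volume) (ν := volume)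
    simp only [flip_innerₗ] at e3
    have e4 : ∫ x, (𝓕 gS) x • f x = ∫ x, gS x • (𝓕 f) x := by
      rw [SchwartzMap.fourier_coe]
      exact e3
    rw [e4]
    simp [hgx]

lemma fourierInv_ae_eq (f : V → ℂ) (h1 : Integrable f) (h2 : MemLp f 2) :
    ((𝓕⁻ (h2.toLp f) : Lp ℂ 2 (volume : Measure V)) : V → ℂ) =ᵐ[volume] 𝓕⁻ f := by
  have hcont : Continuous (𝓕⁻ f) := by
    have h := VectorFourier.fourierIntegral_continuous (L := innerₗ V) Real.continuous_fourierChar
      continuous_inner h1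
    have h' : Continuous (𝓕 f) := h
    have e : (𝓕⁻ f) = fun x => 𝓕 f (-x) := by
      funext x
      exact Real.fourierInv_eq_fourier_neg f x
    rw [e]
    exact h'.comp continuous_neg
  apply ae_eq_of_integral_contDiff_smul_eq
  · exact (Lp.memLp _).locallyIntegrable (by norm_num)
  · exact hcont.locallyIntegrable
  · intro g g_smooth g_cpt
    have hg₁ : HasCompactSupport (Complex.ofRealCLM ∘ g) := g_cpt.comp_left rfl
    have hg₂ : ContDiff ℝ ∞ (Complex.ofRealCLM ∘ g) := by fun_prop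
    set gS : 𝓢(V, ℂ) := hg₁.toSchwartzMap hg₂ with hgS
    have hgx : ∀ x, gS x = (g x : ℂ) := fun x => rfl
    have e1 : ∫ x, g x • ((𝓕⁻ (h2.toLp f) : Lp ℂ 2 (volume : Measure V)) : V → ℂ) x =
        ((𝓕⁻ (h2.toLp f) : Lp ℂ 2 (volume : Measure V)) : 𝓢'(V, ℂ)) gS := by
      rw [Lp.toTemperedDistribution_apply]
      simp [hgx]
    rw [e1, ← Lp.fourierInv_toTemperedDistribution_eq, TemperedDistribution.fourierInv_apply,
      Lp.toTemperedDistribution_apply]
    have e2 : ∫ x, (𝓕⁻ gS) x • (h2.toLp f : V → ℂ) x = ∫ x, (𝓕⁻ gS) x • f x := by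
      apply integral_congr_ae
      filter_upwards [h2.coeFn_toLp] with x hx
      rw [hx]
    rw [e2]
    have h1' : Integrable (fun x => f (-x)) := h1.comp_neg
    have e3 := VectorFourier.integral_fourierIntegral_smul_eq_flip (L := innerₗ V)
      Real.continuous_fourierChar continuous_inner gS.integrable h1' (μ := volume) (ν := volume)
    simp only [flip_innerₗ] at e3
    have e5 : ∫ x, (𝓕 (gS : V → ℂ)) x • f (-x) = ∫ x, gS x • (𝓕 (fun x => f (-x))) x := e3
    have e4 : ∫ x, (𝓕⁻ gS) x • f x = ∫ x, gS x • (𝓕⁻ f) x := by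
      rw [SchwartzMap.fourierInv_coe]
      have a1 : ∀ x, (𝓕⁻ (gS : V → ℂ)) x = (𝓕 (gS : V → ℂ)) (-x) :=
        fun x => Real.fourierInv_eq_fourier_neg _ x
      have a2 : (𝓕⁻ f) = 𝓕 (fun x => f (-x)) := Real.fourierInv_eq_fourier_comp_neg f
      rw [a2, ← e5]
      rw [← integral_neg_eq_self]
      apply integral_congr_ae
      filter_upwards with x
      rw [a1, neg_neg]
    rw [e4]
    simp [hgx]

end inv

/-- the multiplier -/
noncomputable def mm (N : ℕ) (θ t : ℝ) (ξ : E N) : ℂ :=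
  Complex.exp (-(zc θ * (t : ℂ) * ((aa ξ : ℝ) : ℂ)))

lemma zc_ne (θ : ℝ) : zc θ ≠ 0 := Complex.exp_ne_zero _

lemma zc_re (θ : ℝ) : (zc θ).re = Real.cos θ := by
  unfold zc
  rw [Complex.exp_ofReal_mul_I_re]

lemma zc_inv_re (θ : ℝ) : ((zc θ)⁻¹).re = Real.cos θ := by
  have h2 : (zc θ)⁻¹ = Complex.exp (((-θ : ℝ) : ℂ) * Complex.I) := by
    unfold zc
    rw [← Complex.exp_neg]
    congr 1
    push_cast; ring
  rw [h2, Complex.exp_ofReal_mul_I_re, Real.cos_neg]

lemma mm_cont (N : ℕ) (θ t : ℝ) : Continuous (mm N θ t) := by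
  unfold mm aa
  fun_prop

lemma norm_mm (N : ℕ) (θ t : ℝ) (ξ : E N) :
    ‖mm N θ t ξ‖ = Real.exp (-(4 * Real.pi ^ 2 * t * Real.cos θ) * ‖ξ‖ ^ 2) := by
  unfold mm aa
  rw [Complex.norm_exp]
  congr 1
  have : (-(zc θ * (t : ℂ) * ((4 * Real.pi ^ 2 * ‖ξ‖ ^ 2 : ℝ) : ℂ))) =
      ((-(t * (4 * Real.pi ^ 2 * ‖ξ‖ ^ 2)) : ℝ) : ℂ) * zc θ := by
    push_cast; ring
  rw [this, Complex.re_ofReal_mul, zc_re]
  ring

lemma fourier_ker (N : ℕ) (θ t : ℝ) (hc : 0 < Real.cos θ) (ht : 0 < t) (ξ : E N) :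
    𝓕 (ker N θ t) ξ = mm N θ t ξ := by
  set b : ℂ := 1 / (4 * (t : ℂ) * zc θ) with hb
  have ht' : (t : ℂ) ≠ 0 := by exact_mod_cast ht.ne'
  have hz := zc_ne θ
  have hbre : 0 < b.re := by
    have : b = ((1 / (4 * t) : ℝ) : ℂ) * (zc θ)⁻¹ := by
      rw [hb]; push_cast; field_simp
    rw [this, Complex.re_ofReal_mul, zc_inv_re]
    positivity
  have hk : ker N θ t = fun x : E N => (4 * (Real.pi : ℂ) * (t : ℂ) * zc θ) ^ (-(N : ℂ) / 2) •
      Complex.exp (-b * (‖x‖ : ℂ) ^ 2) := by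
    funext x
    unfold Pool.Agent.R228.GL.ker
    rw [smul_eq_mul]
    congr 2
    rw [hb]; push_cast; field_simp
  have hF := fourier_gaussian_innerProductSpace (V := E N) hbre ξ
  have hF2 : 𝓕 (ker N θ t) ξ = (4 * (Real.pi : ℂ) * (t : ℂ) * zc θ) ^ (-(N : ℂ) / 2) •
      𝓕 (fun x : E N => Complex.exp (-b * (‖x‖ : ℂ) ^ 2)) ξ := by
    rw [hk]
    rw [Real.fourier_eq, Real.fourier_eq, ← integral_smul]
    apply integral_congr_ae
    filter_upwards with x
    rw [smul_comm]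
  rw [hF2, hF, smul_eq_mul, ← mul_assoc]
  have hfr : ((Module.finrank ℝ (E N) : ℂ) / 2) = (N : ℂ) / 2 := by simp
  rw [hfr]
  have hpb : (Real.pi : ℂ) / b = 4 * (Real.pi : ℂ) * (t : ℂ) * zc θ := by
    rw [hb]; field_simp
  have hne : 4 * (Real.pi : ℂ) * (t : ℂ) * zc θ ≠ 0 := by
    have hpi : (Real.pi : ℂ) ≠ 0 := by exact_mod_cast Real.pi_ne_zero
    exact mul_ne_zero (mul_ne_zero (mul_ne_zero (by norm_num) hpi) ht') hz
  rw [hpb, neg_div, Complex.cpow_neg, inv_mul_cancel₀ (by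
    rw [Complex.cpow_ne_zero_iff]; left; exact hne), one_mul]
  unfold mm aa
  congr 1
  rw [hb]; push_cast; field_simp

/-- `y ↦ conj (ker (x - y))` -/
noncomputable def kx (N : ℕ) (θ t : ℝ) (x y : E N) : ℂ :=
  (starRingEnd ℂ) (Pool.Agent.R228.GL.ker N θ t (x - y))

lemma kx_cont (N : ℕ) (θ t : ℝ) (x : E N) : Continuous (kx N θ t x) := by
  unfold kx
  exact Complex.continuous_conj.comp ((K1aux.cont_ker N θ t).comp (by fun_prop))

lemma kx_int (N : ℕ) (θ t : ℝ) (hi : Integrable (Pool.Agent.R228.GL.ker N θ t)) (x : E N) :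
    Integrable (kx N θ t x) := by
  have h := (hi.comp_sub_left x).norm
  rw [← integrable_norm_iff (kx_cont N θ t x).aestronglyMeasurable]
  refine h.congr ?_
  filter_upwards with y
  unfold kx
  rw [RCLike.norm_conj]

lemma kx_memLp (N : ℕ) (θ t : ℝ) (hc : 0 < Real.cos θ) (ht : 0 < t) (x : E N) :
    MemLp (kx N θ t x) 2 (volume : Measure (E N)) := by
  rw [memLp_two_iff_integrable_sq_norm (kx_cont N θ t x).aestronglyMeasurable]
  obtain ⟨g1, _⟩ := K1aux.gauss N (b := 2 * (Real.cos θ / (4 * t))) (by positivity)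
  have h := (g1.comp_sub_left x).const_mul (((4 * Real.pi * t) ^ (-(N : ℝ) / 2)) ^ 2)
  refine h.congr ?_
  filter_upwards with y
  unfold kx
  rw [RCLike.norm_conj, K1aux.norm_ker N θ t ht, mul_pow, ← Real.exp_nat_mul]
  congr 2
  push_cast
  ring

lemma mm_memLp (N : ℕ) (θ t : ℝ) (hc : 0 < Real.cos θ) (ht : 0 < t) :
    MemLp (mm N θ t) 2 (volume : Measure (E N)) := by
  rw [memLp_two_iff_integrable_sq_norm (mm_cont N θ t).aestronglyMeasurable]
  obtain ⟨g1, _⟩ := K1aux.gauss N (b := 2 * (4 * Real.pi ^ 2 * t * Real.cos θ)) (by positivity)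
  refine g1.congr ?_
  filter_upwards with y
  rw [norm_mm, ← Real.exp_nat_mul]
  congr 1
  push_cast
  ring

lemma norm_mm_le (N : ℕ) (θ t : ℝ) (hc : 0 < Real.cos θ) (ht : 0 < t) (ξ : E N) :
    ‖mm N θ t ξ‖ ≤ 1 := by
  rw [norm_mm, Real.exp_le_one_iff]
  have : 0 ≤ (4 * Real.pi ^ 2 * t * Real.cos θ) * ‖ξ‖ ^ 2 := by positivity
  linarith

lemma fourier_kx (N : ℕ) (θ t : ℝ) (hc : 0 < Real.cos θ) (ht : 0 < t) (x ξ : E N) :
    𝓕 (kx N θ t x) ξ =
      (starRingEnd ℂ) ((Real.fourierChar (inner ℝ x ξ) : ℂ) * mm N θ t ξ) := by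
  rw [← fourier_ker N θ t hc ht ξ, Real.fourier_eq, Real.fourier_eq]
  have e1 : ∫ y : E N, (Real.fourierChar (-inner ℝ y ξ)) • kx N θ t x y =
      ∫ y : E N, (Real.fourierChar (-inner ℝ (x - y) ξ)) •
        (starRingEnd ℂ) (Pool.Agent.R228.GL.ker N θ t y) := by
    rw [← integral_sub_left_eq_self (fun y : E N => (Real.fourierChar (-inner ℝ (x - y) ξ)) •
        (starRingEnd ℂ) (Pool.Agent.R228.GL.ker N θ t y)) volume x]
    apply integral_congr_ae
    filter_upwards with y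
    unfold kx
    rw [sub_sub_cancel]
  rw [e1, map_mul, ← integral_conj, ← integral_const_mul]
  apply integral_congr_ae
  filter_upwards with y
  rw [Circle.smul_def, Circle.smul_def, smul_eq_mul, smul_eq_mul, map_mul, ← mul_assoc]
  congr 1
  rw [← Circle.coe_inv_eq_conj, ← Circle.coe_inv_eq_conj, ← Circle.coe_mul]
  congr 1
  rw [← AddChar.map_neg_eq_inv, ← AddChar.map_neg_eq_inv, ← AddChar.map_add_eq_mul]
  congr 1
  rw [inner_sub_left]
  ring

theorem k2 : S_K2 := by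
  intro N θ t h0 h1 ht g hg
  have hc : 0 < Real.cos θ := Real.cos_pos_of_mem_Ioo ⟨by linarith [Real.pi_pos], h1⟩
  have hi : Integrable (Pool.Agent.R228.GL.ker N θ t) := by
    obtain ⟨⟨c0, _, h⟩, _⟩ := k1 N θ h0 h1
    exact (h t ht).1
  set G : H N := hg.toLp g with hG
  set G' : H N := (𝓕 G : H N) with hG'
  have hG'm : MemLp (G' : E N → ℂ) 2 (volume : Measure (E N)) := Lp.memLp G'
  set h : E N → ℂ := fun ξ => mm N θ t ξ * G' ξ with hh
  have h1' : Integrable h := (mm_memLp N θ t hc ht).integrable_mul hG'm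
  have h2' : MemLp h 2 (volume : Measure (E N)) := by
    refine hG'm.of_le ((mm_cont N θ t).aestronglyMeasurable.mul hG'm.aestronglyMeasurable) ?_
    filter_upwards with ξ
    rw [hh]
    simp only [norm_mul]
    exact mul_le_of_le_one_left (norm_nonneg _) (norm_mm_le N θ t hc ht ξ)
  refine ⟨(𝓕⁻ (h2'.toLp h) : H N), ?_, ?_⟩
  · have e : (𝓕 (𝓕⁻ (h2'.toLp h) : H N) : H N) = h2'.toLp h :=
      FourierInvPair.fourier_fourierInv_eq _
    rw [e]
    filter_upwards [h2'.coeFn_toLp] with ξ hξ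
    rw [hξ]
    rfl
  · filter_upwards [fourierInv_ae_eq h h1' h2'] with x hx
    rw [hx]
    have hkm := kx_memLp N θ t hc ht x
    have hki := kx_int N θ t hi x
    have a1 : inner ℂ (hkm.toLp (kx N θ t x)) G = ∫ y, Pool.Agent.R228.GL.ker N θ t (x - y) * g y := by
      rw [L2.inner_def]
      apply integral_congr_ae
      filter_upwards [hkm.coeFn_toLp, hg.coeFn_toLp] with y h3 h4
      rw [h3, hG, h4]
      unfold kx
      simp [mul_comm]
    have a2 : inner ℂ (𝓕 (hkm.toLp (kx N θ t x)) : H N) G' = 𝓕⁻ h x := by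
      rw [L2.inner_def, Real.fourierInv_eq]
      apply integral_congr_ae
      filter_upwards [fourier_ae_eq (kx N θ t x) hki hkm] with ξ h3
      rw [h3, fourier_kx N θ t hc ht]
      rw [hh, Circle.smul_def, real_inner_comm]
      simp
      ring
    rw [← a2, ← a1]
    exact Lp.inner_fourier_eq _ _

end R833.GLK2
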