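import Mathlib
import Pool.Agent.R833.Tame3

set_option autoImplicit false
set_option linter.unusedSectionVars false

/-!
# Hilbert series of quotients by regular sequences
-/

namespace Pool.Agent.R833.HF

open MvPolynomial Pool.Agent.R833 Pool.Agent.R833.TM

variable {K : Type*} [Field K] {l : ℕ}

/-- forms of degree `i` -/
noncomputable abbrev W (K : Type*) [Field K] (l i : ℕ) : Submodule K (MvPolynomial (Fin l) K) :=
  homogeneousSubmodule (Fin l) K i

instance (i : ℕ) : FiniteDimensional K (W K l i) :=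
  Module.Finite.iff_fg.2 (homogeneousSubmodule_fg (Fin l) K i)

theorem finrank_W (l n : ℕ) :
    Module.finrank K (W K (l + 1) n) = (l + n).choose l := by
  have h1 : homogeneousSubmodule (Fin (l + 1)) K n =
      restrictSupport K {d : Fin (l + 1) →₀ ℕ | d.degree = n} :=
    homogeneousSubmodule_eq_finsupp_supported (R := K) (σ := Fin (l + 1)) n
  rw [W, h1, Module.finrank_eq_nat_card_basis
    (basisRestrictSupport K {d : Fin (l + 1) →₀ ℕ | d.degree = n})]
  have e : {d : Fin (l + 1) →₀ ℕ | d.degree = n} ≃ Sym (Fin (l + 1)) n :=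
    (Equiv.subtypeEquivRight (fun d => Iff.rfl)).trans
      (Sym.equivNatSum (Fin (l + 1)) n).symm
  rw [Nat.card_congr e, Nat.card_eq_fintype_card, Sym.card_sym_eq_choose, Fintype.card_fin]
  have : l + 1 + n - 1 = l + n := by omega
  rw [this, ← Nat.choose_symm_add]

/-- the dimension of the part of degree `i` of the quotient by `I` -/
noncomputable def hq (I : Ideal (MvPolynomial (Fin l) K)) (i : ℕ) : ℕ :=
  Module.finrank K (W K l i ⧸ (I.restrictScalars K).comap (W K l i).subtype)

/-- the dimension of the part of degree `i` of `I` -/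
noncomputable def hI (I : Ideal (MvPolynomial (Fin l) K)) (i : ℕ) : ℕ :=
  Module.finrank K ↥(W K l i ⊓ I.restrictScalars K)

lemma hq_add (I : Ideal (MvPolynomial (Fin l) K)) (i : ℕ) :
    hq I i + hI I i = Module.finrank K (W K l i) := by
  have h1 := Submodule.finrank_quotient_add_finrank
    ((I.restrictScalars K).comap (W K l i).subtype)
  have h2 : Module.finrank K ↥((I.restrictScalars K).comap (W K l i).subtype) = hI I i := by
    unfold hI
    rw [← Submodule.map_comap_subtype]
    exact (LinearEquiv.finrank_eq (Submodule.equivMapOfInjective _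
      (Submodule.injective_subtype _) _))
  rw [← h1, h2]
  rfl

/-- closed under homogeneous components -/
def HomI (I : Ideal (MvPolynomial (Fin l) K)) : Prop :=
  ∀ f ∈ I, ∀ i, homogeneousComponent i f ∈ I

lemma homI_bot : HomI (⊥ : Ideal (MvPolynomial (Fin l) K)) := by
  intro f hf i
  rw [Ideal.mem_bot] at hf
  rw [hf, map_zero]
  exact Ideal.zero_mem _

/-- component of a product with a homogeneous polynomial -/
lemma component_mul2 {a b : MvPolynomial (Fin l) K} {δ : ℕ} (D : ℕ) (hb : b.IsHomogeneous δ) :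
    homogeneousComponent D (a * b) =
      (if δ ≤ D then homogeneousComponent (D - δ) a else 0) * b := by
  split_ifs with h
  · obtain ⟨e, rfl⟩ := Nat.exists_eq_add_of_le' h
    rw [component_mul hb, Nat.add_sub_cancel]
  · rw [← gr_coeff, map_mul, gr_of_homogeneous hb, zero_mul, Polynomial.coeff_mul]
    apply Finset.sum_eq_zero
    intro x hx
    rw [Finset.HasAntidiagonal.mem_antidiagonal] at hx
    rw [Polynomial.coeff_monomial, if_neg (by omega), mul_zero]

lemma homI_sup {I : Ideal (MvPolynomial (Fin l) K)} (hI : HomI I) {f : MvPolynomial (Fin l) K}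
    {d : ℕ} (hf : f.IsHomogeneous d) : HomI (Ideal.span {f} ⊔ I) := by
  intro g hg i
  rw [Ideal.mem_span_singleton_sup] at hg
  obtain ⟨a, b, hb, rfl⟩ := hg
  rw [map_add, component_mul2 i hf]
  refine Ideal.add_mem _ ?_ (Ideal.mem_sup_right (hI b hb i))
  exact Ideal.mul_mem_left _ _ (Ideal.mem_sup_left (Ideal.mem_span_singleton_self f))

lemma component_self {f : MvPolynomial (Fin l) K} {i : ℕ} (hf : f ∈ W K l i) :
    homogeneousComponent i f = f := by
  rw [homogeneousComponent_of_mem hf, if_pos rfl]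

/-- multiplication by `f` -/
noncomputable def mulf (f : MvPolynomial (Fin l) K) :
    MvPolynomial (Fin l) K →ₗ[K] MvPolynomial (Fin l) K :=
  (LinearMap.mulLeft K f)

lemma mulf_apply (f g : MvPolynomial (Fin l) K) : mulf f g = f * g := rfl

lemma mulf_injective {f : MvPolynomial (Fin l) K} (hf : f ≠ 0) : Function.Injective (mulf f) :=
  fun _ _ h => mul_left_cancel₀ hf h

/-- low degrees -/
lemma hI_low {I : Ideal (MvPolynomial (Fin l) K)} (hhom : HomI I) {f : MvPolynomial (Fin l) K}
    {d : ℕ} (hf : f.IsHomogeneous d) {i : ℕ} (hi : i < d) :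
    hI (Ideal.span {f} ⊔ I) i = hI I i := by
  unfold hI
  have h : W K l i ⊓ (Ideal.span {f} ⊔ I).restrictScalars K =
      W K l i ⊓ I.restrictScalars K := by
    apply le_antisymm
    · rintro g ⟨hg1, hg2⟩
      refine ⟨hg1, ?_⟩
      have hg3 : g ∈ Ideal.span {f} ⊔ I := hg2
      rw [Ideal.mem_span_singleton_sup] at hg3
      obtain ⟨a, b, hb, hab⟩ := hg3
      have h1 := component_self hg1
      rw [← hab, map_add, component_mul2 i hf, if_neg (by omega), zero_mul, zero_add] at h1
      change g ∈ I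
      rw [← hab, ← h1]
      exact hhom b hb i
    · rintro g ⟨hg1, hg2⟩
      refine ⟨hg1, ?_⟩
      have hg3 : g ∈ I := hg2
      change g ∈ Ideal.span {f} ⊔ I
      exact Ideal.mem_sup_right hg3
  rw [h]

/-- high degrees -/
lemma hI_high {I : Ideal (MvPolynomial (Fin l) K)} (hhom : HomI I) {f : MvPolynomial (Fin l) K}
    {d : ℕ} (hf : f.IsHomogeneous d) (hf0 : f ≠ 0) (hreg : ∀ g, f * g ∈ I → g ∈ I) (i : ℕ) :
    hI (Ideal.span {f} ⊔ I) (i + d) + hI I i = hI I (i + d) + Module.finrank K (W K l i) := by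
  have h1 : W K l (i + d) ⊓ (Ideal.span {f} ⊔ I).restrictScalars K =
      (W K l (i + d) ⊓ I.restrictScalars K) ⊔ (W K l i).map (mulf f) := by
    apply le_antisymm
    · rintro g ⟨hg1, hg2⟩
      have hg3 : g ∈ Ideal.span {f} ⊔ I := hg2
      rw [Ideal.mem_span_singleton_sup] at hg3
      obtain ⟨a, b, hb, hab⟩ := hg3
      have h1 := component_self hg1
      rw [← hab, map_add, component_mul2 (i + d) hf, if_pos (by omega), Nat.add_sub_cancel] at h1
      rw [Submodule.mem_sup]
      refine ⟨homogeneousComponent (i + d) b, ⟨homogeneousComponent_isHomogeneous _ _,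
        hhom b hb _⟩, f * homogeneousComponent i a,
        ⟨homogeneousComponent i a, homogeneousComponent_isHomogeneous _ _, rfl⟩, ?_⟩
      rw [← hab, ← h1]
      ring
    · rw [sup_le_iff]
      constructor
      · rintro g ⟨hg1, hg2⟩
        refine ⟨hg1, ?_⟩
        have hg3 : g ∈ I := hg2
        change g ∈ Ideal.span {f} ⊔ I
        exact Ideal.mem_sup_right hg3
      · rintro _ ⟨g, hg, rfl⟩
        refine ⟨?_, ?_⟩
        · have hg' : g.IsHomogeneous i := hg
          have := hg'.mul hf
          rw [mulf_apply, mul_comm]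
          exact this
        · change f * g ∈ Ideal.span {f} ⊔ I
          exact Ideal.mem_sup_left (Ideal.mul_mem_right _ _ (Ideal.mem_span_singleton_self f))
  have h2 : (W K l (i + d) ⊓ I.restrictScalars K) ⊓ (W K l i).map (mulf f) =
      (W K l i ⊓ I.restrictScalars K).map (mulf f) := by
    apply le_antisymm
    · rintro _ ⟨⟨hg1, hg2⟩, ⟨g, hg, rfl⟩⟩
      exact ⟨g, ⟨hg, hreg g hg2⟩, rfl⟩
    · rintro _ ⟨g, ⟨hg1, hg2⟩, rfl⟩
      refine ⟨⟨?_, ?_⟩, ⟨g, hg1, rfl⟩⟩
      · have hg' : g.IsHomogeneous i := hg1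
        have := hg'.mul hf
        rw [mulf_apply, mul_comm]
        exact this
      · change f * g ∈ I
        exact Ideal.mul_mem_left _ _ hg2
  have h3 := Submodule.finrank_sup_add_finrank_inf_eq
    (W K l (i + d) ⊓ I.restrictScalars K) ((W K l i).map (mulf f))
  rw [← h1, h2] at h3
  have h4 : Module.finrank K ↥((W K l i).map (mulf f)) = Module.finrank K (W K l i) :=
    (LinearEquiv.finrank_eq (Submodule.equivMapOfInjective _ (mulf_injective hf0) _)).symm
  have h5 : Module.finrank K ↥((W K l i ⊓ I.restrictScalars K).map (mulf f)) = hI I i :=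
    (LinearEquiv.finrank_eq (Submodule.equivMapOfInjective _ (mulf_injective hf0) _)).symm
  rw [h4, h5] at h3
  exact h3

/-- the Hilbert series of the quotient by `I` -/
noncomputable def HS (I : Ideal (MvPolynomial (Fin l) K)) : PowerSeries ℚ :=
  PowerSeries.mk fun i => (hq I i : ℚ)

theorem HS_step {I : Ideal (MvPolynomial (Fin l) K)} (hhom : HomI I)
    {f : MvPolynomial (Fin l) K} {d : ℕ} (hf : f.IsHomogeneous d) (hf0 : f ≠ 0)
    (hreg : ∀ g, f * g ∈ I → g ∈ I) :
    HS (Ideal.span {f} ⊔ I) = (1 - PowerSeries.X ^ d) * HS I := by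
  ext n
  rw [sub_mul, one_mul, map_sub, PowerSeries.coeff_X_pow_mul']
  simp only [HS, PowerSeries.coeff_mk]
  have e1 := hq_add I n
  have e2 := hq_add (Ideal.span {f} ⊔ I) n
  split_ifs with h
  · obtain ⟨i, rfl⟩ := Nat.exists_eq_add_of_le' h
    rw [Nat.add_sub_cancel]
    have e3 := hI_high hhom hf hf0 hreg i
    have e4 := hq_add I i
    have e5 : hq (Ideal.span {f} ⊔ I) (i + d) + hq I i = hq I (i + d) := by omega
    rw [← e5]
    push_cast
    ring
  · have e3 := hI_low hhom hf (by omega : n < d)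
    have e5 : hq (Ideal.span {f} ⊔ I) n = hq I n := by omega
    rw [e5, sub_zero]

theorem HS_bot (l : ℕ) : HS (⊥ : Ideal (MvPolynomial (Fin (l + 1)) K)) *
    (1 - PowerSeries.X) ^ (l + 1) = 1 := by
  have h : HS (⊥ : Ideal (MvPolynomial (Fin (l + 1)) K)) =
      PowerSeries.mk (fun n => (Nat.choose (l + n) l : ℚ)) := by
    ext n
    simp only [HS, PowerSeries.coeff_mk]
    have e1 := hq_add (⊥ : Ideal (MvPolynomial (Fin (l + 1)) K)) n
    have e2 : hI (⊥ : Ideal (MvPolynomial (Fin (l + 1)) K)) n = 0 := by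
      unfold hI
      have : W K (l + 1) n ⊓ (⊥ : Ideal (MvPolynomial (Fin (l + 1)) K)).restrictScalars K = ⊥ := by
        rw [eq_bot_iff]
        rintro g ⟨_, hg⟩
        exact hg
      rw [this]
      exact finrank_bot K _
    rw [e2, finrank_W] at e1
    have e3 : hq (⊥ : Ideal (MvPolynomial (Fin (l + 1)) K)) n = (l + n).choose l := by omega
    rw [e3]
  rw [h]
  exact PowerSeries.mk_add_choose_mul_one_sub_pow_eq_one ℚ l

end Pool.Agent.R833.HF
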