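import Mathlib

set_option autoImplicit false
set_option linter.unusedSectionVars false

/-!
# Homogeneous differential operators preserving an ideal `QS`
-/

namespace Pool.Agent.R833.HO

open MvPolynomial

variable {σ : Type*} [Fintype σ] [DecidableEq σ] {K : Type*} [Field K]

/-- the iterated partial derivative along a list of indices -/
noncomputable def dlist : List σ → (MvPolynomial σ K →ₗ[K] MvPolynomial σ K)
  | [] => LinearMap.id
  | i :: l => dlist l ∘ₗ (pderiv i).toLinearMap

variable (σ K) in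
/-- differential operators, homogeneous of order `m`, with coefficients in the polynomial ring -/
noncomputable def DiffOp (m : ℕ) :
    Submodule (MvPolynomial σ K) (MvPolynomial σ K →ₗ[K] MvPolynomial σ K) :=
  Submodule.span _ {θ | ∃ l : List σ, l.length = m ∧ θ = dlist l}

/-- operators of order `m` preserving the ideal generated by `Q` -/
noncomputable def Dm (m : ℕ) (Q : MvPolynomial σ K) :
    Submodule (MvPolynomial σ K) (MvPolynomial σ K →ₗ[K] MvPolynomial σ K) where
  carrier := {θ | θ ∈ DiffOp σ K m ∧ ∀ f, Q ∣ θ (Q * f)}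
  add_mem' := fun ha hb => ⟨Submodule.add_mem _ ha.1 hb.1, fun f => dvd_add (ha.2 f) (hb.2 f)⟩
  zero_mem' := ⟨Submodule.zero_mem _, fun _ => dvd_zero _⟩
  smul_mem' := fun c _ hx => ⟨Submodule.smul_mem _ c hx.1, fun f => Dvd.dvd.mul_left (hx.2 f) c⟩

/-- the commutator of an operator with the multiplication by `a` -/
noncomputable def cmp (a : MvPolynomial σ K) (θ : MvPolynomial σ K →ₗ[K] MvPolynomial σ K) :
    MvPolynomial σ K →ₗ[K] MvPolynomial σ K :=
  θ ∘ₗ LinearMap.mulLeft K a - a • θ

lemma cmp_apply (a : MvPolynomial σ K) (θ : MvPolynomial σ K →ₗ[K] MvPolynomial σ K)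
    (f : MvPolynomial σ K) : cmp a θ f = θ (a * f) - a * θ f := rfl

lemma dlist_cons (i : σ) (l : List σ) (f : MvPolynomial σ K) :
    dlist (i :: l) f = dlist l (pderiv i f) := rfl

lemma comp_mem {k : ℕ} {θ : MvPolynomial σ K →ₗ[K] MvPolynomial σ K} (hθ : θ ∈ DiffOp σ K k)
    (j : σ) : θ ∘ₗ (pderiv j).toLinearMap ∈ DiffOp σ K (k + 1) := by
  unfold DiffOp at hθ
  induction hθ using Submodule.span_induction with
  | mem x hx =>
    obtain ⟨l, hl, rfl⟩ := hx
    exact Submodule.subset_span ⟨j :: l, by simp [hl], rfl⟩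
  | zero => rw [LinearMap.zero_comp]; exact Submodule.zero_mem _
  | add x y _ _ hx hy => rw [LinearMap.add_comp]; exact Submodule.add_mem _ hx hy
  | smul a x _ hx =>
    have : (a • x) ∘ₗ (pderiv j).toLinearMap = a • (x ∘ₗ (pderiv j).toLinearMap) := rfl
    rw [this]
    exact Submodule.smul_mem _ a hx

lemma dlist_mem (l : List σ) : (dlist l : MvPolynomial σ K →ₗ[K] _) ∈ DiffOp σ K l.length :=
  Submodule.subset_span ⟨l, rfl, rfl⟩

lemma cmp_X_cons (i j : σ) (l : List σ) :
    cmp (X i) (dlist (j :: l) : MvPolynomial σ K →ₗ[K] _) =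
      (if i = j then dlist l else 0) + (cmp (X i) (dlist l)) ∘ₗ (pderiv j).toLinearMap := by
  apply LinearMap.ext
  intro f
  have e1 : cmp (X i) (dlist (j :: l) : MvPolynomial σ K →ₗ[K] _) f =
      dlist l (pderiv j (X i * f)) - X i * dlist l (pderiv j f) := rfl
  have e2 : (cmp (X i) (dlist l : MvPolynomial σ K →ₗ[K] _) ∘ₗ (pderiv j).toLinearMap) f =
      dlist l (X i * pderiv j f) - X i * dlist l (pderiv j f) := rfl
  rw [e1, LinearMap.add_apply, e2, Derivation.leibniz, map_add]
  simp only [smul_eq_mul]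
  rw [pderiv_X]
  by_cases h : i = j
  · subst h
    simp only [Pi.single_eq_same, mul_one, if_true]
    ring
  · rw [Pi.single_eq_of_ne (Ne.symm (Ne.symm h)), if_neg h]
    simp

lemma cmp_X_nil (i : σ) : cmp (X i) (dlist [] : MvPolynomial σ K →ₗ[K] _) = 0 := by
  apply LinearMap.ext
  intro f
  rw [cmp_apply]
  exact sub_self _

lemma cmp_X_dlist (i : σ) : ∀ (l : List σ) (j : σ),
    cmp (X i) (dlist (j :: l) : MvPolynomial σ K →ₗ[K] _) ∈ DiffOp σ K l.length
  | [], j => by
    rw [cmp_X_cons, cmp_X_nil, LinearMap.zero_comp, add_zero]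
    split_ifs
    · exact dlist_mem []
    · exact Submodule.zero_mem _
  | k :: l, j => by
    rw [cmp_X_cons]
    refine Submodule.add_mem _ ?_ (comp_mem (cmp_X_dlist i l k) j)
    split_ifs
    · exact dlist_mem _
    · exact Submodule.zero_mem _

lemma cmp_add (a : MvPolynomial σ K) (x y : MvPolynomial σ K →ₗ[K] MvPolynomial σ K) :
    cmp a (x + y) = cmp a x + cmp a y := by
  apply LinearMap.ext
  intro f
  simp only [cmp_apply, LinearMap.add_apply]
  ring

lemma cmp_smul (a c : MvPolynomial σ K) (x : MvPolynomial σ K →ₗ[K] MvPolynomial σ K) :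
    cmp a (c • x) = c • cmp a x := by
  apply LinearMap.ext
  intro f
  simp only [cmp_apply, LinearMap.smul_apply, smul_eq_mul]
  ring

lemma cmp_X_mem (i : σ) {k : ℕ} {θ : MvPolynomial σ K →ₗ[K] MvPolynomial σ K}
    (hθ : θ ∈ DiffOp σ K (k + 1)) : cmp (X i) θ ∈ DiffOp σ K k := by
  have h0 : cmp (X i) (0 : MvPolynomial σ K →ₗ[K] MvPolynomial σ K) = 0 := by
    apply LinearMap.ext
    intro f
    simp [cmp_apply]
  unfold DiffOp at hθ
  induction hθ using Submodule.span_induction with
  | mem x hx =>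
    obtain ⟨l, hl, rfl⟩ := hx
    cases l with
    | nil => simp at hl
    | cons j l =>
      have : l.length = k := by simpa using hl
      rw [← this]
      exact cmp_X_dlist i l j
  | zero => rw [h0]; exact Submodule.zero_mem _
  | add x y _ _ hx hy => rw [cmp_add]; exact Submodule.add_mem _ hx hy
  | smul a x _ hx => rw [cmp_smul]; exact Submodule.smul_mem _ a hx

lemma cmp_lin_mem {a : MvPolynomial σ K} (ha : a ∈ Submodule.span K (Set.range X)) {k : ℕ}
    {θ : MvPolynomial σ K →ₗ[K] MvPolynomial σ K}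
    (hθ : θ ∈ DiffOp σ K (k + 1)) : cmp a θ ∈ DiffOp σ K k := by
  induction ha using Submodule.span_induction with
  | mem x hx =>
    obtain ⟨i, rfl⟩ := hx
    exact cmp_X_mem i hθ
  | zero =>
    have : cmp (0 : MvPolynomial σ K) θ = 0 := by
      apply LinearMap.ext
      intro f
      simp [cmp_apply]
    rw [this]; exact Submodule.zero_mem _
  | add x y _ _ hx hy =>
    have : cmp (x + y) θ = cmp x θ + cmp y θ := by
      apply LinearMap.ext
      intro f
      simp only [cmp_apply, LinearMap.add_apply, add_mul, map_add]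
      ring
    rw [this]; exact Submodule.add_mem _ hx hy
  | smul c x _ hx =>
    have : cmp (c • x) θ = (C c : MvPolynomial σ K) • cmp x θ := by
      apply LinearMap.ext
      intro f
      simp only [cmp_apply, LinearMap.smul_apply, smul_eq_mul]
      rw [smul_mul_assoc, LinearMap.map_smul, smul_mul_assoc, smul_eq_C_mul, smul_eq_C_mul]
      ring
    rw [this]; exact Submodule.smul_mem _ _ hx

lemma dlist_homog : ∀ (l : List σ) {f : MvPolynomial σ K} {n : ℕ}, f.IsHomogeneous n →
    (dlist l f).IsHomogeneous (n - l.length)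
  | [], f, n, hf => by simpa [dlist] using hf
  | i :: l, f, n, hf => by
    rw [dlist_cons]
    have := dlist_homog l (hf.pderiv (i := i))
    rwa [Nat.sub_sub, add_comm] at this

lemma dlist_kill : ∀ (l : List σ) {f : MvPolynomial σ K} {n : ℕ}, f.IsHomogeneous n →
    n < l.length → dlist l f = 0
  | [], f, n, hf, hn => by simp at hn
  | i :: l, f, n, hf, hn => by
    rw [dlist_cons]
    cases n with
    | zero =>
      have h1 : f = C (coeff 0 f) := by
        rw [← totalDegree_eq_zero_iff_eq_C]
        exact Nat.le_zero.1 hf.totalDegree_le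
      rw [h1, pderiv_C, map_zero]
    | succ n => exact dlist_kill l (by simpa using hf.pderiv (i := i)) (by simpa using hn)

lemma diff_kill {k : ℕ} {θ : MvPolynomial σ K →ₗ[K] MvPolynomial σ K}
    (hθ : θ ∈ DiffOp σ K k) {f : MvPolynomial σ K} {n : ℕ} (hf : f.IsHomogeneous n) (hn : n < k) :
    θ f = 0 := by
  unfold DiffOp at hθ
  induction hθ using Submodule.span_induction with
  | mem x hx =>
    obtain ⟨l, hl, rfl⟩ := hx
    exact dlist_kill l hf (by omega)
  | zero => rfl
  | add x y _ _ hx hy => rw [LinearMap.add_apply, hx, hy, add_zero]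
  | smul a x _ hx => rw [LinearMap.smul_apply, hx, smul_zero]

lemma diff_zero {θ : MvPolynomial σ K →ₗ[K] MvPolynomial σ K}
    (hθ : θ ∈ DiffOp σ K 0) (f : MvPolynomial σ K) : θ f = f * θ 1 := by
  unfold DiffOp at hθ
  induction hθ using Submodule.span_induction with
  | mem x hx =>
    obtain ⟨l, hl, rfl⟩ := hx
    rw [List.length_eq_zero_iff] at hl
    subst hl
    exact (mul_one f).symm
  | zero => simp
  | add x y _ _ hx hy => rw [LinearMap.add_apply, hx, hy, LinearMap.add_apply, mul_add]
  | smul a x _ hx => rw [LinearMap.smul_apply, hx, LinearMap.smul_apply, smul_eq_mul, smul_eq_mul,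
      mul_left_comm]

/-- lifting divisibility from the commutators -/
lemma lift_dvd {k : ℕ} {ψ : MvPolynomial σ K →ₗ[K] MvPolynomial σ K}
    (hψ : ψ ∈ DiffOp σ K (k + 1)) {a : MvPolynomial σ K}
    (h : ∀ i f, a ∣ cmp (X i) ψ f) (f : MvPolynomial σ K) : a ∣ ψ f := by
  induction f using MvPolynomial.induction_on with
  | C c =>
    rw [diff_kill hψ (isHomogeneous_C σ c) (Nat.succ_pos k)]
    exact dvd_zero _
  | add p q hp hq => rw [map_add]; exact dvd_add hp hq
  | mul_X p i hp =>
    have h1 := h i p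
    rw [cmp_apply] at h1
    have h2 := dvd_add h1 (Dvd.dvd.mul_left hp (X i))
    rw [sub_add_cancel] at h2
    rwa [mul_comm p]

lemma rigid : ∀ (k : ℕ) {ψ : MvPolynomial σ K →ₗ[K] MvPolynomial σ K},
    ψ ∈ DiffOp σ K k → ∀ {a : MvPolynomial σ K},
    (∀ G : MvPolynomial σ K, G.IsHomogeneous k → a ∣ ψ G) → ∀ f, a ∣ ψ f
  | 0, ψ, hψ, a, h, f => by
    rw [diff_zero hψ]
    exact Dvd.dvd.mul_left (h 1 (isHomogeneous_one σ K)) f
  | k + 1, ψ, hψ, a, h, f => by
    apply lift_dvd hψ
    intro i
    apply rigid k (cmp_X_mem i hψ)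
    intro G hG
    rw [cmp_apply, diff_kill hψ hG (Nat.lt_succ_self k), mul_zero, sub_zero]
    apply h
    rw [add_comm]
    exact (isHomogeneous_X K i).mul hG

/-- an operator preserving `QS` preserves `αS` for every simple prime linear factor of `Q` -/
lemma dvd_lin {α R Q : MvPolynomial σ K} (hQ : Q = α * R) (hp : Prime α) (hR : ¬ α ∣ R)
    (hα : α ∈ Submodule.span K (Set.range X)) : ∀ (m : ℕ)
    {θ : MvPolynomial σ K →ₗ[K] MvPolynomial σ K}, θ ∈ DiffOp σ K m →
    (∀ f, Q ∣ θ (Q * f)) → ∀ f, α ∣ θ (α * f)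
  | 0, θ, hθ, _, f => by
    rw [diff_zero hθ, mul_assoc]
    exact dvd_mul_right _ _
  | m + 1, θ, hθ, h, f => by
    have h1 : ∀ i f, α ∣ cmp (X i) θ (α * f) := by
      intro i
      apply dvd_lin hQ hp hR hα m (cmp_X_mem i hθ)
      intro f
      rw [cmp_apply]
      apply dvd_sub
      · rw [mul_left_comm]
        exact h _
      · exact Dvd.dvd.mul_left (h f) _
    have h2 : ∀ f, α ∣ cmp α θ f := by
      have hψ := cmp_lin_mem hα hθ
      cases m with
      | zero =>
        have h3 : α ∣ R * cmp α θ 1 := by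
          rw [← diff_zero hψ, cmp_apply, ← hQ]
          apply dvd_sub _ (dvd_mul_right _ _)
          have h4 := h 1
          rw [mul_one] at h4
          exact (Dvd.intro R hQ.symm).trans h4
        intro f
        rw [diff_zero hψ]
        exact Dvd.dvd.mul_left ((hp.dvd_or_dvd h3).resolve_left hR) f
      | succ k =>
        apply lift_dvd hψ
        intro i f
        have h3 : cmp (X i) (cmp α θ) f = cmp (X i) θ (α * f) - α * cmp (X i) θ f := by
          simp only [cmp_apply]
          rw [mul_left_comm α (X i) f]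
          ring
        rw [h3]
        exact dvd_sub (h1 i f) (dvd_mul_right _ _)
    have h5 := h2 f
    rw [cmp_apply] at h5
    have h6 := dvd_add h5 (dvd_mul_right α (θ f))
    rwa [sub_add_cancel] at h6

lemma dvd_of_homog {α : MvPolynomial σ K}
    (hα : α ∈ Submodule.span K (Set.range X)) {m : ℕ}
    {θ : MvPolynomial σ K →ₗ[K] MvPolynomial σ K} (hθ : θ ∈ DiffOp σ K (m + 1))
    (h : ∀ G : MvPolynomial σ K, G.IsHomogeneous m → α ∣ θ (α * G)) (f : MvPolynomial σ K) :
    α ∣ θ (α * f) := by
  have h2 : ∀ f, α ∣ cmp α θ f := by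
    apply rigid m (cmp_lin_mem hα hθ)
    intro G hG
    rw [cmp_apply, diff_kill hθ hG (Nat.lt_succ_self m), mul_zero, sub_zero]
    exact h G hG
  have h5 := h2 f
  rw [cmp_apply] at h5
  have h6 := dvd_add h5 (dvd_mul_right α (θ f))
  rwa [sub_add_cancel] at h6

lemma eq_zero_of_dlist [CharZero K] : ∀ (m : ℕ) (F : MvPolynomial σ K), F.IsHomogeneous m →
    (∀ l : List σ, l.length = m → dlist l F = 0) → F = 0
  | 0, F, _, h => h [] rfl
  | m + 1, F, hF, h => by
    have h1 : ∀ i, pderiv i F = 0 := fun i => eq_zero_of_dlist m _ (by simpa using hF.pderiv)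
      (fun l hl => h (i :: l) (by simp [hl]))
    have h2 := hF.sum_X_mul_pderiv
    simp only [h1, mul_zero, Finset.sum_const_zero] at h2
    have h3 : ((m : K) + 1) • F = 0 := by
      rw [h2]
      simp [add_smul, Nat.cast_smul_eq_nsmul]
    rcases smul_eq_zero.1 h3 with h4 | h4
    · exact absurd h4 (Nat.cast_add_one_ne_zero m)
    · exact h4

variable (σ K) in
/-- forms of degree `m` -/
noncomputable abbrev V (m : ℕ) : Submodule K (MvPolynomial σ K) := homogeneousSubmodule σ K m

instance (m : ℕ) : FiniteDimensional K (V σ K m) :=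
  Module.Finite.iff_fg.2 (homogeneousSubmodule_fg σ K m)

/-- restriction of operators to forms of degree `m` -/
noncomputable def res (m : ℕ) : (MvPolynomial σ K →ₗ[K] MvPolynomial σ K) →ₗ[MvPolynomial σ K]
    (V σ K m →ₗ[K] MvPolynomial σ K) where
  toFun := fun θ => θ ∘ₗ (V σ K m).subtype
  map_add' := fun _ _ => rfl
  map_smul' := fun _ _ => rfl

lemma res_apply (m : ℕ) (θ : MvPolynomial σ K →ₗ[K] MvPolynomial σ K) (F : V σ K m) :
    res m θ F = θ F := rfl

/-- the functional given by a list -/
noncomputable def phi (m : ℕ) (l : List σ) : Module.Dual K (V σ K m) :=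
  (lcoeff K 0) ∘ₗ (dlist l) ∘ₗ (V σ K m).subtype

lemma phi_apply (m : ℕ) (l : List σ) (F : V σ K m) : phi m l F = coeff 0 (dlist l (F : _)) := rfl

lemma phi_C (m : ℕ) {l : List σ} (hl : l.length = m) (F : V σ K m) :
    dlist l (F : MvPolynomial σ K) = C (phi m l F) := by
  rw [phi_apply, ← totalDegree_eq_zero_iff_eq_C]
  have := (dlist_homog l ((mem_homogeneousSubmodule m _).1 F.2)).totalDegree_le
  omega

lemma span_phi [CharZero K] (m : ℕ) :
    Submodule.span K {φ : Module.Dual K (V σ K m) | ∃ l : List σ, l.length = m ∧ φ = phi m l} =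
      ⊤ := by
  rw [← Subspace.dualCoannihilator_dualAnnihilator_eq
    (W := Submodule.span K {φ : Module.Dual K (V σ K m) | ∃ l : List σ, l.length = m ∧ φ = phi m l})]
  rw [Submodule.dualAnnihilator_eq_top_iff, Submodule.eq_bot_iff]
  intro F hF
  rw [Submodule.mem_dualCoannihilator] at hF
  apply Subtype.ext
  apply eq_zero_of_dlist m _ ((mem_homogeneousSubmodule m _).1 F.2)
  intro l hl
  rw [phi_C m hl, hF _ (Submodule.subset_span ⟨l, hl, rfl⟩), C_0]

lemma res_surj [CharZero K] (m : ℕ) (Θ : V σ K m →ₗ[K] MvPolynomial σ K) :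
    ∃ θ ∈ DiffOp σ K m, res m θ = Θ := by
  have key : ∀ (φ : Module.Dual K (V σ K m)) (s : MvPolynomial σ K),
      φ.smulRight s ∈ (DiffOp σ K m).map (res m) := by
    intro φ s
    have hφ : φ ∈ Submodule.span K
        {φ : Module.Dual K (V σ K m) | ∃ l : List σ, l.length = m ∧ φ = phi m l} := by
      rw [span_phi]; exact Submodule.mem_top
    induction hφ using Submodule.span_induction with
    | mem x hx =>
      obtain ⟨l, hl, rfl⟩ := hx
      refine ⟨s • dlist l, Submodule.smul_mem _ _ (Submodule.subset_span ⟨l, hl, rfl⟩), ?_⟩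
      apply LinearMap.ext
      intro F
      rw [res_apply, LinearMap.smul_apply, phi_C m hl, LinearMap.smulRight_apply, smul_eq_mul,
        smul_eq_C_mul, mul_comm]
    | zero =>
      have : (0 : Module.Dual K (V σ K m)).smulRight s = 0 := by ext; simp
      rw [this]; exact Submodule.zero_mem _
    | add x y _ _ hx hy =>
      have : (x + y).smulRight s = x.smulRight s + y.smulRight s := by
        apply LinearMap.ext; intro F; simp [add_smul]
      rw [this]; exact Submodule.add_mem _ hx hy
    | smul c x _ hx =>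
      have : (c • x).smulRight s = (C c : MvPolynomial σ K) • (x.smulRight s) := by
        apply LinearMap.ext; intro F
        simp only [LinearMap.smulRight_apply, LinearMap.smul_apply, smul_eq_mul, smul_eq_C_mul,
          C_mul, mul_assoc]
      rw [this]; exact Submodule.smul_mem _ _ hx
  have hΘ : Θ = ∑ i, ((Module.finBasis K (V σ K m)).coord i).smulRight
      (Θ (Module.finBasis K (V σ K m) i)) := by
    apply LinearMap.ext
    intro F
    rw [LinearMap.sum_apply]
    conv_lhs => rw [← (Module.finBasis K (V σ K m)).sum_repr F]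
    rw [map_sum]
    simp
  have h2 : Θ ∈ (DiffOp σ K m).map (res m) := by
    rw [hΘ]
    exact Submodule.sum_mem _ (fun i _ => key _ _)
  obtain ⟨θ, h3, h4⟩ := h2
  exact ⟨θ, h3, h4⟩

/-- maps from forms of degree `m` which preserve divisibility by each `α h` -/
noncomputable def ModA {ι : Type*} (m : ℕ) (α : ι → MvPolynomial σ K) :
    Submodule (MvPolynomial σ K) (V σ K m →ₗ[K] MvPolynomial σ K) where
  carrier := {Θ | ∀ h (F : V σ K m), α h ∣ (F : MvPolynomial σ K) → α h ∣ Θ F}
  add_mem' := fun ha hb h F hF => dvd_add (ha h F hF) (hb h F hF)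
  zero_mem' := fun _ _ _ => dvd_zero _
  smul_mem' := fun c _ hx h F hF => Dvd.dvd.mul_left (hx h F hF) c

lemma mem_ModA {ι : Type*} {m : ℕ} {α : ι → MvPolynomial σ K}
    {Θ : V σ K m →ₗ[K] MvPolynomial σ K} :
    Θ ∈ ModA m α ↔ ∀ h (F : V σ K m), α h ∣ (F : MvPolynomial σ K) → α h ∣ Θ F := Iff.rfl

/-- freeness can be tested on forms of degree `m` -/
theorem free_of_ModA [CharZero K] {ι : Type*} [Fintype ι] [DecidableEq ι] (m : ℕ)
    (α : ι → MvPolynomial σ K) (hl : ∀ h, α h ∈ Submodule.span K (Set.range X))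
    (hp : ∀ h, Prime (α h)) (hc : ∀ h h', h ≠ h' → ¬ α h ∣ α h')
    (hfree : Module.Free (MvPolynomial σ K) (ModA (m + 1) α)) :
    Module.Free (MvPolynomial σ K) (Dm (m + 1) (∏ h, α h)) := by
  have hR : ∀ h, ¬ α h ∣ ∏ h' ∈ Finset.univ.erase h, α h' := by
    intro h hd
    obtain ⟨h', hh, hd'⟩ := (hp h).exists_mem_finset_dvd hd
    exact hc h h' (Ne.symm (Finset.ne_of_mem_erase hh)) hd'
  have hQ : ∀ h, ∏ h, α h = α h * ∏ h' ∈ Finset.univ.erase h, α h' := fun h =>
    (Finset.mul_prod_erase _ _ (Finset.mem_univ h)).symm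
  have hmem : ∀ θ ∈ Dm (m + 1) (∏ h, α h), res (m + 1) θ ∈ ModA (m + 1) α := by
    intro θ hθ h F hF
    obtain ⟨G, hG⟩ := hF
    rw [res_apply, hG]
    exact dvd_lin (hQ h) (hp h) (hR h) (hl h) _ hθ.1 hθ.2 G
  let f : Dm (m + 1) (∏ h, α h) →ₗ[MvPolynomial σ K] ModA (m + 1) α :=
    LinearMap.restrict (res (m + 1)) hmem
  have hf : Function.Bijective f := by
    constructor
    · intro x y hxy
      have h1 : res (m + 1) x.1 = res (m + 1) y.1 := congrArg Subtype.val hxy
      apply Subtype.ext
      rw [← sub_eq_zero]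
      apply LinearMap.ext
      intro g
      have h2 := rigid (m + 1) (Submodule.sub_mem _ x.2.1 y.2.1) (a := 0) (by
        intro G hG
        rw [LinearMap.sub_apply]
        have h3 := LinearMap.congr_fun h1 ⟨G, (mem_homogeneousSubmodule _ _).2 hG⟩
        rw [res_apply, res_apply] at h3
        simp only at h3
        rw [h3, sub_self]) g
      exact zero_dvd_iff.1 h2
    · intro Θ
      obtain ⟨θ, h1, h2⟩ := res_surj (m + 1) Θ.1
      have h3 : ∀ h f, α h ∣ θ (α h * f) := by
        intro h
        apply dvd_of_homog (hl h) h1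
        intro G hG
        have hα : (α h).IsHomogeneous 1 := by
          have : Submodule.span K (Set.range X) ≤ homogeneousSubmodule σ K 1 := by
            rw [Submodule.span_le]
            rintro _ ⟨i, rfl⟩
            exact isHomogeneous_X K i
          exact this (hl h)
        have hG' : α h * G ∈ V σ K (m + 1) := by
          rw [mem_homogeneousSubmodule, add_comm]
          exact hα.mul hG
        have h4 := Θ.2 h ⟨α h * G, hG'⟩ (dvd_mul_right _ _)
        rw [← h2] at h4
        exact h4
      refine ⟨⟨θ, h1, ?_⟩, Subtype.ext h2⟩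
      intro g
      apply Finset.prod_dvd_of_isRelPrime
      · intro h _ h' _ hne
        exact ((hp h).irreducible.isRelPrime_iff_not_dvd).2 (hc h h' hne)
      · intro h _
        rw [hQ h, mul_assoc]
        exact h3 h _
  exact Module.Free.of_equiv (LinearEquiv.ofBijective f hf).symm

end Pool.Agent.R833.HO
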