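import Mathlib
import Pool.Agent.R833.HO1

set_option autoImplicit false
set_option linter.unusedSectionVars false

/-!
# A determinant criterion for freeness of the module `ModA`
-/

namespace Pool.Agent.R833.HO

open MvPolynomial Module

variable {σ : Type*} [Fintype σ] [DecidableEq σ] {K : Type*} [Field K]

/-- forms of degree `m` divisible by `a` -/
noncomputable def Wd (m : ℕ) (a : MvPolynomial σ K) : Submodule K (V σ K m) where
  carrier := {F | a ∣ (F : MvPolynomial σ K)}
  add_mem' := fun ha hb => dvd_add ha hb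
  zero_mem' := dvd_zero _
  smul_mem' := fun c x (hx : a ∣ (x : MvPolynomial σ K)) => by
    change a ∣ c • (x : MvPolynomial σ K)
    rw [smul_eq_C_mul]
    exact Dvd.dvd.mul_left hx _

lemma mem_Wd {m : ℕ} {a : MvPolynomial σ K} {F : V σ K m} :
    F ∈ Wd m a ↔ a ∣ (F : MvPolynomial σ K) := Iff.rfl

theorem det_dvd {J : Type*} [Fintype J] [DecidableEq J] {m : ℕ} (b : Basis J K (V σ K m))
    (a : MvPolynomial σ K) (Θ : J → (V σ K m →ₗ[K] MvPolynomial σ K))
    (hΘ : ∀ j (F : V σ K m), a ∣ (F : MvPolynomial σ K) → a ∣ Θ j F) :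
    a ^ finrank K (Wd m a) ∣ (Matrix.of fun i j => Θ j (b i)).det := by
  obtain ⟨C', hC'⟩ := Submodule.exists_isCompl (Wd m a)
  have : Module.Free K (Wd m a) := Module.Free.of_divisionRing K (Wd m a)
  have : Module.Free K C' := Module.Free.of_divisionRing K C'
  let b1 := Module.finBasis K (Wd m a)
  let b2 := Module.finBasis K C'
  let b' := (b1.prod b2).map (Submodule.prodEquivOfIsCompl _ _ hC')
  let e := b'.indexEquiv b
  let b'' : Basis J K (V σ K m) := b'.reindex e
  have hb : ∀ k : Fin (finrank K (Wd m a)), a ∣ (b'' (e (Sum.inl k)) : MvPolynomial σ K) := by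
    intro k
    rw [← mem_Wd]
    have : b'' (e (Sum.inl k)) = (b1 k : V σ K m) := by
      simp only [b'', Basis.reindex_apply, Equiv.symm_apply_apply, b', Basis.map_apply,
        Submodule.coe_prodEquivOfIsCompl', Basis.prod_apply, Sum.elim_inl, Function.comp,
        LinearMap.inl_apply, Submodule.coe_zero, add_zero]
    rw [this]
    exact (b1 k).2
  let v : J → MvPolynomial σ K := fun k => Sum.elim (fun _ => a) (fun _ => 1) (e.symm k)
  have hv : ∀ k j, v k ∣ Θ j (b'' k) := by
    intro k j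
    obtain ⟨x, rfl⟩ := e.surjective k
    simp only [v, Equiv.symm_apply_apply]
    rcases x with x | x
    · exact hΘ j _ (hb x)
    · exact one_dvd _
  choose M'' hM'' using hv
  have h1 : (Matrix.of fun i j => Θ j (b i)) =
      ((b''.toMatrix b).transpose.map (C : K → MvPolynomial σ K)) *
        (Matrix.of fun k j => v k * M'' k j) := by
    ext1 i j
    rw [Matrix.mul_apply, Matrix.of_apply]
    conv_lhs => rw [← b''.sum_toMatrix_smul_self b i]
    rw [map_sum]
    apply Finset.sum_congr rfl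
    intro k _
    rw [Matrix.of_apply, ← hM'', map_smul, smul_eq_C_mul, Matrix.map_apply,
      Matrix.transpose_apply]
  have h3 : (Matrix.of fun k j => v k * M'' k j).det = (∏ i, v i) * (Matrix.of M'').det :=
    Matrix.det_mul_column v (Matrix.of M'')
  rw [h1, Matrix.det_mul, h3]
  apply Dvd.dvd.mul_left
  apply Dvd.dvd.mul_right
  have h2 : ∏ i, v i = a ^ finrank K (Wd m a) := by
    rw [← e.prod_comp]
    simp [v]
  rw [h2]

lemma det_homog {J : Type*} [Fintype J] [DecidableEq J] {m : ℕ} (b : Basis J K (V σ K m))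
    (Θ : J → (V σ K m →ₗ[K] MvPolynomial σ K)) (e : J → ℕ)
    (he : ∀ j F, (Θ j F).IsHomogeneous (e j)) :
    (Matrix.of fun i j => Θ j (b i)).det.IsHomogeneous (∑ j, e j) := by
  rw [Matrix.det_apply]
  apply IsHomogeneous.sum
  intro s _
  have h1 : (∏ i, (Matrix.of fun i j => Θ j (b i)) (s i) i).IsHomogeneous (∑ j, e j) :=
    IsHomogeneous.prod _ _ _ (fun i _ => he i _)
  rcases Int.units_eq_one_or (Equiv.Perm.sign s) with h | h
  · rw [h, one_smul]; exact h1
  · rw [h, Units.neg_smul, one_smul]; exact h1.neg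

/-- the determinant criterion -/
theorem free_crit {ι : Type*} [Fintype ι] [DecidableEq ι] {J : Type*} [Fintype J]
    [DecidableEq J] {m t : ℕ} (α : ι → MvPolynomial σ K) (hp : ∀ h, Prime (α h))
    (hc : ∀ h h', h ≠ h' → ¬ α h ∣ α h') (hl : ∀ h, (α h).IsHomogeneous 1)
    (ht : ∀ h, t ≤ finrank K (Wd m (α h))) (b : Basis J K (V σ K m))
    (Θ : J → (V σ K m →ₗ[K] MvPolynomial σ K)) (hΘ : ∀ j, Θ j ∈ ModA m α) (e : J → ℕ)
    (he : ∀ j F, (Θ j F).IsHomogeneous (e j)) (hsum : ∑ j, e j ≤ Fintype.card ι * t)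
    (hdet : (Matrix.of fun i j => Θ j (b i)).det ≠ 0) :
    Module.Free (MvPolynomial σ K) (ModA m α) := by
  set P : MvPolynomial σ K := ∏ h, (α h) ^ t with hP
  have hPd : ∀ Ψ : J → (V σ K m →ₗ[K] MvPolynomial σ K), (∀ j, Ψ j ∈ ModA m α) →
      P ∣ (Matrix.of fun i j => Ψ j (b i)).det := by
    intro Ψ hΨ
    apply Finset.prod_dvd_of_isRelPrime
    · intro h _ h' _ hne
      exact (((hp h).irreducible.isRelPrime_iff_not_dvd).2 (hc h h' hne)).pow
    · intro h _
      exact (pow_dvd_pow _ (ht h)).trans (det_dvd b (α h) Ψ (fun j F hF => hΨ j h F hF))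
  set M := Matrix.of fun i j => Θ j (b i) with hM
  have hP0 : P ≠ 0 := Finset.prod_ne_zero_iff.2 (fun h _ => pow_ne_zero _ (hp h).ne_zero)
  have hPh : P.totalDegree = Fintype.card ι * t := by
    have h1 : P.IsHomogeneous (∑ _h : ι, 1 * t) :=
      IsHomogeneous.prod _ _ _ (fun h _ => (hl h).pow t)
    rw [h1.totalDegree hP0]
    simp
  obtain ⟨c, hcM⟩ := hPd Θ hΘ
  have hc0 : c ≠ 0 := by
    intro h
    rw [h, mul_zero] at hcM
    exact hdet hcM
  have hdeg : c.totalDegree = 0 := by
    have h1 := (det_homog b Θ e he).totalDegree_le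
    rw [← hM, hcM, totalDegree_mul_of_isDomain hP0 hc0, hPh] at h1
    omega
  rw [totalDegree_eq_zero_iff_eq_C] at hdeg
  set c0 := coeff 0 c with hc0'
  have hc00 : c0 ≠ 0 := by
    intro h
    rw [h, C_0] at hdeg
    exact hc0 hdeg
  have hli0 : LinearIndependent (MvPolynomial σ K) Θ := by
    refine Fintype.linearIndependent_iff.2 ?_
    intro g hg
    have h1 : M.mulVec g = 0 := by
      ext1 i
      have h3 := LinearMap.congr_fun hg (b i)
      rw [LinearMap.sum_apply] at h3
      simp only [Matrix.mulVec, dotProduct, Pi.zero_apply, hM, Matrix.of_apply]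
      refine Eq.trans (Finset.sum_congr rfl (fun j _ => ?_)) h3
      rw [LinearMap.smul_apply, smul_eq_mul, mul_comm]
    intro i
    exact congrFun (Matrix.eq_zero_of_mulVec_eq_zero hdet h1) i
  have hli : LinearIndependent (MvPolynomial σ K) (fun j => (⟨Θ j, hΘ j⟩ : ModA m α)) :=
    LinearIndependent.of_comp (ModA m α).subtype hli0
  have hsp : ⊤ ≤ Submodule.span (MvPolynomial σ K)
      (Set.range (fun j => (⟨Θ j, hΘ j⟩ : ModA m α))) := by
    rintro Ψ -
    have h1 : ∀ j, P ∣ M.cramer (fun i => Ψ.1 (b i)) j := by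
      intro j
      rw [Matrix.cramer_apply]
      have h2 := hPd (Function.update Θ j Ψ.1) (by
        intro k
        by_cases hk : k = j
        · subst hk; rw [Function.update_self]; exact Ψ.2
        · rw [Function.update_of_ne hk]; exact hΘ k)
      have h3 : (Matrix.of fun i k => (Function.update Θ j Ψ.1) k (b i)) =
          M.updateCol j (fun i => Ψ.1 (b i)) := by
        ext1 i k
        rw [Matrix.of_apply, Matrix.updateCol_apply]
        by_cases hk : k = j
        · subst hk; rw [Function.update_self, if_pos rfl]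
        · rw [Function.update_of_ne hk, if_neg hk]; rfl
      rwa [h3] at h2
    choose s hs using h1
    have h2 : M.mulVec s = (C c0 : MvPolynomial σ K) • (fun i => Ψ.1 (b i)) := by
      have h3 := Matrix.mulVec_cramer M (fun i => Ψ.1 (b i))
      have h4 : M.cramer (fun i => Ψ.1 (b i)) = P • s := by
        ext1 j
        exact hs j
      rw [h4, Matrix.mulVec_smul, hcM, mul_smul, hdeg] at h3
      exact smul_right_injective _ hP0 h3
    have h5 : Ψ = ∑ j, (C c0⁻¹ * s j) • (⟨Θ j, hΘ j⟩ : ModA m α) := by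
      apply Subtype.ext
      rw [Submodule.coe_sum]
      apply b.ext
      intro i
      rw [LinearMap.sum_apply]
      have h6 := congrFun h2 i
      simp only [Matrix.mulVec, dotProduct, Pi.smul_apply, smul_eq_mul, hM,
        Matrix.of_apply] at h6
      have h7 : Ψ.1 (b i) = C c0⁻¹ * (C c0 * Ψ.1 (b i)) := by
        rw [← mul_assoc, ← C_mul, inv_mul_cancel₀ hc00, C_1, one_mul]
      rw [h7, ← h6, Finset.mul_sum]
      apply Finset.sum_congr rfl
      intro j _
      rw [Submodule.coe_smul, LinearMap.smul_apply, smul_eq_mul]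
      ring
    rw [h5]
    exact Submodule.sum_mem _ (fun j _ => Submodule.smul_mem _ _ (Submodule.subset_span ⟨j, rfl⟩))
  exact Module.Free.of_basis (Basis.mk hli hsp)

/-- the functional `φ` is realized, up to a nonzero constant, by an element of `ModA` of degree `k`
evaluated at `p` -/
def Real (m : ℕ) {ι : Type*} (α : ι → MvPolynomial σ K) (p : σ → K) (φ : Dual K (V σ K m))
    (k : ℕ) : Prop :=
  ∃ Θ ∈ ModA m α, (∀ F, (Θ F).IsHomogeneous k) ∧ ∃ c : K, c ≠ 0 ∧ ∀ F, eval p (Θ F) = c * φ F

theorem free_real {ι : Type*} [Fintype ι] [DecidableEq ι] {J : Type*} [Fintype J]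
    [DecidableEq J] {m t : ℕ} (α : ι → MvPolynomial σ K) (hp : ∀ h, Prime (α h))
    (hc : ∀ h h', h ≠ h' → ¬ α h ∣ α h') (hl : ∀ h, (α h).IsHomogeneous 1)
    (ht : ∀ h, t ≤ finrank K (Wd m (α h))) (p : σ → K) (f : J → Dual K (V σ K m))
    (hf : LinearIndependent K f) (hcard : Fintype.card J = finrank K (V σ K m)) (e : J → ℕ)
    (hr : ∀ j, Real m α p (f j) (e j)) (hsum : ∑ j, e j ≤ Fintype.card ι * t) :
    Module.Free (MvPolynomial σ K) (ModA m α) := by
  choose Θ hΘ he c hc0 hcf using hr
  have b : Basis J K (V σ K m) := (Module.finBasis K (V σ K m)).reindex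
    (Fintype.equivOfCardEq (by rw [Fintype.card_fin, hcard]))
  refine free_crit α hp hc hl ht b Θ hΘ e he hsum ?_
  intro hdet
  have h1 : (Matrix.of fun i j => c j * f j (b i)).det = 0 := by
    have h2 := congrArg (eval p) hdet
    rw [map_zero, RingHom.map_det] at h2
    rw [← h2]
    congr 1
    ext1 i j
    rw [RingHom.mapMatrix_apply, Matrix.map_apply, Matrix.of_apply, Matrix.of_apply, hcf]
  obtain ⟨v, hv, hv2⟩ := Matrix.exists_mulVec_eq_zero_iff.2 h1
  apply hv
  have h3 : ∑ j, (v j * c j) • f j = 0 := by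
    apply b.ext
    intro i
    have h4 := congrFun hv2 i
    simp only [Matrix.mulVec, dotProduct, Pi.zero_apply, Matrix.of_apply] at h4
    rw [LinearMap.sum_apply, LinearMap.zero_apply, ← h4]
    apply Finset.sum_congr rfl
    intro j _
    rw [LinearMap.smul_apply, smul_eq_mul]
    ring
  have h5 := Fintype.linearIndependent_iff.1 hf _ h3
  ext1 j
  exact (mul_eq_zero.1 (h5 j)).resolve_right (hc0 j)

lemma ext_family {Λ : Type*} [AddCommGroup Λ] [Module K Λ] [FiniteDimensional K Λ]
    {ι0 : Type*} (f : ι0 → Λ) (hf : LinearIndependent K f) (T : Set Λ) :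
    ∃ (n : ℕ) (g : Fin n → Λ), (∀ i, g i ∈ T) ∧ LinearIndependent K (Sum.elim f g) ∧
      T ⊆ Submodule.span K (Set.range (Sum.elim f g)) := by
  obtain ⟨B, h1, h2, h3, h4⟩ := exists_linearIndepOn_id_extension (K := K)
    (s := Set.range f) (t := Set.range f ∪ T) hf.linearIndepOn_id Set.subset_union_left
  have hBf : Finite B := LinearIndependent.finite_of_isNoetherian (R := K) (M := Λ) h4
  have hf2 : Finite ↥(B \ Set.range f) := Set.Finite.subset (Set.toFinite B) Set.sdiff_subset
  have e := Finite.equivFin ↥(B \ Set.range f)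
  refine ⟨_, fun i => ((e.symm i : ↥(B \ Set.range f)) : Λ), ?_, ?_, ?_⟩
  · intro i
    have h5 := (e.symm i).2
    exact (h1 h5.1).resolve_left h5.2
  · let φ : ι0 ⊕ Fin (Nat.card ↥(B \ Set.range f)) → B :=
      Sum.elim (fun i => ⟨f i, h2 ⟨i, rfl⟩⟩) (fun i => ⟨(e.symm i).1, (e.symm i).2.1⟩)
    have hφ : Function.Injective φ := by
      rintro (i | i) (j | j) hij
      · have := congrArg Subtype.val hij
        simp only [φ, Sum.elim_inl] at this
        rw [hf.injective this]
      · exfalso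
        have := congrArg Subtype.val hij
        simp only [φ, Sum.elim_inl, Sum.elim_inr] at this
        exact (e.symm j).2.2 ⟨i, this⟩
      · exfalso
        have := congrArg Subtype.val hij
        simp only [φ, Sum.elim_inl, Sum.elim_inr] at this
        exact (e.symm i).2.2 ⟨j, this.symm⟩
      · have := congrArg Subtype.val hij
        simp only [φ, Sum.elim_inr] at this
        rw [e.symm.injective (Subtype.ext this)]
    have h5 := LinearIndependent.comp h4 φ hφ
    convert h5 using 1
    ext1 x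
    rcases x with x | x <;> rfl
  · refine (Set.subset_union_right.trans h3).trans ?_
    rw [SetLike.coe_subset_coe, Submodule.span_le]
    intro x hx
    apply Submodule.subset_span
    by_cases hx2 : x ∈ Set.range f
    · obtain ⟨i, rfl⟩ := hx2
      exact ⟨Sum.inl i, rfl⟩
    · refine ⟨Sum.inr (e ⟨x, hx, hx2⟩), ?_⟩
      rw [Sum.elim_inr, Equiv.symm_apply_apply]

/-- extension of a family of functionals to a basis -/
theorem chain {ι : Type*} [Fintype ι] [DecidableEq ι] {ι0 : Type*} [Fintype ι0]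
    [DecidableEq ι0] {m t : ℕ} (α : ι → MvPolynomial σ K) (hp : ∀ h, Prime (α h))
    (hc : ∀ h h', h ≠ h' → ¬ α h ∣ α h') (hl : ∀ h, (α h).IsHomogeneous 1)
    (h7 : Fintype.card ι = 7)
    (ht : ∀ h, t ≤ finrank K (Wd m (α h))) (p : σ → K) (hpt : ∀ h, eval p (α h) ≠ 0)
    (f : ι0 → Dual K (V σ K m))
    (hf : LinearIndependent K f) (e : ι0 → ℕ)
    (hr : ∀ j, Real m α p (f j) (e j))
    (hsum : ∑ j, e j + 7 * finrank K (V σ K m) ≤
      7 * t + 6 * Fintype.card ι0 + (finrank K (V σ K m) -
        finrank K ↥(⨅ h, Wd m (α h)))) :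
    Module.Free (MvPolynomial σ K) (ModA m α) := by
  -- elements of degree 6
  have hr6 : ∀ h, ∀ φ ∈ (Wd m (α h)).dualAnnihilator, Real m α p φ 6 := by
    intro h φ hφ
    refine ⟨φ.smulRight (∏ h' ∈ Finset.univ.erase h, α h'), ?_, ?_,
      eval p (∏ h' ∈ Finset.univ.erase h, α h'), ?_, ?_⟩
    · intro k F hF
      rw [LinearMap.smulRight_apply]
      by_cases hk : k = h
      · subst hk
        rw [(Submodule.mem_dualAnnihilator φ).1 hφ F hF, zero_smul]
        exact dvd_zero _
      · rw [smul_eq_C_mul]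
        exact Dvd.dvd.mul_left (Finset.dvd_prod_of_mem _ (Finset.mem_erase.2
          ⟨hk, Finset.mem_univ k⟩)) _
    · intro F
      rw [LinearMap.smulRight_apply, smul_eq_C_mul]
      have h1 : (∏ h' ∈ Finset.univ.erase h, α h').IsHomogeneous
          (∑ _h' ∈ Finset.univ.erase h, 1) := IsHomogeneous.prod _ _ _ (fun k _ => hl k)
      have h2 : ∑ _h' ∈ Finset.univ.erase h, 1 = 6 := by
        rw [Finset.sum_const, smul_eq_mul, mul_one, Finset.card_erase_of_mem (Finset.mem_univ h),
          Finset.card_univ, h7]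
      rw [h2] at h1
      exact h1.C_mul _
    · rw [map_prod]
      exact Finset.prod_ne_zero_iff.2 (fun k _ => hpt k)
    · intro F
      rw [LinearMap.smulRight_apply, smul_eq_C_mul, map_mul, eval_C, mul_comm]
  have hr7 : ∀ φ : Dual K (V σ K m), Real m α p φ 7 := by
    intro φ
    refine ⟨φ.smulRight (∏ h', α h'), ?_, ?_, eval p (∏ h', α h'), ?_, ?_⟩
    · intro k F hF
      rw [LinearMap.smulRight_apply, smul_eq_C_mul]
      exact Dvd.dvd.mul_left (Finset.dvd_prod_of_mem _ (Finset.mem_univ k)) _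
    · intro F
      rw [LinearMap.smulRight_apply, smul_eq_C_mul]
      have h1 : (∏ h', α h').IsHomogeneous
          (∑ _h' : ι, 1) := IsHomogeneous.prod _ _ _ (fun k _ => hl k)
      have h2 : ∑ _h' : ι, 1 = 7 := by
        rw [Finset.sum_const, smul_eq_mul, mul_one, Finset.card_univ, h7]
      rw [h2] at h1
      exact h1.C_mul _
    · rw [map_prod]
      exact Finset.prod_ne_zero_iff.2 (fun k _ => hpt k)
    · intro F
      rw [LinearMap.smulRight_apply, smul_eq_C_mul, map_mul, eval_C, mul_comm]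
  obtain ⟨n1, g1, hg1, hli1, hsp1⟩ := ext_family f hf
    (⋃ h, ((Wd m (α h)).dualAnnihilator : Set (Dual K (V σ K m))))
  obtain ⟨n2, g2, -, hli2, hsp2⟩ := ext_family (Sum.elim f g1) hli1 Set.univ
  have hN : Fintype.card ((ι0 ⊕ Fin n1) ⊕ Fin n2) = finrank K (V σ K m) := by
    rw [← Subspace.dual_finrank_eq]
    have h1 : ⊤ ≤ Submodule.span K (Set.range (Sum.elim (Sum.elim f g1) g2)) :=
      fun x _ => hsp2 (Set.mem_univ x)
    rw [← finrank_top K (Dual K (V σ K m)), ← top_le_iff.1 h1, finrank_span_eq_card hli2]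
  have hn1 : finrank K (V σ K m) ≤
      finrank K ↥(⨅ h, Wd m (α h)) + (Fintype.card ι0 + n1) := by
    rw [← Subspace.finrank_add_finrank_dualAnnihilator_eq (⨅ h, Wd m (α h))]
    apply Nat.add_le_add_left
    rw [Subspace.dualAnnihilator_iInf_eq]
    have h1 : ⨆ h, (Wd m (α h)).dualAnnihilator ≤
        Submodule.span K (Set.range (Sum.elim f g1)) := by
      apply iSup_le
      intro h x hx
      exact hsp1 (Set.mem_iUnion.2 ⟨h, hx⟩)
    refine (Submodule.finrank_mono h1).trans ?_
    rw [finrank_span_eq_card hli1, Fintype.card_sum, Fintype.card_fin]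
  refine free_real α hp hc hl ht p (Sum.elim (Sum.elim f g1) g2) hli2 hN
    (Sum.elim (Sum.elim e (fun _ => 6)) (fun _ => 7)) ?_ ?_
  · rintro ((j | j) | j)
    · exact hr j
    · obtain ⟨h, hh⟩ := Set.mem_iUnion.1 (hg1 j)
      exact hr6 h _ hh
    · exact hr7 _
  · rw [Fintype.sum_sum_type, Fintype.sum_sum_type, h7]
    rw [Fintype.card_sum, Fintype.card_sum, Fintype.card_fin, Fintype.card_fin] at hN
    simp only [Sum.elim_inl, Sum.elim_inr, Finset.sum_const, Finset.card_univ, Fintype.card_fin,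
      smul_eq_mul]
    omega

end Pool.Agent.R833.HO
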