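import Mathlib
import Pool.Agent.R833.HO2
import Pool.Agent.R833.HF
import Pool.Agent.R833.ArrLemmas

set_option autoImplicit false
set_option linter.unusedSectionVars false

/-!
# The seven planes of the cone over the Shi arrangement of type `A₂`
-/

namespace Pool.Agent.R833.HO

open MvPolynomial Module Pool.Agent.R833 Pool.Agent.R833.Arr

variable {K : Type*} [Field K]

/-- integer vectors -/
abbrev T3 := ℤ × ℤ × ℤ

/-- linear form with integer coefficients -/
noncomputable def lf (a : T3) : MvPolynomial (Fin 3) K :=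
  C (a.1 : K) * X 0 + C (a.2.1 : K) * X 1 + C (a.2.2 : K) * X 2

/-- dot product -/
def dt (a v : T3) : ℤ := a.1 * v.1 + a.2.1 * v.2.1 + a.2.2 * v.2.2

/-- the point with integer coordinates -/
def pt (v : T3) : Fin 3 → K := ![(v.1 : K), (v.2.1 : K), (v.2.2 : K)]

lemma eval_lf (a v : T3) : eval (pt v) (lf a : MvPolynomial (Fin 3) K) = ((dt a v : ℤ) : K) := by
  simp [lf, pt, dt]

lemma lf_homog (a : T3) : (lf a : MvPolynomial (Fin 3) K).IsHomogeneous 1 := by
  unfold lf
  exact (((isHomogeneous_X K 0).C_mul _).add ((isHomogeneous_X K 1).C_mul _)).add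
    ((isHomogeneous_X K 2).C_mul _)

lemma lf_span (a : T3) :
    (lf a : MvPolynomial (Fin 3) K) ∈ Submodule.span K (Set.range X) := by
  unfold lf
  simp only [← smul_eq_C_mul]
  exact Submodule.add_mem _ (Submodule.add_mem _ (Submodule.smul_mem _ _ (Submodule.subset_span
    ⟨0, rfl⟩)) (Submodule.smul_mem _ _ (Submodule.subset_span ⟨1, rfl⟩)))
    (Submodule.smul_mem _ _ (Submodule.subset_span ⟨2, rfl⟩))

lemma pderiv_lf (a : T3) (i : Fin 3) :
    pderiv i (lf a : MvPolynomial (Fin 3) K) = C (![(a.1 : K), (a.2.1 : K), (a.2.2 : K)] i) := by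
  unfold lf
  fin_cases i <;> simp [pderiv_X]

/-- directional derivative -/
noncomputable def dd (u : T3) (F : MvPolynomial (Fin 3) K) : MvPolynomial (Fin 3) K :=
  ∑ i, C (pt u i) * pderiv i F

lemma dd_mul (u : T3) (F G : MvPolynomial (Fin 3) K) :
    dd u (F * G) = F * dd u G + G * dd u F := by
  unfold dd
  simp only [Derivation.leibniz, smul_eq_mul, Fin.sum_univ_three]
  ring

lemma dd_lf (u a : T3) : dd u (lf a : MvPolynomial (Fin 3) K) = C ((dt a u : ℤ) : K) := by
  unfold dd
  simp only [pderiv_lf, Fin.sum_univ_three, ← C_mul, ← C_add]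
  congr 1
  simp [pt, dt]
  ring

lemma dd_one (u : T3) : dd u (1 : MvPolynomial (Fin 3) K) = 0 := by
  unfold dd
  simp

/-- product of linear forms -/
noncomputable def PL (l : List T3) : MvPolynomial (Fin 3) K := (l.map lf).prod

/-- its value -/
def pv : List T3 → T3 → ℤ
  | [], _ => 1
  | a :: l, v => dt a v * pv l v

/-- its directional derivative -/
def dv : List T3 → T3 → T3 → ℤ
  | [], _, _ => 0
  | a :: l, u, v => dt a u * pv l v + dt a v * dv l u v

lemma PL_cons (a : T3) (l : List T3) :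
    (PL (a :: l) : MvPolynomial (Fin 3) K) = lf a * PL l := by
  simp [PL]

lemma eval_PL (v : T3) : ∀ l : List T3,
    eval (pt v) (PL l : MvPolynomial (Fin 3) K) = ((pv l v : ℤ) : K)
  | [] => by simp [PL, pv]
  | a :: l => by
    rw [PL_cons, map_mul, eval_lf, eval_PL v l]
    simp [pv]

lemma eval_dd_PL (u v : T3) : ∀ l : List T3,
    eval (pt v) (dd u (PL l : MvPolynomial (Fin 3) K)) = ((dv l u v : ℤ) : K)
  | [] => by simp [PL, dv, dd_one]
  | a :: l => by
    rw [PL_cons, dd_mul, dd_lf, map_add, map_mul, map_mul, eval_lf, eval_dd_PL u v l, eval_PL,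
      eval_C]
    simp only [dv, Int.cast_add, Int.cast_mul]
    ring

lemma PL_homog : ∀ l : List T3, (PL l : MvPolynomial (Fin 3) K).IsHomogeneous l.length
  | [] => by simpa [PL] using isHomogeneous_one (Fin 3) K
  | a :: l => by
    rw [PL_cons, List.length_cons, add_comm]
    exact (lf_homog a).mul (PL_homog l)

/-- the auxiliary linear form -/
def LL : T3 := (1, 1, 2)

/-- the base point -/
def p0 : T3 := (2, 1, -1)

/-- the seven planes -/
def pl : Fin 7 → T3 :=
  ![(0, 0, 1), (1, 0, 0), (1, 0, -1), (0, 1, 0), (0, 1, -1), (1, -1, 0), (1, -1, -1)]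

/-- the six triple points -/
def vv : Fin 6 → T3 :=
  ![(0, 0, 1), (0, 1, 0), (1, 0, 0), (1, 1, 1), (1, 1, 0), (1, 0, 1)]

/-- the three double points -/
def ww : Fin 3 → T3 := ![(2, 1, 1), (0, -1, 1), (0, 1, 1)]

variable (K) in
/-- the linear forms of the seven planes -/
noncomputable def al (h : Fin 7) : MvPolynomial (Fin 3) K := lf (pl h)

/-- value of forms at a point -/
noncomputable def fE (m : ℕ) (v : T3) : Dual K (V (Fin 3) K m) where
  toFun := fun F => eval (pt v) (F : MvPolynomial (Fin 3) K)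
  map_add' := fun F G => by simp
  map_smul' := fun c F => by simp [smul_eval]

/-- directional derivative of forms at a point -/
noncomputable def fT (m : ℕ) (v : T3) : Dual K (V (Fin 3) K m) where
  toFun := fun F => eval (pt v) (dd p0 (F : MvPolynomial (Fin 3) K))
  map_add' := fun F G => by
    simp only [dd, Submodule.coe_add, map_add, mul_add, Finset.sum_add_distrib]
  map_smul' := fun c F => by
    simp only [dd, Submodule.coe_smul, smul_eq_C_mul, pderiv_C_mul, map_sum, map_mul,
      eval_C, RingHom.id_apply, smul_eq_mul, Finset.mul_sum]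
    apply Finset.sum_congr rfl
    intro i _
    ring

lemma fE_apply (m : ℕ) (v : T3) (F : V (Fin 3) K m) :
    fE m v F = eval (pt v) (F : MvPolynomial (Fin 3) K) := rfl

lemma fT_apply (m : ℕ) (v : T3) (F : V (Fin 3) K m) :
    fT m v F = eval (pt v) (dd p0 (F : MvPolynomial (Fin 3) K)) := rfl

section char0

variable [CharZero K]

lemma dt_ne {a v : T3} (h : dt a v ≠ 0) : eval (pt v) (lf a : MvPolynomial (Fin 3) K) ≠ 0 := by
  rw [eval_lf]
  exact_mod_cast h

lemma al_p0 (h : Fin 7) : eval (pt p0) (al K h) ≠ 0 := by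
  have : ∀ h : Fin 7, dt (pl h) p0 ≠ 0 := by decide
  exact dt_ne (this h)

lemma al_ne (h : Fin 7) : al K h ≠ 0 := by
  intro h0
  apply al_p0 (K := K) h
  rw [h0, map_zero]

lemma al_prime (h : Fin 7) : Prime (al K h) := prime_of_homogeneous_one (lf_homog _) (al_ne h)

lemma al_not_dvd (h h' : Fin 7) (hne : h ≠ h') : ¬ al K h ∣ al K h' := by
  have h1 : ∀ h h' : Fin 7, h ≠ h' → ∃ v : Fin 6, dt (pl h) (vv v) = 0 ∧ dt (pl h') (vv v) ≠ 0 ∨
      ∃ v : Fin 3, dt (pl h) (ww v) = 0 ∧ dt (pl h') (ww v) ≠ 0 := by decide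
  have key : ∀ v : T3, dt (pl h) v = 0 → dt (pl h') v ≠ 0 → ¬ al K h ∣ al K h' := by
    rintro v ha hb ⟨c, hc⟩
    apply dt_ne (K := K) hb
    have : lf (pl h') = al K h * c := hc
    rw [this, map_mul, al, eval_lf, ha, Int.cast_zero, zero_mul]
  obtain ⟨v, h2 | ⟨w, h2⟩⟩ := h1 h h' hne
  · exact key _ h2.1 h2.2
  · exact key _ h2.1 h2.2

/-- product of the planes off a point -/
noncomputable def gg (v : T3) : MvPolynomial (Fin 3) K :=
  ∏ h ∈ Finset.univ.filter (fun h => dt (pl h) v ≠ 0), al K h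

lemma gg_homog (v : T3) : (gg v : MvPolynomial (Fin 3) K).IsHomogeneous
    (Finset.univ.filter (fun h => dt (pl h) v ≠ 0)).card := by
  have h1 : (gg v : MvPolynomial (Fin 3) K).IsHomogeneous
    (∑ _h ∈ Finset.univ.filter (fun h => dt (pl h) v ≠ 0), 1) :=
    IsHomogeneous.prod _ _ _ (fun h _ => lf_homog _)
  rwa [Finset.sum_const, smul_eq_mul, mul_one] at h1

lemma gg_p0 (v : T3) : eval (pt p0) (gg v : MvPolynomial (Fin 3) K) ≠ 0 := by
  rw [gg, map_prod]
  exact Finset.prod_ne_zero_iff.2 (fun h _ => al_p0 h)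

lemma real_E (m : ℕ) (v : T3) : Real m (al K) (pt p0) (fE m v)
    (Finset.univ.filter (fun h => dt (pl h) v ≠ 0)).card := by
  refine ⟨(fE m v).smulRight (gg v), ?_, ?_, _, gg_p0 v, ?_⟩
  · intro h F hF
    rw [LinearMap.smulRight_apply, smul_eq_C_mul]
    by_cases hh : dt (pl h) v = 0
    · obtain ⟨G, hG⟩ := hF
      rw [fE_apply, hG, map_mul, al, eval_lf, hh, Int.cast_zero, zero_mul, C_0, zero_mul]
      exact dvd_zero _
    · exact Dvd.dvd.mul_left (Finset.dvd_prod_of_mem _ (by simp [hh])) _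
  · intro F
    rw [LinearMap.smulRight_apply, smul_eq_C_mul]
    exact (gg_homog v).C_mul _
  · intro F
    rw [LinearMap.smulRight_apply, smul_eq_C_mul, map_mul, eval_C, mul_comm]

lemma real_P (m : ℕ) : Real m (al K) (pt p0) (fE m p0) m := by
  refine ⟨(V (Fin 3) K m).subtype, fun h F hF => hF, fun F => (mem_homogeneousSubmodule m _).1 F.2,
    1, one_ne_zero, fun F => ?_⟩
  rw [one_mul]; rfl

/-- the differential at a point -/
noncomputable def dL (v : T3) (F : MvPolynomial (Fin 3) K) : MvPolynomial (Fin 3) K :=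
  ∑ i, C (eval (pt v) (pderiv i F)) * X i

lemma real_T (m : ℕ) (v : T3) : Real m (al K) (pt p0) (fT m v)
    ((Finset.univ.filter (fun h => dt (pl h) v ≠ 0)).card + 1) := by
  let Θ : V (Fin 3) K m →ₗ[K] MvPolynomial (Fin 3) K :=
    { toFun := fun F => gg v * dL v F
      map_add' := fun F G => by
        simp only [dL, Submodule.coe_add, map_add, add_mul, Finset.sum_add_distrib, mul_add]
      map_smul' := fun c F => by
        simp only [dL, Submodule.coe_smul, smul_eq_C_mul, pderiv_C_mul, map_mul,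
          eval_C, RingHom.id_apply, Finset.mul_sum]
        apply Finset.sum_congr rfl
        intro i _
        ring }
  have hΘ : ∀ F, Θ F = gg v * dL v F := fun F => rfl
  refine ⟨Θ, ?_, ?_, _, gg_p0 v, ?_⟩
  · intro h F hF
    rw [hΘ]
    by_cases hh : dt (pl h) v = 0
    · obtain ⟨G, hG⟩ := hF
      have h2 : ∀ i, eval (pt v) (pderiv i (al K h * G)) =
          eval (pt v) G * ![((pl h).1 : K), ((pl h).2.1 : K), ((pl h).2.2 : K)] i := by
        intro i
        rw [Derivation.leibniz, smul_eq_mul, smul_eq_mul, al, pderiv_lf, map_add, map_mul,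
          map_mul, eval_lf, hh, Int.cast_zero, zero_mul, zero_add, eval_C]
      have h1 : dL v (F : MvPolynomial (Fin 3) K) = C (eval (pt v) G) * al K h := by
        rw [hG, dL, Fin.sum_univ_three, h2, h2, h2, C_mul, C_mul, C_mul, al, lf]
        simp only [Matrix.cons_val]
        ring
      rw [h1]
      exact Dvd.dvd.mul_left (Dvd.dvd.mul_left dvd_rfl _) _
    · exact Dvd.dvd.mul_right (Finset.dvd_prod_of_mem _ (by simp [hh])) _
  · intro F
    rw [hΘ]
    apply (gg_homog v).mul
    unfold dL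
    exact IsHomogeneous.sum _ _ _ (fun i _ => (isHomogeneous_X K i).C_mul _)
  · intro F
    rw [hΘ, map_mul, fT_apply]
    congr 1
    unfold dL dd
    simp only [map_sum, map_mul, eval_C, eval_X]
    apply Finset.sum_congr rfl
    intro i _
    ring

/-- test forms -/
noncomputable def tf (m : ℕ) (l : List T3) (h : l.length ≤ m) : V (Fin 3) K m :=
  ⟨PL l * (lf LL) ^ (m - l.length), by
    rw [mem_homogeneousSubmodule]
    have h1 := (PL_homog (K := K) l).mul ((lf_homog (K := K) LL).pow (m - l.length))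
    have h2 : l.length + 1 * (m - l.length) = m := by omega
    rwa [h2] at h1⟩

/-- functionals given by a descriptor -/
noncomputable def fd (m : ℕ) (d : Bool × T3) : Dual K (V (Fin 3) K m) :=
  if d.1 then fT m d.2 else fE m d.2

/-- the functional is nonzero on the test form -/
def okN (l : List T3) (d : Bool × T3) : Prop :=
  if d.1 then pv l d.2 = 0 ∧ dv l p0 d.2 ≠ 0 else pv l d.2 ≠ 0

/-- the functional vanishes on the test form -/
def okZ (l : List T3) (d : Bool × T3) : Prop :=
  if d.1 then pv l d.2 = 0 ∧ dv l p0 d.2 = 0 else pv l d.2 = 0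

instance (l : List T3) (d : Bool × T3) : Decidable (okN l d) := by
  unfold okN; infer_instance

instance (l : List T3) (d : Bool × T3) : Decidable (okZ l d) := by
  unfold okZ; infer_instance

lemma eval_tf (m : ℕ) (l : List T3) (h : l.length ≤ m) (v : T3) :
    eval (pt v) ((tf m l h : V (Fin 3) K m) : MvPolynomial (Fin 3) K) =
      ((pv l v : ℤ) : K) * ((dt LL v : ℤ) : K) ^ (m - l.length) := by
  simp only [tf]
  rw [map_mul, map_pow, eval_PL, eval_lf]

lemma eval_dd_tf (m : ℕ) (l : List T3) (h : l.length ≤ m) (v : T3) (h0 : pv l v = 0) :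
    eval (pt v) (dd p0 ((tf m l h : V (Fin 3) K m) : MvPolynomial (Fin 3) K)) =
      ((dv l p0 v : ℤ) : K) * ((dt LL v : ℤ) : K) ^ (m - l.length) := by
  simp only [tf]
  rw [dd_mul, map_add, map_mul, map_mul, eval_PL, h0, Int.cast_zero, zero_mul, zero_add, map_pow,
    eval_lf, eval_dd_PL, mul_comm]

lemma fd_ne (m : ℕ) (l : List T3) (h : l.length ≤ m) (d : Bool × T3) (hd : okN l d)
    (hL : dt LL d.2 ≠ 0) : (fd m d : Dual K (V (Fin 3) K m)) (tf m l h) ≠ 0 := by
  have hL' : ((dt LL d.2 : ℤ) : K) ^ (m - l.length) ≠ 0 := pow_ne_zero _ (by exact_mod_cast hL)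
  obtain ⟨b, v⟩ := d
  cases b
  · have hd' : pv l v ≠ 0 := by simpa [okN] using hd
    change eval (pt v) ((tf m l h : V (Fin 3) K m) : MvPolynomial (Fin 3) K) ≠ 0
    rw [eval_tf]
    exact mul_ne_zero (by exact_mod_cast hd') hL'
  · have hd' : pv l v = 0 ∧ dv l p0 v ≠ 0 := by simpa [okN] using hd
    change eval (pt v) (dd p0 ((tf m l h : V (Fin 3) K m) : MvPolynomial (Fin 3) K)) ≠ 0
    rw [eval_dd_tf _ _ _ _ hd'.1]
    exact mul_ne_zero (by exact_mod_cast hd'.2) hL'

lemma fd_zero (m : ℕ) (l : List T3) (h : l.length ≤ m) (d : Bool × T3) (hd : okZ l d) :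
    (fd m d : Dual K (V (Fin 3) K m)) (tf m l h) = 0 := by
  obtain ⟨b, v⟩ := d
  cases b
  · have hd' : pv l v = 0 := by simpa [okZ] using hd
    change eval (pt v) ((tf m l h : V (Fin 3) K m) : MvPolynomial (Fin 3) K) = 0
    rw [eval_tf, hd', Int.cast_zero, zero_mul]
  · have hd' : pv l v = 0 ∧ dv l p0 v = 0 := by simpa [okZ] using hd
    change eval (pt v) (dd p0 ((tf m l h : V (Fin 3) K m) : MvPolynomial (Fin 3) K)) = 0
    rw [eval_dd_tf _ _ _ _ hd'.1, hd'.2, Int.cast_zero, zero_mul]

/-- triangular families are independent -/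
lemma li_tri {E : Type*} [AddCommGroup E] [Module K E] {n : ℕ} (f : Fin n → Dual K E)
    (x : Fin n → E) (r : Fin n → ℕ) (h0 : ∀ i, f i (x i) ≠ 0)
    (h1 : ∀ i j, j ≠ i → r i ≤ r j → f j (x i) = 0) : LinearIndependent K f := by
  refine Fintype.linearIndependent_iff.2 ?_
  intro g hg
  have key : ∀ N : ℕ, ∀ i, r i = N → g i = 0 := by
    intro N
    induction N using Nat.strong_induction_on with
    | _ N ih =>
      intro i hi
      have h2 := LinearMap.congr_fun hg (x i)
      rw [LinearMap.sum_apply, LinearMap.zero_apply, Finset.sum_eq_single i] at h2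
      · rw [LinearMap.smul_apply, smul_eq_mul] at h2
        exact (mul_eq_zero.1 h2).resolve_right (h0 i)
      · intro j _ hj
        rw [LinearMap.smul_apply, smul_eq_mul]
        by_cases h3 : r i ≤ r j
        · rw [h1 i j hj h3, mul_zero]
        · rw [ih (r j) (by omega) j rfl, zero_mul]
      · intro h; exact absurd (Finset.mem_univ i) h
  intro i
  exact key _ i rfl

/-- independence from an integer check -/
lemma li_check (m : ℕ) {n : ℕ} (d : Fin n → Bool × T3) (t : Fin n → List T3) (r : Fin n → ℕ)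
    (hlen : ∀ i, (t i).length ≤ m) (hL : ∀ i, dt LL (d i).2 ≠ 0) (h0 : ∀ i, okN (t i) (d i))
    (h1 : ∀ i j, j ≠ i → r i ≤ r j → okZ (t i) (d j)) :
    LinearIndependent K (fun i => (fd m (d i) : Dual K (V (Fin 3) K m))) :=
  li_tri _ (fun i => tf m (t i) (hlen i)) r (fun i => fd_ne m _ (hlen i) _ (h0 i) (hL i))
    (fun i j hj hr => fd_zero m _ (hlen i) _ (h1 i j hj hr))

end char0

end Pool.Agent.R833.HO
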