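import Mathlib
import Pool.Agent.R833.HO3

set_option autoImplicit false
set_option linter.unusedSectionVars false

/-!
# Freeness for the seven planes
-/

namespace Pool.Agent.R833.HO

open MvPolynomial Module Pool.Agent.R833 Pool.Agent.R833.Arr

lemma finrank_Wd_ge {σ : Type*} [Fintype σ] [DecidableEq σ] {K : Type*} [Field K] (m : ℕ)
    {a : MvPolynomial σ K} (ha : a.IsHomogeneous 1) (h0 : a ≠ 0) :
    finrank K (V σ K m) ≤ finrank K (Wd (m + 1) a) := by
  let f : V σ K m →ₗ[K] Wd (m + 1) a :=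
    { toFun := fun G => ⟨⟨a * (G : MvPolynomial σ K), by
        rw [mem_homogeneousSubmodule, add_comm]
        exact ha.mul ((mem_homogeneousSubmodule m _).1 G.2)⟩, dvd_mul_right _ _⟩
      map_add' := fun x y => by
        apply Subtype.ext
        apply Subtype.ext
        exact mul_add a _ _
      map_smul' := fun c x => by
        apply Subtype.ext
        apply Subtype.ext
        exact mul_smul_comm c a _ }
  apply LinearMap.finrank_le_finrank_of_injective (f := f)
  intro x y hxy
  have h1 : a * (x : MvPolynomial σ K) = a * (y : MvPolynomial σ K) :=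
    congrArg (fun z : Wd (m + 1) a => ((z : V σ K (m + 1)) : MvPolynomial σ K)) hxy
  exact Subtype.ext (mul_left_cancel₀ h0 h1)

variable {K : Type*} [Field K]

lemma Wd_bot {l : ℕ} {m δ : ℕ} {Q : MvPolynomial (Fin l) K} (hQ : Q.IsHomogeneous δ)
    (hm : m < δ) : finrank K (Wd m Q) = 0 := by
  have h1 : Wd m Q = ⊥ := by
    rw [Submodule.eq_bot_iff]
    rintro F ⟨G, hG⟩
    apply Subtype.ext
    have h2 := homogeneousComponent_eq_self ((mem_homogeneousSubmodule m _).1 F.2)
    rw [← h2, hG, mul_comm Q G, HF.component_mul2 m hQ, if_neg (by omega), zero_mul]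
    rfl
  rw [h1]
  exact finrank_bot K _

lemma Wd_le {l : ℕ} {n δ : ℕ} {Q : MvPolynomial (Fin l) K} (hQ : Q.IsHomogeneous δ) :
    finrank K (Wd (n + δ) Q) ≤ finrank K (V (Fin l) K n) := by
  let f : V (Fin l) K n →ₗ[K] V (Fin l) K (n + δ) :=
    { toFun := fun G => ⟨(G : MvPolynomial (Fin l) K) * Q, by
        rw [mem_homogeneousSubmodule]
        exact ((mem_homogeneousSubmodule n _).1 G.2).mul hQ⟩
      map_add' := fun x y => by
        apply Subtype.ext
        exact add_mul _ _ Q
      map_smul' := fun c x => by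
        apply Subtype.ext
        exact smul_mul_assoc c _ Q }
  have h1 : Wd (n + δ) Q ≤ LinearMap.range f := by
    rintro F ⟨G, hG⟩
    refine ⟨⟨homogeneousComponent n G, homogeneousComponent_isHomogeneous n G⟩, ?_⟩
    apply Subtype.ext
    have h2 := homogeneousComponent_eq_self ((mem_homogeneousSubmodule (n + δ) _).1 F.2)
    rw [← h2, hG, mul_comm Q G, HF.component_mul2 (n + δ) hQ, if_pos (by omega),
      Nat.add_sub_cancel]
    rfl
  exact (Submodule.finrank_mono h1).trans (LinearMap.finrank_range_le f)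

lemma finrank_V (m : ℕ) : finrank K (V (Fin 3) K m) = (2 + m).choose 2 := HF.finrank_W 2 m

lemma prod_al_homog : (∏ h, al K h).IsHomogeneous 7 := by
  have h1 : (∏ h, al K h).IsHomogeneous (∑ _h : Fin 7, 1) :=
    IsHomogeneous.prod _ _ _ (fun h _ => lf_homog _)
  simpa using h1

section

variable [CharZero K]

lemma iInf_le (m : ℕ) : (⨅ h, Wd m (al K h)) ≤ Wd m (∏ h, al K h) := by
  intro F hF
  rw [Submodule.mem_iInf] at hF
  apply Finset.prod_dvd_of_isRelPrime
  · intro h _ h' _ hne
    exact ((al_prime h).irreducible.isRelPrime_iff_not_dvd).2 (al_not_dvd h h' hne)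
  · intro h _
    exact hF h

/-- degree of the realization of a functional -/
def dg (d : Bool × T3) : ℕ :=
  (Finset.univ.filter (fun h => dt (pl h) d.2 ≠ 0)).card + (if d.1 then 1 else 0)

lemma real_fd (m : ℕ) (d : Bool × T3) : Real m (al K) (pt p0) (fd m d) (dg d) := by
  obtain ⟨b, v⟩ := d
  cases b
  · exact real_E m v
  · exact real_T m v

/-- the lines of the triangle and the four other lines -/
def lX : T3 := (1, 0, 0)
def lY : T3 := (0, 1, -1)
def lZ : T3 := (1, -1, -1)
def ls : T3 := (2, 0, -2)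
def lb : T3 := (0, 2, 0)
def lc : T3 := (2, -2, 0)
def la : T3 := (0, 0, 2)

/-- cubics through all but one of the nine points -/
def cub : Fin 9 → List T3 :=
  ![[lY, lZ, (1, 0, -2)], [lY, lZ, (-1, 2, 0)], [lX, lZ, (2, -1, -1)], [lX, lZ, (0, 1, 1)],
    [lX, lY, (1, 1, -1)], [lX, lY, (1, -1, 1)], [lX, lc, lb], [lY, (0, 0, -2), lb],
    [lZ, (0, 0, -2), lc]]

/-- descriptors for `m = 3` -/
def d3 : Fin 10 → Bool × T3 :=
  ![(false, p0), (false, vv 0), (false, vv 1), (false, vv 2), (false, vv 3), (false, vv 4),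
    (false, vv 5), (false, ww 0), (false, ww 1), (false, ww 2)]

/-- tests for `m = 3` -/
def t3 : Fin 10 → List T3 := Matrix.vecCons [lX, lY, lZ] cub

/-- ranks for `m = 3` -/
def r3 : Fin 10 → ℕ := ![0, 1, 1, 1, 1, 1, 1, 1, 1, 1]

/-- descriptors for `m = 4` -/
def d4 : Fin 13 → Bool × T3 :=
  ![(false, p0), (true, vv 0), (true, vv 1), (true, vv 2),
    (false, vv 0), (false, vv 1), (false, vv 2), (false, vv 3), (false, vv 4),
    (false, vv 5), (false, ww 0), (false, ww 1), (false, ww 2)]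

/-- tests for `m = 4` -/
def t4 : Fin 13 → List T3 :=
  Matrix.vecCons [lX, lY, la, lb] (Matrix.vecCons [lX, lY, lZ, la]
    (Matrix.vecCons [lX, lY, lZ, lb] (Matrix.vecCons [lX, lY, lZ, lX] cub)))

/-- ranks for `m = 4` -/
def r4 : Fin 13 → ℕ := ![0, 1, 1, 1, 2, 2, 2, 2, 2, 2, 2, 2, 2]

/-- descriptors for `m ≥ 5` -/
def d5 : Fin 15 → Bool × T3 :=
  ![(true, vv 0), (true, vv 1), (true, vv 2), (true, vv 3), (true, vv 4), (true, vv 5),
    (false, vv 0), (false, vv 1), (false, vv 2), (false, vv 3), (false, vv 4),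
    (false, vv 5), (false, ww 0), (false, ww 1), (false, ww 2)]

/-- tests for `m ≥ 5` -/
def t5 : Fin 15 → List T3 :=
  Matrix.vecCons [ls, la, lb, lY, lZ] (Matrix.vecCons [lb, lc, ls, lY, lZ]
    (Matrix.vecCons [ls, lc, la, lX, lZ] (Matrix.vecCons [la, lb, ls, lX, lZ]
    (Matrix.vecCons [ls, lb, la, lX, lY] (Matrix.vecCons [la, lc, ls, lX, lY] cub)))))

/-- ranks for `m ≥ 5` -/
def r5 : Fin 15 → ℕ := ![0, 0, 0, 0, 0, 0, 1, 1, 1, 1, 1, 1, 1, 1, 1]

lemma li3 : LinearIndependent K (fun i => (fd 3 (d3 i) : Dual K (V (Fin 3) K 3))) :=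
  li_check 3 d3 t3 r3 (by decide) (by decide) (by decide) (by decide)

lemma li4 : LinearIndependent K (fun i => (fd 4 (d4 i) : Dual K (V (Fin 3) K 4))) :=
  li_check 4 d4 t4 r4 (by decide) (by decide) (by decide) (by decide)

lemma li5 (m : ℕ) (hm : 5 ≤ m) :
    LinearIndependent K (fun i => (fd m (d5 i) : Dual K (V (Fin 3) K m))) := by
  have h1 : ∀ i, (t5 i).length ≤ 5 := by decide
  exact li_check m d5 t5 r5 (fun i => (h1 i).trans hm) (by decide) (by decide) (by decide)

lemma choose_aux (n : ℕ) : (n + 1).choose 2 = n + n.choose 2 := by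
  rw [Nat.choose_succ_succ' n 1, Nat.choose_one_right]

theorem free_ModA_three (m : ℕ) (hm : 3 ≤ m) :
    Module.Free (MvPolynomial (Fin 3) K) (ModA m (al K)) := by
  obtain ⟨m', rfl⟩ : ∃ m', m = m' + 1 := ⟨m - 1, by omega⟩
  have ht : ∀ h, (2 + m').choose 2 ≤ finrank K (Wd (m' + 1) (al K h)) := by
    intro h
    rw [← finrank_V (K := K)]
    exact finrank_Wd_ge m' (lf_homog _) (al_ne h)
  have hV := finrank_V (K := K) (m' + 1)
  have hI := Submodule.finrank_mono (iInf_le (K := K) (m' + 1))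
  by_cases h3 : m' = 2
  · subst h3
    refine chain (al K) al_prime al_not_dvd (fun h => lf_homog _) (by simp) ht (pt p0) al_p0
      _ li3 (fun i => if i = 0 then 3 else dg (d3 i)) ?_ ?_
    · intro j
      split_ifs with hj
      · subst hj
        exact real_P 3
      · exact real_fd 3 _
    · rw [Wd_bot prod_al_homog (by norm_num)] at hI
      have h1 : ∑ j, (fun i => if i = 0 then 3 else dg (d3 i)) j = 42 := by decide
      rw [h1, hV, Fintype.card_fin, Nat.le_zero.1 hI]
      decide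
  by_cases h4 : m' = 3
  · subst h4
    refine chain (al K) al_prime al_not_dvd (fun h => lf_homog _) (by simp) ht (pt p0) al_p0
      _ li4 (fun i => if i = 0 then 4 else dg (d4 i)) ?_ ?_
    · intro j
      split_ifs with hj
      · subst hj
        exact real_P 4
      · exact real_fd 4 _
    · rw [Wd_bot prod_al_homog (by norm_num)] at hI
      have h1 : ∑ j, (fun i => if i = 0 then 4 else dg (d4 i)) j = 58 := by decide
      rw [h1, hV, Fintype.card_fin, Nat.le_zero.1 hI]
      decide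
  refine chain (al K) al_prime al_not_dvd (fun h => lf_homog _) (by simp) ht (pt p0) al_p0
      _ (li5 (m' + 1) (by omega)) (fun i => dg (d5 i)) (fun j => real_fd _ _) ?_
  have h1 : ∑ j, (fun i => dg (d5 i)) j = 69 := by decide
  rw [h1, hV, Fintype.card_fin]
  by_cases h5 : m' = 4
  · subst h5
    rw [Wd_bot prod_al_homog (by norm_num)] at hI
    rw [Nat.le_zero.1 hI]
    decide
  by_cases h6 : m' = 5
  · subst h6
    rw [Wd_bot prod_al_homog (by norm_num)] at hI
    rw [Nat.le_zero.1 hI]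
    decide
  obtain ⟨n, rfl⟩ : ∃ n, m' = n + 6 := ⟨m' - 6, by omega⟩
  have hI2 := hI.trans (Wd_le (K := K) (n := n) prod_al_homog)
  rw [finrank_V] at hI2
  have e1 : 2 + (n + 6 + 1) = n + 2 + 1 + 1 + 1 + 1 + 1 + 1 + 1 := by ring
  have e2 : 2 + (n + 6) = n + 2 + 1 + 1 + 1 + 1 + 1 + 1 := by ring
  have e3 : 2 + n = n + 2 := by ring
  rw [e3] at hI2
  rw [e1, e2]
  simp only [choose_aux] at hI2 ⊢
  omega

end

end Pool.Agent.R833.HO
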