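import Mathlib
import Pool.Agent.R833.HO3b

set_option autoImplicit false
set_option linter.unusedSectionVars false

/-!
# Tools for the case of more than two coordinates
-/

namespace Pool.Agent.R833.HO

open MvPolynomial Module Pool.Agent.R833 Pool.Agent.R833.Arr

/-- dependent elements of a free module satisfy a nontrivial relation modulo the ideal of a
rational point -/
theorem dep_mod {K S M : Type*} [Field K] [CommRing S] [IsDomain S] [Algebra K S]
    (ev : S →ₐ[K] K) [AddCommGroup M] [Module S M] [Module.Free S M] {ι : Type*} [Fintype ι]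
    [DecidableEq ι] (w : ι → M) (hw : ¬ LinearIndependent S w) :
    ∃ c : ι → K, c ≠ 0 ∧
      ∑ i, (algebraMap K S (c i)) • w i ∈ (RingHom.ker ev) • (⊤ : Submodule S M) := by
  by_contra hcon
  push Not at hcon
  apply hw
  set β := Module.Free.chooseBasis S M with hβ
  let r : ι → (Module.Free.ChooseBasisIndex S M →₀ K) := fun i =>
    (β.repr (w i)).mapRange ev (map_zero ev)
  have hr : LinearIndependent K r := by
    rw [Fintype.linearIndependent_iff]
    intro c hc
    by_contra hne
    have hc0 : c ≠ 0 := by
      rintro rfl
      exact hne (fun i => rfl)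
    apply hcon c hc0
    set x := ∑ i, (algebraMap K S (c i)) • w i with hx
    have h1 : ∀ j, β.repr x j ∈ RingHom.ker ev := by
      intro j
      rw [RingHom.mem_ker, hx, map_sum, Finsupp.finsetSum_apply, map_sum]
      have h2 := DFunLike.congr_fun hc j
      rw [Finsupp.finsetSum_apply] at h2
      rw [Finsupp.coe_zero, Pi.zero_apply] at h2
      rw [← h2]
      apply Finset.sum_congr rfl
      intro i _
      rw [map_smul, Finsupp.smul_apply, smul_eq_mul, map_mul, AlgHom.commutes, Finsupp.smul_apply,
        smul_eq_mul, Finsupp.mapRange_apply]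
      rfl
    rw [← β.linearCombination_repr x, Finsupp.linearCombination_apply, Finsupp.sum]
    exact Submodule.sum_mem _ (fun j _ => Submodule.smul_mem_smul (h1 j) Submodule.mem_top)
  obtain ⟨g, hg⟩ := LinearMap.exists_leftInverse_of_injective (Fintype.linearCombination K r)
    (LinearMap.ker_eq_bot.2 (linearIndependent_iff_injective_fintypeLinearCombination.1 hr))
  have hg' : ∀ i, g (r i) = Pi.single i 1 := by
    intro i
    have h2 := LinearMap.congr_fun hg (Pi.single i 1)
    rw [LinearMap.comp_apply, Fintype.linearCombination_apply_single, one_smul] at h2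
    exact h2
  let Ψ : M →ₗ[S] (ι → S) := β.constr S (fun j => fun k => algebraMap K S (g (Finsupp.single j 1) k))
  have hlin : ∀ (f : Module.Free.ChooseBasisIndex S M →₀ S) (k : ι),
      ev ((f.sum (fun j s => s • (fun k => algebraMap K S (g (Finsupp.single j 1) k)) :
        _ → S → (ι → S))) k) = g (f.mapRange ev (map_zero ev)) k := by
    intro f k
    induction f using Finsupp.induction_linear with
    | zero => simp
    | add f1 f2 h1 h2 =>
      rw [Finsupp.sum_add_index' (by intros; exact zero_smul _ _)
        (by intros; exact add_smul _ _ _), Pi.add_apply, map_add, h1, h2,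
        Finsupp.mapRange_add (by intro a b; exact map_add ev a b), map_add, Pi.add_apply]
    | single j s =>
      rw [Finsupp.sum_single_index (by exact zero_smul _ _), Finsupp.mapRange_single, Pi.smul_apply,
        smul_eq_mul, map_mul, AlgHom.commutes]
      have h4 : (Finsupp.single j (ev s) : Module.Free.ChooseBasisIndex S M →₀ K) =
          ev s • Finsupp.single j 1 := by
        rw [Finsupp.smul_single, smul_eq_mul, mul_one]
      rw [h4, map_smul, Pi.smul_apply, smul_eq_mul]
      rfl
  have hΨ : ∀ x k, ev (Ψ x k) = g ((β.repr x).mapRange ev (map_zero ev)) k := by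
    intro x k
    rw [← hlin]
    simp only [Ψ, Basis.constr_apply]
  let B : Matrix ι ι S := Matrix.of fun k i => Ψ (w i) k
  have hB : B.det ≠ 0 := by
    intro h0
    have h1 := congrArg ev h0
    rw [map_zero, AlgHom.map_det] at h1
    have h2 : ev.mapMatrix B = 1 := by
      ext k i
      have h3 : ev (Ψ (w i) k) = (1 : Matrix ι ι K) k i := by
        rw [hΨ]
        change g (r i) k = _
        rw [hg', Matrix.one_apply, Pi.single_apply]
      exact h3
    rw [h2, Matrix.det_one] at h1
    exact one_ne_zero h1
  rw [Fintype.linearIndependent_iff]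
  intro s hs
  have h1 : B.mulVec s = 0 := by
    ext k
    have h2 := congrFun (congrArg Ψ hs) k
    rw [map_sum, map_zero, Pi.zero_apply, Finset.sum_apply] at h2
    rw [Pi.zero_apply, ← h2]
    simp only [Matrix.mulVec, dotProduct, B, Matrix.of_apply, map_smul, Pi.smul_apply,
      smul_eq_mul]
    exact Finset.sum_congr rfl (fun i _ => mul_comm _ _)
  intro i
  exact congrFun (Matrix.eq_zero_of_mulVec_eq_zero hB h1) i

end Pool.Agent.R833.HO
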