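import Mathlib
import Pool.Agent.R833.HO3b

set_option autoImplicit false
set_option linter.unusedSectionVars false

/-!
# The Shi arrangement and its localization at a rank three flat
-/

namespace Pool.Agent.R833.HO

open MvPolynomial Module Pool.Agent.R833 Pool.Agent.R833.Arr

variable (K : Type*) [Field K]

/-- The defining polynomial of the arrangement `Shi_l`; the coordinates `x₁, …, x_l` are
`X 0, …, X (l - 1)` and the coordinate `z` is `X l`. -/
noncomputable def shi (l : ℕ) : MvPolynomial (Fin (l + 1)) K :=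
  X (Fin.last l) * (∏ i : Fin l, X i.castSucc * (X i.castSucc - X (Fin.last l))) *
    ∏ p ∈ Finset.univ.filter (fun p : Fin l × Fin l => p.1 < p.2),
      ((X p.1.castSucc - X p.2.castSucc) *
        (X p.1.castSucc - X p.2.castSucc - X (Fin.last l)))

lemma al_eq (h : Fin 7) : al K h = (![X 2, X 0, X 0 - X 2, X 1, X 1 - X 2, X 0 - X 1,
    X 0 - X 1 - X 2] : Fin 7 → MvPolynomial (Fin 3) K) h := by
  fin_cases h <;> simp [al, lf, pl] <;> ring

lemma shi_two : shi K 2 = ∏ h, al K h := by
  have h1 : Finset.univ.filter (fun p : Fin 2 × Fin 2 => p.1 < p.2) = {(0, 1)} := by decide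
  unfold shi
  rw [h1, Finset.prod_singleton, Fin.prod_univ_two, Fin.prod_univ_seven]
  simp only [al_eq]
  have e2 : (Fin.last 2 : Fin 3) = 2 := rfl
  have e0 : (Fin.castSucc (0 : Fin 2) : Fin 3) = 0 := rfl
  have e1 : (Fin.castSucc (1 : Fin 2) : Fin 3) = 1 := rfl
  simp only [e2, e0, e1, Matrix.cons_val]
  ring

/-- the variables of the localization -/
def eps (n : ℕ) : Fin 3 → Fin (n + 4) := ![0, 1, Fin.last (n + 3)]

lemma eps_inj (n : ℕ) : Function.Injective (eps n) := by
  intro a b hab
  fin_cases a <;> fin_cases b <;> simp [eps, Fin.ext_iff] at hab ⊢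

/-- the inclusion of polynomial rings -/
noncomputable def jj (n : ℕ) : MvPolynomial (Fin 3) K →ₐ[K] MvPolynomial (Fin (n + 4)) K :=
  rename (eps n)

/-- the specialization -/
noncomputable def sp (n : ℕ) : MvPolynomial (Fin (n + 4)) K →ₐ[K] MvPolynomial (Fin 3) K :=
  aeval (fun k => if k = 0 then X 0 else if k = 1 then X 1 else if k = Fin.last (n + 3) then X 2
    else C (k.val : K))

/-- the base point -/
noncomputable def PP (n : ℕ) : Fin (n + 4) → K :=
  fun k => if k = 0 then 0 else if k = 1 then 0 else if k = Fin.last (n + 3) then 0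
    else (k.val : K)

lemma sp_jj (n : ℕ) (f : MvPolynomial (Fin 3) K) : sp K n (jj K n f) = f := by
  have h1 : (sp K n).comp (jj K n) = AlgHom.id K _ := by
    apply MvPolynomial.algHom_ext
    intro i
    rw [AlgHom.comp_apply, jj, rename_X, sp, aeval_X]
    fin_cases i <;> simp [eps, Fin.ext_iff]
  exact DFunLike.congr_fun h1 f

lemma eval_sp (n : ℕ) (f : MvPolynomial (Fin (n + 4)) K) :
    eval (fun _ => (0 : K)) (sp K n f) = eval (PP K n) f := by
  induction f using MvPolynomial.induction_on with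
  | C c => simp [sp]
  | add p q hp hq => rw [map_add, map_add, map_add, hp, hq]
  | mul_X p i hp =>
    rw [map_mul, map_mul, map_mul, hp, eval_X]
    congr 1
    rw [sp, aeval_X, PP]
    split_ifs <;> simp

lemma eval_jj (n : ℕ) (f : MvPolynomial (Fin 3) K) :
    eval (PP K n) (jj K n f) = eval (fun _ => (0 : K)) f := by
  rw [← eval_sp, sp_jj]

/-- the product of the other forms -/
noncomputable def gO (n : ℕ) : MvPolynomial (Fin (n + 4)) K :=
  (∏ i ∈ (Finset.univ.erase (0 : Fin (n + 3))).erase 1,
    X i.castSucc * (X i.castSucc - X (Fin.last (n + 3)))) *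
  ∏ p ∈ (Finset.univ.filter (fun p : Fin (n + 3) × Fin (n + 3) => p.1 < p.2)).erase (0, 1),
      ((X p.1.castSucc - X p.2.castSucc) *
        (X p.1.castSucc - X p.2.castSucc - X (Fin.last (n + 3))))

lemma shi_split (n : ℕ) : shi K (n + 3) = jj K n (∏ h, al K h) * gO K n := by
  have h1 : (0, 1) ∈ Finset.univ.filter (fun p : Fin (n + 3) × Fin (n + 3) => p.1 < p.2) :=
    Finset.mem_filter.2 ⟨Finset.mem_univ _, Fin.zero_lt_one⟩
  have h2 : (1 : Fin (n + 3)) ∈ Finset.univ.erase (0 : Fin (n + 3)) := by
    simp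
  unfold shi gO
  rw [← Finset.mul_prod_erase _ _ h1, ← Finset.mul_prod_erase _ _ (Finset.mem_univ 0),
    ← Finset.mul_prod_erase _ _ h2, map_prod, Fin.prod_univ_seven]
  simp only [al_eq, Matrix.cons_val, jj, map_sub, rename_X, eps]
  have e0 : (Fin.castSucc (0 : Fin (n + 3)) : Fin (n + 4)) = 0 := rfl
  have e1 : (Fin.castSucc (1 : Fin (n + 3)) : Fin (n + 4)) = 1 := rfl
  simp only [e0, e1]
  ring

lemma PP_last (n : ℕ) : PP K n (Fin.last (n + 3)) = 0 := by
  unfold PP
  split_ifs with h1 h2 h3
  · rfl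
  · rfl
  · rfl
  · exact absurd rfl h3

lemma PP_castSucc (n : ℕ) (i : Fin (n + 3)) :
    PP K n i.castSucc = if i.val < 2 then 0 else (i.val : K) := by
  unfold PP
  have h0 : i.castSucc = 0 ↔ i.val = 0 := Fin.ext_iff
  have h1 : i.castSucc = 1 ↔ i.val = 1 := Fin.ext_iff
  have h2 : ¬ i.castSucc = Fin.last (n + 3) := by
    have := i.2
    simp [Fin.ext_iff]
    omega
  simp only [h0, h1, if_neg h2, Fin.val_castSucc]
  split_ifs <;> first | rfl | omega

lemma gO_eval [CharZero K] (n : ℕ) : eval (PP K n) (gO K n) ≠ 0 := by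
  unfold gO
  rw [map_mul, map_prod, map_prod]
  apply mul_ne_zero
  · apply Finset.prod_ne_zero_iff.2
    intro i hi
    have h1 : i ≠ 1 := Finset.ne_of_mem_erase hi
    have h0 : i ≠ 0 := Finset.ne_of_mem_erase (Finset.mem_of_mem_erase hi)
    have h2 : ¬ i.val < 2 := by
      intro h
      have h3 : i.val = 0 ∨ i.val = 1 := by omega
      rcases h3 with h3 | h3
      · exact h0 (Fin.ext (by simpa using h3))
      · exact h1 (Fin.ext (by simpa using h3))
    rw [map_mul, map_sub, eval_X, eval_X, PP_last, PP_castSucc, if_neg h2, sub_zero]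
    have h3 : (i.val : K) ≠ 0 := by
      have : i.val ≠ 0 := by omega
      exact_mod_cast this
    exact mul_ne_zero h3 h3
  · apply Finset.prod_ne_zero_iff.2
    rintro ⟨i, j⟩ hp
    have h1 : (i, j) ≠ (0, 1) := Finset.ne_of_mem_erase hp
    have h2 : i < j := (Finset.mem_filter.1 (Finset.mem_of_mem_erase hp)).2
    have h3 : ¬ j.val < 2 := by
      intro h
      have h3 : i.val < j.val := h2
      apply h1
      have e0 : (0 : Fin (n + 3)).val = 0 := rfl
      have e1 : (1 : Fin (n + 3)).val = 1 := rfl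
      have h4 : i = 0 := Fin.ext (by omega)
      have h5 : j = 1 := Fin.ext (by omega)
      rw [h4, h5]
    have h4 : PP K n i.castSucc - PP K n j.castSucc ≠ 0 := by
      rw [PP_castSucc, PP_castSucc, if_neg h3]
      split_ifs with h5
      · have : j.val ≠ 0 := by omega
        rw [zero_sub, neg_ne_zero]
        exact_mod_cast this
      · have h6 : i.val < j.val := h2
        rw [sub_ne_zero]
        have : i.val ≠ j.val := by omega
        exact_mod_cast this
    simp only [map_mul, map_sub, eval_X, PP_last, sub_zero]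
    exact mul_ne_zero h4 h4

end Pool.Agent.R833.HO
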