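import Mathlib
import Pool.Agent.R833.HO4
import Pool.Agent.R833.HO5

set_option autoImplicit false
set_option linter.unusedSectionVars false

/-!
# Seven special operators
-/

namespace Pool.Agent.R833.HO

open MvPolynomial Module Pool.Agent.R833 Pool.Agent.R833.Arr

variable {K : Type*} [Field K]

/-- iterated derivative along the variable `X 2` -/
noncomputable def Bk (n : ℕ) :
    ℕ → (MvPolynomial (Fin (n + 4)) K →ₗ[K] MvPolynomial (Fin (n + 4)) K)
  | 0 => LinearMap.id
  | k + 1 => Bk n k ∘ₗ (pderiv 2).toLinearMap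

lemma Bk_succ (n k : ℕ) (G : MvPolynomial (Fin (n + 4)) K) :
    Bk n (k + 1) G = Bk n k (pderiv 2 G) := rfl

lemma eps_ne (n : ℕ) (i : Fin 3) : eps n i ≠ 2 := by
  intro h
  have h2 : (2 : Fin (n + 4)).val = 2 := by
    rw [Fin.val_two]
  have h1 := congrArg Fin.val h
  rw [h2] at h1
  fin_cases i
  · have h3 : (0 : ℕ) = 2 := h1
    omega
  · have h3 : (1 : ℕ) = 2 := h1
    omega
  · have h3 : n + 3 = 2 := h1
    omega

lemma pderiv_two_jj (n : ℕ) (f : MvPolynomial (Fin 3) K) :
    pderiv (2 : Fin (n + 4)) (jj K n f) = 0 := by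
  induction f using MvPolynomial.induction_on with
  | C c => simp [jj]
  | add p q hp hq => rw [map_add, map_add, hp, hq, add_zero]
  | mul_X p i hp =>
    rw [map_mul, Derivation.leibniz, hp, smul_zero, add_zero, jj, rename_X,
      pderiv_X_of_ne (eps_ne n i), smul_zero]

lemma Bk_mul (n : ℕ) (f : MvPolynomial (Fin 3) K) : ∀ (k : ℕ)
    (G : MvPolynomial (Fin (n + 4)) K), Bk n k (jj K n f * G) = jj K n f * Bk n k G
  | 0, G => rfl
  | k + 1, G => by
    rw [Bk_succ, Bk_succ, Derivation.leibniz, pderiv_two_jj, smul_zero, add_zero, smul_eq_mul,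
      Bk_mul n f k]

lemma Bk_pow (n : ℕ) : ∀ (k : ℕ),
    Bk n k ((X 2 : MvPolynomial (Fin (n + 4)) K) ^ k) = C (k.factorial : K)
  | 0 => by simp [Bk]
  | k + 1 => by
    have h1 : pderiv 2 ((X 2 : MvPolynomial (Fin (n + 4)) K) ^ (k + 1)) =
        ((k : K) + 1) • (X 2) ^ k := by
      rw [Derivation.leibniz_pow, pderiv_X_self, Nat.add_sub_cancel]
      simp [smul_eq_C_mul]
    rw [Bk_succ, h1, map_smul, Bk_pow n k, Nat.factorial_succ, smul_eq_C_mul, ← C_mul]
    push_cast
    rfl

lemma Bk_test (n k : ℕ) (f : MvPolynomial (Fin 3) K) :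
    Bk n k (jj K n f * (X 2) ^ k) = jj K n (C (k.factorial : K) * f) := by
  rw [Bk_mul, Bk_pow, map_mul, mul_comm]
  congr 1
  simp [jj]

/-- second order operators -/
noncomputable def TT (n k : ℕ) (i j : Fin 3) :
    MvPolynomial (Fin (n + 4)) K →ₗ[K] MvPolynomial (Fin (n + 4)) K :=
  ((pderiv (eps n i)).toLinearMap ∘ₗ (pderiv (eps n j)).toLinearMap) ∘ₗ Bk n k

lemma TT_apply (n k : ℕ) (i j : Fin 3) (G : MvPolynomial (Fin (n + 4)) K) :
    TT n k i j G = pderiv (eps n i) (pderiv (eps n j) (Bk n k G)) := rfl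

lemma TT_mem (n : ℕ) (i j : Fin 3) : ∀ k : ℕ,
    (TT n k i j : MvPolynomial (Fin (n + 4)) K →ₗ[K] _) ∈ DiffOp (Fin (n + 4)) K (k + 2)
  | 0 => dlist_mem [eps n j, eps n i]
  | k + 1 => comp_mem (TT_mem n i j k) 2

lemma pderiv_comm {σ : Type*} (i j : σ) (f : MvPolynomial σ K) :
    pderiv i (pderiv j f) = pderiv j (pderiv i f) := by
  classical
  have h1 : ⁅(pderiv i : Derivation K (MvPolynomial σ K) (MvPolynomial σ K)),
      (pderiv j : Derivation K (MvPolynomial σ K) (MvPolynomial σ K))⁆ = 0 := by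
    apply MvPolynomial.derivation_ext
    intro k
    rw [Derivation.commutator_apply, pderiv_X, pderiv_X, Derivation.zero_apply]
    have h2 : ∀ a b : σ, ∀ c : σ, pderiv a ((Pi.single b 1 : σ → MvPolynomial σ K) c) = 0 := by
      intro a b c
      by_cases h : c = b
      · subst h; rw [Pi.single_eq_same]; exact Derivation.map_one_eq_zero _
      · rw [Pi.single_eq_of_ne h, map_zero]
    rw [h2, h2, sub_zero]
  have h2 := DFunLike.congr_fun h1 f
  rw [Derivation.commutator_apply, Derivation.zero_apply] at h2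
  exact sub_eq_zero.1 h2

lemma TT_comm (n k : ℕ) (i j : Fin 3) :
    (TT n k i j : MvPolynomial (Fin (n + 4)) K →ₗ[K] _) = TT n k j i := by
  apply LinearMap.ext
  intro G
  rw [TT_apply, TT_apply]
  exact pderiv_comm _ _ _

/-- directional derivative in the larger ring -/
noncomputable def D1 (n : ℕ) (u : T3) (G : MvPolynomial (Fin (n + 4)) K) :
    MvPolynomial (Fin (n + 4)) K :=
  ∑ i, C (pt u i) * pderiv (eps n i) G

/-- Euler derivation of the three variables -/
noncomputable def EE (n : ℕ) (G : MvPolynomial (Fin (n + 4)) K) :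
    MvPolynomial (Fin (n + 4)) K :=
  ∑ i, X (eps n i) * pderiv (eps n i) G

lemma D1_mul (n : ℕ) (u : T3) (F G : MvPolynomial (Fin (n + 4)) K) :
    D1 n u (F * G) = F * D1 n u G + G * D1 n u F := by
  unfold D1
  simp only [Derivation.leibniz, smul_eq_mul, Fin.sum_univ_three]
  ring

lemma EE_mul (n : ℕ) (F G : MvPolynomial (Fin (n + 4)) K) :
    EE n (F * G) = F * EE n G + G * EE n F := by
  unfold EE
  simp only [Derivation.leibniz, smul_eq_mul, Fin.sum_univ_three]
  ring

lemma D1_jj (n : ℕ) (u : T3) (f : MvPolynomial (Fin 3) K) :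
    D1 n u (jj K n f) = jj K n (dd u f) := by
  unfold D1 dd jj
  rw [map_sum]
  apply Finset.sum_congr rfl
  intro i _
  rw [pderiv_rename (eps_inj n), map_mul, rename_C]

lemma EE_jj (n d : ℕ) {f : MvPolynomial (Fin 3) K} (hf : f.IsHomogeneous d) :
    EE n (jj K n f) = (d : MvPolynomial (Fin (n + 4)) K) * jj K n f := by
  have h1 := congrArg (jj K n) hf.sum_X_mul_pderiv
  rw [map_sum, nsmul_eq_mul, map_mul, map_natCast] at h1
  rw [← h1]
  unfold EE jj
  apply Finset.sum_congr rfl
  intro i _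
  rw [pderiv_rename (eps_inj n), map_mul, rename_X]

/-- combinations of the second order operators -/
noncomputable def op (n k : ℕ) (c : Fin 3 → Fin 3 → MvPolynomial (Fin (n + 4)) K) :
    MvPolynomial (Fin (n + 4)) K →ₗ[K] MvPolynomial (Fin (n + 4)) K :=
  ∑ i, ∑ j, c i j • TT n k i j

lemma op_mem (n k : ℕ) (c : Fin 3 → Fin 3 → MvPolynomial (Fin (n + 4)) K) :
    op n k c ∈ DiffOp (Fin (n + 4)) K (k + 2) :=
  Submodule.sum_mem _ (fun i _ => Submodule.sum_mem _ (fun j _ =>
    Submodule.smul_mem _ _ (TT_mem n i j k)))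

lemma op_apply (n k : ℕ) (c : Fin 3 → Fin 3 → MvPolynomial (Fin (n + 4)) K)
    (G : MvPolynomial (Fin (n + 4)) K) :
    op n k c G = ∑ i, ∑ j, c i j * pderiv (eps n i) (pderiv (eps n j) (Bk n k G)) := by
  unfold op
  simp only [LinearMap.sum_apply, LinearMap.smul_apply, TT_apply, smul_eq_mul]

lemma op_E (n k : ℕ) (G : MvPolynomial (Fin (n + 4)) K) :
    op n k (fun i j => X (eps n i) * X (eps n j)) G = EE n (EE n (Bk n k G)) - EE n (Bk n k G) := by
  have hX : ∀ i j, pderiv (eps n i) (X (eps n j) : MvPolynomial (Fin (n + 4)) K) =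
      if i = j then 1 else 0 := by
    intro i j
    by_cases h : i = j
    · subst h; rw [pderiv_X_self, if_pos rfl]
    · rw [pderiv_X_of_ne (fun h2 => h (eps_inj n h2).symm), if_neg h]
  rw [op_apply]
  unfold EE
  simp only [map_add, Derivation.leibniz, smul_eq_mul, Fin.sum_univ_three, hX]
  simp
  ring

lemma op_D (n k : ℕ) (u : T3) (G : MvPolynomial (Fin (n + 4)) K) :
    op n k (fun i j => C (pt u i * pt u j)) G = D1 n u (D1 n u (Bk n k G)) := by
  rw [op_apply]
  unfold D1
  simp only [map_add, pderiv_C_mul, Fin.sum_univ_three, C_mul]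
  ring

/-- the seven special operators -/
noncomputable def wO (n k : ℕ) :
    Option (Fin 6) → (MvPolynomial (Fin (n + 4)) K →ₗ[K] MvPolynomial (Fin (n + 4)) K)
  | none => gO K n • op n k (fun i j => X (eps n i) * X (eps n j))
  | some v => (gO K n * jj K n (gg (vv v))) • op n k (fun i j => C (pt (vv v) i * pt (vv v) j))

/-- the product of the planes through a point -/
noncomputable def qq (v : T3) : MvPolynomial (Fin 3) K :=
  ∏ h ∈ Finset.univ.filter (fun h => ¬ dt (pl h) v ≠ 0), al K h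

lemma gg_mul_qq (v : T3) : gg v * qq v = ∏ h, al K h :=
  Finset.prod_filter_mul_prod_filter_not _ _ _

lemma dd_qq (v : T3) : dd v (qq v : MvPolynomial (Fin 3) K) = 0 := by
  unfold qq
  have key : ∀ s : Finset (Fin 7), (∀ h ∈ s, dt (pl h) v = 0) →
      dd v (∏ h ∈ s, al K h) = 0 := by
    intro s
    induction s using Finset.induction_on with
    | empty => intro _; rw [Finset.prod_empty, dd_one]
    | insert a s ha ih =>
      intro hs
      rw [Finset.prod_insert ha, dd_mul, ih (fun h hh => hs h (Finset.mem_insert_of_mem hh)),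
        al, dd_lf, hs a (Finset.mem_insert_self a s)]
      simp
  apply key
  intro h hh
  simpa using (Finset.mem_filter.1 hh).2

lemma wO_mem (n k : ℕ) (o : Option (Fin 6)) : wO (K := K) n k o ∈ Dm (k + 2) (shi K (n + 3)) := by
  refine ⟨?_, ?_⟩
  · cases o with
    | none => exact Submodule.smul_mem _ _ (op_mem n k _)
    | some v => exact Submodule.smul_mem _ _ (op_mem n k _)
  · intro f
    rw [shi_split, mul_assoc]
    cases o with
    | none =>
      simp only [wO]
      rw [LinearMap.smul_apply, smul_eq_mul, op_E, Bk_mul, EE_mul, EE_jj n 7 prod_al_homog,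
        mul_comm (jj K n _) (gO K n)]
      apply mul_dvd_mul_left
      have h1 : jj K n (∏ h, al K h) * EE n (Bk n k (gO K n * f)) +
          Bk n k (gO K n * f) * (((7 : ℕ) : MvPolynomial (Fin (n + 4)) K) *
            jj K n (∏ h, al K h)) =
          jj K n (∏ h, al K h) * (EE n (Bk n k (gO K n * f)) +
            7 * Bk n k (gO K n * f)) := by
        push_cast
        ring
      rw [h1, EE_mul, EE_jj n 7 prod_al_homog]
      refine ⟨EE n (EE n (Bk n k (gO K n * f)) + 7 * Bk n k (gO K n * f)) +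
        7 * (EE n (Bk n k (gO K n * f)) + 7 * Bk n k (gO K n * f)) -
        (EE n (Bk n k (gO K n * f)) + 7 * Bk n k (gO K n * f)), ?_⟩
      push_cast
      ring
    | some v =>
      simp only [wO]
      rw [LinearMap.smul_apply, smul_eq_mul, op_D, Bk_mul, ← gg_mul_qq (vv v), map_mul]
      have h1 : jj K n (gg (vv v)) * jj K n (qq (vv v)) * Bk n k (gO K n * f) =
          jj K n (qq (vv v)) * (jj K n (gg (vv v)) * Bk n k (gO K n * f)) := by ring
      rw [h1, D1_mul, D1_jj, dd_qq, map_zero, mul_zero, add_zero, D1_mul, D1_jj, dd_qq, map_zero,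
        mul_zero, add_zero]
      refine ⟨D1 n (vv v) (D1 n (vv v) (jj K n (gg (vv v)) * Bk n k (gO K n * f))), ?_⟩
      ring

/-- six operators spanning the seven special ones -/
noncomputable def six (n k : ℕ) :
    Fin 6 → (MvPolynomial (Fin (n + 4)) K →ₗ[K] MvPolynomial (Fin (n + 4)) K) :=
  ![TT n k 0 0, TT n k 0 1, TT n k 0 2, TT n k 1 1, TT n k 1 2, TT n k 2 2]

lemma op_span (n k : ℕ) (c : Fin 3 → Fin 3 → MvPolynomial (Fin (n + 4)) K) :
    op n k c ∈ Submodule.span (MvPolynomial (Fin (n + 4)) K) (Set.range (six n k)) := by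
  have key : ∀ i j, (TT n k i j : MvPolynomial (Fin (n + 4)) K →ₗ[K] _) ∈
      Submodule.span (MvPolynomial (Fin (n + 4)) K) (Set.range (six n k)) := by
    intro i j
    apply Submodule.subset_span
    fin_cases i <;> fin_cases j
    · exact ⟨0, rfl⟩
    · exact ⟨1, rfl⟩
    · exact ⟨2, rfl⟩
    · exact ⟨1, TT_comm n k 0 1⟩
    · exact ⟨3, rfl⟩
    · exact ⟨4, rfl⟩
    · exact ⟨2, TT_comm n k 0 2⟩
    · exact ⟨4, TT_comm n k 1 2⟩
    · exact ⟨5, rfl⟩
  exact Submodule.sum_mem _ (fun i _ => Submodule.sum_mem _ (fun j _ =>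
    Submodule.smul_mem _ _ (key i j)))

lemma dep_of_span {R M : Type*} [CommRing R] [Nontrivial R] [AddCommGroup M] [Module R M]
    (N : Submodule R M) (w : Option (Fin 6) → M) (hw : ∀ o, w o ∈ N) (t : Fin 6 → M)
    (ht : ∀ o, w o ∈ Submodule.span R (Set.range t)) :
    ¬ LinearIndependent R (fun o => (⟨w o, hw o⟩ : N)) := by
  intro h
  have h1 : LinearIndependent R w := h.map' N.subtype (Submodule.ker_subtype _)
  classical
  have h2 := linearIndependent_le_span_aux' _ h1 (Set.range t) (by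
    rintro _ ⟨o, rfl⟩
    exact ht o)
  have h3 := h2.trans (Fintype.card_range_le t)
  simp at h3

lemma wO_dep (n k : ℕ) : ¬ LinearIndependent (MvPolynomial (Fin (n + 4)) K)
    (fun o => (⟨wO n k o, wO_mem n k o⟩ : Dm (k + 2) (shi K (n + 3)))) := by
  apply dep_of_span (Dm (k + 2) (shi K (n + 3))) (wO n k) (wO_mem n k) (six n k)
  intro o
  cases o with
  | none => exact Submodule.smul_mem _ _ (op_span n k _)
  | some v => exact Submodule.smul_mem _ _ (op_span n k _)

end Pool.Agent.R833.HO
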