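import Mathlib
import Pool.Agent.R833.HO6

set_option autoImplicit false
set_option linter.unusedSectionVars false

/-!
# Non-freeness for more than two coordinates
-/

namespace Pool.Agent.R833.HO

open MvPolynomial Module Pool.Agent.R833 Pool.Agent.R833.Arr

variable {K : Type*} [Field K]

def pa : Fin 6 → Fin 7 := ![0, 3, 5, 0, 3, 0]
def pb : Fin 6 → Fin 7 := ![2, 5, 2, 3, 2, 5]
def qa : Fin 6 → Fin 7 := ![4, 4, 1, 1, 1, 1]
def qb : Fin 6 → Fin 7 := ![6, 6, 6, 6, 4, 4]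

variable (K) in
/-- quadrics dual to the six triple points -/
noncomputable def Fq (v : Fin 6) : MvPolynomial (Fin 3) K := al K (pa v) * al K (pb v)

variable (K) in
/-- the complementary quadrics -/
noncomputable def Gq (v : Fin 6) : MvPolynomial (Fin 3) K := al K (qa v) * al K (qb v)

lemma gg_eq (v : Fin 6) : (gg (vv v) : MvPolynomial (Fin 3) K) = Fq K v * Gq K v := by
  have h1 : ∀ v : Fin 6, Finset.univ.filter (fun h => dt (pl h) (vv v) ≠ 0) =
      {pa v, pb v, qa v, qb v} := by decide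
  have h2 : ∀ v : Fin 6, pa v ∉ ({pb v, qa v, qb v} : Finset (Fin 7)) := by decide
  have h3 : ∀ v : Fin 6, pb v ∉ ({qa v, qb v} : Finset (Fin 7)) := by decide
  have h4 : ∀ v : Fin 6, qa v ∉ ({qb v} : Finset (Fin 7)) := by decide
  unfold gg Fq Gq
  rw [h1, Finset.prod_insert (h2 v), Finset.prod_insert (h3 v), Finset.prod_insert (h4 v),
    Finset.prod_singleton]
  ring

variable (K) in
/-- the maximal ideal of the origin -/
noncomputable def mm : Ideal (MvPolynomial (Fin 3) K) :=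
  RingHom.ker (eval (fun _ => (0 : K)))

lemma mem_mm {f : MvPolynomial (Fin 3) K} : f ∈ mm K ↔ eval (fun _ => (0 : K)) f = 0 :=
  RingHom.mem_ker

lemma al_mm (h : Fin 7) : al K h ∈ mm K := by
  rw [mem_mm]
  simp [al, lf]

/-- restriction to a line through the origin -/
noncomputable def rho (u : T3) : MvPolynomial (Fin 3) K →ₐ[K] Polynomial K :=
  aeval (fun i => Polynomial.C (pt u i) * Polynomial.X)

lemma rho_al (u : T3) (h : Fin 7) :
    rho u (al K h) = Polynomial.C ((dt (pl h) u : ℤ) : K) * Polynomial.X := by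
  unfold rho al lf
  simp only [map_add, map_mul, aeval_X, ← algebraMap_eq, AlgHom.commutes]
  simp only [pt, dt, Polynomial.algebraMap_eq, Matrix.cons_val, Int.cast_add, Int.cast_mul,
    Polynomial.C_add, Polynomial.C_mul]
  ring

lemma rho_eval (u : T3) (f : MvPolynomial (Fin 3) K) :
    (rho u f).eval 0 = eval (fun _ => (0 : K)) f := by
  induction f using MvPolynomial.induction_on with
  | C c => simp [rho]
  | add p q hp hq => rw [map_add, Polynomial.eval_add, map_add, hp, hq]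
  | mul_X p i hp =>
    rw [map_mul, Polynomial.eval_mul, map_mul, hp, eval_X]
    congr 1
    simp [rho]

lemma rho_mem (u : T3) (k : ℕ) {f : MvPolynomial (Fin 3) K} (hf : f ∈ mm K ^ k) :
    Polynomial.X ^ k ∣ rho u f := by
  have h1 : mm K ≤ Ideal.comap (rho u : MvPolynomial (Fin 3) K →ₐ[K] Polynomial K)
      (Ideal.span {Polynomial.X}) := by
    intro g hg
    rw [Ideal.mem_comap, Ideal.mem_span_singleton, Polynomial.X_dvd_iff,
      Polynomial.coeff_zero_eq_eval_zero, rho_eval]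
    exact mem_mm.1 hg
  have h2 := (Ideal.pow_right_mono h1 k).trans (Ideal.le_comap_pow _ k)
  have h3 := h2 hf
  rwa [Ideal.mem_comap, Ideal.span_singleton_pow, Ideal.mem_span_singleton] at h3

section

variable [CharZero K]

lemma dvd_cancel {h h1 h2 : Fin 7} (hne1 : h ≠ h1) (hne2 : h ≠ h2) {x : MvPolynomial (Fin 3) K}
    (hd : al K h ∣ al K h1 * al K h2 * x) : al K h ∣ x := by
  rcases (al_prime h).dvd_or_dvd hd with h3 | h3
  · rcases (al_prime h).dvd_or_dvd h3 with h4 | h4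
    · exact absurd h4 (al_not_dvd h h1 hne1)
    · exact absurd h4 (al_not_dvd h h2 hne2)
  · exact h3

lemma two_dvd {h h' : Fin 7} (hne : h ≠ h') {x : MvPolynomial (Fin 3) K} (h1 : al K h ∣ x)
    (h2 : al K h' ∣ x) : x ∈ mm K ^ 2 := by
  obtain ⟨y, rfl⟩ := IsRelPrime.mul_dvd
    (((al_prime h).irreducible.isRelPrime_iff_not_dvd).2 (al_not_dvd h h' hne)) h1 h2
  rw [pow_two]
  exact Ideal.mul_mem_right _ _ (Ideal.mul_mem_mul (al_mm h) (al_mm h'))

lemma mem_of_line (u : T3) {a b c : Fin 7} (ha : dt (pl a) u ≠ 0) (hb : dt (pl b) u = 0)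
    (hc : dt (pl c) u = 0) {x y z : MvPolynomial (Fin 3) K}
    (h : al K a * x = al K b * y + al K c * z) : x ∈ mm K := by
  have h1 := congrArg (rho u) h
  rw [map_mul, map_add, map_mul, map_mul, rho_al, rho_al, rho_al, hb, hc, Int.cast_zero,
    Polynomial.C_0, zero_mul, zero_mul, zero_mul, add_zero] at h1
  have h2 : Polynomial.C ((dt (pl a) u : ℤ) : K) * Polynomial.X ≠ 0 := by
    apply mul_ne_zero _ Polynomial.X_ne_zero
    rw [Polynomial.C_ne_zero]
    exact_mod_cast ha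
  have h3 := (mul_eq_zero.1 h1).resolve_left h2
  rw [mem_mm, ← rho_eval u, h3, Polynomial.eval_zero]

lemma half_mem {x : MvPolynomial (Fin 3) K} {k : ℕ} (h : 2 * x ∈ mm K ^ k) : x ∈ mm K ^ k := by
  have h1 : x = C (2 : K)⁻¹ * (2 * x) := by
    have h2 : (2 : MvPolynomial (Fin 3) K) = C (2 : K) := (map_ofNat C 2).symm
    rw [← mul_assoc, h2, ← C_mul, inv_mul_cancel₀ two_ne_zero, C_1, one_mul]
  rw [h1]
  exact Ideal.mul_mem_left _ _ h

/-- the key lemma on the localization -/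
theorem lemP (Ψ : MvPolynomial (Fin 3) K →ₗ[K] MvPolynomial (Fin 3) K)
    (hΨ : ∀ h F, al K h ∣ F → al K h ∣ Ψ F) :
    ∃ l : Fin 6 → MvPolynomial (Fin 3) K, (∀ v, Ψ (Fq K v) = l v * Fq K v) ∧
      ∀ v, l v - l 0 ∈ mm K ^ 2 := by
  have hab : ∀ v : Fin 6, pa v ≠ pb v := by decide
  have h1 : ∀ v, Fq K v ∣ Ψ (Fq K v) := fun v => IsRelPrime.mul_dvd
    (((al_prime (pa v)).irreducible.isRelPrime_iff_not_dvd).2 (al_not_dvd _ _ (hab v)))
    (hΨ _ _ (dvd_mul_right _ _)) (hΨ _ _ (dvd_mul_left _ _))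
  choose l hl using h1
  have r1 : al K 1 = 2 * al K 0 + al K 4 + al K 6 := by simp only [al_eq, Matrix.cons_val]; ring
  have r2 : al K 2 = al K 0 + al K 4 + al K 6 := by simp only [al_eq, Matrix.cons_val]; ring
  have r3 : al K 3 = al K 0 + al K 4 := by simp only [al_eq, Matrix.cons_val]; ring
  have r5 : al K 5 = al K 0 + al K 6 := by simp only [al_eq, Matrix.cons_val]; ring
  have f0 : Fq K 0 = al K 0 * al K 2 := rfl
  have f1 : Fq K 1 = al K 3 * al K 5 := rfl
  have f2 : Fq K 2 = al K 5 * al K 2 := rfl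
  have f3 : Fq K 3 = al K 0 * al K 3 := rfl
  have f4 : Fq K 4 = al K 3 * al K 2 := rfl
  have f5 : Fq K 5 = al K 0 * al K 5 := rfl
  refine ⟨l, fun v => by rw [hl v, mul_comm], ?_⟩
  have key : ∀ (h : Fin 7) (c : Fin 6 → K) (G : MvPolynomial (Fin 3) K),
      ∑ v, c v • Fq K v = al K h * G → al K h ∣ ∑ v, c v • (Fq K v * l v) := by
    intro h c G hG
    have h2 := hΨ h (∑ v, c v • Fq K v) (by rw [hG]; exact dvd_mul_right _ _)
    rw [map_sum] at h2
    simpa only [map_smul, ← hl] using h2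
  have A1 : al K 4 ∣ l 1 - l 0 := by
    have h2 := key 4 ![-1, 1, 0, 0, 0, 0] (al K 6) (by
      simp [Fin.sum_univ_six, f0, f1, f2, f3, f4, f5, r2, r3, r5]; ring)
    apply dvd_cancel (h1 := 0) (h2 := 2) (by decide) (by decide)
    have h3 := dvd_sub h2 (dvd_mul_right (al K 4) (al K 6 * l 1))
    convert h3 using 1
    simp [Fin.sum_univ_six, f0, f1, f2, f3, f4, f5, r2, r3, r5]; ring
  have A1' : al K 6 ∣ l 1 - l 0 := by
    have h2 := key 6 ![-1, 1, 0, 0, 0, 0] (al K 4) (by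
      simp [Fin.sum_univ_six, f0, f1, f2, f3, f4, f5, r2, r3, r5]; ring)
    apply dvd_cancel (h1 := 0) (h2 := 2) (by decide) (by decide)
    have h3 := dvd_sub h2 (dvd_mul_right (al K 6) (al K 4 * l 1))
    convert h3 using 1
    simp [Fin.sum_univ_six, f0, f1, f2, f3, f4, f5, r2, r3, r5]; ring
  have A2 : al K 1 ∣ l 3 - l 2 := by
    have h2 := key 1 ![0, 0, -1, 1, 0, 0] (-al K 6) (by
      simp [Fin.sum_univ_six, f0, f1, f2, f3, f4, f5, r1, r2, r3, r5]; ring)
    apply dvd_cancel (h1 := 0) (h2 := 3) (by decide) (by decide)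
    have h3 := dvd_add h2 (dvd_mul_right (al K 1) (al K 6 * l 2))
    convert h3 using 1
    simp [Fin.sum_univ_six, f0, f1, f2, f3, f4, f5, r1, r2, r3, r5]; ring
  have A2' : al K 6 ∣ l 3 - l 2 := by
    have h2 := key 6 ![0, 0, -1, 1, 0, 0] (-al K 1) (by
      simp [Fin.sum_univ_six, f0, f1, f2, f3, f4, f5, r1, r2, r3, r5]; ring)
    apply dvd_cancel (h1 := 0) (h2 := 3) (by decide) (by decide)
    have h3 := dvd_add h2 (dvd_mul_right (al K 6) (al K 1 * l 2))
    convert h3 using 1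
    simp [Fin.sum_univ_six, f0, f1, f2, f3, f4, f5, r1, r2, r3, r5]; ring
  have A3 : al K 1 ∣ l 5 - l 4 := by
    have h2 := key 1 ![0, 0, 0, 0, -1, 1] (-al K 4) (by
      simp [Fin.sum_univ_six, f0, f1, f2, f3, f4, f5, r1, r2, r3, r5]; ring)
    apply dvd_cancel (h1 := 0) (h2 := 5) (by decide) (by decide)
    have h3 := dvd_add h2 (dvd_mul_right (al K 1) (al K 4 * l 4))
    convert h3 using 1
    simp [Fin.sum_univ_six, f0, f1, f2, f3, f4, f5, r1, r2, r3, r5]; ring
  have A3' : al K 4 ∣ l 5 - l 4 := by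
    have h2 := key 4 ![0, 0, 0, 0, -1, 1] (-al K 1) (by
      simp [Fin.sum_univ_six, f0, f1, f2, f3, f4, f5, r1, r2, r3, r5]; ring)
    apply dvd_cancel (h1 := 0) (h2 := 5) (by decide) (by decide)
    have h3 := dvd_add h2 (dvd_mul_right (al K 4) (al K 1 * l 4))
    convert h3 using 1
    simp [Fin.sum_univ_six, f0, f1, f2, f3, f4, f5, r1, r2, r3, r5]; ring
  have B1 : al K 6 ∣ (l 2 + l 3) - (l 0 + l 1) := by
    have h2 := key 6 ![-1, -1, 1, 1, 0, 0] (al K 6) (by
      simp [Fin.sum_univ_six, f0, f1, f2, f3, f4, f5, r1, r2, r3, r5]; ring)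
    apply dvd_cancel (h1 := 0) (h2 := 2) (by decide) (by decide)
    have h3 := dvd_sub h2 (dvd_mul_right (al K 6) (al K 2 * l 2 - al K 0 * l 3 -
      (al K 2 - al K 0 - al K 6) * l 1))
    convert h3 using 1
    simp [Fin.sum_univ_six, f0, f1, f2, f3, f4, f5, r1, r2, r3, r5]; ring
  have B2 : al K 4 ∣ (l 4 + l 5) - (l 0 + l 1) := by
    have h2 := key 4 ![-1, -1, 0, 0, 1, 1] (al K 4) (by
      simp [Fin.sum_univ_six, f0, f1, f2, f3, f4, f5, r1, r2, r3, r5]; ring)
    apply dvd_cancel (h1 := 0) (h2 := 2) (by decide) (by decide)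
    have h3 := dvd_sub h2 (dvd_mul_right (al K 4) (al K 2 * l 4 - al K 0 * l 5 -
      (al K 2 - al K 0 - al K 4) * l 1))
    convert h3 using 1
    simp [Fin.sum_univ_six, f0, f1, f2, f3, f4, f5, r1, r2, r3, r5]; ring
  have B3 : al K 1 ∣ (l 2 + l 3) - (l 4 + l 5) := by
    have h2 := key 1 ![0, 0, 1, 1, 1, 1] (al K 1) (by
      simp [Fin.sum_univ_six, f0, f1, f2, f3, f4, f5, r1, r2, r3, r5]; ring)
    apply dvd_cancel (h1 := 0) (h2 := 3) (by decide) (by decide)
    have h3 := dvd_sub h2 (dvd_mul_right (al K 1) ((al K 1 - al K 0 - al K 3) * l 2 +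
      al K 3 * l 4 + al K 0 * l 5))
    convert h3 using 1
    simp [Fin.sum_univ_six, f0, f1, f2, f3, f4, f5, r1, r2, r3, r5]; ring
  have m10 : l 1 - l 0 ∈ mm K ^ 2 := two_dvd (by decide) A1 A1'
  have m32 : l 3 - l 2 ∈ mm K ^ 2 := two_dvd (by decide) A2 A2'
  have m54 : l 5 - l 4 ∈ mm K ^ 2 := two_dvd (by decide) A3 A3'
  obtain ⟨β, hβ⟩ := B1
  obtain ⟨γ, hγ⟩ := B2
  obtain ⟨δ, hδ⟩ := B3
  have hβm : β ∈ mm K := by
    apply mem_of_line (ww 2) (a := 6) (b := 4) (c := 1) (by decide) (by decide) (by decide)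
      (y := γ) (z := δ)
    rw [← hβ, ← hγ, ← hδ]; ring
  have hγm : γ ∈ mm K := by
    apply mem_of_line (ww 1) (a := 4) (b := 6) (c := 1) (by decide) (by decide) (by decide)
      (y := β) (z := -δ)
    rw [mul_neg, ← hβ, ← hγ, ← hδ]; ring
  have mB : (l 2 + l 3) - (l 0 + l 1) ∈ mm K ^ 2 := by
    rw [hβ, pow_two]; exact Ideal.mul_mem_mul (al_mm 6) hβm
  have mC : (l 4 + l 5) - (l 0 + l 1) ∈ mm K ^ 2 := by
    rw [hγ, pow_two]; exact Ideal.mul_mem_mul (al_mm 4) hγm
  have m20 : l 2 - l 0 ∈ mm K ^ 2 := by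
    apply half_mem
    have h2 := Ideal.sub_mem _ (Ideal.add_mem _ mB m10) m32
    convert h2 using 1
    ring
  have m40 : l 4 - l 0 ∈ mm K ^ 2 := by
    apply half_mem
    have h2 := Ideal.sub_mem _ (Ideal.add_mem _ mC m10) m54
    convert h2 using 1
    ring
  have m30 : l 3 - l 0 ∈ mm K ^ 2 := by
    have h2 := Ideal.add_mem _ m32 m20
    convert h2 using 1
    ring
  have m50 : l 5 - l 0 ∈ mm K ^ 2 := by
    have h2 := Ideal.add_mem _ m54 m40
    convert h2 using 1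
    ring
  intro v
  fin_cases v
  · change l 0 - l 0 ∈ _
    rw [sub_self]; exact Ideal.zero_mem _
  · exact m10
  · exact m20
  · exact m30
  · exact m40
  · exact m50

/-- the specialization of an operator -/
noncomputable def Psi (n k : ℕ)
    (θ : MvPolynomial (Fin (n + 4)) K →ₗ[K] MvPolynomial (Fin (n + 4)) K) :
    MvPolynomial (Fin 3) K →ₗ[K] MvPolynomial (Fin 3) K :=
  (sp K n).toLinearMap ∘ₗ θ ∘ₗ (LinearMap.mulRight K ((X 2) ^ k)) ∘ₗ (jj K n).toLinearMap

lemma Psi_apply (n k : ℕ) (θ : MvPolynomial (Fin (n + 4)) K →ₗ[K] MvPolynomial (Fin (n + 4)) K)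
    (F : MvPolynomial (Fin 3) K) : Psi n k θ F = sp K n (θ (jj K n F * (X 2) ^ k)) := rfl

lemma jj_homog (n : ℕ) (h : Fin 7) : (jj K n (al K h)).IsHomogeneous 1 :=
  (lf_homog (pl h)).rename_isHomogeneous

lemma jj_inj (n : ℕ) : Function.Injective (jj K n) := rename_injective _ (eps_inj n)

lemma jj_ne (n : ℕ) (h : Fin 7) : jj K n (al K h) ≠ 0 := by
  intro h0
  apply al_ne (K := K) h
  apply jj_inj n
  rw [h0, map_zero]

lemma Psi_dvd (n k : ℕ)
    {θ : MvPolynomial (Fin (n + 4)) K →ₗ[K] MvPolynomial (Fin (n + 4)) K}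
    (hθ : θ ∈ Dm (k + 2) (shi K (n + 3))) (h : Fin 7) (F : MvPolynomial (Fin 3) K)
    (hF : al K h ∣ F) : al K h ∣ Psi n k θ F := by
  obtain ⟨G, rfl⟩ := hF
  set R : MvPolynomial (Fin 3) K := ∏ h' ∈ Finset.univ.erase h, al K h' with hR
  have hQ : shi K (n + 3) = jj K n (al K h) * (jj K n R * gO K n) := by
    rw [shi_split, ← Finset.mul_prod_erase _ _ (Finset.mem_univ h), map_mul, mul_assoc]
  have hp : Prime (jj K n (al K h)) := prime_of_homogeneous_one (jj_homog n h) (jj_ne n h)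
  have hR2 : ¬ jj K n (al K h) ∣ jj K n R * gO K n := by
    intro hd
    rcases hp.dvd_or_dvd hd with h1 | h1
    · have h2 := map_dvd (sp K n) h1
      rw [sp_jj, sp_jj] at h2
      obtain ⟨h', hh, hd'⟩ := (al_prime h).exists_mem_finset_dvd h2
      exact al_not_dvd h h' (Ne.symm (Finset.ne_of_mem_erase hh)) hd'
    · obtain ⟨c, hc⟩ := h1
      apply gO_eval K n
      rw [hc, map_mul, eval_jj, mem_mm.1 (al_mm h), zero_mul]
  have hl : jj K n (al K h) ∈ Submodule.span K (Set.range X) := by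
    rw [← homogeneousSubmodule_one_eq_span_X]
    exact jj_homog n h
  have h1 := dvd_lin hQ hp hR2 hl (k + 2) hθ.1 hθ.2 (jj K n G * (X 2) ^ k)
  have h2 := map_dvd (sp K n) h1
  rw [sp_jj] at h2
  rw [Psi_apply, map_mul (jj K n), mul_assoc]
  exact h2

/-- the base point as an algebra map -/
noncomputable def evP (n : ℕ) : MvPolynomial (Fin (n + 4)) K →ₐ[K] K := aeval (PP K n)

lemma sp_mem (n : ℕ) {a : MvPolynomial (Fin (n + 4)) K}
    (ha : a ∈ RingHom.ker (evP (K := K) n)) : sp K n a ∈ mm K := by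
  rw [mem_mm, eval_sp]
  have h1 : evP n a = 0 := (RingHom.mem_ker).1 ha
  rw [evP, aeval_def] at h1
  exact h1

lemma Psi_smul (n k : ℕ) (a : MvPolynomial (Fin (n + 4)) K)
    (θ : MvPolynomial (Fin (n + 4)) K →ₗ[K] MvPolynomial (Fin (n + 4)) K)
    (F : MvPolynomial (Fin 3) K) : Psi n k (a • θ) F = sp K n a * Psi n k θ F := by
  rw [Psi_apply, Psi_apply, LinearMap.smul_apply, smul_eq_mul, map_mul]

lemma Psi_add (n k : ℕ)
    (θ η : MvPolynomial (Fin (n + 4)) K →ₗ[K] MvPolynomial (Fin (n + 4)) K)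
    (F : MvPolynomial (Fin 3) K) : Psi n k (θ + η) F = Psi n k θ F + Psi n k η F := by
  rw [Psi_apply, Psi_apply, Psi_apply, LinearMap.add_apply, map_add]

lemma ideal_prop (n k : ℕ) {x : Dm (k + 2) (shi K (n + 3))}
    (hx : x ∈ (RingHom.ker (evP (K := K) n)) •
      (⊤ : Submodule (MvPolynomial (Fin (n + 4)) K) (Dm (k + 2) (shi K (n + 3))))) :
    ∃ L : Fin 6 → MvPolynomial (Fin 3) K, (∀ v, Psi n k x.1 (Fq K v) = L v * Fq K v) ∧
      (∀ v, L v ∈ mm K) ∧ ∀ v, L v - L 0 ∈ mm K ^ 3 := by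
  induction hx using Submodule.smul_induction_on' with
  | smul a ha θ _ =>
    obtain ⟨l, h1, h2⟩ := lemP (Psi n k θ.1) (Psi_dvd n k θ.2)
    refine ⟨fun v => sp K n a * l v, ?_, ?_, ?_⟩
    · intro v
      rw [Submodule.coe_smul, Psi_smul, h1, mul_assoc]
    · intro v
      exact Ideal.mul_mem_right _ _ (sp_mem n ha)
    · intro v
      rw [← mul_sub, pow_succ']
      exact Ideal.mul_mem_mul (sp_mem n ha) (h2 v)
  | add x _ y _ hx hy =>
    obtain ⟨L, h1, h2, h3⟩ := hx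
    obtain ⟨L', h1', h2', h3'⟩ := hy
    refine ⟨fun v => L v + L' v, ?_, ?_, ?_⟩
    · intro v
      rw [Submodule.coe_add, Psi_add, h1, h1', add_mul]
    · intro v
      exact Ideal.add_mem _ (h2 v) (h2' v)
    · intro v
      have h4 := Ideal.add_mem _ (h3 v) (h3' v)
      convert h4 using 1
      ring

end

end Pool.Agent.R833.HO
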