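import Mathlib
import Pool.Agent.R833.HO7

set_option autoImplicit false
set_option linter.unusedSectionVars false

/-!
# The main theorem
-/

namespace Pool.Agent.R833.HO

open MvPolynomial Module Pool.Agent.R833 Pool.Agent.R833.Arr

variable {K : Type*} [Field K] [CharZero K]

lemma dd_C (u : T3) (c : K) : dd u (C c : MvPolynomial (Fin 3) K) = 0 := by
  unfold dd
  simp

lemma dd_dd (u : T3) (c : K) (v : Fin 6) :
    dd u (dd u (C c * Fq K v)) =
      C (c * (2 * ((dt (pl (pa v)) u : ℤ) : K) * ((dt (pl (pb v)) u : ℤ) : K))) := by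
  have h1 : dd u (Fq K v) = al K (pa v) * C ((dt (pl (pb v)) u : ℤ) : K) +
      al K (pb v) * C ((dt (pl (pa v)) u : ℤ) : K) := by
    unfold Fq
    rw [dd_mul, al, al, dd_lf, dd_lf]
  have hadd : ∀ F G : MvPolynomial (Fin 3) K, dd u (F + G) = dd u F + dd u G := by
    intro F G
    simp only [dd, map_add, mul_add, Finset.sum_add_distrib]
  rw [dd_mul, dd_C, mul_zero, add_zero, dd_mul, dd_C, mul_zero, add_zero, h1, hadd, dd_mul,
    dd_mul, dd_C, dd_C, al, al, dd_lf, dd_lf]
  simp only [C_mul]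
  have h2 : (2 : MvPolynomial (Fin 3) K) = C (2 : K) := (map_ofNat C 2).symm
  rw [← h2]
  ring

lemma Psi_none (n k : ℕ) (v : Fin 6) : Psi n k (wO (K := K) n k none) (Fq K v) =
    sp K n (gO K n) * C (k.factorial : K) * (C 2 * Fq K v) := by
  have hF : (C (k.factorial : K) * Fq K v).IsHomogeneous 2 :=
    ((lf_homog _).mul (lf_homog _)).C_mul _
  rw [wO, Psi_smul, Psi_apply, op_E, Bk_test, EE_jj n 2 hF, EE_mul, EE_jj n 2 hF]
  have h1 : EE n ((2 : ℕ) : MvPolynomial (Fin (n + 4)) K) = 0 := by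
    unfold EE
    simp only [Derivation.map_natCast, mul_zero, Finset.sum_const_zero]
  rw [h1, mul_zero, add_zero]
  have h2 : ((2 : ℕ) : MvPolynomial (Fin (n + 4)) K) * (((2 : ℕ) : MvPolynomial (Fin (n + 4)) K) *
      jj K n (C (k.factorial : K) * Fq K v)) - ((2 : ℕ) : MvPolynomial (Fin (n + 4)) K) *
      jj K n (C (k.factorial : K) * Fq K v) = jj K n (2 * (C (k.factorial : K) * Fq K v)) := by
    rw [map_mul (jj K n) 2, map_ofNat]
    push_cast
    ring
  rw [h2, sp_jj]
  have h3 : (2 : MvPolynomial (Fin 3) K) = C (2 : K) := (map_ofNat C 2).symm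
  rw [h3]
  ring

lemma Psi_some (n k : ℕ) (u v : Fin 6) : Psi n k (wO (K := K) n k (some u)) (Fq K v) =
    sp K n (gO K n) * C (k.factorial : K) *
      (C (2 * ((dt (pl (pa v)) (vv u) : ℤ) : K) * ((dt (pl (pb v)) (vv u) : ℤ) : K)) *
        gg (vv u)) := by
  rw [wO, Psi_smul, Psi_apply, op_D, Bk_test, D1_jj, D1_jj, sp_jj, dd_dd, map_mul, sp_jj, C_mul]
  ring

/-- evaluation of an element of the module on a quadric -/
noncomputable def evq (n k : ℕ) (v : Fin 6) :
    Dm (k + 2) (shi K (n + 3)) →+ MvPolynomial (Fin 3) K where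
  toFun := fun x => Psi n k x.1 (Fq K v)
  map_zero' := by
    rw [Psi_apply]
    exact map_zero (sp K n)
  map_add' := fun x y => Psi_add n k x.1 y.1 (Fq K v)

lemma evq_smul (n k : ℕ) (v : Fin 6) (c : K) (x : Dm (k + 2) (shi K (n + 3))) :
    evq n k v ((algebraMap K (MvPolynomial (Fin (n + 4)) K) c) • x) = C c * Psi n k x.1 (Fq K v) := by
  have h1 : evq n k v ((algebraMap K (MvPolynomial (Fin (n + 4)) K) c) • x) =
      Psi n k ((algebraMap K (MvPolynomial (Fin (n + 4)) K) c) • x.1) (Fq K v) := rfl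
  rw [h1, Psi_smul, AlgHom.commutes]
  rfl

lemma sum_val (n k : ℕ) (v : Fin 6) (c : Option (Fin 6) → K) :
    evq n k v (∑ o, (algebraMap K (MvPolynomial (Fin (n + 4)) K) (c o)) •
        (⟨wO n k o, wO_mem n k o⟩ : Dm (k + 2) (shi K (n + 3)))) =
      sp K n (gO K n) * C (k.factorial : K) * (C (2 * c none) +
        C (c (some v) * (2 * ((dt (pl (pa v)) (vv v) : ℤ) : K) *
        ((dt (pl (pb v)) (vv v) : ℤ) : K))) * Gq K v) * Fq K v := by
  have hz : ∀ u v : Fin 6, u ≠ v → dt (pl (pa v)) (vv u) = 0 ∨ dt (pl (pb v)) (vv u) = 0 := by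
    decide
  rw [map_sum, Fintype.sum_option, Finset.sum_eq_single v]
  · rw [evq_smul, evq_smul, Psi_none, Psi_some, gg_eq]
    simp only [C_mul]
    ring
  · intro u _ hu
    rw [evq_smul, Psi_some]
    rcases hz u v hu with h | h
    · rw [h]; simp
    · rw [h]; simp
  · intro h
    exact absurd (Finset.mem_univ v) h

lemma dep_mod_sub {K S M : Type*} [Field K] [CommRing S] [IsDomain S] [Algebra K S]
    (ev : S →ₐ[K] K) [AddCommGroup M] [Module S M] (N : Submodule S M) (hfree : Module.Free S N)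
    {ι : Type*} [Fintype ι] [DecidableEq ι] (w : ι → M) (hw : ∀ i, w i ∈ N)
    (hli : ¬ LinearIndependent S (fun i => (⟨w i, hw i⟩ : N))) :
    ∃ c : ι → K, c ≠ 0 ∧
      ∑ i, (algebraMap K S (c i)) • (⟨w i, hw i⟩ : N) ∈
        (RingHom.ker ev) • (⊤ : Submodule S N) :=
  dep_mod ev _ hli

lemma dep_w (n k : ℕ)
    (hfree : Module.Free (MvPolynomial (Fin (n + 4)) K) (Dm (k + 2) (shi K (n + 3)))) :
    ∃ c : Option (Fin 6) → K, c ≠ 0 ∧
      ∑ o, (algebraMap K (MvPolynomial (Fin (n + 4)) K) (c o)) •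
        (⟨wO n k o, wO_mem n k o⟩ : Dm (k + 2) (shi K (n + 3))) ∈
      (RingHom.ker (evP (K := K) n)) •
      (⊤ : Submodule (MvPolynomial (Fin (n + 4)) K) (Dm (k + 2) (shi K (n + 3)))) :=
  dep_mod_sub (evP (K := K) n) (Dm (k + 2) (shi K (n + 3))) hfree (wO n k) (wO_mem n k)
    (wO_dep n k)

/-- the arrangement is never free of higher order when there are at least three coordinates -/
theorem not_free (n k : ℕ) :
    ¬ Module.Free (MvPolynomial (Fin (n + 4)) K) (Dm (k + 2) (shi K (n + 3))) := by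
  intro hfree
  obtain ⟨c, hc0, hc⟩ := dep_w n k hfree
  obtain ⟨L, h1, h2, h3⟩ := ideal_prop n k hc
  apply hc0
  obtain ⟨h, a, hh0, ha, hval⟩ : ∃ (h : MvPolynomial (Fin 3) K) (a : Fin 6 → K),
      eval (fun _ => (0 : K)) h ≠ 0 ∧ (∀ v, a v = c (some v) *
        (2 * ((dt (pl (pa v)) (vv v) : ℤ) : K) * ((dt (pl (pb v)) (vv v) : ℤ) : K))) ∧
      ∀ v, L v = h * (C (2 * c none) + C (a v) * Gq K v) := by
    refine ⟨sp K n (gO K n) * C (k.factorial : K), _, ?_, fun v => rfl, ?_⟩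
    · rw [map_mul, eval_sp, eval_C]
      exact mul_ne_zero (gO_eval K n) (by exact_mod_cast k.factorial_ne_zero)
    · intro v
      have hF0 : Fq K v ≠ 0 := mul_ne_zero (al_ne _) (al_ne _)
      apply mul_right_cancel₀ hF0
      rw [← h1 v]
      exact sum_val n k v c
  have hG0 : ∀ v, eval (fun _ => (0 : K)) (Gq K v) = 0 := by
    intro v
    unfold Gq
    rw [map_mul, mem_mm.1 (al_mm _), zero_mul]
  have hc1 : c none = 0 := by
    have h4 := mem_mm.1 (h2 0)
    rw [hval 0, map_mul (eval (fun _ => (0 : K))) h, map_add,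
      map_mul (eval (fun _ => (0 : K))) (C (a 0)), hG0, mul_zero, add_zero, eval_C] at h4
    have h5 := (mul_eq_zero.1 h4).resolve_left hh0
    exact (mul_eq_zero.1 h5).resolve_left two_ne_zero
  have hrep : ∀ v : Fin 6, ∃ v' u : Fin 6, dt (pl (qa v)) (vv u) ≠ 0 ∧
      dt (pl (qb v)) (vv u) ≠ 0 ∧
      (dt (pl (qa v')) (vv u) = 0 ∨ dt (pl (qb v')) (vv u) = 0) := by decide
  have hnz : ∀ v : Fin 6, dt (pl (pa v)) (vv v) ≠ 0 ∧ dt (pl (pb v)) (vv v) ≠ 0 := by decide
  have hc2 : ∀ v, c (some v) = 0 := by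
    intro v
    obtain ⟨v', u, h4, h5, h6⟩ := hrep v
    have h7 : L v - L v' ∈ mm K ^ 3 := by
      have h8 := Ideal.sub_mem _ (h3 v) (h3 v')
      convert h8 using 1
      ring
    have h8 := rho_mem (vv u) 3 h7
    set q : K := ((dt (pl (qa v)) (vv u) : ℤ) : K) * ((dt (pl (qb v)) (vv u) : ℤ) : K) with hq
    have hq0 : q ≠ 0 := mul_ne_zero (by exact_mod_cast h4) (by exact_mod_cast h5)
    have hGv' : rho (vv u) (Gq K v') = 0 := by
      unfold Gq
      rw [map_mul, rho_al, rho_al]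
      rcases h6 with h6 | h6 <;> rw [h6] <;> simp
    have hGv : rho (vv u) (Gq K v) = Polynomial.C q * Polynomial.X ^ 2 := by
      unfold Gq
      rw [map_mul, rho_al, rho_al, hq, Polynomial.C_mul]
      ring
    have hC : ∀ x : K, rho (vv u) (C x : MvPolynomial (Fin 3) K) = Polynomial.C x := by
      intro x
      rw [rho, ← algebraMap_eq, AlgHom.commutes]
      rfl
    have h9 : rho (vv u) (L v - L v') =
        Polynomial.X ^ 2 * (rho (vv u) h * Polynomial.C (a v * q)) := by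
      have e : Polynomial.C (a v * q) = Polynomial.C (a v) * Polynomial.C q := Polynomial.C_mul
      rw [hval v, hval v', hc1, mul_zero, C_0, zero_add, zero_add, map_sub, map_mul, map_mul,
        map_mul, map_mul, hGv', hGv, mul_zero, mul_zero, sub_zero, hC, e]
      ring
    rw [h9, pow_succ] at h8
    have h10 := (mul_dvd_mul_iff_left (pow_ne_zero 2 Polynomial.X_ne_zero)).1 h8
    rw [Polynomial.X_dvd_iff, Polynomial.coeff_zero_eq_eval_zero, Polynomial.eval_mul,
      rho_eval, Polynomial.eval_C] at h10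
    have h11 := (mul_eq_zero.1 h10).resolve_left hh0
    have h12 := (mul_eq_zero.1 h11).resolve_right hq0
    rw [ha v] at h12
    refine (mul_eq_zero.1 h12).resolve_right ?_
    exact mul_ne_zero (mul_ne_zero two_ne_zero (by exact_mod_cast (hnz v).1))
      (by exact_mod_cast (hnz v).2)
  funext o
  cases o with
  | none => exact hc1
  | some v => exact hc2 v

/-- **Main theorem.** -/
theorem shi_free_iff (m l : ℕ) (hm : 3 ≤ m) (hl : 2 ≤ l) :
    Module.Free (MvPolynomial (Fin (l + 1)) K) (Dm m (shi K l)) ↔ l = 2 := by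
  constructor
  · intro h
    by_contra hne
    obtain ⟨n, rfl⟩ : ∃ n, l = n + 3 := ⟨l - 3, by omega⟩
    obtain ⟨k, rfl⟩ : ∃ k, m = k + 2 := ⟨m - 2, by omega⟩
    exact not_free n k h
  · rintro rfl
    obtain ⟨k, rfl⟩ : ∃ k, m = k + 1 := ⟨m - 1, by omega⟩
    rw [shi_two]
    exact free_of_ModA k (al K) (fun h => lf_span _) al_prime al_not_dvd
      (free_ModA_three (k + 1) hm)

end Pool.Agent.R833.HO
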