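import Mathlib
import Pool.Agent.R833.ArrLemmas

/-!
# Logarithmic one-forms, residues and residue ideals: definitions and the number of generators
-/

set_option autoImplicit false
set_option linter.unusedSectionVars false

namespace Pool.Agent.R833.RI

open MvPolynomial Pool.Agent.R833 Pool.Agent.R833.Arr

/-- `ω = (∑ η_j dx_j) / Q(A)` is a logarithmic one-form of `A`: for each hyperplane of `A` with
defining form `α` the two-form `(∑ η_j dx_j) ∧ dα` is divisible by `α`. -/
def IsLogForm {K : Type*} [Field K] {l n : ℕ} (A : Fin n → Fin l → K)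
    (η : Fin l → MvPolynomial (Fin l) K) : Prop :=
  ∀ i j k, linearForm (A i) ∣ η j * C (A i k) - η k * C (A i j)

/-- Modulo the defining form `α` of the hyperplane `i₀` one has `∑ η_j dx_j = g dα`. -/
def IsResidue {K : Type*} [Field K] {l n : ℕ} (A : Fin n → Fin l → K) (i₀ : Fin n)
    (η : Fin l → MvPolynomial (Fin l) K) (g : MvPolynomial (Fin l) K) : Prop :=
  ∀ j, linearForm (A i₀) ∣ η j - g * C (A i₀ j)

/-- The ideal `J` of `S / (α)` is, up to a non-zero factor `c`, the image of the residue map along
the hyperplane number `i₀`. -/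
def IsResidueIdeal {K : Type*} [Field K] {l n : ℕ} (A : Fin n → Fin l → K) (i₀ : Fin n)
    (J : Ideal (MvPolynomial (Fin l) K ⧸ Ideal.span {linearForm (A i₀)})) : Prop :=
  ∃ c : MvPolynomial (Fin l) K ⧸ Ideal.span {linearForm (A i₀)}, c ≠ 0 ∧ ∀ x,
    (∃ η g, IsLogForm A η ∧ IsResidue A i₀ η g ∧
      Ideal.Quotient.mk (Ideal.span {linearForm (A i₀)}) g = x) ↔ ∃ u ∈ J, x = c * u

section gens

variable {K : Type*} [Field K] {l n : ℕ}

/-- the coefficient vector of a derivation -/
noncomputable def toVec : Derivation K (MvPolynomial (Fin l) K) (MvPolynomial (Fin l) K) →ₗ[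
    MvPolynomial (Fin l) K] (Fin l → MvPolynomial (Fin l) K) where
  toFun θ j := θ (X j)
  map_add' θ η := by funext j; simp
  map_smul' r θ := by funext j; simp

lemma toVec_injective : Function.Injective (toVec (K := K) (l := l)) := by
  intro θ η h
  apply MvPolynomial.derivation_ext
  intro j
  exact congrFun h j

lemma card_of_li {ι : Type*} (v : ι → Fin l → MvPolynomial (Fin l) K)
    (h1 : LinearIndependent (MvPolynomial (Fin l) K) v) : Finite ι ∧ Nat.card ι ≤ l := by
  have h3 := h1.cardinal_lift_le_rank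
  rw [rank_fin_fun] at h3
  have h4 : Cardinal.mk ι ≤ (l : Cardinal) := by
    have := h3
    rw [Cardinal.lift_natCast] at this
    exact Cardinal.lift_le_nat_iff.1 this
  have h5 : Finite ι := Cardinal.mk_lt_aleph0_iff.1 (h4.trans_lt Cardinal.natCast_lt_aleph0)
  refine ⟨h5, ?_⟩
  have h6 : Cardinal.mk ι = (Nat.card ι : Cardinal) := (Nat.cast_card (α := ι)).symm
  rw [h6] at h4
  exact_mod_cast h4

lemma basis_card (A : Fin n → Fin l → K) {ι : Type*}
    (b : Module.Basis ι (MvPolynomial (Fin l) K) (logDer A)) :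
    Finite ι ∧ Nat.card ι ≤ l := by
  apply card_of_li (fun i => toVec (K := K) (l := l) ((b i).1))
  have h0 : Function.Injective (Finsupp.linearCombination (MvPolynomial (Fin l) K) b) :=
    b.linearIndependent
  have e : Finsupp.linearCombination (MvPolynomial (Fin l) K)
      (fun i => toVec (K := K) (l := l) ((b i).1)) =
      ((toVec (K := K) (l := l)).comp (logDer A).subtype).comp
        (Finsupp.linearCombination (MvPolynomial (Fin l) K) b) := by
    apply Finsupp.lhom_ext
    intro i r
    simp only [LinearMap.comp_apply, Finsupp.linearCombination_single, map_smul,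
      Submodule.subtype_apply]
  have h1 : Function.Injective (Finsupp.linearCombination (MvPolynomial (Fin l) K)
      (fun i => toVec (K := K) (l := l) ((b i).1))) := by
    rw [e]
    intro x y hxy
    exact h0 (Subtype.ext (toVec_injective hxy))
  exact h1

/-- for a logarithmic form `η` and a logarithmic derivation `θ`, `Q` divides the pairing -/
lemma pairing_dvd {A : Fin n → Fin l → K} (hA : IsArrangement A)
    {η : Fin l → MvPolynomial (Fin l) K} (hη : IsLogForm A η)
    {θ : Derivation K (MvPolynomial (Fin l) K) (MvPolynomial (Fin l) K)} (hθ : θ ∈ logDer A) :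
    defPoly A ∣ ∑ j, η j * θ (X j) := by
  apply defPoly_dvd hA
  intro h
  have hex : ∃ k, A h k ≠ 0 := by
    by_contra hc
    push Not at hc
    exact hA.1 h (funext hc)
  obtain ⟨k, hk⟩ := hex
  have h1 := mem_logDer.1 hθ h
  have h2 : linearForm (A h) ∣ C (A h k) * ∑ j, η j * θ (X j) := by
    have e : C (A h k) * ∑ j, η j * θ (X j) = η k * (∑ j, C (A h j) * θ (X j)) +
        ∑ j, (η j * C (A h k) - η k * C (A h j)) * θ (X j) := by
      rw [Finset.mul_sum, Finset.mul_sum, ← Finset.sum_add_distrib]
      exact Finset.sum_congr rfl fun j _ => by ring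
    rw [e]
    refine dvd_add (h1.mul_left _) (Finset.dvd_sum fun j _ => (hη h j k).mul_right _)
  have h3 : IsUnit (C (A h k) : MvPolynomial (Fin l) K) := (IsUnit.mk0 _ hk).map C
  exact (h3.dvd_mul_left).1 h2

/-- the derivation `Q ∂_j` -/
noncomputable def qd (A : Fin n → Fin l → K) (j : Fin l) : logDer A :=
  ⟨defPoly A • pderiv j, fun i => by
    rw [Derivation.smul_apply, smul_eq_mul]
    exact Dvd.dvd.mul_right (Finset.dvd_prod_of_mem _ (Finset.mem_univ i)) _⟩

/-- the derivation `(Q / α_h) (a_k ∂_j - a_j ∂_k)` -/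
noncomputable def kd (A : Fin n → Fin l → K) (h : Fin n) (j k : Fin l) : logDer A :=
  ⟨(∏ i ∈ Finset.univ.erase h, linearForm (A i)) • ((C (A h k) : MvPolynomial (Fin l) K) •
      pderiv j - (C (A h j) : MvPolynomial (Fin l) K) • pderiv k), by
    rw [mem_logDer]
    intro i
    by_cases hi : i = h
    · subst hi
      have e : ∑ j', C (A i j') * (((∏ i' ∈ Finset.univ.erase i, linearForm (A i')) •
          ((C (A i k) : MvPolynomial (Fin l) K) • pderiv j -
          (C (A i j) : MvPolynomial (Fin l) K) • pderiv k) :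
          Derivation K (MvPolynomial (Fin l) K) (MvPolynomial (Fin l) K)) (X j')) = 0 := by
        simp only [Derivation.smul_apply, Derivation.sub_apply, smul_eq_mul, pderiv_X,
          Pi.single_apply]
        have : ∀ j' : Fin l, (C (A i j') : MvPolynomial (Fin l) K) *
            ((∏ i' ∈ Finset.univ.erase i, linearForm (A i')) *
            (C (A i k) * (if j' = j then 1 else 0) - C (A i j) * (if j' = k then 1 else 0))) =
            (∏ i' ∈ Finset.univ.erase i, linearForm (A i')) * ((if j' = j then
              C (A i j') * C (A i k) else 0) - (if j' = k then C (A i j') * C (A i j) else 0)) := by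
          intro j'
          split_ifs <;> ring
        rw [Finset.sum_congr rfl fun j' _ => this j', ← Finset.mul_sum, Finset.sum_sub_distrib,
          Finset.sum_ite_eq', Finset.sum_ite_eq']
        simp only [Finset.mem_univ, if_true]
        ring
      rw [e]
      exact dvd_zero _
    · apply Finset.dvd_sum
      intro j' _
      rw [Derivation.smul_apply, smul_eq_mul]
      apply Dvd.dvd.mul_left
      apply Dvd.dvd.mul_right
      exact Finset.dvd_prod_of_mem (fun i => linearForm (A i))
        (Finset.mem_erase.2 ⟨hi, Finset.mem_univ i⟩)⟩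

lemma add_qd (A : Fin n → Fin l → K) (h : Fin n) (j k : Fin l) :
    (C (A h k) : MvPolynomial (Fin l) K) • qd A j = (C (A h j) : MvPolynomial (Fin l) K) • qd A k +
      linearForm (A h) • kd A h j k := by
  apply Subtype.ext
  change (C (A h k) : MvPolynomial (Fin l) K) • (defPoly A • pderiv j) =
    (C (A h j) : MvPolynomial (Fin l) K) • (defPoly A • pderiv k) +
    linearForm (A h) • ((∏ i ∈ Finset.univ.erase h, linearForm (A i)) •
      ((C (A h k) : MvPolynomial (Fin l) K) • pderiv j -
        (C (A h j) : MvPolynomial (Fin l) K) • pderiv k))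
  have e : linearForm (A h) * ∏ i ∈ Finset.univ.erase h, linearForm (A i) = defPoly A :=
    Finset.mul_prod_erase Finset.univ (fun i => linearForm (A i)) (Finset.mem_univ h)
  rw [smul_smul (linearForm (A h)), e, smul_sub, smul_comm (defPoly A), smul_comm (defPoly A)]
  abel

/-- the basis of logarithmic forms dual to a basis of logarithmic derivations -/
noncomputable def dualForm (A : Fin n → Fin l → K) {ι : Type*}
    (b : Module.Basis ι (MvPolynomial (Fin l) K) (logDer A)) (i : ι) (j : Fin l) :
    MvPolynomial (Fin l) K := b.repr (qd A j) i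

lemma dualForm_log (A : Fin n → Fin l → K) {ι : Type*}
    (b : Module.Basis ι (MvPolynomial (Fin l) K) (logDer A)) (i : ι) :
    IsLogForm A (dualForm A b i) := by
  intro h j k
  have e := congrArg (fun x => b.repr x i) (add_qd A h j k)
  simp only [map_add, map_smul, Finsupp.add_apply, Finsupp.smul_apply, smul_eq_mul] at e
  refine ⟨b.repr (kd A h j k) i, ?_⟩
  unfold dualForm
  linear_combination e

/-- the dual forms generate the module of logarithmic forms -/
lemma exists_coeff {A : Fin n → Fin l → K} (hA : IsArrangement A) {ι : Type*} [Fintype ι]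
    (b : Module.Basis ι (MvPolynomial (Fin l) K) (logDer A))
    {η : Fin l → MvPolynomial (Fin l) K} (hη : IsLogForm A η) :
    ∃ s : ι → MvPolynomial (Fin l) K, ∀ j, η j = ∑ i, s i * dualForm A b i j := by
  have h1 : ∀ i, ∃ s, ∑ j, η j * (b i : Derivation K (MvPolynomial (Fin l) K)
      (MvPolynomial (Fin l) K)) (X j) = defPoly A * s := fun i => pairing_dvd hA hη (b i).2
  choose s hs using h1
  refine ⟨s, fun j => ?_⟩
  apply mul_left_cancel₀ (defPoly_ne_zero hA)
  have h2 : ∀ k, (qd A j : Derivation K (MvPolynomial (Fin l) K) (MvPolynomial (Fin l) K)) (X k) =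
      ∑ i, dualForm A b i j * (b i : Derivation K (MvPolynomial (Fin l) K)
        (MvPolynomial (Fin l) K)) (X k) := by
    intro k
    have h3 := congrArg (fun x : logDer A => (toVec (K := K) (l := l)).comp (logDer A).subtype x k)
      (b.sum_repr (qd A j)).symm
    simp only [map_sum, map_smul, Finset.sum_apply, Pi.smul_apply, smul_eq_mul] at h3
    exact h3
  have h3 : defPoly A * η j = ∑ k, η k * (qd A j : Derivation K (MvPolynomial (Fin l) K)
      (MvPolynomial (Fin l) K)) (X k) := by
    change defPoly A * η j = ∑ k, η k * ((defPoly A • pderiv j : Derivation K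
      (MvPolynomial (Fin l) K) (MvPolynomial (Fin l) K)) (X k))
    simp only [Derivation.smul_apply, smul_eq_mul, pderiv_X, Pi.single_apply, mul_ite, mul_one,
      mul_zero]
    rw [Finset.sum_ite_eq']
    simp [mul_comm]
  rw [h3]
  simp only [h2, Finset.mul_sum]
  rw [Finset.sum_comm]
  refine Finset.sum_congr rfl fun i _ => ?_
  have h5 := hs i
  have h6 : ∑ k, η k * (dualForm A b i j * (b i : Derivation K (MvPolynomial (Fin l) K)
      (MvPolynomial (Fin l) K)) (X k)) = dualForm A b i j * ∑ k, η k * (b i : Derivation K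
      (MvPolynomial (Fin l) K) (MvPolynomial (Fin l) K)) (X k) := by
    rw [Finset.mul_sum]
    exact Finset.sum_congr rfl fun k _ => by ring
  rw [h6, h5]
  ring

/-- every logarithmic form has a residue -/
lemma exists_residue {A : Fin n → Fin l → K} (hA : IsArrangement A) (i₀ : Fin n)
    {η : Fin l → MvPolynomial (Fin l) K} (hη : IsLogForm A η) : ∃ g, IsResidue A i₀ η g := by
  have hex : ∃ k, A i₀ k ≠ 0 := by
    by_contra hc
    push Not at hc
    exact hA.1 i₀ (funext hc)
  obtain ⟨k, hk⟩ := hex
  refine ⟨η k * C (A i₀ k)⁻¹, fun j => ?_⟩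
  have e : η j - η k * C (A i₀ k)⁻¹ * C (A i₀ j) =
      (η j * C (A i₀ k) - η k * C (A i₀ j)) * C (A i₀ k)⁻¹ := by
    have e1 : (C (A i₀ k) : MvPolynomial (Fin l) K) * C (A i₀ k)⁻¹ = 1 := by
      rw [← C_mul, mul_inv_cancel₀ hk, C_1]
    linear_combination (-(η j)) * e1
  rw [e]
  exact (hη i₀ j k).mul_right _

lemma residue_unique {A : Fin n → Fin l → K} (hA : IsArrangement A) (i₀ : Fin n)
    {η : Fin l → MvPolynomial (Fin l) K} {g g' : MvPolynomial (Fin l) K}
    (h : IsResidue A i₀ η g) (h' : IsResidue A i₀ η g') :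
    Ideal.Quotient.mk (Ideal.span {linearForm (A i₀)}) g =
      Ideal.Quotient.mk (Ideal.span {linearForm (A i₀)}) g' := by
  have hex : ∃ k, A i₀ k ≠ 0 := by
    by_contra hc
    push Not at hc
    exact hA.1 i₀ (funext hc)
  obtain ⟨k, hk⟩ := hex
  rw [Ideal.Quotient.eq, Ideal.mem_span_singleton]
  have h1 := dvd_sub (h' k) (h k)
  have e : η k - g' * C (A i₀ k) - (η k - g * C (A i₀ k)) = C (A i₀ k) * (g - g') := by ring
  rw [e] at h1
  have h3 : IsUnit (C (A i₀ k) : MvPolynomial (Fin l) K) := (IsUnit.mk0 _ hk).map C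
  exact (h3.dvd_mul_left).1 h1

/-- **The number of generators.** If `A` is free, then its residue ideals are generated by at
most `l` elements. -/
theorem residueIdeal_gens {A : Fin n → Fin l → K} (hA : IsArrangement A) (i₀ : Fin n)
    (hfree : Module.Free (MvPolynomial (Fin l) K) (logDer A))
    {J : Ideal (MvPolynomial (Fin l) K ⧸ Ideal.span {linearForm (A i₀)})}
    (hJ : IsResidueIdeal A i₀ J) :
    ∃ (r : ℕ) (f : Fin r → MvPolynomial (Fin l) K), r ≤ l ∧
      J = Ideal.span (Set.range fun i => Ideal.Quotient.mk _ (f i)) := by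
  obtain ⟨c, hc, hJ⟩ := hJ
  have b := Module.Free.chooseBasis (MvPolynomial (Fin l) K) (logDer A)
  obtain ⟨h1, h2⟩ := basis_card A b
  set ι := Module.Free.ChooseBasisIndex (MvPolynomial (Fin l) K) (logDer A)
  obtain ⟨e⟩ : Nonempty (ι ≃ Fin (Nat.card ι)) := ⟨Finite.equivFin ι⟩
  have b' := b.reindex e
  clear_value ι
  generalize Nat.card ι = r at h2 e b'
  have hprime : (Ideal.span {linearForm (A i₀)}).IsPrime :=
    (Ideal.span_singleton_prime (linearForm_ne_zero (hA.1 i₀))).2 (prime_linearForm (hA.1 i₀))
  have hres : ∀ i, ∃ g, IsResidue A i₀ (dualForm A b' i) g :=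
    fun i => exists_residue hA i₀ (dualForm_log A b' i)
  choose g hg using hres
  have hu : ∀ i, ∃ u ∈ J, Ideal.Quotient.mk (Ideal.span {linearForm (A i₀)}) (g i) = c * u :=
    fun i => (hJ _).1 ⟨dualForm A b' i, g i, dualForm_log A b' i, hg i, rfl⟩
  choose u hu1 hu2 using hu
  have hf : ∀ i, ∃ f, Ideal.Quotient.mk (Ideal.span {linearForm (A i₀)}) f = u i :=
    fun i => Ideal.Quotient.mk_surjective (u i)
  choose f hf using hf
  refine ⟨r, f, h2, ?_⟩
  apply le_antisymm
  · intro x hx
    obtain ⟨η, g', h3, h4, h5⟩ := (hJ (c * x)).2 ⟨x, hx, rfl⟩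
    obtain ⟨s, hs⟩ := exists_coeff hA b' h3
    have h6 : IsResidue A i₀ η (∑ i, s i * g i) := by
      intro j
      have e1 : η j - (∑ i, s i * g i) * C (A i₀ j) =
          ∑ i, s i * (dualForm A b' i j - g i * C (A i₀ j)) := by
        rw [hs j, Finset.sum_mul, ← Finset.sum_sub_distrib]
        exact Finset.sum_congr rfl fun i _ => by ring
      rw [e1]
      exact Finset.dvd_sum fun i _ => (hg i j).mul_left _
    have h7 := residue_unique hA i₀ h4 h6
    have h8 : x = ∑ i, Ideal.Quotient.mk (Ideal.span {linearForm (A i₀)}) (s i) *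
        Ideal.Quotient.mk (Ideal.span {linearForm (A i₀)}) (f i) := by
      apply mul_left_cancel₀ hc
      rw [← h5, h7, map_sum, Finset.mul_sum]
      refine Finset.sum_congr rfl fun i _ => ?_
      rw [map_mul, hu2 i, hf i]
      ring
    rw [h8]
    exact Ideal.sum_mem _ fun i _ => Ideal.mul_mem_left _ _ (Ideal.subset_span ⟨i, rfl⟩)
  · rw [Ideal.span_le]
    rintro _ ⟨i, rfl⟩
    change Ideal.Quotient.mk (Ideal.span {linearForm (A i₀)}) (f i) ∈ J
    rw [hf i]
    exact hu1 i

end gens

end Pool.Agent.R833.RI
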