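import Mathlib
import Pool.Agent.R833.HF
import Pool.Agent.R833.Ex7

set_option autoImplicit false
set_option linter.unusedSectionVars false

/-!
# The complete intersection of the example
-/

namespace Pool.Agent.R833.ST

open MvPolynomial Pool.Agent.R833 Pool.Agent.R833.Arr Pool.Agent.R833.Ex7 Pool.Agent.R833.HF

section reg

variable {S : Type*} [CommRing S]

/-- `u` is a nonzerodivisor modulo `(a, b)` -/
def RegP (u a b : S) : Prop :=
  ∀ w, (∃ s t, u * w = s * a + t * b) → ∃ s t, w = s * a + t * b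

lemma RegP.symm {u a b : S} (h : RegP u a b) : RegP u b a := by
  rintro w ⟨s, t, hst⟩
  obtain ⟨s', t', h'⟩ := h w ⟨t, s, by rw [hst, add_comm]⟩
  exact ⟨t', s', by rw [h', add_comm]⟩

variable [IsDomain S] [UniqueFactorizationMonoid S]

lemma RegP.mul {u p F G : S} (hF : F ≠ 0) (hrel : IsRelPrime G F) (h1 : RegP u p G)
    (h2 : RegP u F G) : RegP u (p * F) G := by
  rintro w ⟨s, t, hst⟩
  obtain ⟨s1, t1, hw⟩ := h2 w ⟨s * p, t, by rw [hst]; ring⟩
  have e1 : F * (u * s1 - s * p) = G * (t - u * t1) := by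
    rw [hw] at hst
    linear_combination hst
  obtain ⟨e, he⟩ : G ∣ u * s1 - s * p := hrel.dvd_of_dvd_mul_left ⟨_, e1⟩
  obtain ⟨s2, t2, hs⟩ := h1 s1 ⟨s, e, by linear_combination he⟩
  exact ⟨s2, t2 * F + t1, by rw [hw, hs]; ring⟩

lemma RegP.mul_right {u p F G : S} (hF : F ≠ 0) (hrel : IsRelPrime G F) (h1 : RegP u G p)
    (h2 : RegP u G F) : RegP u G (p * F) :=
  (RegP.mul hF hrel h1.symm h2.symm).symm

end reg

variable {K : Type} [Field K]

/-- the forms `x - αz` and `y - βz` -/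
lemma rem_pt (α β : K) (w : S3 K) : ∃ s t : S3 K,
    w = iz (ev (Polynomial.C α * Polynomial.X) (Polynomial.C β * Polynomial.X) w) +
      s * (X 0 - C α * X 2) + t * (X 1 - C β * X 2) := by
  have hX : (iz (Polynomial.X : Polynomial K) : S3 K) = X 2 := by simp [iz]
  have hC : ∀ a : K, (iz (Polynomial.C a : Polynomial K) : S3 K) = C a := by
    intro a
    simp [iz, MvPolynomial.algebraMap_eq]
  induction w using MvPolynomial.induction_on with
  | C r =>
    refine ⟨0, 0, ?_⟩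
    simp [iz, ev, MvPolynomial.algebraMap_eq]
  | add p q hp hq =>
    obtain ⟨s, t, h1⟩ := hp
    obtain ⟨s', t', h2⟩ := hq
    refine ⟨s + s', t + t', ?_⟩
    rw [map_add, map_add]
    linear_combination h1 + h2
  | mul_X p i hp =>
    obtain ⟨s, t, h1⟩ := hp
    set E := ev (Polynomial.C α * Polynomial.X) (Polynomial.C β * Polynomial.X) with hE
    have e0 : E (X 0) = Polynomial.C α * Polynomial.X := by simp [hE, ev]
    have e1 : E (X 1) = Polynomial.C β * Polynomial.X := by simp [hE, ev]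
    have e2 : E (X 2) = Polynomial.X := by simp [hE, ev]
    fin_cases i
    · refine ⟨iz (E p) + X 0 * s, X 0 * t, ?_⟩
      change p * X 0 = iz (E (p * X 0)) + _ + _
      rw [map_mul, e0, map_mul, map_mul, hX, hC]
      linear_combination (X 0) * h1
    · refine ⟨X 1 * s, iz (E p) + X 1 * t, ?_⟩
      change p * X 1 = iz (E (p * X 1)) + _ + _
      rw [map_mul, e1, map_mul, map_mul, hX, hC]
      linear_combination (X 1) * h1
    · refine ⟨X 2 * s, X 2 * t, ?_⟩
      change p * X 2 = iz (E (p * X 2)) + _ + _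
      rw [map_mul, e2, map_mul, hX]
      linear_combination (X 2) * h1

lemma reg_pt (α β : K) {u a b : S3 K} (ha : a = X 0 - C α * X 2) (hb : b = X 1 - C β * X 2)
    (hu : ev (Polynomial.C α * Polynomial.X) (Polynomial.C β * Polynomial.X) u ≠ 0) :
    RegP u a b := by
  rintro w ⟨s, t, hst⟩
  set E := ev (Polynomial.C α * Polynomial.X) (Polynomial.C β * Polynomial.X) with hE
  have e0 : E (X 0) = Polynomial.C α * Polynomial.X := by simp [hE, ev]
  have e1 : E (X 1) = Polynomial.C β * Polynomial.X := by simp [hE, ev]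
  have e2 : E (X 2) = Polynomial.X := by simp [hE, ev]
  have e3 : ∀ c : K, E (C c) = Polynomial.C c := by
    intro c
    simp [hE, ev]
  have ea : E a = 0 := by rw [ha, map_sub, map_mul, e0, e2, e3, sub_self]
  have eb : E b = 0 := by rw [hb, map_sub, map_mul, e1, e2, e3, sub_self]
  have h1 := congrArg E hst
  rw [map_mul, map_add, map_mul, map_mul, ea, eb, mul_zero, mul_zero, add_zero] at h1
  have h2 : E w = 0 := (mul_eq_zero.1 h1).resolve_left hu
  obtain ⟨s', t', h3⟩ := rem_pt α β w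
  rw [← hE, h2, map_zero, zero_add] at h3
  exact ⟨s', t', by rw [ha, hb]; exact h3⟩

/-- `x² + y² + z²` -/
noncomputable def qq (K : Type) [Field K] : S3 K := X 0 ^ 2 + X 1 ^ 2 + X 2 ^ 2
/-- `x · x (x - z)(x + z)` -/
noncomputable def fF (K : Type) [Field K] : S3 K := X 0 * (X 0 * ((X 0 - X 2) * (X 0 + X 2)))
/-- `y · y (y - z)` -/
noncomputable def fG (K : Type) [Field K] : S3 K := X 1 * (X 1 * (X 1 - X 2))

lemma prime_xz' : Prime (X 0 + X 2 : S3 K) :=
  prime_lf ((hom_X 0).add (hom_X 2)) (ne_zero_of_eval ![1, 0, 0] (by simp))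

lemma qq_hom : (qq K).IsHomogeneous 2 := by
  have h : ∀ i : Fin 3, (X i ^ 2 : S3 K).IsHomogeneous 2 := fun i => by
    have := (hom_X (K := K) i).pow 2
    simpa using this
  exact ((h 0).add (h 1)).add (h 2)

lemma fF_hom : (fF K).IsHomogeneous 4 :=
  (hom_X 0).mul ((hom_X 0).mul (((hom_X 0).sub (hom_X 2)).mul ((hom_X 0).add (hom_X 2))))

lemma fG_hom : (fG K).IsHomogeneous 3 :=
  (hom_X 1).mul ((hom_X 1).mul ((hom_X 1).sub (hom_X 2)))

lemma qq_ne : qq K ≠ 0 := ne_zero_of_eval ![1, 0, 0] (by simp [qq])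
lemma fF_ne : fF K ≠ 0 := ne_zero_of_eval ![1, 0, 0] (by simp [fF])
lemma fG_ne : fG K ≠ 0 := ne_zero_of_eval ![0, 1, 0] (by simp [fG])

section char

variable [CharZero K]

lemma ev_qq (α β : K) (h : α ^ 2 + β ^ 2 + 1 ≠ 0) :
    ev (Polynomial.C α * Polynomial.X) (Polynomial.C β * Polynomial.X) (qq K) ≠ 0 := by
  have h1 : ev (Polynomial.C α * Polynomial.X) (Polynomial.C β * Polynomial.X) (qq K) =
      Polynomial.C (α ^ 2 + β ^ 2 + 1) * Polynomial.X ^ 2 := by
    simp only [ev, qq, map_add, map_pow, aeval_X, Matrix.cons_val_zero, Matrix.cons_val_one,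
      map_one]
    change (Polynomial.C α * Polynomial.X) ^ 2 + (Polynomial.C β * Polynomial.X) ^ 2 +
      Polynomial.X ^ 2 = _
    ring
  rw [h1]
  exact mul_ne_zero (Polynomial.C_ne_zero.2 h) (pow_ne_zero 2 Polynomial.X_ne_zero)

lemma reg_lin (α : K) {a : S3 K} (ha : a = X 0 - C α * X 2) (h0 : α ^ 2 + 1 ≠ 0)
    (h1 : α ^ 2 + 2 ≠ 0) : RegP (qq K) a (fG K) := by
  have hap : Prime a := by
    rw [ha]
    refine prime_lf ((hom_X 0).sub ?_) (ne_zero_of_eval ![1, 0, 0] (by simp))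
    have := (isHomogeneous_C (Fin 3) α).mul (hom_X 2)
    rwa [zero_add] at this
  have hay : ¬ a ∣ X 1 := not_dvd_of_eval ![α, 1, 1] (by simp [ha]) (by simp)
  have hayz : ¬ a ∣ X 1 - X 2 := not_dvd_of_eval ![α, 2, 1] (by simp [ha]) (by simp; norm_num)
  have r0 : RegP (qq K) a (X 1) := reg_pt α 0 ha (by simp) (ev_qq α 0 (by simpa using h0))
  have r1 : RegP (qq K) a (X 1 - X 2) := reg_pt α 1 ha (by simp) (ev_qq α 1 (by
    have : α ^ 2 + 1 ^ 2 + 1 = α ^ 2 + 2 := by ring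
    rw [this]; exact h1))
  have p1 : IsRelPrime a (X 1) := hap.irreducible.isRelPrime_iff_not_dvd.2 hay
  have p2 : IsRelPrime a (X 1 - X 2) := hap.irreducible.isRelPrime_iff_not_dvd.2 hayz
  have hyz0 : (X 1 - X 2 : S3 K) ≠ 0 := prime_yz.ne_zero
  unfold fG
  refine RegP.mul_right (mul_ne_zero (X_ne_zero _) hyz0) (p1.mul_right p2) r0 ?_
  exact RegP.mul_right hyz0 p2 r0 r1

lemma rel_G {a : S3 K} (h1 : ¬ (X 1 : S3 K) ∣ a) (h2 : ¬ (X 1 - X 2 : S3 K) ∣ a) :
    IsRelPrime (fG K) a := by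
  have p1 : IsRelPrime (X 1 : S3 K) a := prime_y.irreducible.isRelPrime_iff_not_dvd.2 h1
  have p2 : IsRelPrime (X 1 - X 2 : S3 K) a := prime_yz.irreducible.isRelPrime_iff_not_dvd.2 h2
  exact p1.mul_left (p1.mul_left p2)

lemma reg_qq : RegP (qq K) (fF K) (fG K) := by
  have n1 : (1 : K) + 1 ≠ 0 := by norm_num
  have n2 : (1 : K) + 2 ≠ 0 := by norm_num
  have r0 : RegP (qq K) (X 0) (fG K) := reg_lin 0 (by simp) (by simp) (by simp)
  have r1 : RegP (qq K) (X 0 - X 2) (fG K) :=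
    reg_lin 1 (by simp) (by rw [one_pow]; exact n1) (by rw [one_pow]; exact n2)
  have r2 : RegP (qq K) (X 0 + X 2) (fG K) :=
    reg_lin (-1) (by simp) (by rw [neg_one_sq]; exact n1) (by rw [neg_one_sq]; exact n2)
  have p0 : IsRelPrime (fG K) (X 0) :=
    rel_G (not_dvd_of_eval ![1, 0, 0] (by simp) (by simp))
      (not_dvd_of_eval ![1, 0, 0] (by simp) (by simp))
  have p1 : IsRelPrime (fG K) (X 0 - X 2) :=
    rel_G (not_dvd_of_eval ![1, 0, 0] (by simp) (by simp))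
      (not_dvd_of_eval ![1, 0, 0] (by simp) (by simp))
  have p2 : IsRelPrime (fG K) (X 0 + X 2) :=
    rel_G (not_dvd_of_eval ![1, 0, 0] (by simp) (by simp))
      (not_dvd_of_eval ![1, 0, 0] (by simp) (by simp))
  have z1 : (X 0 + X 2 : S3 K) ≠ 0 := prime_xz'.ne_zero
  have z2 : ((X 0 - X 2) * (X 0 + X 2) : S3 K) ≠ 0 := mul_ne_zero prime_xz.ne_zero z1
  have z3 : (X 0 * ((X 0 - X 2) * (X 0 + X 2)) : S3 K) ≠ 0 := mul_ne_zero (X_ne_zero _) z2
  unfold fF
  refine RegP.mul z3 (p0.mul_right (p1.mul_right p2)) r0 ?_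
  refine RegP.mul z2 (p1.mul_right p2) r0 ?_
  exact RegP.mul z1 p2 r1 r2

/-- the ideal -/
noncomputable def JJ (K : Type) [Field K] : Ideal (S3 K) :=
  Ideal.span {qq K} ⊔ (Ideal.span {fF K} ⊔ (Ideal.span {fG K} ⊔ ⊥))

theorem HS_JJ : HS (JJ K) * (1 - PowerSeries.X) ^ 3 =
    (1 - PowerSeries.X ^ 2) * ((1 - PowerSeries.X ^ 4) * (1 - PowerSeries.X ^ 3)) := by
  have hb := homI_bot (K := K) (l := 3)
  have h1 := homI_sup hb (fG_hom (K := K))
  have h2 := homI_sup h1 (fF_hom (K := K))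
  have s1 : HS (Ideal.span {fG K} ⊔ ⊥) = (1 - PowerSeries.X ^ 3) * HS (⊥ : Ideal (S3 K)) := by
    apply HS_step hb fG_hom fG_ne
    intro g hg
    rw [Ideal.mem_bot] at hg ⊢
    exact (mul_eq_zero.1 hg).resolve_left fG_ne
  have memG : ∀ g : S3 K, g ∈ Ideal.span {fG K} ⊔ ⊥ ↔ fG K ∣ g := by
    intro g
    rw [sup_bot_eq, Ideal.mem_span_singleton]
  have s2 : HS (Ideal.span {fF K} ⊔ (Ideal.span {fG K} ⊔ ⊥)) =
      (1 - PowerSeries.X ^ 4) * HS (Ideal.span {fG K} ⊔ ⊥) := by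
    apply HS_step h1 fF_hom fF_ne
    intro g hg
    rw [memG] at hg ⊢
    have hrel : IsRelPrime (fG K) (fF K) :=
      rel_G (not_dvd_of_eval ![1, 0, 0] (by simp) (by simp [fF]))
        (not_dvd_of_eval ![1, 0, 0] (by simp) (by simp [fF]))
    exact hrel.dvd_of_dvd_mul_left hg
  have memFG : ∀ g : S3 K, g ∈ Ideal.span {fF K} ⊔ (Ideal.span {fG K} ⊔ ⊥) ↔
      ∃ s t, g = s * fF K + t * fG K := by
    intro g
    rw [Ideal.mem_span_singleton_sup]
    constructor
    · rintro ⟨a, b, hb, rfl⟩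
      rw [memG] at hb
      obtain ⟨c, rfl⟩ := hb
      exact ⟨a, c, by ring⟩
    · rintro ⟨s, t, rfl⟩
      exact ⟨s, t * fG K, (memG _).2 (dvd_mul_left _ _), rfl⟩
  have s3 : HS (JJ K) = (1 - PowerSeries.X ^ 2) *
      HS (Ideal.span {fF K} ⊔ (Ideal.span {fG K} ⊔ ⊥)) := by
    apply HS_step h2 qq_hom qq_ne
    intro g hg
    rw [memFG] at hg ⊢
    exact reg_qq g hg
  have s0 := HS_bot (K := K) 2
  rw [s3, s2, s1]
  linear_combination ((1 - PowerSeries.X ^ 2) * ((1 - PowerSeries.X ^ 4) *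
    (1 - PowerSeries.X ^ 3)) : PowerSeries ℚ) * s0

end char

end Pool.Agent.R833.ST
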