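import Mathlib
import Pool.Agent.R833.ST1
import Pool.Agent.R833.Ex7b

set_option autoImplicit false
set_option linter.unusedSectionVars false

/-!
# The Solomon-Terao ideals of the example
-/

namespace Pool.Agent.R833.ST

open MvPolynomial Pool.Agent.R833 Pool.Agent.R833.Arr Pool.Agent.R833.Ex7 Pool.Agent.R833.HF

/-- The ideal `{θ(η) : θ ∈ D(A)}`. -/
noncomputable def stIdeal {K : Type} [Field K] {l n : ℕ} (A : Fin n → Fin l → K)
    (η : MvPolynomial (Fin l) K) : Ideal (MvPolynomial (Fin l) K) :=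
  Ideal.span {f | ∃ θ ∈ logDer A, θ η = f}

variable {K : Type} [Field K]

/-- the planes `z, x, x - z, x + z, y, y - z` -/
def A6 (K : Type) [Field K] : Fin 6 → Fin 3 → K :=
  ![![0, 0, 1], ![1, 0, 0], ![1, 0, -1], ![1, 0, 1], ![0, 1, 0], ![0, 1, -1]]

/-- the lines `x, y` in the plane -/
def B2 (K : Type) [Field K] : Fin 2 → Fin 2 → K := ![![1, 0], ![0, 1]]

lemma forms6 (i : Fin 6) : linearForm (A6 K i) =
    (![X 2, X 0, X 0 - X 2, X 0 + X 2, X 1, X 1 - X 2] : Fin 6 → S3 K) i := by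
  fin_cases i <;> simp [lf_eq, A6] <;> ring

lemma vals6 (θ : Derivation K (S3 K) (S3 K)) (i : Fin 6) : ∑ j, C (A6 K i j) * θ (X j) =
    (![θ (X 2), θ (X 0), θ (X 0) - θ (X 2), θ (X 0) + θ (X 2), θ (X 1), θ (X 1) - θ (X 2)] :
      Fin 6 → S3 K) i := by
  fin_cases i <;> simp [A6, Fin.sum_univ_succ] <;> ring

lemma mem_A6 {θ : Derivation K (S3 K) (S3 K)} : θ ∈ logDer (A6 K) ↔
    ((X 2 : S3 K) ∣ θ (X 2)) ∧
    ((X 0 : S3 K) ∣ θ (X 0)) ∧ ((X 0 - X 2 : S3 K) ∣ θ (X 0) - θ (X 2)) ∧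
    ((X 0 + X 2 : S3 K) ∣ θ (X 0) + θ (X 2)) ∧
    ((X 1 : S3 K) ∣ θ (X 1)) ∧ ((X 1 - X 2 : S3 K) ∣ θ (X 1) - θ (X 2)) := by
  rw [mem_logDer]
  simp only [forms6, vals6]
  simp [Fin.forall_fin_succ]

lemma der_qq (θ : Derivation K (S3 K) (S3 K)) : θ (qq K) =
    2 * (X 0 * θ (X 0) + X 1 * θ (X 1) + X 2 * θ (X 2)) := by
  unfold qq
  rw [map_add, map_add, Derivation.leibniz_pow, Derivation.leibniz_pow, Derivation.leibniz_pow]
  simp only [smul_eq_mul, nsmul_eq_mul, Nat.cast_ofNat, Nat.add_one_sub_one, pow_one]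
  ring

variable [CharZero K]

lemma isUnit_two : IsUnit (2 : S3 K) := by
  have : (2 : S3 K) = C (2 : K) := (map_ofNat _ _).symm
  rw [this]
  exact (IsUnit.mk0 _ (by norm_num)).map C

theorem stIdeal_A6 : stIdeal (A6 K) (qq K) = JJ K := by
  have memJ : ∀ g : S3 K, g ∈ JJ K ↔ ∃ r s t, g = r * qq K + s * fF K + t * fG K := by
    intro g
    unfold JJ
    rw [Ideal.mem_span_singleton_sup]
    constructor
    · rintro ⟨a, b, hb, rfl⟩
      rw [Ideal.mem_span_singleton_sup] at hb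
      obtain ⟨c, e, he, rfl⟩ := hb
      rw [sup_bot_eq, Ideal.mem_span_singleton] at he
      obtain ⟨u, rfl⟩ := he
      exact ⟨a, c, u, by ring⟩
    · rintro ⟨r, s, t, rfl⟩
      refine ⟨r, s * fF K + t * fG K, ?_, by ring⟩
      rw [Ideal.mem_span_singleton_sup]
      refine ⟨s, t * fG K, ?_, rfl⟩
      rw [sup_bot_eq, Ideal.mem_span_singleton]
      exact dvd_mul_left _ _
  apply le_antisymm
  · unfold stIdeal
    rw [Ideal.span_le]
    rintro _ ⟨θ, hθ, rfl⟩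
    rw [SetLike.mem_coe, memJ, der_qq]
    rw [mem_A6] at hθ
    obtain ⟨⟨c, h2⟩, ⟨a, h0⟩, ⟨b1, hb1⟩, ⟨b2, hb2⟩, ⟨d, h1⟩, ⟨e1, he1⟩⟩ := hθ
    have hf : X 0 * ((X 0 - X 2) * (X 0 + X 2)) ∣ θ (X 0) - c * X 0 := by
      have k0 : (X 0 : S3 K) ∣ θ (X 0) - c * X 0 := ⟨a - c, by rw [h0]; ring⟩
      have k1 : (X 0 - X 2 : S3 K) ∣ θ (X 0) - c * X 0 :=
        ⟨b1 - c, by linear_combination hb1 + h2⟩
      have k2 : (X 0 + X 2 : S3 K) ∣ θ (X 0) - c * X 0 :=
        ⟨b2 - c, by linear_combination hb2 - h2⟩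
      have q1 : IsRelPrime (X 0 : S3 K) (X 0 - X 2) :=
        prime_x.irreducible.isRelPrime_iff_not_dvd.2
          (not_dvd_of_eval ![0, 0, 1] (by simp) (by simp))
      have q2 : IsRelPrime (X 0 : S3 K) (X 0 + X 2) :=
        prime_x.irreducible.isRelPrime_iff_not_dvd.2
          (not_dvd_of_eval ![0, 0, 1] (by simp) (by simp))
      have q3 : IsRelPrime (X 0 - X 2 : S3 K) (X 0 + X 2) :=
        prime_xz.irreducible.isRelPrime_iff_not_dvd.2
          (not_dvd_of_eval ![1, 0, 1] (by simp) (by simp))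
      exact (q1.mul_right q2).mul_dvd k0 (q3.mul_dvd k1 k2)
    have hg : X 1 * (X 1 - X 2) ∣ θ (X 1) - c * X 1 := by
      have k0 : (X 1 : S3 K) ∣ θ (X 1) - c * X 1 := ⟨d - c, by rw [h1]; ring⟩
      have k1 : (X 1 - X 2 : S3 K) ∣ θ (X 1) - c * X 1 :=
        ⟨e1 - c, by linear_combination he1 + h2⟩
      have q1 : IsRelPrime (X 1 : S3 K) (X 1 - X 2) :=
        prime_y.irreducible.isRelPrime_iff_not_dvd.2
          (not_dvd_of_eval ![0, 0, 1] (by simp) (by simp))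
      exact q1.mul_dvd k0 k1
    obtain ⟨u, hu⟩ := hf
    obtain ⟨v, hv⟩ := hg
    refine ⟨2 * c, 2 * u, 2 * v, ?_⟩
    simp only [qq, fF, fG]
    linear_combination (2 * X 0) * hu + (2 * X 1) * hv + (2 * X 2) * h2
  · have key : ∀ (a b c g : S3 K), vf a b c ∈ logDer (A6 K) →
        2 * (X 0 * a + X 1 * b + X 2 * c) = 2 * g → g ∈ stIdeal (A6 K) (qq K) := by
      intro a b c g hm he
      have h1 : (2 : S3 K) * g ∈ stIdeal (A6 K) (qq K) := by
        apply Ideal.subset_span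
        refine ⟨vf a b c, hm, ?_⟩
        rw [der_qq, vf_0, vf_1, vf_2, he]
      obtain ⟨w, hw⟩ := isUnit_two (K := K)
      have h2 := Ideal.mul_mem_left _ (↑w⁻¹ : S3 K) h1
      rw [← hw, Units.inv_mul_cancel_left] at h2
      exact h2
    have hq : qq K ∈ stIdeal (A6 K) (qq K) := by
      apply key (X 0) (X 1) (X 2)
      · rw [mem_A6, vf_0, vf_1, vf_2]
        exact ⟨dvd_rfl, dvd_rfl, dvd_rfl, dvd_rfl, dvd_rfl, dvd_rfl⟩
      · simp only [qq]
        ring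
    have hF : fF K ∈ stIdeal (A6 K) (qq K) := by
      apply key (X 0 * ((X 0 - X 2) * (X 0 + X 2))) 0 0
      · rw [mem_A6, vf_0, vf_1, vf_2]
        refine ⟨dvd_zero _, dvd_mul_right _ _, ?_, ?_, dvd_zero _, by simp⟩
        · exact ⟨X 0 * (X 0 + X 2), by ring⟩
        · exact ⟨X 0 * (X 0 - X 2), by ring⟩
      · simp only [fF]
        ring
    have hG : fG K ∈ stIdeal (A6 K) (qq K) := by
      apply key 0 (X 1 * (X 1 - X 2)) 0
      · rw [mem_A6, vf_0, vf_1, vf_2]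
        refine ⟨dvd_zero _, dvd_zero _, by simp, by simp, dvd_mul_right _ _, ?_⟩
        exact ⟨X 1, by ring⟩
      · simp only [fG]
        ring
    intro g hg
    rw [memJ] at hg
    obtain ⟨r, s, t, rfl⟩ := hg
    exact Ideal.add_mem _ (Ideal.add_mem _ (Ideal.mul_mem_left _ _ hq)
      (Ideal.mul_mem_left _ _ hF)) (Ideal.mul_mem_left _ _ hG)

/-! ### the plane -/

/-- the polynomial ring in two variables -/
abbrev S2 (K : Type) [Field K] : Type := MvPolynomial (Fin 2) K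

/-- `x² + y²` in two variables -/
noncomputable def q2 (K : Type) [Field K] : S2 K := X 0 ^ 2 + X 1 ^ 2

lemma isUnit_two' : IsUnit (2 : S2 K) := by
  have : (2 : S2 K) = C (2 : K) := (map_ofNat _ _).symm
  rw [this]
  exact (IsUnit.mk0 _ (by norm_num)).map C

lemma der_q2 (θ : Derivation K (S2 K) (S2 K)) : θ (q2 K) =
    2 * (X 0 * θ (X 0) + X 1 * θ (X 1)) := by
  unfold q2
  rw [map_add, Derivation.leibniz_pow, Derivation.leibniz_pow]
  simp only [smul_eq_mul, nsmul_eq_mul, Nat.cast_ofNat, Nat.add_one_sub_one, pow_one]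
  ring

lemma mem_B2 {θ : Derivation K (S2 K) (S2 K)} : θ ∈ logDer (B2 K) ↔
    ((X 0 : S2 K) ∣ θ (X 0)) ∧ ((X 1 : S2 K) ∣ θ (X 1)) := by
  rw [mem_logDer]
  simp [Fin.forall_fin_succ, B2, linearForm, Fin.sum_univ_succ]

/-- the ideal in two variables -/
noncomputable def J2 (K : Type) [Field K] : Ideal (S2 K) :=
  Ideal.span {(X 0 ^ 2 : S2 K)} ⊔ (Ideal.span {(X 1 ^ 2 : S2 K)} ⊔ ⊥)

theorem stIdeal_B2 : stIdeal (B2 K) (q2 K) = J2 K := by
  have memJ : ∀ g : S2 K, g ∈ J2 K ↔ ∃ s t, g = s * X 0 ^ 2 + t * X 1 ^ 2 := by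
    intro g
    unfold J2
    rw [Ideal.mem_span_singleton_sup]
    constructor
    · rintro ⟨a, b, hb, rfl⟩
      rw [sup_bot_eq, Ideal.mem_span_singleton] at hb
      obtain ⟨u, rfl⟩ := hb
      exact ⟨a, u, by ring⟩
    · rintro ⟨s, t, rfl⟩
      refine ⟨s, t * X 1 ^ 2, ?_, rfl⟩
      rw [sup_bot_eq, Ideal.mem_span_singleton]
      exact dvd_mul_left _ _
  apply le_antisymm
  · unfold stIdeal
    rw [Ideal.span_le]
    rintro _ ⟨θ, hθ, rfl⟩
    rw [SetLike.mem_coe, memJ, der_q2]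
    rw [mem_B2] at hθ
    obtain ⟨⟨a, h0⟩, ⟨b, h1⟩⟩ := hθ
    refine ⟨2 * a, 2 * b, ?_⟩
    rw [h0, h1]
    ring
  · have key : ∀ (a b g : S2 K), (X 0 ∣ a) → (X 1 ∣ b) →
        2 * (X 0 * a + X 1 * b) = 2 * g → g ∈ stIdeal (B2 K) (q2 K) := by
      intro a b g ha hb he
      have h1 : (2 : S2 K) * g ∈ stIdeal (B2 K) (q2 K) := by
        apply Ideal.subset_span
        refine ⟨mkDerivation K ![a, b], ?_, ?_⟩
        · rw [mem_B2]
          simpa using ⟨ha, hb⟩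
        · rw [der_q2, ← he]
          simp
      obtain ⟨w, hw⟩ := isUnit_two' (K := K)
      have h2 := Ideal.mul_mem_left _ (↑w⁻¹ : S2 K) h1
      rw [← hw, Units.inv_mul_cancel_left] at h2
      exact h2
    have hx : (X 0 ^ 2 : S2 K) ∈ stIdeal (B2 K) (q2 K) :=
      key (X 0) 0 _ dvd_rfl (dvd_zero _) (by ring)
    have hy : (X 1 ^ 2 : S2 K) ∈ stIdeal (B2 K) (q2 K) :=
      key 0 (X 1) _ (dvd_zero _) dvd_rfl (by ring)
    intro g hg
    rw [memJ] at hg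
    obtain ⟨s, t, rfl⟩ := hg
    exact Ideal.add_mem _ (Ideal.mul_mem_left _ _ hx) (Ideal.mul_mem_left _ _ hy)

theorem HS_J2 : HS (J2 K) * (1 - PowerSeries.X) ^ 2 =
    (1 - PowerSeries.X ^ 2) * (1 - PowerSeries.X ^ 2) := by
  have hsq : ∀ i : Fin 2, (X i ^ 2 : S2 K).IsHomogeneous 2 := fun i => by
    have := (isHomogeneous_X K i).pow 2
    simpa using this
  have hb := homI_bot (K := K) (l := 2)
  have h1 := homI_sup hb (hsq 1)
  have n1 : (X 1 ^ 2 : S2 K) ≠ 0 := pow_ne_zero 2 (X_ne_zero _)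
  have n0 : (X 0 ^ 2 : S2 K) ≠ 0 := pow_ne_zero 2 (X_ne_zero _)
  have s1 : HS (Ideal.span {(X 1 ^ 2 : S2 K)} ⊔ ⊥) =
      (1 - PowerSeries.X ^ 2) * HS (⊥ : Ideal (S2 K)) := by
    apply HS_step hb (hsq 1) n1
    intro g hg
    rw [Ideal.mem_bot] at hg ⊢
    exact (mul_eq_zero.1 hg).resolve_left n1
  have s2 : HS (J2 K) = (1 - PowerSeries.X ^ 2) *
      HS (Ideal.span {(X 1 ^ 2 : S2 K)} ⊔ ⊥) := by
    apply HS_step h1 (hsq 0) n0
    intro g hg
    rw [sup_bot_eq, Ideal.mem_span_singleton] at hg ⊢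
    have hrel : IsRelPrime (X 1 ^ 2 : S2 K) (X 0 ^ 2) := by
      have : IsRelPrime (X 1 : S2 K) (X 0) := by
        apply (X_prime (R := K)).irreducible.isRelPrime_iff_not_dvd.2
        rw [X_dvd_X]
        decide
      exact IsRelPrime.pow this
    exact hrel.dvd_of_dvd_mul_left hg
  have s0 := HS_bot (K := K) 1
  rw [s2, s1]
  linear_combination ((1 - PowerSeries.X ^ 2) * (1 - PowerSeries.X ^ 2) : PowerSeries ℚ) * s0

end Pool.Agent.R833.ST
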