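import Mathlib
import Pool.Agent.R833.ST2

set_option autoImplicit false
set_option linter.unusedSectionVars false

/-!
# Flats and the Poincare polynomial of the example
-/

namespace Pool.Agent.R833.ST

open Pool.Agent.R833 Pool.Agent.R833.Arr Pool.Agent.R833.Ex7

/-- The set `L(A)` of all intersections of hyperplanes of `A` (the empty one being the whole
space). -/
def flats {K : Type} [Field K] {l n : ℕ} (A : Fin n → Fin l → K) :
    Set (Submodule K (Fin l → K)) :=
  {W | ∃ s : Set (Fin n), W = ⨅ i ∈ s, hyperplane (A i)}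

/-- `P` is the Poincare polynomial `∑ μ(X) (-t)^(codim X)` of `A`, where `μ` is the Moebius
function of `L(A)`: `μ(V) = 1`, and the values of `μ` at the flats containing a flat `X ≠ V` add
up to zero. -/
def IsPoincare {K : Type} [Field K] {l n : ℕ} (A : Fin n → Fin l → K) (P : Polynomial ℚ) : Prop :=
  ∃ μ : flats A → ℚ, (∀ X : flats A, X.1 = ⊤ → μ X = 1) ∧
    (∀ X : flats A, X.1 ≠ ⊤ → ∑ᶠ Y : {Y : flats A // X.1 ≤ Y.1}, μ Y.1 = 0) ∧
    P = ∑ᶠ X : flats A, Polynomial.C (μ X) * (-Polynomial.X) ^ (l - Module.finrank K X.1)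

/-- criterion -/
theorem isPoincare_of {K : Type} [Field K] {l n : ℕ} {A : Fin n → Fin l → K} {ι : Type}
    [Fintype ι] [DecidableEq ι] (w : ι → Submodule K (Fin l → K)) (hw : ∀ x, w x ∈ flats A)
    (hsurj : ∀ X ∈ flats A, ∃ x, w x = X) (le : ι → ι → Bool)
    (hle : ∀ x y, w x ≤ w y ↔ le x y = true) (hanti : ∀ x y, le x y → le y x → x = y)
    (top : ι) (htop : w top = ⊤) (mu : ι → ℚ) (hmu : mu top = 1) (cod : ι → ℕ)
    (hcod : ∀ x, l - Module.finrank K (w x) = cod x)
    (hsum : ∀ x, x ≠ top → ∑ y, (if le x y then mu y else 0) = 0) :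
    IsPoincare A (∑ x, Polynomial.C (mu x) * (-Polynomial.X) ^ cod x) := by
  classical
  have hinj : Function.Injective w := fun x y h =>
    hanti x y ((hle x y).1 h.le) ((hle y x).1 h.ge)
  let e : ι ≃ flats A := Equiv.ofBijective (fun x => ⟨w x, hw x⟩)
    ⟨fun x y h => hinj (congrArg Subtype.val h), fun X => by
      obtain ⟨x, hx⟩ := hsurj X.1 X.2
      exact ⟨x, Subtype.ext hx⟩⟩
  have he : ∀ x, (e x).1 = w x := fun x => rfl
  refine ⟨fun X => mu (e.symm X), ?_, ?_, ?_⟩
  · intro X hX
    have h1 : e.symm X = top := by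
      apply hinj
      rw [htop, ← hX, ← he, Equiv.apply_symm_apply]
    change mu (e.symm X) = 1
    rw [h1, hmu]
  · intro X hX
    have h1 : e.symm X ≠ top := by
      intro h
      apply hX
      rw [← htop, ← h, ← he, Equiv.apply_symm_apply]
    rw [← hsum _ h1]
    let e2 : {y : ι // le (e.symm X) y} ≃ {Y : flats A // X.1 ≤ Y.1} :=
      e.subtypeEquiv (fun y => by
        rw [← hle, ← he, Equiv.apply_symm_apply, ← he])
    rw [← finsum_comp_equiv e2, finsum_eq_sum_of_fintype, ← Finset.sum_filter]
    rw [Finset.sum_subtype (Finset.univ.filter fun y => le (e.symm X) y = true)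
      (p := fun y => le (e.symm X) y = true) (by intro x; simp) (fun y => mu y)]
    apply Finset.sum_congr rfl
    intro y _
    have : (e2 y).1 = e y.1 := rfl
    change mu (e.symm (e2 y).1) = mu y.1
    rw [this, Equiv.symm_apply_apply]
  · rw [← finsum_comp_equiv e, finsum_eq_sum_of_fintype]
    apply Finset.sum_congr rfl
    intro x _
    change _ = Polynomial.C (mu (e.symm (e x))) * (-Polynomial.X) ^
      (l - Module.finrank K (w x))
    rw [Equiv.symm_apply_apply, hcod]

section lin

variable {K : Type} [Field K] {l : ℕ}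

lemma finrank_hyperplane {a : Fin (l + 1) → K} (ha : a ≠ 0) :
    Module.finrank K (hyperplane a) = l := by
  have h1 : (∑ j, a j • LinearMap.proj j : (Fin (l + 1) → K) →ₗ[K] K) ≠ 0 := by
    intro h
    apply ha
    funext i
    have := congrArg (fun f => f (Pi.single i 1)) h
    simpa [Pi.single_apply] using this
  have h2 := Module.Dual.finrank_ker_add_one_of_ne_zero h1
  have h3 : Module.finrank K (Fin (l + 1) → K) = l + 1 := by simp
  rw [h3] at h2
  have h4 : Module.finrank K (hyperplane a) + 1 = l + 1 := h2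
  omega

/-- in `K^3`: the intersection of two planes is the line through the cross product -/
lemma inf_hyperplane {a b v : Fin 3 → K} {lam : K} (hlam : lam ≠ 0) (hv : v ≠ 0)
    (h0 : a 1 * b 2 - a 2 * b 1 = lam * v 0) (h1 : a 2 * b 0 - a 0 * b 2 = lam * v 1)
    (h2 : a 0 * b 1 - a 1 * b 0 = lam * v 2) :
    hyperplane a ⊓ hyperplane b = Submodule.span K {v} := by
  apply le_antisymm
  · rintro x ⟨hx1, hx2⟩
    rw [SetLike.mem_coe, mem_hyperplane, Fin.sum_univ_three] at hx1 hx2
    have e01 : v 0 * x 1 = v 1 * x 0 := by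
      apply mul_left_cancel₀ hlam
      linear_combination -(x 1) * h0 + (x 0) * h1 - a 2 * hx2 + b 2 * hx1
    have e02 : v 0 * x 2 = v 2 * x 0 := by
      apply mul_left_cancel₀ hlam
      linear_combination -(x 2) * h0 + (x 0) * h2 + a 1 * hx2 - b 1 * hx1
    have e12 : v 1 * x 2 = v 2 * x 1 := by
      apply mul_left_cancel₀ hlam
      linear_combination -(x 2) * h1 + (x 1) * h2 - a 0 * hx2 + b 0 * hx1
    rw [Submodule.mem_span_singleton]
    have hex : ∃ m, v m ≠ 0 := by
      by_contra hc
      push Not at hc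
      exact hv (funext hc)
    obtain ⟨m, hm⟩ := hex
    refine ⟨x m / v m, ?_⟩
    funext j
    rw [Pi.smul_apply, smul_eq_mul, div_mul_eq_mul_div, div_eq_iff hm]
    fin_cases m <;> fin_cases j
    · change x 0 * v 0 = x 0 * v 0; ring
    · change x 0 * v 1 = x 1 * v 0; linear_combination -e01
    · change x 0 * v 2 = x 2 * v 0; linear_combination -e02
    · change x 1 * v 0 = x 0 * v 1; linear_combination e01
    · change x 1 * v 1 = x 1 * v 1; ring
    · change x 1 * v 2 = x 2 * v 1; linear_combination -e12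
    · change x 2 * v 0 = x 0 * v 2; linear_combination e02
    · change x 2 * v 1 = x 1 * v 2; linear_combination e12
    · change x 2 * v 2 = x 2 * v 2; ring
  · rw [Submodule.span_singleton_le_iff_mem]
    constructor
    · rw [SetLike.mem_coe, mem_hyperplane, Fin.sum_univ_three]
      apply mul_left_cancel₀ hlam
      linear_combination -(a 0) * h0 - a 1 * h1 - a 2 * h2
    · rw [SetLike.mem_coe, mem_hyperplane, Fin.sum_univ_three]
      apply mul_left_cancel₀ hlam
      linear_combination -(b 0) * h0 - b 1 * h1 - b 2 * h2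

lemma le_span_singleton {v : Fin l → K} {X : Submodule K (Fin l → K)}
    (h : X ≤ Submodule.span K {v}) : X = ⊥ ∨ X = Submodule.span K {v} := by
  by_cases hX : X = ⊥
  · exact Or.inl hX
  · right
    apply le_antisymm h
    obtain ⟨x, hx, hx0⟩ := (Submodule.ne_bot_iff X).1 hX
    obtain ⟨c, hc⟩ := Submodule.mem_span_singleton.1 (h hx)
    have hc0 : c ≠ 0 := by
      rintro rfl
      rw [zero_smul] at hc
      exact hx0 hc.symm
    rw [Submodule.span_singleton_le_iff_mem]
    have := X.smul_mem c⁻¹ hx
    rwa [← hc, smul_smul, inv_mul_cancel₀ hc0, one_smul] at this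

end lin

end Pool.Agent.R833.ST
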