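import Mathlib
import Pool.Agent.R833.RI1
import Pool.Agent.R833.ST3
import Pool.Agent.R833.Tame3

/-!
# Codimension two subspace arrangements and the star configuration of five lines
-/

set_option autoImplicit false
set_option linter.unusedSectionVars false

namespace Pool.Agent.R833.RI

open MvPolynomial Pool.Agent.R833 Pool.Agent.R833.Arr

/-- The ideal `I(X)` of the linear subspace `X`, generated by the linear forms vanishing on it. -/
noncomputable def subspaceIdeal {K : Type} [Field K] {m : ℕ} (X : Submodule K (Fin m → K)) :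
    Ideal (MvPolynomial (Fin m) K) :=
  Ideal.span {f | ∃ c, f = linearForm c ∧ X ≤ hyperplane c}

/-- The defining ideal `I(B)` of a subspace arrangement `B`, the intersection of the ideals of its
members. -/
noncomputable def definingIdeal {K : Type} [Field K] {m : ℕ} (B : Set (Submodule K (Fin m → K))) :
    Ideal (MvPolynomial (Fin m) K) :=
  ⨅ X ∈ B, subspaceIdeal X

/-- `B` is a codimension two subspace arrangement in `K^m`. -/
def IsCodimTwo {K : Type} [Field K] {m : ℕ} (B : Set (Submodule K (Fin m → K))) : Prop :=
  B.Finite ∧ ∀ X ∈ B, Module.finrank K X + 2 = m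

/-- The codimension two subspace arrangement `B` is Cohen-Macaulay: the `(m-2)`-dimensional ring
`K[x_1, …, x_m] / I(B)` has a regular sequence of `m - 2` homogeneous elements of positive
degree. -/
def IsCohenMacaulay {K : Type} [Field K] {m : ℕ} (B : Set (Submodule K (Fin m → K))) : Prop :=
  ∃ rs : List (MvPolynomial (Fin m) K), rs.length = m - 2 ∧ (∀ f ∈ rs, PosHomogeneous f) ∧
    RingTheory.Sequence.IsRegular (MvPolynomial (Fin m) K ⧸ definingIdeal B) rs

/-- The restriction `f ∘ e` of a polynomial along the linear map `e`. -/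
noncomputable def restrictPoly {K : Type} [Field K] {m l : ℕ}
    (e : (Fin m → K) →ₗ[K] (Fin l → K)) (f : MvPolynomial (Fin l) K) :
    MvPolynomial (Fin m) K :=
  aeval (fun j => ∑ k, C (e (Pi.single k 1) j) * X k) f

/-- The residue ideal of `A` along its hyperplane `H` number `i₀` is the defining ideal of `B`,
under a linear isomorphism `e` of `K^m` with `H`. -/
def IsResidueArrangement {K : Type} [Field K] {m l n : ℕ} (A : Fin n → Fin l → K) (i₀ : Fin n)
    (B : Set (Submodule K (Fin m → K))) : Prop :=
  ∃ J : Ideal (MvPolynomial (Fin l) K ⧸ Ideal.span {linearForm (A i₀)}), IsResidueIdeal A i₀ J ∧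
    ∃ e : (Fin m → K) →ₗ[K] (Fin l → K), Function.Injective e ∧
      LinearMap.range e = hyperplane (A i₀) ∧
      ∀ f, Ideal.Quotient.mk (Ideal.span {linearForm (A i₀)}) f ∈ J ↔
        restrictPoly e f ∈ definingIdeal B

section restr

variable {K : Type} [Field K] {l m n : ℕ}

lemma linearForm_add (a b : Fin l → K) : linearForm (a + b) = linearForm a + linearForm b := by
  unfold linearForm
  rw [← Finset.sum_add_distrib]
  exact Finset.sum_congr rfl fun j _ => by rw [Pi.add_apply, C_add, add_mul]

lemma linearForm_zero : linearForm (0 : Fin l → K) = 0 := by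
  unfold linearForm
  simp

lemma linearForm_sub (a b : Fin l → K) : linearForm (a - b) = linearForm a - linearForm b := by
  unfold linearForm
  rw [← Finset.sum_sub_distrib]
  exact Finset.sum_congr rfl fun j _ => by rw [Pi.sub_apply, C_sub, sub_mul]

lemma linearForm_single (i : Fin l) : linearForm (Pi.single i (1 : K)) = X i := by
  unfold linearForm
  rw [Finset.sum_eq_single i]
  · simp
  · intro b _ hb
    simp [hb]
  · simp

/-- value of an algebra map on a linear form -/
lemma aeval_linearForm {R : Type*} [CommRing R] [Algebra K R] (g : Fin l → R) (a : Fin l → K) :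
    aeval g (linearForm a) = ∑ j, algebraMap K R (a j) * g j := by
  unfold linearForm
  rw [map_sum]
  exact Finset.sum_congr rfl fun j _ => by rw [map_mul, aeval_C, aeval_X]

lemma restrict_linearForm (e : (Fin m → K) →ₗ[K] (Fin l → K)) (a : Fin l → K) :
    restrictPoly e (linearForm a) = linearForm (fun k => ∑ j, a j * e (Pi.single k 1) j) := by
  unfold restrictPoly
  rw [aeval_linearForm]
  unfold linearForm
  simp only [algebraMap_eq, Finset.mul_sum, map_sum, map_mul, Finset.sum_mul]
  rw [Finset.sum_comm]
  exact Finset.sum_congr rfl fun k _ => Finset.sum_congr rfl fun j _ => by ring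

lemma restrict_surjective {e : (Fin m → K) →ₗ[K] (Fin l → K)} (he : Function.Injective e) :
    Function.Surjective (restrictPoly e) := by
  obtain ⟨p, hp⟩ := LinearMap.exists_leftInverse_of_injective e (LinearMap.ker_eq_bot.2 he)
  have h1 : ∀ k, ∃ f, restrictPoly e f = X k := by
    intro k
    refine ⟨linearForm (fun j => p (Pi.single j 1) k), ?_⟩
    rw [restrict_linearForm, ← linearForm_single]
    congr 1
    funext i
    have h2 : p (e (Pi.single i 1)) = Pi.single i 1 := congrArg (fun f => f (Pi.single i 1)) hp
    have h3 : e (Pi.single i 1) = ∑ j, e (Pi.single i 1) j • (Pi.single j 1 : Fin l → K) := by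
      funext j'
      simp [Finset.sum_apply, Pi.single_apply]
    have h4 : p (e (Pi.single i 1)) k = ∑ j, p (Pi.single j 1) k * e (Pi.single i 1) j := by
      conv_lhs => rw [h3]
      rw [map_sum, Finset.sum_apply]
      refine Finset.sum_congr rfl fun j _ => ?_
      rw [map_smul, Pi.smul_apply, smul_eq_mul, mul_comm]
    rw [← h4, h2, Pi.single_apply, Pi.single_apply]
    simp only [eq_comm]
  choose g hg using h1
  intro h
  refine ⟨aeval g h, ?_⟩
  have h5 : (aeval (fun j => ∑ k, C (e (Pi.single k 1) j) * X k) :
      MvPolynomial (Fin l) K →ₐ[K] MvPolynomial (Fin m) K).comp (aeval g) = AlgHom.id K _ := by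
    apply MvPolynomial.algHom_ext
    intro k
    rw [AlgHom.comp_apply, aeval_X]
    exact hg k
  exact congrArg (fun f => f h) h5

/-- the defining ideal of a codimension two arrangement coming from a free arrangement in `K^l` is
generated by at most `l` elements -/
theorem definingIdeal_gens {A : Fin n → Fin l → K} (hA : IsArrangement A) (i₀ : Fin n)
    (hfree : Module.Free (MvPolynomial (Fin l) K) (logDer A))
    {B : Set (Submodule K (Fin m → K))} (hB : IsResidueArrangement A i₀ B) :
    ∃ (r : ℕ) (h : Fin r → MvPolynomial (Fin m) K), r ≤ l ∧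
      definingIdeal B = Ideal.span (Set.range h) := by
  obtain ⟨J, hJ, e, he1, he2, he3⟩ := hB
  obtain ⟨r, f, hr, hf⟩ := residueIdeal_gens hA i₀ hfree hJ
  have hmul : ∀ x y, restrictPoly e (x * y) = restrictPoly e x * restrictPoly e y :=
    fun x y => by unfold restrictPoly; rw [map_mul]
  have hadd : ∀ x y, restrictPoly e (x + y) = restrictPoly e x + restrictPoly e y :=
    fun x y => by unfold restrictPoly; rw [map_add]
  have hsum : ∀ x : Fin r → MvPolynomial (Fin l) K,
      restrictPoly e (∑ i, x i) = ∑ i, restrictPoly e (x i) :=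
    fun x => by unfold restrictPoly; rw [map_sum]
  refine ⟨r, fun i => restrictPoly e (f i), hr, ?_⟩
  apply le_antisymm
  · intro h hh
    obtain ⟨F, rfl⟩ := restrict_surjective he1 h
    have h1 := (he3 F).2 hh
    rw [hf, Ideal.mem_span_range_iff_exists_fun] at h1
    obtain ⟨s, hs⟩ := h1
    have h2 : ∀ i, ∃ t, Ideal.Quotient.mk (Ideal.span {linearForm (A i₀)}) t = s i :=
      fun i => Ideal.Quotient.mk_surjective (s i)
    choose t ht using h2
    have h3 : Ideal.Quotient.mk (Ideal.span {linearForm (A i₀)}) (∑ i, t i * f i) =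
        Ideal.Quotient.mk (Ideal.span {linearForm (A i₀)}) F := by
      rw [← hs, map_sum]
      exact Finset.sum_congr rfl fun i _ => by rw [map_mul, ht i]
    rw [Ideal.Quotient.eq, Ideal.mem_span_singleton] at h3
    obtain ⟨q, hq⟩ := h3
    have h4 : restrictPoly e (linearForm (A i₀)) = 0 := by
      rw [restrict_linearForm, ← linearForm_zero]
      congr 1
      funext k
      have h5 : e (Pi.single k 1) ∈ hyperplane (A i₀) := by
        rw [← he2]
        exact ⟨_, rfl⟩
      exact mem_hyperplane.1 h5
    have h5 : F = ∑ i, t i * f i + linearForm (A i₀) * (-q) := by linear_combination -hq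
    rw [h5, hadd, hmul, h4, zero_mul, add_zero, hsum]
    refine Ideal.sum_mem _ fun i _ => ?_
    rw [hmul]
    exact Ideal.mul_mem_left _ _ (Ideal.subset_span ⟨i, rfl⟩)
  · rw [Ideal.span_le]
    rintro _ ⟨i, rfl⟩
    refine (he3 (f i)).1 ?_
    rw [hf]
    exact Ideal.subset_span ⟨i, rfl⟩

end restr

end Pool.Agent.R833.RI
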