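import Mathlib
import Pool.Agent.R833.RI2

/-!
# The star configuration of five general lines
-/

set_option autoImplicit false
set_option linter.unusedSectionVars false

namespace Pool.Agent.R833.RI

open MvPolynomial Pool.Agent.R833 Pool.Agent.R833.Arr

variable {K : Type} [Field K]

/-- the cross product -/
def cr (a b : Fin 3 → K) : Fin 3 → K :=
  ![a 1 * b 2 - a 2 * b 1, a 2 * b 0 - a 0 * b 2, a 0 * b 1 - a 1 * b 0]

lemma cr0 (a b : Fin 3 → K) : cr a b 0 = a 1 * b 2 - a 2 * b 1 := rfl
lemma cr1 (a b : Fin 3 → K) : cr a b 1 = a 2 * b 0 - a 0 * b 2 := rfl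
lemma cr2 (a b : Fin 3 → K) : cr a b 2 = a 0 * b 1 - a 1 * b 0 := rfl

lemma inf_eq {a b : Fin 3 → K} (h : cr a b ≠ 0) :
    hyperplane a ⊓ hyperplane b = Submodule.span K {cr a b} :=
  ST.inf_hyperplane (lam := 1) one_ne_zero h (by rw [cr0, one_mul]) (by rw [cr1, one_mul])
    (by rw [cr2, one_mul])

lemma comb_of_perp {a b c : Fin 3 → K} (hc : ∑ m, c m * cr a b m = 0) (k : Fin 3) :
    (cr a b k) • c = (cr c b k) • a + (cr a c k) • b := by
  rw [Fin.sum_univ_three, cr0, cr1, cr2] at hc
  funext m
  simp only [Pi.smul_apply, Pi.add_apply, smul_eq_mul]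
  fin_cases k <;> fin_cases m <;> simp only [Fin.zero_eta, Fin.mk_one, Fin.reduceFinMk, cr0, cr1, cr2]
  · linear_combination hc
  · ring
  · ring
  · ring
  · linear_combination hc
  · ring
  · ring
  · ring
  · linear_combination hc

lemma mem_pair_of_perp {a b c : Fin 3 → K} (h : cr a b ≠ 0) (hc : ∑ m, c m * cr a b m = 0) :
    linearForm c ∈ Ideal.span {linearForm a, linearForm b} := by
  have hex : ∃ k, cr a b k ≠ 0 := by
    by_contra hcon
    push Not at hcon
    exact h (funext hcon)
  obtain ⟨k, hk⟩ := hex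
  have h1 := congrArg linearForm (comb_of_perp hc k)
  rw [linearForm_add, linearForm_smul, linearForm_smul, linearForm_smul] at h1
  have e1 : (C (cr a b k) : MvPolynomial (Fin 3) K) * C (cr a b k)⁻¹ = 1 := by
    rw [← C_mul, mul_inv_cancel₀ hk, C_1]
  rw [Ideal.mem_span_pair]
  refine ⟨C (cr a b k)⁻¹ * C (cr c b k), C (cr a b k)⁻¹ * C (cr a c k), ?_⟩
  linear_combination (-(C (cr a b k)⁻¹)) * h1 + linearForm c * e1

lemma subspaceIdeal_inf {a b : Fin 3 → K} (h : cr a b ≠ 0) :
    subspaceIdeal (hyperplane a ⊓ hyperplane b) = Ideal.span {linearForm a, linearForm b} := by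
  apply le_antisymm
  · unfold subspaceIdeal
    rw [Ideal.span_le]
    rintro _ ⟨c, rfl, hc⟩
    apply mem_pair_of_perp h
    rw [inf_eq h, Submodule.span_singleton_le_iff_mem, mem_hyperplane] at hc
    exact hc
  · rw [Ideal.span_le]
    rintro f hf
    rcases hf with rfl | hf
    · exact Ideal.subset_span ⟨a, rfl, inf_le_left⟩
    · rw [Set.mem_singleton_iff] at hf
      subst hf
      exact Ideal.subset_span ⟨b, rfl, inf_le_right⟩

/-- the parametrization of a line -/
noncomputable def ph {l : ℕ} (v : Fin l → K) : MvPolynomial (Fin l) K →ₐ[K] Polynomial K :=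
  aeval fun m => Polynomial.C (v m) * Polynomial.X

lemma ph_linearForm {l : ℕ} (v a : Fin l → K) :
    ph v (linearForm a) = Polynomial.C (∑ m, a m * v m) * Polynomial.X := by
  unfold ph
  rw [aeval_linearForm, map_sum, Finset.sum_mul]
  refine Finset.sum_congr rfl fun j _ => ?_
  rw [Polynomial.C_mul, mul_assoc]
  rfl

lemma ph_of_mem {l : ℕ} {v : Fin l → K} {X : Submodule K (Fin l → K)} (hv : v ∈ X)
    {f : MvPolynomial (Fin l) K} (hf : f ∈ subspaceIdeal X) : ph v f = 0 := by
  have h1 : subspaceIdeal X ≤ RingHom.ker (ph v) := by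
    unfold subspaceIdeal
    rw [Ideal.span_le]
    rintro _ ⟨c, rfl, hc⟩
    rw [SetLike.mem_coe, RingHom.mem_ker, ph_linearForm, mem_hyperplane.1 (hc hv), Polynomial.C_0,
      zero_mul]
  exact h1 hf

lemma mem_of_ph {l : ℕ} {v : Fin l → K} (hv : v ≠ 0) {f : MvPolynomial (Fin l) K}
    (hf : ph v f = 0) : f ∈ subspaceIdeal (Submodule.span K {v}) := by
  have hex : ∃ k, v k ≠ 0 := by
    by_contra hcon
    push Not at hcon
    exact hv (funext hcon)
  obtain ⟨k, hk⟩ := hex
  let ps : Polynomial K →ₐ[K] MvPolynomial (Fin l) K :=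
    Polynomial.aeval (C (v k)⁻¹ * X k)
  have h1 : ∀ g : MvPolynomial (Fin l) K,
      g - ps (ph v g) ∈ subspaceIdeal (Submodule.span K {v}) := by
    intro g
    induction g using MvPolynomial.induction_on with
    | C r =>
      have e : C r - ps (ph v (C r)) = 0 := by
        rw [ph, aeval_C]
        change C r - ps (algebraMap K (Polynomial K) r) = 0
        rw [AlgHom.commutes]
        exact sub_self _
      rw [e]
      exact Ideal.zero_mem _
    | add p q hp hq =>
      have : p + q - ps (ph v (p + q)) = (p - ps (ph v p)) + (q - ps (ph v q)) := by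
        simp only [map_add]; ring
      rw [this]
      exact Ideal.add_mem _ hp hq
    | mul_X p i hp =>
      have : p * X i - ps (ph v (p * X i)) =
        (p - ps (ph v p)) * X i + ps (ph v p) * (X i - ps (ph v (X i))) := by
        simp only [map_mul]; ring
      rw [this]
      refine Ideal.add_mem _ (Ideal.mul_mem_right _ _ hp) (Ideal.mul_mem_left _ _ ?_)
      refine Ideal.subset_span ⟨Pi.single i 1 - (v i * (v k)⁻¹) • Pi.single k 1, ?_, ?_⟩
      · rw [linearForm_sub, linearForm_smul, linearForm_single, linearForm_single]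
        congr 1
        change ps ((aeval fun m => Polynomial.C (v m) * Polynomial.X) (X i)) = _
        rw [aeval_X, map_mul, C_mul]
        change Polynomial.aeval _ (Polynomial.C (v i)) * Polynomial.aeval _ Polynomial.X = _
        rw [Polynomial.aeval_C, Polynomial.aeval_X, algebraMap_eq]
        ring
      · rw [Submodule.span_singleton_le_iff_mem, mem_hyperplane]
        simp only [Pi.sub_apply, Pi.smul_apply, smul_eq_mul, sub_mul, Finset.sum_sub_distrib,
          Pi.single_apply, ite_mul, one_mul, zero_mul, mul_ite, mul_one, mul_zero,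
          Finset.sum_ite_eq', Finset.mem_univ, if_true]
        rw [mul_assoc, inv_mul_cancel₀ hk, mul_one, sub_self]
  have h2 := h1 f
  rwa [hf, map_zero, sub_zero] at h2

/-- the retraction onto the line `a = 0`, for a vector `w` with `a(w) = 1` -/
noncomputable def ret {l : ℕ} (w a : Fin l → K) :
    MvPolynomial (Fin l) K →ₐ[K] MvPolynomial (Fin l) K :=
  aeval fun m => X m - C (w m) * linearForm a

lemma ret_linearForm {l : ℕ} (w a c : Fin l → K) :
    ret w a (linearForm c) = linearForm (c - (∑ m, c m * w m) • a) := by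
  unfold ret
  rw [aeval_linearForm, linearForm_sub, linearForm_smul]
  simp only [algebraMap_eq, mul_sub, Finset.sum_sub_distrib]
  congr 1
  rw [map_sum, Finset.sum_mul]
  exact Finset.sum_congr rfl fun j _ => by rw [C_mul, mul_assoc]

lemma ret_self {l : ℕ} {w a : Fin l → K} (h : ∑ m, a m * w m = 1) :
    ret w a (linearForm a) = 0 := by
  rw [ret_linearForm, h, one_smul, sub_self, linearForm_zero]

lemma dvd_sub_ret {l : ℕ} (w a : Fin l → K) (f : MvPolynomial (Fin l) K) :
    linearForm a ∣ f - ret w a f := by
  induction f using MvPolynomial.induction_on with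
  | C r =>
    rw [ret, aeval_C, algebraMap_eq, sub_self]
    exact dvd_zero _
  | add p q hp hq =>
    have : p + q - ret w a (p + q) = (p - ret w a p) + (q - ret w a q) := by
      simp only [map_add]; ring
    rw [this]
    exact dvd_add hp hq
  | mul_X p i hp =>
    have : p * X i - ret w a (p * X i) =
      (p - ret w a p) * X i + ret w a p * (X i - ret w a (X i)) := by
      simp only [map_mul]; ring
    rw [this]
    refine dvd_add (hp.mul_right _) (Dvd.dvd.mul_left ?_ _)
    rw [ret, aeval_X, sub_sub_cancel]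
    exact dvd_mul_left _ _

lemma ret_homogeneous {l : ℕ} (w a : Fin l → K) {f : MvPolynomial (Fin l) K} {d : ℕ}
    (h : f.IsHomogeneous d) : (ret w a f).IsHomogeneous d := by
  have := h.aeval (fun m => (X m - C (w m) * linearForm a : MvPolynomial (Fin l) K)) (n := 1) (by
    intro j
    exact (isHomogeneous_X K j).sub ((linearForm_homogeneous a).C_mul _))
  rw [one_mul] at this
  exact this

/-- five lines in general position -/
def Gen (a : Fin 5 → Fin 3 → K) : Prop :=
  ∀ i j k, i ≠ j → i ≠ k → j ≠ k → ∑ m, a k m * cr (a i) (a j) m ≠ 0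

lemma gen_cr {a : Fin 5 → Fin 3 → K} (h : Gen a) {i j : Fin 5} (hij : i ≠ j) :
    cr (a i) (a j) ≠ 0 := by
  obtain ⟨k, hk⟩ : ∃ k : Fin 5, i ≠ k ∧ j ≠ k := by
    revert i j; decide
  intro h0
  apply h i j k hij hk.1 hk.2
  rw [h0]
  simp

lemma gen_ne {a : Fin 5 → Fin 3 → K} (h : Gen a) (i : Fin 5) : a i ≠ 0 := by
  obtain ⟨k, hk⟩ : ∃ k : Fin 5, i ≠ k := by
    revert i; decide
  intro h0
  apply gen_cr h hk
  rw [h0]
  funext m
  fin_cases m <;> simp [cr]

/-- low degree forms vanishing at the ten points are zero -/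
theorem eq_zero_of_low {a : Fin 5 → Fin 3 → K} (hgen : Gen a) {f : MvPolynomial (Fin 3) K} {d : ℕ}
    (hd : d ≤ 3) (hf : f.IsHomogeneous d)
    (h : ∀ i j, i ≠ j → f ∈ Ideal.span {linearForm (a i), linearForm (a j)}) : f = 0 := by
  have hdvd : ∀ i, linearForm (a i) ∣ f := by
    intro i
    have hex : ∃ k, a i k ≠ 0 := by
      by_contra hcon
      push Not at hcon
      exact gen_ne hgen i (funext hcon)
    obtain ⟨k, hk⟩ := hex
    obtain ⟨w, hw⟩ : ∃ w : Fin 3 → K, ∑ m, a i m * w m = 1 := by
      refine ⟨Pi.single k (a i k)⁻¹, ?_⟩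
      rw [Finset.sum_eq_single k]
      · simp [hk]
      · intro b _ hb
        simp [hb]
      · simp
    set M : Fin 5 → MvPolynomial (Fin 3) K := fun j => ret w (a i) (linearForm (a j)) with hM
    have hM1 : ∀ j, M j = linearForm (a j - (∑ m, a j m * w m) • a i) :=
      fun j => ret_linearForm _ _ _
    have hM0 : ∀ j, i ≠ j → M j ≠ 0 := by
      intro j hij h0
      rw [hM1, ← linearForm_zero] at h0
      have h1 := linearForm_injective h0
      apply gen_cr hgen hij
      have h2 : ∀ m, a j m = (∑ m, a j m * w m) * a i m := by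
        intro m
        have := congrFun h1 m
        simp only [Pi.sub_apply, Pi.smul_apply, smul_eq_mul, Pi.zero_apply] at this
        linear_combination this
      funext m
      generalize (∑ m, a j m * w m) = s at h2
      fin_cases m <;> simp only [Fin.zero_eta, Fin.mk_one, Fin.reduceFinMk, cr0, cr1, cr2, h2, Pi.zero_apply] <;> ring
    have hMnd : ∀ j k, i ≠ j → i ≠ k → j ≠ k → ¬ M j ∣ M k := by
      intro j k hij hik hjk hdv
      obtain ⟨c, hc, he⟩ := dvd_homogeneous_one (by rw [hM1]; exact linearForm_homogeneous _)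
        (by rw [hM1]; exact linearForm_homogeneous _) (hM0 k hik) hdv
      rw [hM1, hM1, ← linearForm_smul] at he
      have h1 := linearForm_injective he
      apply hgen i j k hij hik hjk
      generalize (∑ m, a j m * w m) = s at h1
      generalize (∑ m, a k m * w m) = t at h1
      have h2 : ∀ m, a k m = t * a i m + c * (a j m - s * a i m) := by
        intro m
        have := congrFun h1 m
        simp only [Pi.sub_apply, Pi.smul_apply, smul_eq_mul] at this
        linear_combination this
      rw [Fin.sum_univ_three, cr0, cr1, cr2, h2 0, h2 1, h2 2]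
      ring
    have hMdvd : ∀ j, i ≠ j → M j ∣ ret w (a i) f := by
      intro j hij
      obtain ⟨x, y, hxy⟩ := Ideal.mem_span_pair.1 (h i j hij)
      rw [← hxy, map_add, map_mul, map_mul, ret_self hw, mul_zero, zero_add]
      exact dvd_mul_left _ _
    have hprod : ∏ j ∈ Finset.univ.erase i, M j ∣ ret w (a i) f := by
      apply Finset.prod_dvd_of_isRelPrime
      · intro j hj k hk hjk
        have hj' : i ≠ j := (Finset.ne_of_mem_erase hj).symm
        have hk' : i ≠ k := (Finset.ne_of_mem_erase hk).symm
        have hp : Prime (M j) := prime_of_homogeneous_one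
          (by rw [hM1]; exact linearForm_homogeneous _) (hM0 j hj')
        exact hp.irreducible.isRelPrime_iff_not_dvd.2 (hMnd j k hj' hk' hjk)
      · intro j hj
        exact hMdvd j (Finset.ne_of_mem_erase hj).symm
    have hz : ret w (a i) f = 0 := by
      by_contra hne
      have h1 : (∏ j ∈ Finset.univ.erase i, M j).IsHomogeneous 4 := by
        have := MvPolynomial.IsHomogeneous.prod (Finset.univ.erase i) M (fun _ => 1)
          (fun j _ => by rw [hM1]; exact linearForm_homogeneous _)
        simpa using this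
      have h2 : (∏ j ∈ Finset.univ.erase i, M j) ≠ 0 :=
        Finset.prod_ne_zero_iff.2 fun j hj => hM0 j (Finset.ne_of_mem_erase hj).symm
      obtain ⟨q, hq⟩ := hprod
      have hq0 : q ≠ 0 := by rintro rfl; exact hne (by rw [hq, mul_zero])
      have e := congrArg totalDegree hq
      rw [totalDegree_mul_of_isDomain h2 hq0, h1.totalDegree h2,
        (ret_homogeneous w (a i) hf).totalDegree hne] at e
      omega
    have h3 := dvd_sub_ret w (a i) f
    rwa [hz, sub_zero] at h3
  have hp : ∏ i, linearForm (a i) ∣ f := by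
    apply Fintype.prod_dvd_of_isRelPrime
    · intro i j hij
      refine (prime_linearForm (gen_ne hgen i)).irreducible.isRelPrime_iff_not_dvd.2 ?_
      intro hdv
      obtain ⟨c, hc, he⟩ := dvd_homogeneous_one (linearForm_homogeneous _)
        (linearForm_homogeneous _) (linearForm_ne_zero (gen_ne hgen j)) hdv
      rw [← linearForm_smul] at he
      have h1 := linearForm_injective he
      apply gen_cr hgen hij
      funext m
      fin_cases m <;> simp only [Fin.zero_eta, Fin.mk_one, Fin.reduceFinMk, cr0, cr1, cr2, h1, Pi.smul_apply,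
        smul_eq_mul, Pi.zero_apply] <;> ring
    · exact hdvd
  by_contra hne
  have h1 : (∏ i, linearForm (a i)).IsHomogeneous 5 := by
    have := MvPolynomial.IsHomogeneous.prod (Finset.univ : Finset (Fin 5))
      (fun j => linearForm (a j)) (fun _ => 1) (fun j _ => linearForm_homogeneous _)
    simpa using this
  have h2 : (∏ i, linearForm (a i)) ≠ 0 :=
    Finset.prod_ne_zero_iff.2 fun j _ => linearForm_ne_zero (gen_ne hgen j)
  obtain ⟨q, hq⟩ := hp
  have hq0 : q ≠ 0 := by rintro rfl; exact hne (by rw [hq, mul_zero])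
  have e := congrArg totalDegree hq
  rw [totalDegree_mul_of_isDomain h2 hq0, h1.totalDegree h2, hf.totalDegree hne] at e
  omega

end Pool.Agent.R833.RI
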