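import Mathlib
import Pool.Agent.R833.RI3

/-!
# The ideal of the star configuration needs five generators
-/

set_option autoImplicit false
set_option linter.unusedSectionVars false

namespace Pool.Agent.R833.RI

open MvPolynomial Pool.Agent.R833 Pool.Agent.R833.Arr

variable {K : Type} [Field K]

/-- the star configuration -/
def star (a : Fin 5 → Fin 3 → K) : Set (Submodule K (Fin 3 → K)) :=
  {X | ∃ i j, i ≠ j ∧ X = hyperplane (a i) ⊓ hyperplane (a j)}

lemma star_finite (a : Fin 5 → Fin 3 → K) : (star a).Finite := by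
  apply Set.Finite.subset (Set.finite_range
    (fun p : Fin 5 × Fin 5 => hyperplane (a p.1) ⊓ hyperplane (a p.2)))
  rintro X ⟨i, j, _, rfl⟩
  exact ⟨(i, j), rfl⟩

lemma star_codim {a : Fin 5 → Fin 3 → K} (h : Gen a) : IsCodimTwo (star a) := by
  refine ⟨star_finite a, ?_⟩
  rintro X ⟨i, j, hij, rfl⟩
  rw [inf_eq (gen_cr h hij), finrank_span_singleton (gen_cr h hij)]

lemma mem_star {a : Fin 5 → Fin 3 → K} (h : Gen a) {f : MvPolynomial (Fin 3) K} :
    f ∈ definingIdeal (star a) ↔
      ∀ i j, i ≠ j → f ∈ Ideal.span {linearForm (a i), linearForm (a j)} := by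
  unfold definingIdeal
  simp only [Submodule.mem_iInf]
  constructor
  · intro h1 i j hij
    rw [← subspaceIdeal_inf (gen_cr h hij)]
    exact h1 _ ⟨i, j, hij, rfl⟩
  · rintro h1 X ⟨i, j, hij, rfl⟩
    rw [subspaceIdeal_inf (gen_cr h hij)]
    exact h1 i j hij

/-- the generators -/
noncomputable def pp (a : Fin 5 → Fin 3 → K) (k : Fin 5) : MvPolynomial (Fin 3) K :=
  ∏ j ∈ Finset.univ.erase k, linearForm (a j)

lemma dvd_pp (a : Fin 5 → Fin 3 → K) {j k : Fin 5} (hjk : j ≠ k) : linearForm (a j) ∣ pp a k :=
  Finset.dvd_prod_of_mem (fun j => linearForm (a j)) (Finset.mem_erase.2 ⟨hjk, Finset.mem_univ j⟩)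

lemma pp_mem {a : Fin 5 → Fin 3 → K} (h : Gen a) (k : Fin 5) : pp a k ∈ definingIdeal (star a) := by
  rw [mem_star h]
  intro i j hij
  by_cases hik : i = k
  · subst hik
    obtain ⟨q, hq⟩ := dvd_pp a hij.symm
    exact Ideal.mem_span_pair.2 ⟨0, q, by rw [hq]; ring⟩
  · obtain ⟨q, hq⟩ := dvd_pp a hik
    exact Ideal.mem_span_pair.2 ⟨q, 0, by rw [hq]; ring⟩

lemma pp_homogeneous (a : Fin 5 → Fin 3 → K) (k : Fin 5) : (pp a k).IsHomogeneous 4 := by
  have := MvPolynomial.IsHomogeneous.prod (Finset.univ.erase k)
    (fun j => linearForm (a j)) (fun _ => 1) (fun j _ => linearForm_homogeneous _)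
  simpa [pp] using this

lemma gen_not_dvd {a : Fin 5 → Fin 3 → K} (hgen : Gen a) {i j : Fin 5} (hij : i ≠ j) :
    ¬ linearForm (a i) ∣ linearForm (a j) := by
  intro hdv
  obtain ⟨c, hc, he⟩ := dvd_homogeneous_one (linearForm_homogeneous _)
    (linearForm_homogeneous _) (linearForm_ne_zero (gen_ne hgen j)) hdv
  rw [← linearForm_smul] at he
  have h1 := linearForm_injective he
  apply gen_cr hgen hij
  funext m
  fin_cases m <;> simp only [Fin.zero_eta, Fin.mk_one, Fin.reduceFinMk, cr0, cr1, cr2, h1,
    Pi.smul_apply, smul_eq_mul, Pi.zero_apply] <;> ring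

lemma not_dvd_pp {a : Fin 5 → Fin 3 → K} (hgen : Gen a) (k : Fin 5) :
    ¬ linearForm (a k) ∣ pp a k := by
  intro h
  obtain ⟨j, hj, hd⟩ := (prime_linearForm (gen_ne hgen k)).exists_mem_finset_dvd h
  exact gen_not_dvd hgen (Finset.ne_of_mem_erase hj).symm hd

lemma pp_li {a : Fin 5 → Fin 3 → K} (hgen : Gen a) : LinearIndependent K (pp a) := by
  rw [Fintype.linearIndependent_iff]
  intro c hc k
  by_contra hk
  rw [← Finset.add_sum_erase _ _ (Finset.mem_univ k)] at hc
  have h1 : linearForm (a k) ∣ ∑ j ∈ Finset.univ.erase k, c j • pp a j := by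
    apply Finset.dvd_sum
    intro j hj
    rw [smul_eq_C_mul]
    exact (dvd_pp a (Finset.ne_of_mem_erase hj).symm).mul_left _
  have h2 : linearForm (a k) ∣ C (c k) * pp a k := by
    have e : C (c k) * pp a k = - ∑ j ∈ Finset.univ.erase k, c j • pp a j := by
      rw [← smul_eq_C_mul]
      linear_combination hc
    rw [e]
    exact (dvd_neg).2 h1
  have h3 : IsUnit (C (c k) : MvPolynomial (Fin 3) K) := (IsUnit.mk0 _ hk).map C
  exact not_dvd_pp hgen k ((h3.dvd_mul_left).1 h2)

lemma component_pair {x L : MvPolynomial (Fin 3) K} (hL : L.IsHomogeneous 1) (d : ℕ) :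
    ∃ y, homogeneousComponent d (x * L) = y * L := by
  cases d with
  | zero =>
    refine ⟨0, ?_⟩
    rw [homogeneousComponent_zero, zero_mul, ← constantCoeff_eq, map_mul]
    have : constantCoeff L = 0 := by
      rw [constantCoeff_eq]
      exact hL.coeff_eq_zero (by simp)
    rw [this, mul_zero, C_0]
  | succ e => exact ⟨_, TM.component_mul hL⟩

lemma component_mem {a : Fin 5 → Fin 3 → K} (hgen : Gen a) {f : MvPolynomial (Fin 3) K}
    (hf : f ∈ definingIdeal (star a)) (d : ℕ) :
    homogeneousComponent d f ∈ definingIdeal (star a) := by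
  rw [mem_star hgen] at hf ⊢
  intro i j hij
  obtain ⟨x, y, hxy⟩ := Ideal.mem_span_pair.1 (hf i j hij)
  obtain ⟨x', hx'⟩ := component_pair (x := x) (linearForm_homogeneous (a i)) d
  obtain ⟨y', hy'⟩ := component_pair (x := y) (linearForm_homogeneous (a j)) d
  rw [← hxy, map_add, hx', hy']
  exact Ideal.mem_span_pair.2 ⟨x', y', rfl⟩

lemma component_low {a : Fin 5 → Fin 3 → K} (hgen : Gen a) {f : MvPolynomial (Fin 3) K}
    (hf : f ∈ definingIdeal (star a)) {d : ℕ} (hd : d ≤ 3) : homogeneousComponent d f = 0 :=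
  eq_zero_of_low hgen hd (homogeneousComponent_isHomogeneous d f)
    ((mem_star hgen).1 (component_mem hgen hf d))

lemma component_four {x f : MvPolynomial (Fin 3) K}
    (hf : ∀ d ≤ 3, homogeneousComponent d f = 0) :
    homogeneousComponent 4 (x * f) = coeff 0 x • homogeneousComponent 4 f := by
  rw [← TM.gr_coeff, map_mul, Polynomial.coeff_mul, Finset.sum_eq_single (0, 4)]
  · change (gr x).coeff 0 * (gr f).coeff 4 = _
    rw [TM.gr_coeff, TM.gr_coeff, homogeneousComponent_zero, smul_eq_C_mul]
  · rintro ⟨p, q⟩ hpq hne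
    rw [Finset.HasAntidiagonal.mem_antidiagonal] at hpq
    change (gr x).coeff p * (gr f).coeff q = 0
    have hq : q ≤ 3 := by
      by_contra hc
      apply hne
      have h1 : p + q = 4 := hpq
      have h2 : p = 0 := by omega
      have h3 : q = 4 := by omega
      rw [h2, h3]
    rw [TM.gr_coeff, TM.gr_coeff, hf q hq, mul_zero]
  · intro h
    exact absurd (Finset.HasAntidiagonal.mem_antidiagonal.2 (by norm_num)) h

/-- the ideal of the star configuration is not generated by four elements -/
theorem five_gens {a : Fin 5 → Fin 3 → K} (hgen : Gen a) {r : ℕ}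
    (h : Fin r → MvPolynomial (Fin 3) K)
    (hh : definingIdeal (star a) = Ideal.span (Set.range h)) : 5 ≤ r := by
  have hlow : ∀ i, ∀ d ≤ 3, homogeneousComponent d (h i) = 0 := by
    intro i d hd
    apply component_low hgen _ hd
    rw [hh]
    exact Ideal.subset_span ⟨i, rfl⟩
  have hmem : ∀ k, pp a k ∈ Submodule.span K
      (Set.range fun i => homogeneousComponent 4 (h i)) := by
    intro k
    have h1 := pp_mem hgen k
    rw [hh, Ideal.mem_span_range_iff_exists_fun] at h1
    obtain ⟨c, hc⟩ := h1
    have h2 : pp a k = ∑ i, coeff 0 (c i) • homogeneousComponent 4 (h i) := by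
      have e1 : homogeneousComponent 4 (pp a k) = pp a k := by
        rw [homogeneousComponent_of_mem ((mem_homogeneousSubmodule 4 _).2 (pp_homogeneous a k)),
          if_pos rfl]
      rw [← e1, ← hc, map_sum]
      exact Finset.sum_congr rfl fun i _ => component_four (hlow i)
    rw [h2]
    exact Submodule.sum_mem _ fun i _ => Submodule.smul_mem _ _ (Submodule.subset_span ⟨i, rfl⟩)
  have h1 := finrank_span_eq_card (pp_li hgen)
  have hle : Submodule.span K (Set.range (pp a)) ≤ Submodule.span K
      (Set.range fun i => homogeneousComponent 4 (h i)) := by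
    rw [Submodule.span_le]
    rintro _ ⟨k, rfl⟩
    exact hmem k
  have hfin : FiniteDimensional K (Submodule.span K
      (Set.range fun i => homogeneousComponent 4 (h i))) :=
    FiniteDimensional.span_of_finite K (Set.finite_range _)
  have h2 := Submodule.finrank_mono hle
  have h3 : (Set.range fun i => homogeneousComponent 4 (h i)).finrank K ≤ Fintype.card (Fin r) :=
    finrank_range_le_card _
  rw [Set.finrank] at h3
  rw [h1] at h2
  have h4 := h2.trans h3
  simpa using h4

/-- the regular element -/
noncomputable def reg (a : Fin 5 → Fin 3 → K) : MvPolynomial (Fin 3) K :=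
  ∑ T ∈ Finset.powersetCard 3 (Finset.univ : Finset (Fin 5)), ∏ k ∈ T, linearForm (a k)

lemma reg_homogeneous (a : Fin 5 → Fin 3 → K) : (reg a).IsHomogeneous 3 := by
  unfold reg
  apply IsHomogeneous.sum
  intro T hT
  have := MvPolynomial.IsHomogeneous.prod T
    (fun j => linearForm (a j)) (fun _ => 1) (fun j _ => linearForm_homogeneous _)
  rw [Finset.mem_powersetCard] at hT
  simpa [hT.2] using this

lemma ph_reg {a : Fin 5 → Fin 3 → K} (hgen : Gen a) {i j : Fin 5} (hij : i ≠ j) :
    ph (cr (a i) (a j)) (reg a) ≠ 0 := by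
  have e : ph (cr (a i) (a j)) (reg a) =
      ∏ k ∈ (Finset.univ.erase i).erase j, ph (cr (a i) (a j)) (linearForm (a k)) := by
    unfold reg
    rw [map_sum, Finset.sum_eq_single ((Finset.univ.erase i).erase j), map_prod]
    · intro T hT hne
      rw [Finset.mem_powersetCard] at hT
      rw [map_prod]
      by_cases hi : i ∈ T
      · apply Finset.prod_eq_zero hi
        rw [ph_linearForm]
        have : ∑ m, a i m * cr (a i) (a j) m = 0 := by
          rw [Fin.sum_univ_three, cr0, cr1, cr2]; ring
        rw [this, Polynomial.C_0, zero_mul]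
      · by_cases hj : j ∈ T
        · apply Finset.prod_eq_zero hj
          rw [ph_linearForm]
          have : ∑ m, a j m * cr (a i) (a j) m = 0 := by
            rw [Fin.sum_univ_three, cr0, cr1, cr2]; ring
          rw [this, Polynomial.C_0, zero_mul]
        · exfalso
          apply hne
          apply Finset.eq_of_subset_of_card_le
          · intro k hk
            rw [Finset.mem_erase, Finset.mem_erase]
            refine ⟨?_, ?_, Finset.mem_univ k⟩
            · rintro rfl; exact hj hk
            · rintro rfl; exact hi hk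
          · rw [hT.2, Finset.card_erase_of_mem (Finset.mem_erase.2 ⟨hij.symm, Finset.mem_univ j⟩),
              Finset.card_erase_of_mem (Finset.mem_univ i)]
            simp
    · intro hT
      exfalso
      apply hT
      rw [Finset.mem_powersetCard]
      refine ⟨Finset.subset_univ _, ?_⟩
      rw [Finset.card_erase_of_mem (Finset.mem_erase.2 ⟨hij.symm, Finset.mem_univ j⟩),
              Finset.card_erase_of_mem (Finset.mem_univ i)]
      simp
  rw [e]
  apply Finset.prod_ne_zero_iff.2
  intro k hk
  rw [Finset.mem_erase, Finset.mem_erase] at hk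
  rw [ph_linearForm]
  apply mul_ne_zero _ Polynomial.X_ne_zero
  rw [Ne, Polynomial.C_eq_zero]
  exact hgen i j k hij hk.2.1.symm hk.1.symm

theorem star_cm {a : Fin 5 → Fin 3 → K} (hgen : Gen a) : IsCohenMacaulay (star a) := by
  refine ⟨[reg a], rfl, ?_, ?_⟩
  · intro f hf
    rw [List.mem_singleton] at hf
    subst hf
    exact ⟨3, by norm_num, reg_homogeneous a⟩
  · have hreg : ∀ f, reg a * f ∈ definingIdeal (star a) → f ∈ definingIdeal (star a) := by
      intro f hf
      unfold definingIdeal at hf ⊢
      simp only [Submodule.mem_iInf] at hf ⊢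
      rintro X ⟨i, j, hij, rfl⟩
      have h1 := hf _ ⟨i, j, hij, rfl⟩
      rw [inf_eq (gen_cr hgen hij)] at h1 ⊢
      apply mem_of_ph (gen_cr hgen hij)
      have h2 := ph_of_mem (Submodule.mem_span_singleton_self _) h1
      rw [map_mul] at h2
      exact (mul_eq_zero.1 h2).resolve_left (ph_reg hgen hij)
    have hproper : ∀ f, f ∈ Ideal.span {reg a} ⊔ definingIdeal (star a) →
        constantCoeff f = 0 := by
      intro f hf
      obtain ⟨x, hx, y, hy, rfl⟩ := Submodule.mem_sup.1 hf
      obtain ⟨q, rfl⟩ := Ideal.mem_span_singleton'.1 hx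
      obtain ⟨u, v, huv⟩ := Ideal.mem_span_pair.1 ((mem_star hgen).1 hy 0 1 (by decide))
      have h1 : constantCoeff (reg a) = 0 := by
        rw [constantCoeff_eq]
        exact (reg_homogeneous a).coeff_eq_zero (by simp)
      have h2 : ∀ b : Fin 3 → K, constantCoeff (linearForm b) = 0 := by
        intro b
        rw [constantCoeff_eq]
        exact (linearForm_homogeneous b).coeff_eq_zero (by simp)
      rw [← huv, map_add, map_add, map_mul, map_mul, map_mul, h1, h2, h2]
      ring
    refine ⟨(RingTheory.Sequence.isWeaklyRegular_singleton_iff _ _).2 ?_, ?_⟩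
    · rw [isSMulRegular_iff_right_eq_zero_of_smul]
      intro x hx
      obtain ⟨f, rfl⟩ := Ideal.Quotient.mk_surjective x
      have h1 : Ideal.Quotient.mk (definingIdeal (star a)) (reg a * f) = 0 := by
        rw [map_mul]
        exact hx
      rw [Ideal.Quotient.eq_zero_iff_mem] at h1 ⊢
      exact hreg f h1
    · intro htop
      rw [Ideal.ofList_singleton] at htop
      have h1 : (Ideal.Quotient.mk (definingIdeal (star a)) 1) ∈
          (Ideal.span {reg a} • ⊤ : Submodule (MvPolynomial (Fin 3) K)
            (MvPolynomial (Fin 3) K ⧸ definingIdeal (star a))) := by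
        rw [← htop]
        trivial
      rw [Submodule.ideal_span_singleton_smul, Submodule.mem_smul_pointwise_iff_exists] at h1
      obtain ⟨y, _, hy⟩ := h1
      obtain ⟨f, rfl⟩ := Ideal.Quotient.mk_surjective y
      have h2 : Ideal.Quotient.mk (definingIdeal (star a)) (reg a * f) =
          Ideal.Quotient.mk (definingIdeal (star a)) 1 := by
        rw [map_mul]
        exact hy
      rw [Ideal.Quotient.eq] at h2
      have h3 := hproper 1 (by
        have e : (1 : MvPolynomial (Fin 3) K) = reg a * f + -(reg a * f - 1) := by ring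
        rw [e]
        exact Submodule.add_mem_sup (Ideal.mul_mem_right _ _ (Ideal.mem_span_singleton_self _))
          (Ideal.neg_mem_iff _ |>.2 h2))
      rw [map_one] at h3
      exact one_ne_zero h3

end Pool.Agent.R833.RI
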