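import Mathlib
import Pool.Agent.R833.ST3

set_option autoImplicit false
set_option linter.unusedSectionVars false

/-!
# The flats of the example
-/

namespace Pool.Agent.R833.ST

open Pool.Agent.R833 Pool.Agent.R833.Arr Pool.Agent.R833.Ex7

/-- integer coefficients of the planes -/
def M6 : Fin 6 → Fin 3 → ℤ :=
  ![![0, 0, 1], ![1, 0, 0], ![1, 0, -1], ![1, 0, 1], ![0, 1, 0], ![0, 1, -1]]

/-- the points of multiplicity at least two -/
def V6 : Fin 8 → Fin 3 → ℤ :=
  ![![0, 1, 0], ![1, 0, 0], ![0, 0, 1], ![0, 1, 1], ![1, 0, 1], ![1, 1, 1], ![-1, 0, 1],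
    ![-1, 1, 1]]

/-- labels of the flats -/
abbrev Fl : Type := Option (Option (Fin 6 ⊕ Fin 8))

variable {K : Type} [Field K]

lemma A6_eq (i : Fin 6) (j : Fin 3) : A6 K i j = (M6 i j : K) := by
  fin_cases i <;> fin_cases j <;> simp [A6, M6]

/-- the points over the field -/
def vk (K : Type) [Field K] (k : Fin 8) : Fin 3 → K := fun j => (V6 k j : K)

/-- the flats -/
def wf (K : Type) [Field K] : Fl → Submodule K (Fin 3 → K)
  | none => ⊤
  | some none => ⊥
  | some (some (Sum.inl i)) => hyperplane (A6 K i)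
  | some (some (Sum.inr k)) => Submodule.span K {vk K k}

/-- dimension -/
def rk : Fl → ℕ
  | none => 3
  | some none => 0
  | some (some (Sum.inl _)) => 2
  | some (some (Sum.inr _)) => 1

/-- the order -/
def leF : Fl → Fl → Bool
  | _, none => true
  | some none, some _ => true
  | none, some _ => false
  | some (some _), some none => false
  | some (some (Sum.inl i)), some (some (Sum.inl j)) => decide (i = j)
  | some (some (Sum.inl _)), some (some (Sum.inr _)) => false
  | some (some (Sum.inr k)), some (some (Sum.inl j)) =>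
      decide (M6 j 0 * V6 k 0 + M6 j 1 * V6 k 1 + M6 j 2 * V6 k 2 = 0)
  | some (some (Sum.inr k)), some (some (Sum.inr m)) => decide (k = m)

/-- the Moebius function -/
def muZ : Fl → ℤ
  | none => 1
  | some none => -6
  | some (some (Sum.inl _)) => -1
  | some (some (Sum.inr k)) => (![3, 2, 1, 1, 1, 1, 1, 1] : Fin 8 → ℤ) k

variable [CharZero K]

lemma A6_ne (i : Fin 6) : A6 K i ≠ 0 := by
  intro h
  have h1 : ∀ i : Fin 6, ∃ j, M6 i j ≠ 0 := by decide
  obtain ⟨j, hj⟩ := h1 i
  apply hj
  have := congrFun h j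
  rw [A6_eq] at this
  have h2 : ((M6 i j : ℤ) : K) = 0 := this
  exact_mod_cast h2

lemma vk_ne (k : Fin 8) : vk K k ≠ 0 := by
  intro h
  have h1 : ∀ k : Fin 8, ∃ j, V6 k j ≠ 0 := by decide
  obtain ⟨j, hj⟩ := h1 k
  apply hj
  have := congrFun h j
  have h2 : ((V6 k j : ℤ) : K) = 0 := this
  exact_mod_cast h2

lemma rk_eq (x : Fl) : Module.finrank K (wf K x) = rk x := by
  match x with
  | none =>
    change Module.finrank K (⊤ : Submodule K (Fin 3 → K)) = 3
    rw [finrank_top]
    simp
  | some none => exact finrank_bot K _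
  | some (some (Sum.inl i)) => exact finrank_hyperplane (A6_ne i)
  | some (some (Sum.inr k)) => exact finrank_span_singleton (vk_ne k)

lemma not_le_of_rk {x y : Fl} (h : rk y < rk x) : ¬ wf K x ≤ wf K y := by
  intro hle
  have := Submodule.finrank_mono hle
  rw [rk_eq, rk_eq] at this
  omega

lemma cross6 : ∀ i j : Fin 6, i ≠ j → ∃ k : Fin 8, ∃ lam ∈ Finset.Icc (-3 : ℤ) 3, lam ≠ 0 ∧
    M6 i 1 * M6 j 2 - M6 i 2 * M6 j 1 = lam * V6 k 0 ∧
    M6 i 2 * M6 j 0 - M6 i 0 * M6 j 2 = lam * V6 k 1 ∧
    M6 i 0 * M6 j 1 - M6 i 1 * M6 j 0 = lam * V6 k 2 := by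
  decide +kernel

lemma cross6' : ∀ k : Fin 8, ∃ i j : Fin 6, i ≠ j ∧ ∃ lam ∈ Finset.Icc (-3 : ℤ) 3, lam ≠ 0 ∧
    M6 i 1 * M6 j 2 - M6 i 2 * M6 j 1 = lam * V6 k 0 ∧
    M6 i 2 * M6 j 0 - M6 i 0 * M6 j 2 = lam * V6 k 1 ∧
    M6 i 0 * M6 j 1 - M6 i 1 * M6 j 0 = lam * V6 k 2 := by
  decide +kernel

lemma inf6 {i j : Fin 6} {k : Fin 8} {lam : ℤ} (hl : lam ≠ 0)
    (h0 : M6 i 1 * M6 j 2 - M6 i 2 * M6 j 1 = lam * V6 k 0)
    (h1 : M6 i 2 * M6 j 0 - M6 i 0 * M6 j 2 = lam * V6 k 1)
    (h2 : M6 i 0 * M6 j 1 - M6 i 1 * M6 j 0 = lam * V6 k 2) :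
    hyperplane (A6 K i) ⊓ hyperplane (A6 K j) = Submodule.span K {vk K k} := by
  apply inf_hyperplane (lam := (lam : K)) (by exact_mod_cast hl) (vk_ne k)
  · simp only [A6_eq, vk]
    exact_mod_cast congrArg (Int.cast (R := K)) h0
  · simp only [A6_eq, vk]
    exact_mod_cast congrArg (Int.cast (R := K)) h1
  · simp only [A6_eq, vk]
    exact_mod_cast congrArg (Int.cast (R := K)) h2

lemma prop6 : ∀ i j : Fin 8, i ≠ j → ∃ p q : Fin 3, V6 i p * V6 j q ≠ V6 i q * V6 j p := by
  decide +kernel

lemma planes6 : ∀ i j : Fin 6, i ≠ j → ∃ p q : Fin 3, M6 i p * M6 j q ≠ M6 i q * M6 j p := by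
  decide +kernel

lemma le_iff (x y : Fl) : wf K x ≤ wf K y ↔ leF x y = true := by
  match x, y with
  | x, none => exact ⟨fun _ => by cases x <;> rfl, fun _ => le_top⟩
  | some none, some y => exact ⟨fun _ => rfl, fun _ => bot_le⟩
  | none, some none => exact ⟨fun h => absurd h (not_le_of_rk (by decide)), fun h => by cases h⟩
  | none, some (some (Sum.inl j)) =>
    exact ⟨fun h => absurd h (not_le_of_rk (by simp [rk])), fun h => by cases h⟩
  | none, some (some (Sum.inr j)) =>
    exact ⟨fun h => absurd h (not_le_of_rk (by simp [rk])), fun h => by cases h⟩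
  | some (some (Sum.inl i)), some none =>
    exact ⟨fun h => absurd h (not_le_of_rk (by simp [rk])), fun h => by cases h⟩
  | some (some (Sum.inr i)), some none =>
    exact ⟨fun h => absurd h (not_le_of_rk (by simp [rk])), fun h => by cases h⟩
  | some (some (Sum.inl i)), some (some (Sum.inr j)) =>
    exact ⟨fun h => absurd h (not_le_of_rk (by simp [rk])), fun h => by cases h⟩
  | some (some (Sum.inl i)), some (some (Sum.inl j)) =>
    change wf K _ ≤ wf K _ ↔ decide (i = j) = true
    rw [decide_eq_true_iff]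
    constructor
    · intro h
      by_contra hij
      obtain ⟨p, q, hpq⟩ := planes6 i j hij
      have hpq' : p ≠ q := by
        rintro rfl
        exact hpq rfl
      apply hpq
      -- the vector `a_q e_p - a_p e_q`
      have h1 : (Pi.single p (A6 K i q) - Pi.single q (A6 K i p) : Fin 3 → K) ∈
          hyperplane (A6 K i) := by
        rw [mem_hyperplane]
        simp only [Pi.sub_apply, mul_sub, Finset.sum_sub_distrib, Pi.single_apply, mul_ite,
          mul_zero, Finset.sum_ite_eq', Finset.mem_univ, if_true]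
        ring
      have h2 : (Pi.single p (A6 K i q) - Pi.single q (A6 K i p) : Fin 3 → K) ∈
          hyperplane (A6 K j) := h h1
      rw [mem_hyperplane] at h2
      simp only [Pi.sub_apply, mul_sub, Finset.sum_sub_distrib, Pi.single_apply, mul_ite,
          mul_zero, Finset.sum_ite_eq', Finset.mem_univ, if_true, A6_eq] at h2
      have h3 : ((M6 i p * M6 j q : ℤ) : K) = ((M6 i q * M6 j p : ℤ) : K) := by
        push_cast
        linear_combination -h2
      exact_mod_cast h3
    · rintro rfl
      exact le_rfl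
  | some (some (Sum.inr k)), some (some (Sum.inl j)) =>
    change Submodule.span K {vk K k} ≤ hyperplane (A6 K j) ↔ decide (_ = (0 : ℤ)) = true
    rw [decide_eq_true_iff, Submodule.span_singleton_le_iff_mem, mem_hyperplane,
      Fin.sum_univ_three]
    simp only [A6_eq, vk]
    constructor
    · intro h
      exact_mod_cast h
    · intro h
      exact_mod_cast congrArg (Int.cast (R := K)) h
  | some (some (Sum.inr i)), some (some (Sum.inr j)) =>
    change Submodule.span K {vk K i} ≤ Submodule.span K {vk K j} ↔ decide (i = j) = true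
    rw [decide_eq_true_iff]
    constructor
    · intro h
      by_contra hij
      obtain ⟨p, q, hpq⟩ := prop6 i j hij
      apply hpq
      rw [Submodule.span_singleton_le_iff_mem, Submodule.mem_span_singleton] at h
      obtain ⟨c, hc⟩ := h
      have e : ∀ p, c * (V6 j p : K) = (V6 i p : K) := fun p => congrFun hc p
      have h3 : ((V6 i p * V6 j q : ℤ) : K) = ((V6 i q * V6 j p : ℤ) : K) := by
        push_cast
        rw [← e p, ← e q]
        ring
      exact_mod_cast h3
    · rintro rfl
      exact le_rfl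

lemma wf_mem (x : Fl) : wf K x ∈ flats (A6 K) := by
  match x with
  | none => exact ⟨∅, by simp [wf]⟩
  | some none =>
    refine ⟨Set.univ, ?_⟩
    change ⊥ = _
    symm
    rw [eq_bot_iff]
    intro v hv
    simp only [Set.mem_univ, iInf_pos, Submodule.mem_iInf, mem_hyperplane,
      Fin.sum_univ_three] at hv
    have h0 := hv 0
    have h1 := hv 1
    have h4 := hv 4
    simp [A6] at h0 h1 h4
    rw [Submodule.mem_bot]
    funext j
    fin_cases j
    · exact h1
    · exact h4
    · exact h0
  | some (some (Sum.inl i)) => exact ⟨{i}, by simp [wf]⟩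
  | some (some (Sum.inr k)) =>
    obtain ⟨i, j, _, lam, _, hl, h0, h1, h2⟩ := cross6' k
    refine ⟨{i, j}, ?_⟩
    change Submodule.span K {vk K k} = _
    rw [← inf6 hl h0 h1 h2, iInf_pair]

lemma wf_surj (X : Submodule K (Fin 3 → K)) (hX : X ∈ flats (A6 K)) : ∃ x, wf K x = X := by
  obtain ⟨s, rfl⟩ := hX
  by_cases hs : s = ∅
  · exact ⟨none, by simp [hs, wf]⟩
  · obtain ⟨i, hi⟩ := Set.nonempty_iff_ne_empty.2 hs
    by_cases hs2 : s = {i}
    · exact ⟨some (some (Sum.inl i)), by simp [hs2, wf]⟩
    · have hex : ∃ j ∈ s, i ≠ j := by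
        by_contra hc
        push Not at hc
        apply hs2
        ext j
        rw [Set.mem_singleton_iff]
        exact ⟨fun hj => (hc j hj).symm, fun hj => hj ▸ hi⟩
      obtain ⟨j, hj, hij⟩ := hex
      obtain ⟨k, lam, _, hl, h0, h1, h2⟩ := cross6 i j hij
      have hle : (⨅ i ∈ s, hyperplane (A6 K i)) ≤ Submodule.span K {vk K k} := by
        rw [← inf6 hl h0 h1 h2]
        exact le_inf (iInf₂_le i hi) (iInf₂_le j hj)
      rcases le_span_singleton hle with h | h
      · exact ⟨some none, h.symm⟩
      · exact ⟨some (some (Sum.inr k)), h.symm⟩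

lemma antiF : ∀ x y : Fl, leF x y → leF y x → x = y := by decide +kernel

lemma sumF : ∀ x : Fl, x ≠ none → ∑ y, (if leF x y then muZ y else 0) = 0 := by decide +kernel

lemma sumF' (x : Fl) (hx : x ≠ none) : ∑ y, (if leF x y then (muZ y : ℚ) else 0) = 0 := by
  have h := congrArg (Int.cast (R := ℚ)) (sumF x hx)
  rw [Int.cast_sum, Int.cast_zero] at h
  exact Eq.trans (Finset.sum_congr rfl fun y _ => by split_ifs <;> simp) h

/-- the Poincare polynomial of the arrangement -/
theorem poincare6 : IsPoincare (A6 K)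
    (1 + 6 * Polynomial.X + 11 * Polynomial.X ^ 2 + 6 * Polynomial.X ^ 3) := by
  have h := isPoincare_of (A := A6 K) (wf K) wf_mem wf_surj leF le_iff antiF none rfl
    (fun x => (muZ x : ℚ)) (by simp [muZ]) (fun x => 3 - rk x) (fun x => by rw [rk_eq]) sumF'
  convert h using 1
  rw [Fintype.sum_option, Fintype.sum_option, Fintype.sum_sum_type, Fin.sum_univ_six,
    Fin.sum_univ_eight]
  have c2 : (Polynomial.C (2 : ℚ) : Polynomial ℚ) = 2 := map_ofNat _ _
  have c3 : (Polynomial.C (3 : ℚ) : Polynomial ℚ) = 3 := map_ofNat _ _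
  have c6 : (Polynomial.C (6 : ℚ) : Polynomial ℚ) = 6 := map_ofNat _ _
  simp only [muZ, rk]
  simp [Matrix.cons_val, c2, c3, c6]
  ring

/-! ### the plane -/

/-- the flats in the plane -/
def w2 (K : Type) [Field K] : Option (Option (Fin 2)) → Submodule K (Fin 2 → K)
  | none => ⊤
  | some none => ⊥
  | some (some i) => hyperplane (B2 K i)

/-- the order -/
def le2 : Option (Option (Fin 2)) → Option (Option (Fin 2)) → Bool
  | _, none => true
  | some none, some _ => true
  | none, some _ => false
  | some (some _), some none => false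
  | some (some i), some (some j) => decide (i = j)

/-- the Moebius function -/
def mu2 : Option (Option (Fin 2)) → ℤ
  | none => 1
  | some none => 1
  | some (some _) => -1

/-- dimension -/
def rk2 : Option (Option (Fin 2)) → ℕ
  | none => 2
  | some none => 0
  | some (some _) => 1

lemma B2_ne (i : Fin 2) : B2 K i ≠ 0 := by
  intro h
  fin_cases i
  · have := congrFun h 0
    simp [B2] at this
  · have := congrFun h 1
    simp [B2] at this

lemma mem_hB2 (i : Fin 2) (x : Fin 2 → K) : x ∈ hyperplane (B2 K i) ↔ x i = 0 := by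
  rw [mem_hyperplane, Fin.sum_univ_two]
  fin_cases i <;> simp [B2]

lemma rk2_eq (x : Option (Option (Fin 2))) : Module.finrank K (w2 K x) = rk2 x := by
  match x with
  | none =>
    change Module.finrank K (⊤ : Submodule K (Fin 2 → K)) = 2
    rw [finrank_top]
    simp
  | some none => exact finrank_bot K _
  | some (some i) => exact finrank_hyperplane (B2_ne i)

lemma le2_iff (x y : Option (Option (Fin 2))) : w2 K x ≤ w2 K y ↔ le2 x y = true := by
  have hrk : ∀ x y : Option (Option (Fin 2)), rk2 y < rk2 x → ¬ w2 K x ≤ w2 K y := by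
    intro x y h hle
    have := Submodule.finrank_mono hle
    rw [rk2_eq, rk2_eq] at this
    omega
  match x, y with
  | x, none => exact ⟨fun _ => by cases x <;> rfl, fun _ => le_top⟩
  | some none, some y => exact ⟨fun _ => rfl, fun _ => bot_le⟩
  | none, some none => exact ⟨fun h => absurd h (hrk _ _ (by decide)), fun h => by cases h⟩
  | none, some (some j) =>
    exact ⟨fun h => absurd h (hrk _ _ (by simp [rk2])), fun h => by cases h⟩
  | some (some i), some none =>
    exact ⟨fun h => absurd h (hrk _ _ (by simp [rk2])), fun h => by cases h⟩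
  | some (some i), some (some j) =>
    change hyperplane (B2 K i) ≤ hyperplane (B2 K j) ↔ decide (i = j) = true
    rw [decide_eq_true_iff]
    constructor
    · intro h
      by_contra hij
      have h1 : (Pi.single j 1 : Fin 2 → K) ∈ hyperplane (B2 K i) := by
        rw [mem_hB2, Pi.single_eq_of_ne hij]
      have h2 := h h1
      rw [mem_hB2, Pi.single_eq_same] at h2
      exact one_ne_zero h2
    · rintro rfl
      exact le_rfl

lemma w2_mem (x : Option (Option (Fin 2))) : w2 K x ∈ flats (B2 K) := by
  match x with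
  | none => exact ⟨∅, by simp [w2]⟩
  | some none =>
    refine ⟨Set.univ, ?_⟩
    change ⊥ = _
    symm
    rw [eq_bot_iff]
    intro v hv
    simp only [Set.mem_univ, iInf_pos, Submodule.mem_iInf, mem_hB2] at hv
    rw [Submodule.mem_bot]
    funext j
    exact hv j
  | some (some i) => exact ⟨{i}, by simp [w2]⟩

lemma w2_surj (X : Submodule K (Fin 2 → K)) (hX : X ∈ flats (B2 K)) : ∃ x, w2 K x = X := by
  obtain ⟨s, rfl⟩ := hX
  by_cases hs : s = ∅
  · exact ⟨none, by simp [hs, w2]⟩
  · obtain ⟨i, hi⟩ := Set.nonempty_iff_ne_empty.2 hs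
    by_cases hs2 : s = {i}
    · exact ⟨some (some i), by simp [hs2, w2]⟩
    · have hex : ∃ j ∈ s, i ≠ j := by
        by_contra hc
        push Not at hc
        apply hs2
        ext j
        rw [Set.mem_singleton_iff]
        exact ⟨fun hj => (hc j hj).symm, fun hj => hj ▸ hi⟩
      obtain ⟨j, hj, hij⟩ := hex
      refine ⟨some none, ?_⟩
      change ⊥ = _
      symm
      rw [eq_bot_iff]
      intro v hv
      simp only [Submodule.mem_iInf, mem_hB2] at hv
      have h1 := hv i hi
      have h2 := hv j hj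
      rw [Submodule.mem_bot]
      funext m
      have : m = i ∨ m = j := by omega
      rcases this with rfl | rfl
      · exact h1
      · exact h2

/-- the Poincare polynomial of the restriction -/
theorem poincare2 : IsPoincare (B2 K) (1 + 2 * Polynomial.X + Polynomial.X ^ 2) := by
  have hsum : ∀ x : Option (Option (Fin 2)), x ≠ none →
      ∑ y, (if le2 x y then mu2 y else 0) = 0 := by decide +kernel
  have h := isPoincare_of (A := B2 K) (w2 K) w2_mem w2_surj le2 le2_iff (by decide +kernel)
    none rfl (fun x => (mu2 x : ℚ)) (by simp [mu2]) (fun x => 2 - rk2 x)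
    (fun x => by rw [rk2_eq]) (fun x hx => by
      have h := congrArg (Int.cast (R := ℚ)) (hsum x hx)
      rw [Int.cast_sum, Int.cast_zero] at h
      exact Eq.trans (Finset.sum_congr rfl fun y _ => by split_ifs <;> simp) h)
  convert h using 1
  rw [Fintype.sum_option, Fintype.sum_option, Fin.sum_univ_two]
  simp only [mu2, rk2]
  simp
  ring

end Pool.Agent.R833.ST
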