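import Mathlib
import Pool.Agent.R833.Tame1
import Pool.Agent.R833.Tame2
import Pool.Agent.R833.Tame3

/-!
# Tameness with respect to some part of a minimal set of generators: the proof
-/

set_option autoImplicit false
set_option linter.unusedSectionVars false

namespace Pool.Agent.R833.TM4

open MvPolynomial Pool.Agent.R833.TM

universe u

variable {K : Type u} [Field K] {k : ℕ}

/-- The polynomial ring `S = K[x_0, …, x_{k+1}]`. -/
abbrev Pol (K : Type u) [Field K] (k : ℕ) : Type u := MvPolynomial (Fin (k + 2)) K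

lemma D0_zero (f : Pol K k) :
    (0 : Fin (k + 2) → Pol K k) ∈ {ρ : Fin (k + 2) → Pol K k | ∑ j, ρ j * pderiv j f = 0} := by
  simp

lemma D0_add (f : Pol K k) {a b : Fin (k + 2) → Pol K k}
    (ha : a ∈ {ρ : Fin (k + 2) → Pol K k | ∑ j, ρ j * pderiv j f = 0})
    (hb : b ∈ {ρ : Fin (k + 2) → Pol K k | ∑ j, ρ j * pderiv j f = 0}) :
    a + b ∈ {ρ : Fin (k + 2) → Pol K k | ∑ j, ρ j * pderiv j f = 0} := by
  have h : ∑ j, (a + b) j * pderiv j f = (∑ j, a j * pderiv j f) + ∑ j, b j * pderiv j f := by
    rw [← Finset.sum_add_distrib]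
    exact Finset.sum_congr rfl fun j _ => by rw [Pi.add_apply, add_mul]
  have ha' : ∑ j, a j * pderiv j f = 0 := ha
  have hb' : ∑ j, b j * pderiv j f = 0 := hb
  change ∑ j, (a + b) j * pderiv j f = 0
  rw [h, ha', hb', add_zero]

lemma D0_smul (f : Pol K k) (c : Pol K k) {a : Fin (k + 2) → Pol K k}
    (ha : a ∈ {ρ : Fin (k + 2) → Pol K k | ∑ j, ρ j * pderiv j f = 0}) :
    c • a ∈ {ρ : Fin (k + 2) → Pol K k | ∑ j, ρ j * pderiv j f = 0} := by
  have ha' : ∑ j, a j * pderiv j f = 0 := ha
  change ∑ j, (c • a) j * pderiv j f = 0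
  have h : ∑ j, (c • a) j * pderiv j f = c * ∑ j, a j * pderiv j f := by
    rw [Finset.mul_sum]
    exact Finset.sum_congr rfl fun j _ => by rw [Pi.smul_apply, smul_eq_mul, mul_assoc]
  rw [h, ha', mul_zero]

/-- The module `D_0(f)` of Jacobian syzygies. -/
noncomputable def D0 (f : Pol K k) : Submodule (Pol K k) (Fin (k + 2) → Pol K k) where
  carrier := {ρ | ∑ j, ρ j * pderiv j f = 0}
  zero_mem' := D0_zero f
  add_mem' := D0_add f
  smul_mem' := D0_smul f

/-- A finite family of homogeneous syzygies (each with all its components homogeneous of a common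
degree) which generates `D_0(f)`. -/
def HomGenerators (f : Pol K k) {m : ℕ} (ρ : Fin m → D0 f) : Prop :=
  (∀ i, ∃ d : ℕ, ∀ j, ((ρ i).1 j).IsHomogeneous d) ∧
    Submodule.span (Pol K k) (Set.range ρ) = ⊤

/-- A minimal set of generators: a generating family of homogeneous syzygies with the least
possible number of members. -/
def MinimalGenerators (f : Pol K k) {m : ℕ} (ρ : Fin m → D0 f) : Prop :=
  HomGenerators f ρ ∧ ∀ (m' : ℕ) (ρ' : Fin m' → D0 f), HomGenerators f ρ' → m ≤ m'

/-- The matrix `M(ρ̂, ρ)` with rows `(x_0, …, x_n)`, `ρ_1, …, ρ_{n-1}`, `ρ`. -/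
noncomputable def matrixM (f : Pol K k) (r : Fin k → D0 f) (ρ : D0 f) :
    Matrix (Fin (k + 2)) (Fin (k + 2)) (Pol K k) :=
  Matrix.of (Fin.cons (fun j => X j)
    (Fin.snoc (fun i => (r i).1) ρ.1 :
      Fin (k + 1) → Fin (k + 2) → Pol K k))

/-- The map `u(a_1, …, a_{n-1}) = ∑ a_j ρ_j` into `D_0(f)`. -/
noncomputable def mapU (f : Pol K k) (r : Fin k → D0 f) :
    (Fin k → Pol K k) →ₗ[Pol K k] D0 f :=
  Fintype.linearCombination (Pol K k) r

/-- `v` is the map `v(ρ) = det M(ρ̂, ρ) / f`. -/
def IsMapV (f : Pol K k) (r : Fin k → D0 f)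
    (v : D0 f →ₗ[Pol K k] Pol K k) : Prop :=
  ∀ ρ, f * v ρ = (matrixM f r ρ).det

/-- `V : f = 0` is tame with respect to `ρ̂`: the map `v` exists, `u` is injective and
`ker v = im u`. -/
def Tame (f : Pol K k) (r : Fin k → D0 f) : Prop :=
  ∃ v : D0 f →ₗ[Pol K k] Pol K k,
    IsMapV f r v ∧ Function.Injective (mapU f r) ∧ LinearMap.ker v = LinearMap.range (mapU f r)

lemma mem_D0 {f : Pol K k}
    {ρ : Fin (k + 2) → Pol K k} :
    ρ ∈ D0 f ↔ ∑ j, ρ j * pderiv j f = 0 := Iff.rfl

/-- there is a finite family of homogeneous generators -/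
lemma exists_homGenerators {f : Pol K k} {d : ℕ} (hf : f.IsHomogeneous d) :
    ∃ (m : ℕ) (ρ : Fin m → D0 f), HomGenerators f ρ := by
  classical
  have hfg : (⊤ : Submodule (Pol K k) (D0 f)).FG := IsNoetherian.noetherian _
  obtain ⟨s, hs⟩ := hfg
  have hcomp : ∀ (e : ℕ) (ρ : D0 f), (fun j => homogeneousComponent e (ρ.1 j)) ∈ D0 f := by
    intro e ρ
    rw [mem_D0]
    have h1 := ρ.2
    rw [mem_D0] at h1
    have h2 := congrArg (homogeneousComponent (e + (d - 1))) h1
    rw [map_sum, map_zero] at h2
    rw [← h2]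
    exact Finset.sum_congr rfl fun j _ => (component_mul (hf.pderiv)).symm
  -- a bound for the degrees
  obtain ⟨B, hB⟩ : ∃ B : ℕ, ∀ ρ ∈ s, ∀ j, (ρ.1 j).totalDegree < B := by
    refine ⟨s.sup (fun ρ => Finset.univ.sup fun j => (ρ.1 j).totalDegree) + 1, ?_⟩
    intro ρ hρ j
    have h3 : (ρ.1 j).totalDegree ≤ Finset.univ.sup fun j => (ρ.1 j).totalDegree :=
      Finset.le_sup (f := fun j => (ρ.1 j).totalDegree) (Finset.mem_univ j)
    have h4 : (Finset.univ.sup fun j => (ρ.1 j).totalDegree) ≤
        s.sup (fun ρ => Finset.univ.sup fun j => (ρ.1 j).totalDegree) :=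
      Finset.le_sup (f := fun ρ : D0 f => Finset.univ.sup fun j => (ρ.1 j).totalDegree) hρ
    exact Nat.lt_succ_of_le (h3.trans h4)
  let g : s × Fin B → D0 f :=
    fun q => ⟨fun j => homogeneousComponent q.2.1 (q.1.1.1 j), hcomp q.2.1 q.1.1⟩
  refine ⟨Fintype.card (s × Fin B), fun i => g ((Fintype.equivFin (s × Fin B)).symm i), ?_, ?_⟩
  · intro i
    exact ⟨_, fun j => homogeneousComponent_isHomogeneous _ _⟩
  · rw [eq_top_iff, ← hs, Submodule.span_le]
    intro ρ hρ
    have h1 : ρ = ∑ e : Fin B, g (⟨ρ, hρ⟩, e) := by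
      apply Subtype.ext
      rw [AddSubmonoidClass.coe_finsetSum]
      ext1 j
      rw [Finset.sum_apply]
      have h2 := hB ρ hρ j
      have h5 := (ρ.1 j).sum_homogeneousComponent
      have h6 : ∑ e : Fin B, (g (⟨ρ, hρ⟩, e)).1 j =
          ∑ e ∈ Finset.range B, homogeneousComponent e (ρ.1 j) :=
        Fin.sum_univ_eq_sum_range (fun e => homogeneousComponent e (ρ.1 j)) B
      rw [h6]
      conv_lhs => rw [← h5]
      apply Finset.sum_subset
      · intro i hi
        rw [Finset.mem_range] at hi ⊢
        omega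
      · intro i _ hi
        rw [Finset.mem_range, not_lt] at hi
        exact homogeneousComponent_eq_zero _ _ (by omega)
    rw [SetLike.mem_coe, h1]
    apply Submodule.sum_mem
    intro e _
    apply Submodule.subset_span
    exact ⟨Fintype.equivFin (s × Fin B) (⟨ρ, hρ⟩, e), by simp⟩

/-- the induction: a minimal family part of which is independent modulo every prime -/
lemma exists_family [CharZero K] {f : Pol K k} {d : ℕ} (hd : 1 ≤ d)
    (hf : f.IsHomogeneous d) (hsq : Squarefree f) {m : ℕ} (ρ0 : Fin m → D0 f)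
    (h0 : HomGenerators f ρ0) :
    ∀ k' ≤ k, ∃ ρ : Fin m → D0 f, HomGenerators f ρ ∧ ∃ a : Fin k' → Fin m,
      Function.Injective a ∧ ∀ P : Ideal (Pol K k), P.IsPrime →
        P.IsPrincipal → Ind P (fun l => (ρ (a l)).1) := by
  intro k'
  induction k' with
  | zero =>
    intro _
    exact ⟨ρ0, h0, fun i => i.elim0, fun i => i.elim0, fun P _ _ c _ i => i.elim0⟩
  | succ k' ih =>
    intro hk'
    obtain ⟨ρ, hρ, a, ha, hind⟩ := ih (by omega)
    obtain ⟨hhom, hspan⟩ := hρ
    choose δ hδ using hhom
    have hspan' : Submodule.span (Pol K k)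
        (Set.range fun i => (ρ i).1) = D0 f := by
      have h1 := congrArg (Submodule.map (D0 f).subtype) hspan
      rw [Submodule.map_span, Submodule.map_top, Submodule.range_subtype, ← Set.range_comp] at h1
      exact h1
    obtain ⟨t, ht, e, he1, he2, he3⟩ := step (n := k + 1) (by omega) (fun i => (ρ i).1) δ hδ a
      hind (by
        intro P hP hP2
        obtain ⟨j0, hj0⟩ := exists_pderiv_notMem hd hf hsq hP hP2
        obtain ⟨κ, hκ, hκ2⟩ := koszul hP j0 hj0
        exact ⟨κ, hκ, fun i => by rw [hspan']; exact hκ2 i⟩) (by omega)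
    have heD : e ∈ D0 f := by
      have hle : Submodule.span (Pol K k)
          ((fun i => (ρ i).1) '' {i | i ≠ t}) ≤ D0 f := by
        rw [Submodule.span_le]
        rintro _ ⟨i, _, rfl⟩
        exact (ρ i).2
      have h1 : e - (ρ t).1 ∈ D0 f := hle he2
      have := Submodule.add_mem _ h1 (ρ t).2
      simpa using this
    classical
    refine ⟨Function.update ρ t ⟨e, heD⟩, ⟨?_, ?_⟩, Fin.snoc a t, ?_, ?_⟩
    · intro i
      by_cases hi : i = t
      · subst hi
        exact ⟨δ i, fun j => by rw [Function.update_self]; exact he1 j⟩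
      · exact ⟨δ i, fun j => by rw [Function.update_of_ne hi]; exact hδ i j⟩
    · rw [eq_top_iff, ← hspan, Submodule.span_le]
      have hne : ∀ i, i ≠ t → ρ i ∈ Submodule.span (Pol K k)
          (Set.range (Function.update ρ t ⟨e, heD⟩)) := by
        intro i hi
        apply Submodule.subset_span
        exact ⟨i, by rw [Function.update_of_ne hi]⟩
      rintro _ ⟨i, rfl⟩
      by_cases hi : i = t
      · subst hi
        have h1 : (⟨e, heD⟩ : D0 f) - ρ i ∈ Submodule.span (Pol K k)
            (Set.range (Function.update ρ i ⟨e, heD⟩)) := by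
          have h2 : e - (ρ i).1 ∈ Submodule.map (D0 f).subtype
              (Submodule.span (Pol K k)
                (Set.range (Function.update ρ i ⟨e, heD⟩))) := by
            have h3 : Submodule.span (Pol K k)
                ((fun i => (ρ i).1) '' {i' | i' ≠ i}) ≤ Submodule.map (D0 f).subtype
              (Submodule.span (Pol K k)
                (Set.range (Function.update ρ i ⟨e, heD⟩))) := by
              rw [Submodule.span_le]
              rintro _ ⟨i', hi', rfl⟩
              exact ⟨ρ i', hne i' hi', rfl⟩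
            exact h3 he2
          obtain ⟨y, hy, hy2⟩ := h2
          have h4 : y = (⟨e, heD⟩ : D0 f) - ρ i := Subtype.ext hy2
          rw [← h4]
          exact hy
        have h2 : (⟨e, heD⟩ : D0 f) ∈ Submodule.span (Pol K k)
            (Set.range (Function.update ρ i ⟨e, heD⟩)) :=
          Submodule.subset_span ⟨i, by rw [Function.update_self]⟩
        have h3 := Submodule.sub_mem _ h2 h1
        simpa using h3
      · exact hne i hi
    · intro x y hxy
      induction x using Fin.lastCases with
      | last =>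
        induction y using Fin.lastCases with
        | last => rfl
        | cast y =>
          rw [Fin.snoc_last, Fin.snoc_castSucc] at hxy
          exact absurd hxy.symm (ht y)
      | cast x =>
        induction y using Fin.lastCases with
        | last =>
          rw [Fin.snoc_last, Fin.snoc_castSucc] at hxy
          exact absurd hxy (ht x)
        | cast y =>
          rw [Fin.snoc_castSucc, Fin.snoc_castSucc] at hxy
          rw [ha hxy]
    · intro P hP hP2
      have h1 := he3 P hP hP2
      convert h1 using 1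
      ext1 l
      induction l using Fin.lastCases with
      | last => simp
      | cast l => simp [Function.update_of_ne (ht l)]

/-- rows of the matrix -/
lemma matrixM_vecMul (f : Pol K k) (r : Fin k → D0 f) (ρ : D0 f)
    (w : Fin (k + 2) → Pol K k) (j : Fin (k + 2)) :
    Matrix.vecMul w (matrixM f r ρ) j = w 0 * X j +
      (∑ i : Fin k, w i.castSucc.succ * (r i).1 j + w (Fin.last k).succ * ρ.1 j) := by
  rw [Matrix.vecMul, dotProduct, Fin.sum_univ_succ, Fin.sum_univ_castSucc]
  simp [matrixM]

/-- `det M(ρ̂, ρ) = 0` exactly for the linear combinations of `ρ̂` -/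
lemma det_eq_zero_iff [CharZero K] {f : Pol K k} {d : ℕ} (hd : 1 ≤ d)
    (hf : f.IsHomogeneous d) (hf0 : f ≠ 0) (r : Fin k → D0 f)
    (hind : ∀ P : Ideal (Pol K k), P.IsPrime →
        P.IsPrincipal → Ind P (fun l => (r l).1)) (ρ : D0 f) :
    (matrixM f r ρ).det = 0 ↔ ρ ∈ LinearMap.range (mapU f r) := by
  have hcoe : ∀ (c : Fin k → Pol K k) (j : Fin (k + 2)),
      (mapU f r c).1 j = ∑ i, c i * (r i).1 j := by
    intro c j
    rw [mapU, Fintype.linearCombination_apply, AddSubmonoidClass.coe_finsetSum, Finset.sum_apply]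
    rfl
  rw [← Matrix.exists_vecMul_eq_zero_iff]
  constructor
  · rintro ⟨w, hw0, hw⟩
    have hw' : ∀ j, w 0 * X j +
      (∑ i : Fin k, w i.castSucc.succ * (r i).1 j + w (Fin.last k).succ * ρ.1 j) = 0 := by
      intro j
      rw [← matrixM_vecMul, hw]
      rfl
    -- pair with the gradient
    have h1 : w 0 * (d • f) = 0 := by
      have h2 : ∑ j, (w 0 * X j + (∑ i : Fin k, w i.castSucc.succ * (r i).1 j +
          w (Fin.last k).succ * ρ.1 j)) * pderiv j f = 0 := by
        apply Finset.sum_eq_zero
        intro j _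
        rw [hw' j, zero_mul]
      simp only [add_mul, Finset.sum_add_distrib] at h2
      have h3 : ∑ j, (∑ i : Fin k, w i.castSucc.succ * (r i).1 j) * pderiv j f = 0 := by
        simp only [Finset.sum_mul]
        rw [Finset.sum_comm]
        apply Finset.sum_eq_zero
        intro i _
        have h4 := mem_D0.1 (r i).2
        simp only [mul_assoc]
        rw [← Finset.mul_sum, h4, mul_zero]
      have h5 : ∑ j, w (Fin.last k).succ * ρ.1 j * pderiv j f = 0 := by
        simp only [mul_assoc]
        rw [← Finset.mul_sum, mem_D0.1 ρ.2, mul_zero]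
      rw [h3, h5, add_zero, add_zero] at h2
      rw [← h2, ← hf.sum_X_mul_pderiv, Finset.mul_sum]
      exact Finset.sum_congr rfl fun j _ => by ring
    have hw00 : w 0 = 0 := by
      rcases mul_eq_zero.1 h1 with h | h
      · exact h
      · rw [nsmul_eq_mul, mul_eq_zero, Nat.cast_eq_zero] at h
        rcases h with h | h
        · omega
        · exact absurd h hf0
    simp only [hw00, zero_mul, zero_add] at hw'
    by_cases hl : w (Fin.last k).succ = 0
    · exfalso
      apply hw0
      have h6 := hind ⊥ Ideal.isPrime_bot ⟨⟨0, by simp⟩⟩ (fun i => w i.castSucc.succ) (by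
        intro j
        have := hw' j
        rw [hl, zero_mul, add_zero] at this
        rw [Ideal.mem_bot]
        exact this)
      ext1 x
      induction x using Fin.cases with
      | zero => exact hw00
      | succ x =>
        induction x using Fin.lastCases with
        | last => exact hl
        | cast x => exact h6 x
    · obtain ⟨c, hc⟩ := saturated (τ := fun l => (r l).1) (fun p hp => hind _
        ((Ideal.span_singleton_prime hp.ne_zero).2 hp) ⟨⟨p, rfl⟩⟩) _ hl ρ.1
        ⟨fun i => - w i.castSucc.succ, fun j => by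
          have := hw' j
          simp only [neg_mul, Finset.sum_neg_distrib]
          exact eq_neg_of_add_eq_zero_right this⟩
      refine ⟨c, ?_⟩
      apply Subtype.ext
      ext1 j
      rw [hcoe, hc j]
  · rintro ⟨c, rfl⟩
    refine ⟨Fin.cons 0 (Fin.snoc c (-1) : Fin (k + 1) → Pol K k), ?_, ?_⟩
    · intro h
      have := congrFun h (Fin.last k).succ
      simp at this
    · ext1 j
      rw [matrixM_vecMul, hcoe]
      simp

/-- `f` divides `det M(ρ̂, ρ)` -/
lemma dvd_det [CharZero K] {f : Pol K k} {d : ℕ} (hd : 1 ≤ d)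
    (hf : f.IsHomogeneous d) (hsq : Squarefree f) (r : Fin k → D0 f) (ρ : D0 f) :
    f ∣ (matrixM f r ρ).det := by
  set M := matrixM f r ρ with hM
  have h1 : Matrix.mulVec M (fun j => pderiv j f) = Pi.single 0 (d • f) := by
    ext1 x
    induction x using Fin.cases with
    | zero =>
      rw [Pi.single_eq_same, ← hf.sum_X_mul_pderiv]
      simp [hM, matrixM, Matrix.mulVec, dotProduct]
    | succ x =>
      rw [Pi.single_eq_of_ne (Fin.succ_ne_zero x)]
      induction x using Fin.lastCases with
      | last =>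
        have := mem_D0.1 ρ.2
        simpa [hM, matrixM, Matrix.mulVec, dotProduct] using this
      | cast x =>
        have := mem_D0.1 (r x).2
        simpa [hM, matrixM, Matrix.mulVec, dotProduct] using this
  have h2 : ∀ j, f ∣ M.det * pderiv j f := by
    intro j
    have h3 : Matrix.mulVec M.adjugate (Matrix.mulVec M (fun j => pderiv j f)) =
        M.det • (fun j => pderiv j f) := by
      rw [Matrix.mulVec_mulVec, Matrix.adjugate_mul, Matrix.smul_mulVec, Matrix.one_mulVec]
    have h4 := congrFun h3 j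
    rw [Pi.smul_apply, smul_eq_mul] at h4
    rw [← h4, h1]
    rw [Matrix.mulVec, dotProduct, Finset.sum_eq_single 0]
    · rw [Pi.single_eq_same, nsmul_eq_mul]
      exact (dvd_mul_left _ _).mul_left _
    · intro b _ hb
      rw [Pi.single_eq_of_ne hb, mul_zero]
    · simp
  have key : ∀ g : Pol K k, g ∣ f → g ∣ M.det := by
    intro g
    induction g using UniqueFactorizationMonoid.induction_on_prime with
    | h₁ =>
      intro h
      exact absurd (zero_dvd_iff.1 h) hsq.ne_zero
    | h₂ x hx => intro _; exact hx.dvd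
    | h₃ a p ha hp ih =>
      intro hpa
      obtain ⟨y, hy⟩ := ih ((dvd_mul_left a p).trans hpa)
      obtain ⟨j, hj⟩ := exists_pderiv_notMem hd hf hsq
        ((Ideal.span_singleton_prime hp.ne_zero).2 hp) ⟨⟨p, rfl⟩⟩
      rw [Ideal.mem_span_singleton] at hj
      have h5 : p * a ∣ a * (y * pderiv j f) := by
        have := hpa.trans (h2 j)
        rwa [hy, mul_assoc] at this
      rw [mul_comm p a] at h5 ⊢
      have h6 : p ∣ y * pderiv j f := (mul_dvd_mul_iff_left ha).1 h5
      rw [hy]
      exact mul_dvd_mul_left a ((hp.dvd_or_dvd h6).resolve_right hj)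
  exact key f dvd_rfl

lemma matrixM_update (f : Pol K k) (r : Fin k → D0 f) (ρ : D0 f) :
    matrixM f r ρ = (matrixM f r 0).updateRow (Fin.last (k + 1)) ρ.1 := by
  ext1 x y
  induction x using Fin.cases with
  | zero =>
    rw [Matrix.updateRow_ne]
    · simp [matrixM]
    · exact (Fin.last_pos).ne
  | succ x =>
    induction x using Fin.lastCases with
    | last =>
      rw [Fin.succ_last, Matrix.updateRow_self, ← Fin.succ_last]
      simp [matrixM]
    | cast x =>
      rw [Matrix.updateRow_ne]
      · simp [matrixM]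
      · rw [← Fin.succ_last]
        intro h
        exact (Fin.castSucc_lt_last x).ne (Fin.succ_injective _ h)

/-- the map `v` exists -/
lemma exists_mapV [CharZero K] {f : Pol K k} {d : ℕ} (hd : 1 ≤ d)
    (hf : f.IsHomogeneous d) (hsq : Squarefree f) (r : Fin k → D0 f) :
    ∃ v : D0 f →ₗ[Pol K k] Pol K k, IsMapV f r v := by
  have h := fun ρ => dvd_det hd hf hsq r ρ
  choose q hq using h
  refine ⟨{ toFun := q, map_add' := ?_, map_smul' := ?_ }, fun ρ => (hq ρ).symm⟩
  · intro x y
    apply mul_left_cancel₀ hsq.ne_zero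
    rw [mul_add, ← hq, ← hq, ← hq, matrixM_update f r (x + y), matrixM_update f r x,
      matrixM_update f r y, Submodule.coe_add, Matrix.det_updateRow_add]
  · intro c x
    apply mul_left_cancel₀ hsq.ne_zero
    rw [RingHom.id_apply, smul_eq_mul, mul_left_comm, ← hq, ← hq, matrixM_update f r (c • x),
      matrixM_update f r x, Submodule.coe_smul, Matrix.det_updateRow_smul]

/-- Every reduced hypersurface `V : f = 0` of degree `d ≥ 1` in `P^{k+1}` over a field of
characteristic zero is tame with respect to a `k`-tuple of members of some minimal set of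
generators of `D_0(f)`. -/
theorem tame_aux {K : Type u} [Field K] [CharZero K] (k d : ℕ) (hd : 1 ≤ d)
    (f : Pol K k) (hf : f.IsHomogeneous d) (hsq : Squarefree f) :
    ∃ (m : ℕ) (ρ : Fin m → D0 f), MinimalGenerators f ρ ∧
      ∃ a : Fin k ↪ Fin m, Tame f (fun i => ρ (a i)) := by
  classical
  have hex := exists_homGenerators hf
  obtain ⟨ρ0, hρ0⟩ := Nat.find_spec hex
  obtain ⟨ρ, hρ, a, ha, hind⟩ := exists_family hd hf hsq ρ0 hρ0 k le_rfl
  refine ⟨Nat.find hex, ρ, ⟨hρ, fun m' ρ' h' => Nat.find_min' hex ⟨ρ', h'⟩⟩, ⟨a, ha⟩, ?_⟩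
  obtain ⟨v, hv⟩ := exists_mapV hd hf hsq (fun i => ρ (a i))
  refine ⟨v, hv, ?_, ?_⟩
  · rw [← LinearMap.ker_eq_bot, eq_bot_iff]
    intro c hc
    rw [LinearMap.mem_ker] at hc
    have h1 := hind ⊥ Ideal.isPrime_bot ⟨⟨0, by simp⟩⟩ c (by
      intro j
      rw [Ideal.mem_bot]
      have h2 := congrArg (fun x : D0 f => x.1 j) hc
      simp only [mapU, Fintype.linearCombination_apply] at h2
      rw [AddSubmonoidClass.coe_finsetSum, Finset.sum_apply] at h2
      exact h2)
    rw [Submodule.mem_bot]
    ext1 i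
    exact h1 i
  · ext ρ'
    change ρ' ∈ LinearMap.ker v ↔ ρ' ∈ LinearMap.range (mapU f fun i => ρ (a i))
    rw [← det_eq_zero_iff hd hf hsq.ne_zero (fun i => ρ (a i)) hind ρ', LinearMap.mem_ker, ← hv ρ',
      mul_eq_zero, or_iff_right hsq.ne_zero]

end Pool.Agent.R833.TM4
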